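import Pool.Agent.H38.ML.Defs

/-!
# Internal definitions for the proof

Notation used in all modules: `K` a number field, `Ω` an algebraic closure of `K`,
`Γ = Gal(Ω/K)`, `𝓞 Ω` the ring of all algebraic integers of `Ω`, `M` a finite Galois extension of
`K` inside `Ω`.  For a prime `𝔓` of `𝓞 Ω` the inertia group is Mathlib's
`𝔓.inertia Gal(Ω/K) = {τ | ∀ x : 𝓞 Ω, τ • x - x ∈ 𝔓}`.
-/

open scoped NumberField Pointwise

noncomputable section

namespace H38.ML

instance isAlgebraic_QBar : Algebra.IsAlgebraic ℚ QBar := AlgebraicClosure.isAlgebraic ℚ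

instance isAlgClosure_QBar (K : IntermediateField ℚ QBar) : IsAlgClosure K QBar where
  isAlgClosed := inferInstance
  isAlgebraic := Algebra.IsAlgebraic.tower_top (K := ℚ) K

theorem numberField_of_finite (K : IntermediateField ℚ QBar) [FiniteDimensional ℚ K] :
    NumberField K := {}

/-- The order of `z` at the prime `Q`: the exponent of `Q` in the factorisation of the ideal `(z)`. -/
def ordAt {M : Type} [Field M] [NumberField M] (Q : Ideal (𝓞 M)) (z : 𝓞 M) : ℕ := by
  classical
  exact Multiset.count Q (UniqueFactorizationMonoid.normalizedFactors (Ideal.span {z}))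

/-- `v` is unramified in the Galois extension `M/K`: all inertia groups above `v` are trivial. -/
def Unr (K M : Type) [Field K] [Field M] [Algebra K M] (v : Ideal (𝓞 K)) : Prop :=
  ∀ Q : Ideal (𝓞 M), Q.IsPrime → Q.under (𝓞 K) = v → Q.inertia Gal(M/K) = ⊥

section orbits

variable {K Ω : Type} [Field K] [Field Ω] [Algebra K Ω]

/-- The number of orbits of a subgroup `J` of `Gal(Ω/K)` on the set of `K`-embeddings of `L` into
`Ω`. -/
def embOrb (L : IntermediateField K Ω) (J : Subgroup Gal(Ω/K)) : ℕ :=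
  Nat.card (Quot fun φ ψ : L →ₐ[K] Ω => ∃ τ ∈ J, ((τ : Gal(Ω/K)) : Ω →ₐ[K] Ω).comp φ = ψ)

end orbits

section kummer

variable {K Ω : Type} [Field K] [Field Ω] [Algebra K Ω]

/-- Restriction of automorphisms to the normal subextension `M`. -/
abbrev res (M : IntermediateField K Ω) [Normal K M] : Gal(Ω/K) →* Gal(M/K) :=
  AlgEquiv.restrictNormalHom M

/-- The output of the Kummer construction. `X` is a finite set on which `Gal(M/K)` acts,
`α : X → M` and `a : X → A` are (in the applications) equivariant; `β x` is a `q`-th root of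
`α x`, the exponents `κ σ x` are defined by `σ (β x) = ζ ^ κ σ x * β (σ x)`, and the homomorphism
`ρ` is the twist of `ρb ∘ res` by the cocycle `c σ = ∏ x, a (σ x) ^ κ σ x`. -/
structure KumOut (M : IntermediateField K Ω) [Normal K M] {H A X : Type} [Group H] [CommGroup A]
    [Fintype X] [MulAction Gal(M/K) X] (ρb : Gal(M/K) →* H) (j : A →* H) (q : ℕ) (ζ : K)
    (a : X → A) (α : X → M) where
  /-- the roots -/
  β : X → Ω
  /-- the exponents -/
  κ : Gal(Ω/K) → X → ℕ
  /-- the twisted homomorphism -/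
  ρ : Gal(Ω/K) →* H
  hβ : ∀ x, β x ^ q = (α x : Ω)
  hκ : ∀ σ x, σ (β x) = algebraMap K Ω ζ ^ κ σ x * β (res M σ • x)
  ft : FT ρ
  hρ : ∀ σ, ρ σ = j (∏ x, a (res M σ • x) ^ κ σ x) * ρb (res M σ)

end kummer

section tuples

variable {K : Type} [Field K] {b : ℕ} (F : Fin b → Type) [∀ c, Field (F c)]

/-- Tuples of ideals, one for each of the fields `F c`. -/
abbrev Tup : Type := (c : Fin b) → Ideal (𝓞 (F c))

variable {F}

/-- The norm of a tuple: the product of the absolute norms. -/
def nrm [∀ c, NumberField (F c)] (I : Tup F) : ℕ := ∏ c, Ideal.absNorm (I c)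

/-- The good tuples: all `I c` are nonzero squarefree products of primes `V` which lie over primes
`v ∉ S` of `K`, have the same absolute norm as `v`, and the primes `v` are all different (also for
different `c`). -/
structure Good [NumberField K] [∀ c, NumberField (F c)] [∀ c, Algebra K (F c)]
    (S : Set (Ideal (𝓞 K))) (I : Tup F) : Prop where
  ne : ∀ c, I c ≠ ⊥
  notMem : ∀ c (V : Ideal (𝓞 (F c))), V.IsPrime → V ∣ I c → V.under (𝓞 K) ∉ S
  deg : ∀ c (V : Ideal (𝓞 (F c))), V.IsPrime → V ∣ I c →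
    Ideal.absNorm V = Ideal.absNorm (V.under (𝓞 K))
  sq : ∀ c (V : Ideal (𝓞 (F c))), V.IsPrime → ¬ V ^ 2 ∣ I c
  inj : ∀ c (V V' : Ideal (𝓞 (F c))), V.IsPrime → V'.IsPrime → V ∣ I c → V' ∣ I c →
    V.under (𝓞 K) = V'.under (𝓞 K) → V = V'
  disj : ∀ c c' (V : Ideal (𝓞 (F c))) (V' : Ideal (𝓞 (F c'))), V.IsPrime → V'.IsPrime →
    V ∣ I c → V' ∣ I c' → c ≠ c' → V.under (𝓞 K) ≠ V'.under (𝓞 K)

end tuples

end H38.ML
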