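import Pool.Agent.H38.ML.Factor

/-!
# [H38 ML EMBORB] Inertia orbits on embeddings and residue degrees (two theorems, 150-220 lines)

`𝔓` a prime of `𝓞 Ω` over `v`, `κ(𝔓) = 𝓞 Ω ⧸ 𝔓`.

(A) `exists_inertia`: let `φ, ψ : L →ₐ[K] Ω` with `φ⁻¹ 𝔓 = ψ⁻¹ 𝔓 = P` and with the same reduction
`𝓞 L → κ(𝔓)` (i.e. `φ x - ψ x ∈ 𝔓` for all `x : 𝓞 L`).  Then `ψ = τ ∘ φ` for some `τ` in the inertia
group of `𝔓`.  Proof: extend: `ψ = σ ∘ φ` with `σ ∈ Γ` (`Ω/K` normal).  Let `L' = φ(L)` (an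
intermediate field, finite over `K`).  The primes `𝔓` and `σ⁻¹ • 𝔓` of `𝓞 Ω` have the same
restriction to `𝓞 L'` (namely `φ(P)`), so there is `δ ∈ Gal(Ω/L')` (an element of
`L'.fixingSubgroup`) with `δ • 𝔓 = σ⁻¹ • 𝔓`; replace `σ` by `σ δ`: still `σ ∘ φ = ψ`, and now
`σ • 𝔓 = 𝔓`.  `σ` induces an automorphism `σ̄` of `κ(𝔓)` which is the identity on the image of
`𝓞 L'` (same reduction).  The stabilizer of `𝔓` in `Gal(Ω/L')` maps onto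
`Aut(κ(𝔓)/(𝓞 L'/φ(P)))`, so there is `δ'` with `δ' • 𝔓 = 𝔓` and `δ'̄ = σ̄`; `τ = σ δ'⁻¹` acts
trivially on `κ(𝔓)`, i.e. is in the inertia group, and `τ ∘ φ = σ ∘ φ = ψ`.
Mathlib: `Algebra.IsInvariant.exists_smul_of_under_eq_of_profinite` and
`Ideal.Quotient.stabilizerHom_surjective_of_profinite` (Mathlib/RingTheory/Invariant/Profinite.lean)
for `A = 𝓞 L'`, `B = 𝓞 Ω` with the discrete topology (`letI : TopologicalSpace (𝓞 Ω) := ⊥`),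
`G = Gal(Ω/L')` with the Krull topology (profinite because `Ω/L'` is Galois); `ContinuousSMul` holds
because stabilizers of elements are open.

(B) `embOrb_le`: send the class of `φ` to the pair `(P, φ̄)`, `P = φ⁻¹ 𝔓 ∈ primesOver v`,
`φ̄ : (𝓞 L ⧸ P) →ₐ[𝓞 K ⧸ v] κ(𝔓)`.  It is well defined on orbits of the inertia group and injective
by (A).  The number of such `φ̄` is at most `[𝓞 L/P : 𝓞 K/v] = f_P` (`card_algHom_le_finrank` or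
`AlgHom` bound; `κ(𝔓)` is a domain (a field)).  So `embOrb L I ≤ ∑ f_P`.
-/

open scoped NumberField Pointwise

namespace H38.ML

variable {K Ω : Type} [Field K] [NumberField K] [Field Ω] [Algebra K Ω] [IsAlgClosure K Ω]

private theorem exists_mul_mem_inertia (G : Subgroup Gal(Ω/K)) (hG : IsClosed (G : Set Gal(Ω/K)))
    (𝔓 : Ideal (𝓞 Ω)) [h𝔓 : 𝔓.IsPrime] (σ : Gal(Ω/K))
    (h : ∀ a : 𝓞 Ω, (∀ g ∈ G, g • a = a) → σ • a - a ∈ 𝔓) :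
    ∃ g ∈ G, σ * g ∈ 𝔓.inertia Gal(Ω/K) := by
  let _ : TopologicalSpace (𝓞 Ω) := ⊥
  have : DiscreteTopology (𝓞 Ω) := ⟨rfl⟩
  have : Algebra.IsIntegral K Ω := inferInstance
  have : CompactSpace G := isCompact_iff_compactSpace.mp hG.isCompact
  have : ContinuousSMul G (𝓞 Ω) := by
    rw [continuousSMul_iff_stabilizer_isOpen]
    intro x
    have h1 := stabilizer_isOpen_of_isIntegral (K := K) (L := Ω) (x : Ω)
    have h2 : (MulAction.stabilizer G x : Set G) =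
        (fun g : G => (g : Gal(Ω/K))) ⁻¹' (MulAction.stabilizer Gal(Ω/K) (x : Ω) : Set Gal(Ω/K)) := by
      ext g
      simp only [SetLike.mem_coe, MulAction.mem_stabilizer_iff, Set.mem_preimage]
      constructor
      · intro hg
        exact congrArg (fun z : 𝓞 Ω => (z : Ω)) hg
      · intro hg
        exact NumberField.RingOfIntegers.ext hg
    rw [h2]
    exact h1.preimage continuous_subtype_val
  let A := FixedPoints.subalgebra ℤ (𝓞 Ω) G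
  have : SMulCommClass G A (𝓞 Ω) := ⟨fun g a b => by
    have ha : g • (a : 𝓞 Ω) = a := a.2 g
    show g • ((a : 𝓞 Ω) * b) = (a : 𝓞 Ω) * (g • b)
    rw [smul_mul', ha]⟩
  have : Algebra.IsInvariant A (𝓞 Ω) G := ⟨fun b hb => ⟨⟨b, hb⟩, rfl⟩⟩
  -- first step
  have hp1 : (σ⁻¹ • 𝔓).IsPrime := inferInstance
  have hunder : 𝔓.under A = (σ⁻¹ • 𝔓).under A := by
    ext a
    have ha : ∀ g ∈ G, g • (a : 𝓞 Ω) = a := fun g hg => a.2 ⟨g, hg⟩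
    have h1 := h a ha
    simp only [Ideal.mem_comap]
    have h2 : (algebraMap A (𝓞 Ω)) a = (a : 𝓞 Ω) := rfl
    rw [h2, Ideal.mem_inv_pointwise_smul_iff]
    constructor
    · intro h3
      have := 𝔓.add_mem h1 h3
      rwa [sub_add_cancel] at this
    · intro h3
      have := 𝔓.sub_mem h3 h1
      rwa [sub_sub_cancel] at this
  obtain ⟨δ, hδ⟩ := Algebra.IsInvariant.exists_smul_of_under_eq_of_profinite (A := A) (G := G)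
    𝔓 (σ⁻¹ • 𝔓) hunder
  let σ' : Gal(Ω/K) := σ * δ
  have hσ' : σ' • 𝔓 = 𝔓 := by
    show (σ * (δ : Gal(Ω/K))) • 𝔓 = 𝔓
    rw [mul_smul]
    have : ((δ : Gal(Ω/K))) • 𝔓 = σ⁻¹ • 𝔓 := hδ.symm
    rw [this, smul_inv_smul]
  have hσ'A : ∀ a : A, σ' • (a : 𝓞 Ω) - (a : 𝓞 Ω) ∈ 𝔓 := by
    intro a
    have ha : ∀ g ∈ G, g • (a : 𝓞 Ω) = a := fun g hg => a.2 ⟨g, hg⟩
    have h1 := h a ha
    have h2 : σ' • (a : 𝓞 Ω) = σ • (a : 𝓞 Ω) := by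
      show (σ * (δ : Gal(Ω/K))) • (a : 𝓞 Ω) = _
      rw [mul_smul, ha δ δ.2]
    rwa [h2]
  let P : Ideal A := 𝔓.under A
  let r : (𝓞 Ω) ≃+* (𝓞 Ω) := MulSemiringAction.toRingEquiv Gal(Ω/K) (𝓞 Ω) σ'
  have hr : 𝔓 = 𝔓.map (r : (𝓞 Ω) →+* (𝓞 Ω)) := hσ'.symm
  let f0 : (𝓞 Ω ⧸ 𝔓) ≃+* (𝓞 Ω ⧸ 𝔓) := Ideal.quotientEquiv 𝔓 𝔓 r hr
  have hf0 : ∀ x : 𝓞 Ω, f0 (Ideal.Quotient.mk 𝔓 x) = Ideal.Quotient.mk 𝔓 (σ' • x) := fun x => rfl
  let f : (𝓞 Ω ⧸ 𝔓) ≃ₐ[A ⧸ P] (𝓞 Ω ⧸ 𝔓) := AlgEquiv.ofRingEquiv (f := f0) (by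
    intro z
    obtain ⟨a, rfl⟩ := Ideal.Quotient.mk_surjective z
    show f0 (Ideal.Quotient.mk 𝔓 (a : 𝓞 Ω)) = Ideal.Quotient.mk 𝔓 (a : 𝓞 Ω)
    rw [hf0, Ideal.Quotient.eq]
    exact hσ'A a)
  obtain ⟨δ', hδ'⟩ := Ideal.Quotient.stabilizerHom_surjective_of_profinite (G := G) P 𝔓 f
  have hcomp : ∀ x : 𝓞 Ω, (δ' : G) • x - σ' • x ∈ 𝔓 := by
    intro x
    have h1 := DFunLike.congr_fun hδ' (Ideal.Quotient.mk 𝔓 x)
    rw [← Ideal.Quotient.eq]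
    exact h1
  refine ⟨(δ : Gal(Ω/K)) * ((δ' : G) : Gal(Ω/K))⁻¹, G.mul_mem δ.2 (G.inv_mem (δ' : G).2), ?_⟩
  intro x
  have h1 := hcomp (((δ' : G) : Gal(Ω/K))⁻¹ • x)
  have h2 : (δ' : G) • ((((δ' : G) : Gal(Ω/K))⁻¹) • x) = x := by
    show (((δ' : G) : Gal(Ω/K))) • ((((δ' : G) : Gal(Ω/K))⁻¹) • x) = x
    rw [smul_inv_smul]
  rw [h2] at h1
  have h3 : (σ * ((δ : Gal(Ω/K)) * ((δ' : G) : Gal(Ω/K))⁻¹)) • x =
      σ' • ((((δ' : G) : Gal(Ω/K))⁻¹) • x) := by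
    show _ = (σ * (δ : Gal(Ω/K))) • ((((δ' : G) : Gal(Ω/K))⁻¹) • x)
    rw [← mul_smul, mul_assoc]
  rw [h3, ← neg_sub]
  exact 𝔓.neg_mem h1

theorem exists_inertia (L : IntermediateField K Ω) [FiniteDimensional K L] (𝔓 : Ideal (𝓞 Ω))
    (h𝔓 : 𝔓.IsPrime) (φ ψ : L →ₐ[K] Ω)
    (h : ∀ (x : L) (_ : IsIntegral ℤ x), ∃ y ∈ 𝔓, (y : Ω) = φ x - ψ x) :
    ∃ τ ∈ 𝔓.inertia Gal(Ω/K), ((τ : Gal(Ω/K)) : Ω →ₐ[K] Ω).comp φ = ψ := by
  have hext : ∀ χ : L →ₐ[K] Ω, ∃ σ : Gal(Ω/K), ∀ x : L, σ (x : Ω) = χ x := by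
    intro χ
    refine ⟨AlgEquiv.ofBijective (χ.liftNormal Ω) (AlgHom.normal_bijective K Ω Ω _), fun x => ?_⟩
    exact χ.liftNormal_commutes Ω x
  obtain ⟨σ1, h1⟩ := hext φ
  obtain ⟨σ2, h2⟩ := hext ψ
  have hσ : ∀ x, (σ2 * σ1⁻¹) (φ x) = ψ x := by
    intro x
    rw [← h1 x, ← h2 x, AlgEquiv.mul_apply]
    congr 1
    exact AlgEquiv.symm_apply_apply σ1 (x : Ω)
  obtain ⟨g, hg, hτ⟩ := exists_mul_mem_inertia φ.fieldRange.fixingSubgroup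
    (InfiniteGalois.fixingSubgroup_isClosed _) 𝔓 (σ2 * σ1⁻¹) (by
      intro a ha
      have hmem : (a : Ω) ∈ φ.fieldRange := by
        rw [← InfiniteGalois.fixedField_fixingSubgroup φ.fieldRange]
        rintro ⟨g, hg⟩
        exact congrArg (fun z : 𝓞 Ω => (z : Ω)) (ha g hg)
      obtain ⟨x, hx⟩ := hmem
      have hx' : φ x = (a : Ω) := hx
      have hint : IsIntegral ℤ x := by
        have h3 : IsIntegral ℤ (φ x) := by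
          rw [hx']
          exact a.isIntegral_coe
        exact (isIntegral_algHom_iff (φ.restrictScalars ℤ) φ.injective).mp h3
      obtain ⟨y, hy, hyx⟩ := h x hint
      have h4 : (σ2 * σ1⁻¹) • a - a = -y := by
        apply NumberField.RingOfIntegers.ext
        show (σ2 * σ1⁻¹) (a : Ω) - (a : Ω) = - (y : Ω)
        rw [hyx, ← hx', hσ x]
        ring
      rw [h4]
      exact 𝔓.neg_mem hy)
  refine ⟨σ2 * σ1⁻¹ * g, hτ, ?_⟩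
  ext x
  show (σ2 * σ1⁻¹ * g) (φ x) = ψ x
  rw [AlgEquiv.mul_apply]
  have hgx : g (φ x) = φ x := (IntermediateField.mem_fixingSubgroup_iff _ _).mp hg _ ⟨x, rfl⟩
  rw [hgx, hσ x]

/-- reduction of an embedding modulo a prime -/
private noncomputable def red (L : IntermediateField K Ω) (𝔓 : Ideal (𝓞 Ω)) (φ : L →ₐ[K] Ω) :
    𝓞 L →+* (𝓞 Ω ⧸ 𝔓) :=
  (Ideal.Quotient.mk 𝔓).comp (NumberField.RingOfIntegers.mapRingHom (φ : L →+* Ω))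

/-- the ring homomorphisms from the integers of `L` to the residue ring, compatible with `K` -/
private def RH (L : IntermediateField K Ω) (𝔓 : Ideal (𝓞 Ω)) : Type :=
  {f : 𝓞 L →+* (𝓞 Ω ⧸ 𝔓) // ∀ a : 𝓞 K, f (algebraMap (𝓞 K) (𝓞 L) a) =
    Ideal.Quotient.mk 𝔓 (algebraMap (𝓞 K) (𝓞 Ω) a)}

private theorem ker_mem (L : IntermediateField K Ω) (v : Ideal (𝓞 K)) (𝔓 : Ideal (𝓞 Ω))
    [h𝔓 : 𝔓.IsPrime] (h𝔓v : 𝔓.under (𝓞 K) = v) (f : RH L 𝔓) :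
    RingHom.ker f.1 ∈ v.primesOver (𝓞 L) := by
  refine ⟨RingHom.ker_isPrime f.1, ⟨?_⟩⟩
  rw [← h𝔓v]
  ext a
  simp only [Ideal.under_def, Ideal.mem_comap, RingHom.mem_ker]
  rw [f.2 a, Ideal.Quotient.eq_zero_iff_mem]

theorem embOrb_le (L : IntermediateField K Ω) [FiniteDimensional K L] [NumberField L]
    (v : Ideal (𝓞 K)) (hv : v.IsPrime) (hv0 : v ≠ ⊥) (𝔓 : Ideal (𝓞 Ω)) (h𝔓 : 𝔓.IsPrime)
    (h𝔓v : 𝔓.under (𝓞 K) = v) [Fintype (v.primesOver (𝓞 L))] :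
    embOrb L (𝔓.inertia Gal(Ω/K)) ≤ ∑ P : v.primesOver (𝓞 L), P.1.inertiaDeg (𝓞 K) := by
  classical
  have hvm : v.IsMaximal := hv.isMaximal hv0
  have h𝔓l : 𝔓.LiesOver v := ⟨h𝔓v.symm⟩
  have hdom : IsDomain (𝓞 Ω ⧸ 𝔓) := Ideal.Quotient.isDomain 𝔓
  let T := Σ P : v.primesOver (𝓞 L), ((𝓞 L ⧸ P.1) →ₐ[𝓞 K ⧸ v] (𝓞 Ω ⧸ 𝔓))
  let back : T → (𝓞 L →+* (𝓞 Ω ⧸ 𝔓)) := fun t =>
    (t.2 : (𝓞 L ⧸ t.1.1) →+* (𝓞 Ω ⧸ 𝔓)).comp (Ideal.Quotient.mk t.1.1)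
  let fwd : RH L 𝔓 → T := fun f =>
    ⟨⟨RingHom.ker f.1, ker_mem L v 𝔓 h𝔓v f⟩,
      haveI : (RingHom.ker f.1).LiesOver v := (ker_mem L v 𝔓 h𝔓v f).2
      { toRingHom := Ideal.Quotient.lift (RingHom.ker f.1) f.1 (fun a ha => ha)
        commutes' := by
          intro z
          obtain ⟨a, rfl⟩ := Ideal.Quotient.mk_surjective z
          exact f.2 a }⟩
  have hbf : ∀ f : RH L 𝔓, back (fwd f) = f.1 := by
    intro f
    ext x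
    rfl
  have hfi : Function.Injective fwd := by
    intro f g hfg
    apply Subtype.ext
    rw [← hbf f, ← hbf g, hfg]
  -- the fibres are finite
  have hPm : ∀ P : v.primesOver (𝓞 L), P.1.IsMaximal := fun P =>
    P.2.1.isMaximal (Ideal.ne_bot_of_mem_primesOver hv0 P.2)
  letI := Ideal.Quotient.field v
  have hfinR : ∀ P : v.primesOver (𝓞 L), Module.Finite (𝓞 K ⧸ v) (𝓞 L ⧸ P.1) := by
    intro P
    have hP0 : P.1 ≠ ⊥ := Ideal.ne_bot_of_mem_primesOver hv0 P.2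
    have : Finite (𝓞 L ⧸ P.1) := Ideal.finiteQuotientOfFreeOfNeBot P.1 hP0
    exact Module.Finite.of_finite
  have hfin : ∀ P : v.primesOver (𝓞 L), Finite ((𝓞 L ⧸ P.1) →ₐ[𝓞 K ⧸ v] (𝓞 Ω ⧸ 𝔓)) := by
    intro P
    have := hfinR P
    infer_instance
  have hcard : ∀ P : v.primesOver (𝓞 L),
      Nat.card ((𝓞 L ⧸ P.1) →ₐ[𝓞 K ⧸ v] (𝓞 Ω ⧸ 𝔓)) ≤ P.1.inertiaDeg (𝓞 K) := by
    intro P
    have := hfinR P
    have := hPm P
    rw [Ideal.inertiaDeg_eq_of_isMaximal v P.1]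
    exact card_algHom_le_finrank (𝓞 K ⧸ v) (𝓞 L ⧸ P.1) (𝓞 Ω ⧸ 𝔓)
  have hTfin : Finite T := inferInstance
  have hRfin : Finite (RH L 𝔓) := Finite.of_injective fwd hfi
  -- orbits inject into the reductions
  let toR : (L →ₐ[K] Ω) → RH L 𝔓 := fun φ => ⟨red L 𝔓 φ, fun a => by
    show Ideal.Quotient.mk 𝔓 _ = Ideal.Quotient.mk 𝔓 _
    congr 1
    apply NumberField.RingOfIntegers.ext
    exact φ.commutes (a : K)⟩
  let r : (L →ₐ[K] Ω) → (L →ₐ[K] Ω) → Prop := fun φ ψ =>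
    ∃ τ ∈ 𝔓.inertia Gal(Ω/K), ((τ : Gal(Ω/K)) : Ω →ₐ[K] Ω).comp φ = ψ
  have hwd : ∀ φ ψ, r φ ψ → toR φ = toR ψ := by
    rintro φ ψ ⟨τ, hτ, rfl⟩
    apply Subtype.ext
    apply RingHom.ext
    intro x
    show Ideal.Quotient.mk 𝔓 _ = Ideal.Quotient.mk 𝔓 _
    symm
    rw [Ideal.Quotient.eq]
    exact hτ (NumberField.RingOfIntegers.mapRingHom (φ : L →+* Ω) x)
  let toQ : Quot r → RH L 𝔓 := Quot.lift toR hwd
  have hinj : Function.Injective toQ := by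
    intro a b
    induction a using Quot.ind with
    | _ φ =>
      induction b using Quot.ind with
      | _ ψ =>
        intro hab
        apply Quot.sound
        apply exists_inertia L 𝔓 h𝔓 φ ψ
        intro x hx
        have h1 : red L 𝔓 φ ⟨x, hx⟩ = red L 𝔓 ψ ⟨x, hx⟩ :=
          DFunLike.congr_fun (congrArg Subtype.val hab) _
        have h2 := Ideal.Quotient.eq.mp h1
        exact ⟨_, h2, rfl⟩
  calc embOrb L (𝔓.inertia Gal(Ω/K)) = Nat.card (Quot r) := rfl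
    _ ≤ Nat.card (RH L 𝔓) := Nat.card_le_card_of_injective toQ hinj
    _ ≤ Nat.card T := Nat.card_le_card_of_injective fwd hfi
    _ = ∑ P : v.primesOver (𝓞 L), Nat.card ((𝓞 L ⧸ P.1) →ₐ[𝓞 K ⧸ v] (𝓞 Ω ⧸ 𝔓)) :=
        Nat.card_sigma
    _ ≤ ∑ P : v.primesOver (𝓞 L), P.1.inertiaDeg (𝓞 K) := Finset.sum_le_sum fun P _ => hcard P

end H38.ML
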