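import Pool.Agent.H38.ML.DiffBound
import Pool.Agent.H38.ML.EmbOrb

/-!
# [H38 ML DISC] Bound for the norm of the different (120-180 lines)

For every nonzero prime `v` of `K` let `k_v ≥ 1` be such that `n! ∉ v ^ k_v`, with `k_v = 1` for
`v ∉ S` (`hSn`; for `v ∈ S` such a `k_v` exists because `⋂ v ^ k = 0`).  Put
`C = ∏_{v ∈ S, v prime ≠ ⊥} N(v) ^ (k_v n)`.
Let `𝔇 = differentIdeal (𝓞 K) (𝓞 L)`, `𝔇 ≠ 0`.  `N(𝔇) = ∏_P N(P) ^ (d_P)`, `d_P` the multiplicity of `P`
(`Ideal.absNorm` is multiplicative, factorisation of ideals), and by `diff_bound`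
`d_P ≤ e_P k_v - 1` for `P` over `v`.  `N(P) = N(v) ^ f_P` (`Ideal.absNorm_eq_pow_inertiaDeg`-type
lemma; for ideals over `v`: `Nat.card (𝓞 L ⧸ P) = Nat.card (𝓞 K ⧸ v) ^ f_P`).
So the part over `v` is `∏_{P ∣ v} N(P) ^ d_P ≤ N(v) ^ (∑_P f_P (e_P k_v - 1)) = N(v) ^ (k_v n - ∑_P f_P)`
(`Ideal.sum_ramification_inertia`: `∑ e_P f_P = n`).
`v ∈ S`: it is `≤ N(v) ^ (k_v n)`.
`v ∉ S`, `v ∈ T`: `k_v = 1`, exponent `n - ∑ f_P ≤ n - embOrb ≤ w` (`embOrb_le`).
`v ∉ S`, `v ∉ T`: exponent `n - ∑ f_P ≤ n - embOrb ≤ 0`.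
Multiply over the finitely many `v` below prime divisors of `𝔇`.
-/

open scoped NumberField Pointwise

namespace H38.ML

variable {K Ω : Type} [Field K] [NumberField K] [Field Ω] [Algebra K Ω] [IsAlgClosure K Ω]

section localbound

open Classical in
/-- The multiplicity of `P` in the different. -/
noncomputable def dexp (K L : Type) [Field K] [NumberField K] [Field L] [NumberField L]
    [Algebra K L] (P : Ideal (𝓞 L)) : ℕ :=
  (UniqueFactorizationMonoid.normalizedFactors (differentIdeal (𝓞 K) (𝓞 L))).count P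

theorem different_ne (K L : Type) [Field K] [NumberField K] [Field L] [NumberField L]
    [Algebra K L] : differentIdeal (𝓞 K) (𝓞 L) ≠ ⊥ := differentIdeal_ne_bot

theorem pow_dexp_dvd (K L : Type) [Field K] [NumberField K] [Field L] [NumberField L]
    [Algebra K L] (P : Ideal (𝓞 L)) (hP : P.IsPrime) (hP0 : P ≠ ⊥) :
    P ^ dexp K L P ∣ differentIdeal (𝓞 K) (𝓞 L) := by
  classical
  have h := different_ne K L
  have h1 : (P ^ dexp K L P : Ideal (𝓞 L)) =
      (Multiset.replicate (dexp K L P) P).prod := by rw [Multiset.prod_replicate]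
  have h2 : (UniqueFactorizationMonoid.normalizedFactors (differentIdeal (𝓞 K) (𝓞 L))).prod =
      differentIdeal (𝓞 K) (𝓞 L) := by
    have := UniqueFactorizationMonoid.prod_normalizedFactors h
    exact associated_iff_eq.mp this
  rw [h1]
  conv_rhs => rw [← h2]
  apply Multiset.prod_dvd_prod_of_le
  rw [Multiset.le_iff_count]
  intro Q
  rw [Multiset.count_replicate]
  split_ifs with hQ
  · rw [← hQ]
    unfold dexp
    exact le_of_eq (by congr)
  · exact Nat.zero_le _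

theorem under_ne (K L : Type) [Field K] [NumberField K] [Field L] [NumberField L] [Algebra K L]
    (P : Ideal (𝓞 L)) (hP0 : P ≠ ⊥) : P.under (𝓞 K) ≠ ⊥ :=
  fun h => hP0 (Ideal.eq_bot_of_comap_eq_bot h)

theorem dexp_lt (K L : Type) [Field K] [NumberField K] [Field L] [NumberField L] [Algebra K L]
    (v : Ideal (𝓞 K)) (hvp : v.IsPrime) (hv : v ≠ ⊥) (k : ℕ)
    (hk : (((Module.finrank K L).factorial : ℕ) : 𝓞 K) ∉ v ^ k) (P : Ideal (𝓞 L))
    (hPp : P.IsPrime) (hP : P.under (𝓞 K) = v) :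
    dexp K L P + 1 ≤ P.ramificationIdx (𝓞 K) * k := by
  by_contra hc
  push Not at hc
  have hP0 : P ≠ ⊥ := by
    rintro rfl
    apply hv
    rw [← hP]
    exact Ideal.under_bot _ _
  refine diff_bound K L v hv k hk P hP (dvd_trans (pow_dvd_pow P ?_) (pow_dexp_dvd K L P hPp hP0))
  omega

theorem sum_dexp_le (K L : Type) [Field K] [NumberField K] [Field L] [NumberField L] [Algebra K L]
    (v : Ideal (𝓞 K)) (hvp : v.IsPrime) (hv : v ≠ ⊥) (k : ℕ)
    (hk : (((Module.finrank K L).factorial : ℕ) : 𝓞 K) ∉ v ^ k)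
    [Fintype (v.primesOver (𝓞 L))] :
    ∑ P : v.primesOver (𝓞 L), P.1.inertiaDeg (𝓞 K) * dexp K L P.1 +
      ∑ P : v.primesOver (𝓞 L), P.1.inertiaDeg (𝓞 K) ≤ k * Module.finrank K L := by
  have h1 : Module.finrank (𝓞 K) (𝓞 L) = Module.finrank K L :=
    (IsFractionRing.finrank_eq (𝓞 K) K (𝓞 L) L).symm
  rw [← h1, ← Ideal.sum_ramification_inertia_eq_finrank v, Finset.mul_sum,
    ← Finset.sum_add_distrib]
  refine Finset.sum_le_sum fun P _ => ?_
  have h2 := dexp_lt K L v hvp hv k hk P.1 P.2.1 P.2.2.over.symm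
  calc P.1.inertiaDeg (𝓞 K) * dexp K L P.1 + P.1.inertiaDeg (𝓞 K)
      = P.1.inertiaDeg (𝓞 K) * (dexp K L P.1 + 1) := by ring
    _ ≤ P.1.inertiaDeg (𝓞 K) * (P.1.ramificationIdx (𝓞 K) * k) := Nat.mul_le_mul_left _ h2
    _ = k * (P.1.ramificationIdx (𝓞 K) * P.1.inertiaDeg (𝓞 K)) := by ring

/-- The norm of the different as a product over the primes of `K` below its divisors. -/
theorem absNorm_different_le (K L : Type) [Field K] [NumberField K] [Field L] [NumberField L]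
    [Algebra K L] (D : Ideal (𝓞 K) → ℕ)
    (hD : ∀ v : Ideal (𝓞 K), v.IsPrime → v ≠ ⊥ → ∀ _ : Fintype (v.primesOver (𝓞 L)),
      ∑ P : v.primesOver (𝓞 L), P.1.inertiaDeg (𝓞 K) * dexp K L P.1 ≤ D v) :
    ∃ U : Finset (Ideal (𝓞 K)), (∀ v ∈ U, v.IsPrime ∧ v ≠ ⊥) ∧
      Ideal.absNorm (differentIdeal (𝓞 K) (𝓞 L)) ≤ ∏ v ∈ U, Ideal.absNorm v ^ D v := by
  classical
  have hne := different_ne K L
  set F := (UniqueFactorizationMonoid.normalizedFactors
    (differentIdeal (𝓞 K) (𝓞 L))).toFinset with hF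
  have hFp : ∀ P ∈ F, P.IsPrime ∧ P ≠ ⊥ := by
    intro P hP
    rw [hF, Multiset.mem_toFinset] at hP
    have h1 := UniqueFactorizationMonoid.prime_of_normalized_factor P hP
    exact ⟨Ideal.isPrime_of_prime h1, h1.ne_zero⟩
  have h1 : Ideal.absNorm (differentIdeal (𝓞 K) (𝓞 L)) =
      ∏ P ∈ F, Ideal.absNorm P ^ dexp K L P := by
    have h2 : (UniqueFactorizationMonoid.normalizedFactors
        (differentIdeal (𝓞 K) (𝓞 L))).prod = differentIdeal (𝓞 K) (𝓞 L) :=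
      associated_iff_eq.mp (UniqueFactorizationMonoid.prod_normalizedFactors hne)
    conv_lhs => rw [← h2]
    rw [map_multiset_prod, Finset.prod_multiset_map_count]
    refine Finset.prod_congr rfl fun P _ => ?_
    unfold dexp
    congr
  refine ⟨F.image (fun P => P.under (𝓞 K)), ?_, ?_⟩
  · intro v hv
    obtain ⟨P, hP, rfl⟩ := Finset.mem_image.mp hv
    obtain ⟨h2, h3⟩ := hFp P hP
    exact ⟨Ideal.IsPrime.under (𝓞 K) P, under_ne K L P h3⟩
  · rw [h1, ← Finset.prod_fiberwise_of_maps_to (s := F)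
      (t := F.image (fun P => P.under (𝓞 K))) (g := fun P => P.under (𝓞 K))
      (fun P hP => Finset.mem_image_of_mem _ hP)]
    refine Finset.prod_le_prod' fun v hv => ?_
    have hvp : v.IsPrime ∧ v ≠ ⊥ := by
      obtain ⟨P, hP, rfl⟩ := Finset.mem_image.mp hv
      obtain ⟨h2, h3⟩ := hFp P hP
      exact ⟨Ideal.IsPrime.under (𝓞 K) P, under_ne K L P h3⟩
    obtain ⟨hvp, hv0⟩ := hvp
    haveI := hvp
    haveI : v.IsMaximal := hvp.isMaximal hv0
    haveI : Fintype (v.primesOver (𝓞 L)) :=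
      Set.Finite.fintype (IsDedekindDomain.primesOver_finite v (𝓞 L))
    have hN : 1 ≤ Ideal.absNorm v := Nat.one_le_iff_ne_zero.mpr
      (fun h => hv0 (Ideal.absNorm_eq_zero_iff.mp h))
    calc ∏ P ∈ F with P.under (𝓞 K) = v, Ideal.absNorm P ^ dexp K L P
        = ∏ P ∈ F with P.under (𝓞 K) = v,
            Ideal.absNorm v ^ (P.inertiaDeg (𝓞 K) * dexp K L P) := by
          refine Finset.prod_congr rfl fun P hP => ?_
          obtain ⟨hPF, hPv⟩ := Finset.mem_filter.mp hP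
          haveI := (hFp P hPF).1
          haveI : P.LiesOver v := ⟨hPv.symm⟩
          rw [pow_mul, Ideal.absNorm_pow_inertiaDeg v P]
      _ = Ideal.absNorm v ^ (∑ P ∈ F with P.under (𝓞 K) = v,
            P.inertiaDeg (𝓞 K) * dexp K L P) := by
          rw [Finset.prod_pow_eq_pow_sum]
      _ ≤ Ideal.absNorm v ^ D v := by
          refine Nat.pow_le_pow_right hN (le_trans ?_ (hD v hvp hv0 inferInstance))
          rw [Finset.sum_set_coe (v.primesOver (𝓞 L))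
            (f := fun P => P.inertiaDeg (𝓞 K) * dexp K L P)]
          refine Finset.sum_le_sum_of_subset ?_
          intro P hP
          obtain ⟨hPF, hPv⟩ := Finset.mem_filter.mp hP
          rw [Set.mem_toFinset]
          exact ⟨(hFp P hPF).1, ⟨hPv.symm⟩⟩

end localbound

theorem disc_bound (Ω : Type) [Field Ω] [Algebra K Ω] [IsAlgClosure K Ω] (n : ℕ)
    (S : Set (Ideal (𝓞 K))) (hS : S.Finite)
    (hSn : ∀ v : Ideal (𝓞 K), v.IsPrime → v ≠ ⊥ → v ∉ S → ((n.factorial : ℕ) : 𝓞 K) ∉ v) :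
    ∃ C : ℕ, 0 < C ∧ ∀ (L : IntermediateField K Ω) (_ : FiniteDimensional K L)
      (_ : NumberField L), Module.finrank K L = n →
      ∀ (T : Finset (Ideal (𝓞 K))) (w : ℕ), (∀ v ∈ T, v.IsPrime ∧ v ≠ ⊥) →
        (∀ v ∈ T, ∃ 𝔓 : Ideal (𝓞 Ω), 𝔓.IsPrime ∧ 𝔓.under (𝓞 K) = v ∧
          n ≤ w + embOrb L (𝔓.inertia Gal(Ω/K))) →
        (∀ v : Ideal (𝓞 K), v.IsPrime → v ≠ ⊥ → v ∉ S → v ∉ T →
          ∃ 𝔓 : Ideal (𝓞 Ω), 𝔓.IsPrime ∧ 𝔓.under (𝓞 K) = v ∧
            n ≤ embOrb L (𝔓.inertia Gal(Ω/K))) →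
        Ideal.absNorm (differentIdeal (𝓞 K) (𝓞 L)) ≤ C * (∏ v ∈ T, Ideal.absNorm v) ^ w := by
  classical
  have hk : ∀ v : Ideal (𝓞 K), ∃ k : ℕ, v.IsPrime → v ≠ ⊥ →
      ((n.factorial : ℕ) : 𝓞 K) ∉ v ^ k ∧ (v ∉ S → k = 1) := by
    intro v
    by_cases hvS : v ∈ S
    · by_cases hvp : v.IsPrime
      · by_contra hc
        push Not at hc
        have h1 : ((n.factorial : ℕ) : 𝓞 K) ∈ (⨅ i : ℕ, v ^ i : Ideal (𝓞 K)) := by
          rw [Ideal.mem_iInf]
          intro i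
          obtain ⟨-, -, h3⟩ := hc i
          by_contra h4
          exact (h3 h4).1 hvS
        rw [Ideal.iInf_pow_eq_bot_of_isDomain v hvp.ne_top, Ideal.mem_bot] at h1
        have h2 : n.factorial = 0 := by exact_mod_cast h1
        exact Nat.factorial_ne_zero n h2
      · exact ⟨0, fun h => absurd h hvp⟩
    · exact ⟨1, fun h1 h2 => ⟨by rw [pow_one]; exact hSn v h1 h2 hvS, fun _ => rfl⟩⟩
  choose k hk using hk
  have hN1 : ∀ v : Ideal (𝓞 K), v ≠ ⊥ → 1 ≤ Ideal.absNorm v := fun v hv =>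
    Nat.one_le_iff_ne_zero.mpr (fun h => hv (Ideal.absNorm_eq_zero_iff.mp h))
  set S' : Finset (Ideal (𝓞 K)) := hS.toFinset.filter (fun v => v.IsPrime ∧ v ≠ ⊥) with hS'
  refine ⟨∏ v ∈ S', Ideal.absNorm v ^ (k v * n), ?_, ?_⟩
  · refine Finset.prod_pos fun v hv => ?_
    have h1 := (Finset.mem_filter.mp hv).2.2
    exact Nat.pow_pos (hN1 v h1)
  intro L _ _ hLn T w hT hTw hU
  have hD : ∀ v : Ideal (𝓞 K), v.IsPrime → v ≠ ⊥ → ∀ _ : Fintype (v.primesOver (𝓞 L)),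
      ∑ P : v.primesOver (𝓞 L), P.1.inertiaDeg (𝓞 K) * dexp K L P.1 ≤
        if v ∈ S' then k v * n else if v ∈ T then w else 0 := by
    intro v hvp hv0 hfin
    have hkv := hk v hvp hv0
    have h1 := sum_dexp_le K L v hvp hv0 (k v) (by rw [hLn]; exact hkv.1)
    rw [hLn] at h1
    split_ifs with hvS hvT
    · omega
    · have hvS2 : v ∉ S := fun h => hvS (Finset.mem_filter.mpr
        ⟨hS.mem_toFinset.mpr h, hvp, hv0⟩)
      rw [hkv.2 hvS2, one_mul] at h1
      obtain ⟨𝔓, h𝔓1, h𝔓2, h𝔓3⟩ := hTw v hvT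
      have h2 := embOrb_le L v hvp hv0 𝔓 h𝔓1 h𝔓2
      omega
    · have hvS2 : v ∉ S := fun h => hvS (Finset.mem_filter.mpr
        ⟨hS.mem_toFinset.mpr h, hvp, hv0⟩)
      rw [hkv.2 hvS2, one_mul] at h1
      obtain ⟨𝔓, h𝔓1, h𝔓2, h𝔓3⟩ := hU v hvp hv0 hvS2 hvT
      have h2 := embOrb_le L v hvp hv0 𝔓 h𝔓1 h𝔓2
      omega
  obtain ⟨U, hU1, hU2⟩ := absNorm_different_le K L _ hD
  refine hU2.trans ?_
  calc ∏ v ∈ U, Ideal.absNorm v ^ (if v ∈ S' then k v * n else if v ∈ T then w else 0)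
      ≤ ∏ v ∈ U, ((if v ∈ S' then Ideal.absNorm v ^ (k v * n) else 1) *
          (if v ∈ T then Ideal.absNorm v ^ w else 1)) := by
        refine Finset.prod_le_prod' fun v hv => ?_
        have h1 := hN1 v (hU1 v hv).2
        have h2 : 1 ≤ Ideal.absNorm v ^ w := Nat.one_le_pow _ _ h1
        split_ifs
        · exact Nat.le_mul_of_pos_right _ h2
        · rw [mul_one]
        · rw [one_mul]
        · rw [pow_zero, mul_one]
    _ = (∏ v ∈ U, if v ∈ S' then Ideal.absNorm v ^ (k v * n) else 1) *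
          ∏ v ∈ U, (if v ∈ T then Ideal.absNorm v ^ w else 1) := Finset.prod_mul_distrib
    _ ≤ (∏ v ∈ S', Ideal.absNorm v ^ (k v * n)) * (∏ v ∈ T, Ideal.absNorm v) ^ w := by
        rw [Finset.prod_ite_mem, Finset.prod_ite_mem, ← Finset.prod_pow]
        refine Nat.mul_le_mul ?_ ?_
        · refine Finset.prod_le_prod_of_subset_of_one_le' Finset.inter_subset_right ?_
          intro v hv _
          exact Nat.one_le_pow _ _ (hN1 v (Finset.mem_filter.mp hv).2.2)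
        · refine Finset.prod_le_prod_of_subset_of_one_le' Finset.inter_subset_right ?_
          intro v hv _
          exact Nat.one_le_pow _ _ (hN1 v (hT v hv).2)

end H38.ML
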