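import Mathlib

/-!
# MP_b39724_nt: the definitions used in the statement of the main theorem

Everything in this file is a definition; nothing is proved here. In the main theorem `Ω` is
`AlgebraicClosure ℚ` and `K` is a number field contained in it.
-/

open scoped NumberField

noncomputable section

namespace H38.ML.Spec

section perm

variable {n : ℕ}

/-- The index of a permutation `g` of `Fin n`: `n` minus the number of orbits of the group generated
by `g`. -/
def ind (g : Equiv.Perm (Fin n)) : ℕ :=
  n - Nat.card (MulAction.orbitRel.Quotient (Subgroup.zpowers g) (Fin n))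

/-- `ind(G)`: the least index of an element `g ≠ 1` of `G`. -/
def indG (G : Subgroup (Equiv.Perm (Fin n))) : ℕ := sInf {k | ∃ g ∈ G, g ≠ 1 ∧ ind g = k}

end perm

section fields

variable (K Ω : Type) [Field K] [Field Ω] [Algebra K Ω]

/-- `Q` is the Galois group of a finite Galois extension of `K` inside `Ω`, in the form: there is a
surjective homomorphism from `Gal(Ω/K)` to `Q` that is trivial on the subgroup fixing some finite
extension `E` of `K`. -/
def IsGaloisGroup (Q : Type) [Group Q] : Prop :=
  ∃ ρ : Gal(Ω/K) →* Q, Function.Surjective ρ ∧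
    ∃ E : IntermediateField K Ω, FiniteDimensional K E ∧ E.fixingSubgroup ≤ ρ.ker

variable {n : ℕ} (G : Subgroup (Equiv.Perm (Fin n)))

/-- `L` is a small `G`-field over `K`: it has degree `n` over `K`, and the `n` embeddings of `L`
over `K` into `Ω` can be numbered in such a way that the group of permutations of `Fin n` induced by
`Gal(Ω/K)` is exactly `G`. -/
def IsSmall (L : IntermediateField K Ω) : Prop :=
  Module.finrank K L = n ∧ ∃ e : (L →ₐ[K] Ω) ≃ Fin n, ∀ π : Equiv.Perm (Fin n),
    π ∈ G ↔ ∃ σ : Gal(Ω/K), ∀ φ : L →ₐ[K] Ω, π (e φ) = e ((σ : Ω →ₐ[K] Ω).comp φ)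

/-- `d_L`, the absolute norm of the relative different of `L/K`, which is the absolute norm of the
relative discriminant of `L/K`. -/
def relDisc (K L : Type) [Field K] [NumberField K] [Field L] [NumberField L] [Algebra K L] : ℕ :=
  Ideal.absNorm (differentIdeal (𝓞 K) (𝓞 L))

/-- The number of `K`-isomorphism classes of small `G`-fields `L` over `K` inside `Ω` with
`d_L ≤ B`: this is `n_K(G,B)`. -/
def nK [NumberField K] (B : ℝ) : ℕ∞ :=
  ENat.card (Quot fun L L' : {L : IntermediateField K Ω //
    IsSmall K Ω G L ∧ ∃ _ : NumberField L, (relDisc K L : ℝ) ≤ B} => Nonempty (L.1 ≃ₐ[K] L'.1))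

/-- `K`-conjugacy in `G`: `h` is conjugate in `G` to `g ^ a` for some `a` in the image of the
cyclotomic character on roots of unity of order dividing `|G|`. -/
def KConj (g h : G) : Prop :=
  ∃ (σ : Gal(Ω/K)) (a : ℕ) (x : G), (∀ ζ : Ω, ζ ^ Nat.card G = 1 → σ ζ = ζ ^ a) ∧
    h = x * g ^ a * x⁻¹

/-- `β_K(G)`: the number of `K`-conjugacy classes of elements of least index. -/
def betaAll : ℕ :=
  Nat.card (Quot fun g h : {g : G // g ≠ 1 ∧ ind (g : Equiv.Perm (Fin n)) = indG G} =>
    KConj K Ω G g.1 h.1)

/-- The number of `K`-conjugacy classes of elements of least index which lie in `T` and have order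
prime to `|N|`. -/
def beta (T N : Subgroup G) : ℕ :=
  Nat.card (Quot fun g h : {g : G // g ∈ T ∧ g ≠ 1 ∧ ind (g : Equiv.Perm (Fin n)) = indG G ∧
    Nat.Coprime (orderOf g) (Nat.card N)} => KConj K Ω G g.1 h.1)

end fields

/-- `Q` is a Galois group over every sufficiently large number field. -/
def Realizable (Q : Type) [Group Q] : Prop :=
  ∃ K₁ : IntermediateField ℚ (AlgebraicClosure ℚ), NumberField K₁ ∧
    ∀ K : IntermediateField ℚ (AlgebraicClosure ℚ), K₁ ≤ K → NumberField K →
      IsGaloisGroup K (AlgebraicClosure ℚ) Q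

/-- The smallest class of groups which contains all symmetric groups `S_k` and is closed under
quotients, direct products, and semidirect products `A ⋊ Q` with finite abelian `A`. -/
inductive Buildable : (Q : Type) → [Group Q] → Prop
  | sym (k : ℕ) : Buildable (Equiv.Perm (Fin k))
  | quot {Q Q' : Type} [Group Q] [Group Q'] (f : Q →* Q') (hf : Function.Surjective f) :
      Buildable Q → Buildable Q'
  | prod {Q Q' : Type} [Group Q] [Group Q'] : Buildable Q → Buildable Q' → Buildable (Q × Q')
  | split {Q A : Type} [Group Q] [CommGroup A] [Finite A] (φ : Q →* MulAut A) :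
      Buildable Q → Buildable (A ⋊[φ] Q)

/-- The condition on the lower layers: `N = L 0 ≥ L 1 ≥ ⋯ ≥ L r = 1` with all `L i` normal in `G`
and all factors `L i / L (i+1)` abelian, such that for each `i` either the order of the factor is
prime to the order of `G / L i`, or `G / L (i+1) → G / L i` splits and the order of the factor is
prime to the index of a subgroup `Z` of `G` which centralizes the factor (that is: `G` acts on the
factor through a group of order prime to the order of the factor). -/
def GoodTower {G : Type} [Group G] (N : Subgroup G) : Prop :=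
  ∃ (r : ℕ) (L : ℕ → Subgroup G), L 0 = N ∧ L r = ⊥ ∧ ∀ i < r,
    L (i + 1) ≤ L i ∧ (L (i + 1)).Normal ∧ ⁅L i, L i⁆ ≤ L (i + 1) ∧
      (Nat.Coprime (L i).index ((L (i + 1)).relIndex (L i)) ∨
        ((∃ C : Subgroup G, C ⊔ L i = ⊤ ∧ C ⊓ L i = L (i + 1)) ∧
          ∃ Z : Subgroup G, (∀ g ∈ Z, ∀ x ∈ L i, g * x * g⁻¹ * x⁻¹ ∈ L (i + 1)) ∧
            Nat.Coprime Z.index ((L (i + 1)).relIndex (L i))))

end H38.ML.Spec
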