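import Pool.Agent.H38.ML.Asym

/-!
# [H38 ML REGIND] The index in the regular representation (60-100 lines)

`G` transitive on `Fin n` and `|G| = n`: all stabilizers are trivial (orbit-stabilizer).  For `g ∈ G`
every orbit of `zpowers g` on `Fin n` has `orderOf g` elements (stabilizers in `zpowers g` are
trivial), so `orbs (zpowers g) * orderOf g = n` (e.g. `MulAction.card_eq_sum_card_group_div_card_stabilizer`
or Burnside's formula `MulAction.sum_card_fixedBy_eq_card_orbits_mul_card_group`, free action: only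
the identity fixes points).
So `ind g = n - n / orderOf g`.  Let `ℓ = Nat.minFac n`; by Cauchy there is an element of order `ℓ`
(`n = |G| ≥ 2`), and for `g ≠ 1`, `orderOf g ≥ ℓ` (its order is a divisor `> 1` of `n`); so
`indG G = n - n / ℓ`, and `ind g = indG G`, `g ≠ 1` implies `n / orderOf g = n / ℓ` (both divide `n`
exactly), so `orderOf g = ℓ`.
-/

namespace H38.ML

lemma regind_stab {n : ℕ} (hn : 2 ≤ n) (G : Subgroup (Equiv.Perm (Fin n)))
    (hG : MulAction.IsPretransitive G (Fin n)) (hcard : Nat.card G = n) (g : Equiv.Perm (Fin n))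
    (hg : g ∈ G) (x : Fin n) (hx : g x = x) : g = 1 := by
  have h1 := Subgroup.card_mul_index (MulAction.stabilizer G x)
  rw [MulAction.index_stabilizer_of_transitive G x, hcard, Nat.card_eq_fintype_card (α := Fin n),
    Fintype.card_fin] at h1
  have h2 : Nat.card (MulAction.stabilizer G x) = 1 :=
    Nat.eq_of_mul_eq_mul_right (show 0 < n by omega) (by rw [h1, one_mul])
  have h3 : MulAction.stabilizer G x = ⊥ := Subgroup.card_eq_one.1 h2
  have h4 : (⟨g, hg⟩ : G) ∈ MulAction.stabilizer G x := MulAction.mem_stabilizer_iff.2 hx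
  rw [h3, Subgroup.mem_bot] at h4
  exact congrArg Subtype.val h4

lemma regind_orbs {n : ℕ} (hn : 2 ≤ n) (G : Subgroup (Equiv.Perm (Fin n)))
    (hG : MulAction.IsPretransitive G (Fin n)) (hcard : Nat.card G = n) (g : Equiv.Perm (Fin n))
    (hg : g ∈ G) : orbs (Subgroup.zpowers g) * orderOf g = n := by
  classical
  have hst : ∀ x : Fin n, MulAction.stabilizer (Subgroup.zpowers g) x = ⊥ := by
    intro x
    rw [eq_bot_iff]
    rintro ⟨h, hh⟩ hx
    rw [MulAction.mem_stabilizer_iff] at hx
    rw [Subgroup.mem_bot]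
    apply Subtype.ext
    exact regind_stab hn G hG hcard h ((Subgroup.zpowers_le.2 hg) hh) x hx
  have e := MulAction.selfEquivSigmaOrbitsQuotientStabilizer (Subgroup.zpowers g) (Fin n)
  have h1 := Nat.card_congr e
  rw [Nat.card_eq_fintype_card, Fintype.card_fin] at h1
  have : Fintype (MulAction.orbitRel.Quotient (Subgroup.zpowers g) (Fin n)) := Fintype.ofFinite _
  rw [Nat.card_sigma] at h1
  have h2 : Nat.card (Subgroup.zpowers g ⧸ (⊥ : Subgroup (Subgroup.zpowers g))) = orderOf g :=
    (Nat.card_congr (QuotientGroup.quotientBot (G := Subgroup.zpowers g)).toEquiv).trans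
      (Nat.card_zpowers g)
  rw [Finset.sum_congr rfl (fun ω _ => by rw [hst])] at h1
  rw [Finset.sum_const, smul_eq_mul, Finset.card_univ, ← Nat.card_eq_fintype_card, h2] at h1
  exact h1.symm

/-- Elements of least index exist. -/
theorem exists_least {n : ℕ} (G : Subgroup (Equiv.Perm (Fin n))) (h : G ≠ ⊥) :
    ∃ g : G, g ≠ 1 ∧ ind (g : Equiv.Perm (Fin n)) = indG G := by
  obtain ⟨g, hg⟩ := Subgroup.ne_bot_iff_exists_ne_one.1 h
  have hne : {k | ∃ g ∈ G, g ≠ 1 ∧ ind g = k}.Nonempty :=
    ⟨ind (g : Equiv.Perm (Fin n)), g, g.2, fun h => hg (Subtype.ext h), rfl⟩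
  obtain ⟨x, hx, hx1, hx2⟩ := Nat.sInf_mem hne
  exact ⟨⟨x, hx⟩, fun h => hx1 (congrArg Subtype.val h), hx2⟩

theorem orderOf_of_least_regular {n : ℕ} (hn : 2 ≤ n) (G : Subgroup (Equiv.Perm (Fin n)))
    (hG : MulAction.IsPretransitive G (Fin n)) (hcard : Nat.card G = n) (g : G) (hg : g ≠ 1)
    (hi : ind (g : Equiv.Perm (Fin n)) = indG G) : orderOf g = n.minFac := by
  have hℓ : (n.minFac).Prime := Nat.minFac_prime (by omega)
  have : Fact (n.minFac).Prime := ⟨hℓ⟩
  -- an element of order `ℓ`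
  obtain ⟨y, hy⟩ := exists_prime_orderOf_dvd_card' (G := G) n.minFac
    (by rw [hcard]; exact Nat.minFac_dvd n)
  have hy1 : y ≠ 1 := by
    rintro rfl
    rw [orderOf_one] at hy
    exact hℓ.one_lt.ne hy
  have h1 : indG G ≤ ind (y : Equiv.Perm (Fin n)) :=
    Nat.sInf_le ⟨y, y.2, fun h => hy1 (Subtype.ext h), rfl⟩
  have hoy := regind_orbs hn G hG hcard (y : Equiv.Perm (Fin n)) y.2
  have hog := regind_orbs hn G hG hcard (g : Equiv.Perm (Fin n)) g.2
  rw [Subgroup.orderOf_coe] at hoy hog
  rw [hy] at hoy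
  have hg1 : orderOf g ≠ 1 := fun h => hg (orderOf_eq_one_iff.1 h)
  have hge : n.minFac ≤ orderOf g := by
    have hd : orderOf g ∣ n := Dvd.intro_left _ hog
    exact Nat.minFac_le_of_dvd (by
      have : 0 < orderOf g := orderOf_pos g
      omega) hd
  rw [← hi] at h1
  unfold ind at h1
  set a := orbs (Subgroup.zpowers (g : Equiv.Perm (Fin n))) with ha
  set b := orbs (Subgroup.zpowers (y : Equiv.Perm (Fin n))) with hb
  have hℓ0 := hℓ.pos
  have hbn : b ≤ n := by
    rw [← hoy]; exact Nat.le_mul_of_pos_right _ hℓ0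
  have han : a ≤ n := by
    rw [← hog]; exact Nat.le_mul_of_pos_right _ (orderOf_pos g)
  have hba : b ≤ a := by omega
  have hb0 : 0 < b := by
    rcases Nat.eq_zero_or_pos b with h | h
    · rw [h, zero_mul] at hoy; omega
    · exact h
  have h2 : b * orderOf g ≤ b * n.minFac := by
    calc b * orderOf g ≤ a * orderOf g := Nat.mul_le_mul_right _ hba
      _ = n := hog
      _ = b * n.minFac := hoy.symm
  have h3 := Nat.le_of_mul_le_mul_left h2 hb0
  omega

end H38.ML
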