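import Pool.Agent.H38.ML.Basic

/-!
# [H38 ML ROOTINERT] Inertia acts trivially on roots of units (two theorems, 60-120 lines)

`pow_eq_one_of_inertia`: `z = algebraMap K Ω ζ`, an element of `𝓞 Ω`.  `τ β - β ∈ 𝔓`, i.e.
`(z ^ k - 1) * β ∈ 𝔓` in `𝓞 Ω`, `𝔓` prime, `β ∉ 𝔓`, so `z ^ k - 1 ∈ 𝔓`.  If `z ^ k ≠ 1` then
`w = z ^ k` is one of the roots of `1 + X + ⋯ + X ^ (q-1) = ∏_{i=1}^{q-1} (X - z ^ i)`, and evaluation
at `1` gives `q = ∏_{i=1}^{q-1} (1 - z ^ i)` (Mathlib: `IsPrimitiveRoot.prod_one_sub_pow_eq_order`,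
for `q ≥ 1`), in which `1 - w` is a factor (with cofactor an algebraic integer).  So `q ∈ 𝔓`,
contradiction.

`res_eq_one`: `res M τ` is in the inertia group of `Q = 𝔓.under (𝓞 M)` in `Gal(M/K)`: for `x : 𝓞 M`,
`res M τ • x - x` maps to `τ • (x : 𝓞 Ω) - x ∈ 𝔓` in `𝓞 Ω`.  `Q` is prime and lies over
`𝔓.under (𝓞 K)`; `Unr` says that this inertia group is trivial.

`mem_under_iff`, `smul_coe`: bookkeeping on the actions.
-/

open scoped NumberField Pointwise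

noncomputable section

namespace H38.ML

variable {K Ω : Type} [Field K] [NumberField K] [Field Ω] [Algebra K Ω] [IsAlgClosure K Ω]

theorem pow_eq_one_of_inertia (𝔓 : Ideal (𝓞 Ω)) [𝔓.IsPrime] (q : ℕ) (hq : 0 < q)
    (hq𝔓 : ((q : ℕ) : 𝓞 Ω) ∉ 𝔓) (ζ : K) (hζ : IsPrimitiveRoot ζ q) (τ : Gal(Ω/K))
    (hτ : τ ∈ 𝔓.inertia Gal(Ω/K)) (β : 𝓞 Ω) (hβ : β ∉ 𝔓) (k : ℕ)
    (h : τ (β : Ω) = algebraMap K Ω ζ ^ k * (β : Ω)) : q ∣ k := by
  have hζ' : IsPrimitiveRoot (algebraMap K Ω ζ) q := hζ.map_of_injective (algebraMap K Ω).injective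
  have : NeZero q := ⟨hq.ne'⟩
  set z : 𝓞 Ω := hζ'.toInteger with hz
  have hzc : (z : Ω) = algebraMap K Ω ζ := rfl
  have hzp : IsPrimitiveRoot z q := hζ'.toInteger_isPrimitiveRoot
  have h1 : τ • β - β ∈ 𝔓 := hτ β
  have h2 : τ • β - β = (z ^ k - 1) * β := by
    apply NumberField.RingOfIntegers.ext
    change τ (β : Ω) - (β : Ω) = ((z : Ω) ^ k - 1) * (β : Ω)
    rw [h, hzc]
    ring
  rw [h2] at h1
  have h3 : z ^ k - 1 ∈ 𝔓 := (Ideal.IsPrime.mem_or_mem ‹_› h1).resolve_right hβ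
  by_contra hnd
  obtain ⟨n, rfl⟩ : ∃ n, q = n + 1 := ⟨q - 1, by omega⟩
  have hprod := hzp.prod_one_sub_pow_eq_order
  have hmod : k % (n + 1) ≠ 0 := fun h0 => hnd (Nat.dvd_of_mod_eq_zero h0)
  have hlt : k % (n + 1) < n + 1 := Nat.mod_lt _ hq
  have hzk : z ^ k = z ^ (k % (n + 1)) := by
    rw [← pow_mod_orderOf, ← hzp.eq_orderOf]
  have hmem : k % (n + 1) - 1 ∈ Finset.range n := Finset.mem_range.2 (by omega)
  have hdvd : (1 - z ^ (k % (n + 1) - 1 + 1)) ∣ ∏ k ∈ Finset.range n, (1 - z ^ (k + 1)) :=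
    Finset.dvd_prod_of_mem (fun k => 1 - z ^ (k + 1)) hmem
  rw [Nat.sub_add_cancel (by omega), hprod, ← hzk] at hdvd
  apply hq𝔓
  obtain ⟨c, hc⟩ := hdvd
  have : ((n + 1 : ℕ) : 𝓞 Ω) = (z ^ k - 1) * (-c) := by
    push_cast
    rw [hc]; ring
  rw [this]
  exact 𝔓.mul_mem_right _ h3

theorem res_eq_one (M : IntermediateField K Ω) [Normal K M] (𝔓 : Ideal (𝓞 Ω)) [𝔓.IsPrime]
    (hun : Unr K M (𝔓.under (𝓞 K))) (τ : Gal(Ω/K)) (hτ : τ ∈ 𝔓.inertia Gal(Ω/K)) :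
    res M τ = 1 := by
  have hQ : (𝔓.under (𝓞 M)).IsPrime := inferInstance
  have hQ' : (𝔓.under (𝓞 M)).under (𝓞 K) = 𝔓.under (𝓞 K) := by
    rw [Ideal.under_under]
  have hin := hun _ hQ hQ'
  have : res M τ ∈ (𝔓.under (𝓞 M)).inertia Gal(M/K) := by
    intro x
    change algebraMap (𝓞 M) (𝓞 Ω) (res M τ • x - x) ∈ 𝔓
    have h1 := hτ (algebraMap (𝓞 M) (𝓞 Ω) x)
    have h2 : algebraMap (𝓞 M) (𝓞 Ω) (res M τ • x - x) =
        τ • algebraMap (𝓞 M) (𝓞 Ω) x - algebraMap (𝓞 M) (𝓞 Ω) x := by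
      rw [map_sub]
      congr 1
      apply NumberField.RingOfIntegers.ext
      exact AlgEquiv.restrictNormal_commutes τ M (x : M)
    rw [h2]
    exact h1
  rw [hin] at this
  exact this

end H38.ML
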