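import Pool.Agent.H38.ML.Ord

/-!
# [H38 ML COSET] Primes of degree one in a subfield and cosets of decomposition groups
(two theorems, 100-160 lines)

`G = Gal(M/K)`, `F = fixedField D`, `Q` a nonzero prime of `𝓞 M` with trivial inertia group
(`Unr`), `v = Q.under (𝓞 K)`.

Facts for a prime `Q'` above `v` and `V = Q'.under (𝓞 F)`: `|stabilizer G Q'| = f(Q'|v)`
(`Ideal.card_stabilizer_eq_card_inertia_mul_finrank` with trivial inertia); the same for the
Galois extension `M/F` with group `D` (the inertia group of `Q'` in `D` is a subgroup of the one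
in `G`, trivial): `|stabilizer D Q'| = f(Q'|V)`.  `absNorm` is multiplicative in towers:
`absNorm Q' = absNorm v ^ f(Q'|v) = absNorm V ^ f(Q'|V)` (`Ideal.absNorm_eq_pow_inertiaDeg'` and the
tower formula, or directly `Nat.card` of finite fields / vector spaces).  If
`absNorm V = absNorm v` then `f(Q'|v) = f(Q'|V)`, so `stabilizer G Q' ≤ D`.

`coset_unique`: `Q' = σ⁻¹ • Q`, `Q'' = τ⁻¹ • Q` lie over the same prime `V` of `F`, and `D` acts
transitively on the primes of `𝓞 M` above `V` (`Ideal.exists_smul_eq_of_isGaloisGroup` for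
`IsGaloisGroup D (𝓞 F) (𝓞 M)` or `Algebra.IsInvariant.exists_smul_of_under_eq`): `Q'' = δ • Q'`,
`δ ∈ D`, so `γ = δ⁻¹ * τ⁻¹ * σ` satisfies `γ • Q' = Q'` (as `σ • Q' = Q`, `τ⁻¹ • Q = Q'' = δ • Q'`),
so `γ ∈ D`, `τ⁻¹ σ ∈ D`, `σ⁻¹ τ ∈ D`.

`ord_conj`: `ordAt Q (σ • x) = ordAt (σ⁻¹ • Q) x` (`ordAt_smul`), and with `Q' = σ⁻¹ • Q`,
`V = Q'.under (𝓞 F)`: `e(Q'|V) = |inertia D Q'| = 1` (`Ideal.card_inertia_eq_ramificationIdxIn`), so
the multiplicity of `Q'` in `x 𝓞 M = (x 𝓞 F) 𝓞 M` is `e(Q'|V)` times the multiplicity of `V` in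
`x 𝓞 F` (Mathlib: `Ideal.emultiplicity_map_eq_ramificationIdx'_mul`, or `ramificationIdx`-lemmas on
`normalizedFactors`).
-/

open scoped NumberField Pointwise

namespace H38.ML

variable {K M : Type} [Field K] [NumberField K] [Field M] [NumberField M] [Algebra K M]
  [IsGalois K M]

private theorem cs_gg (D : Subgroup Gal(M/K)) :
    IsGaloisGroup D (𝓞 (IntermediateField.fixedField D)) (𝓞 M) := by
  have : IsGaloisGroup D (IntermediateField.fixedField D) M :=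
    IsGaloisGroup.subgroup Gal(M/K) K M D
  exact IsGaloisGroup.of_isFractionRing D (𝓞 (IntermediateField.fixedField D)) (𝓞 M)
    (IntermediateField.fixedField D) M

/-- the inertia group of a conjugate prime is trivial -/
private theorem cs_inertia (Q : Ideal (𝓞 M)) [Q.IsPrime] (hun : Unr K M (Q.under (𝓞 K)))
    (σ : Gal(M/K)) : (σ • Q).inertia Gal(M/K) = ⊥ := by
  refine hun (σ • Q) inferInstance ?_
  exact ((σ • Q).over_def (Q.under (𝓞 K))).symm

private theorem cs_inertiaD (D : Subgroup Gal(M/K)) (Q : Ideal (𝓞 M)) [Q.IsPrime]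
    (hun : Unr K M (Q.under (𝓞 K))) (σ : Gal(M/K)) :
    Nat.card ((σ • Q).inertia D) = 1 := by
  rw [Subgroup.card_eq_one, Subgroup.eq_bot_iff_forall]
  intro δ hδ
  have h1 : (δ : Gal(M/K)) ∈ (σ • Q).inertia Gal(M/K) := fun x => hδ x
  rw [cs_inertia Q hun σ, Subgroup.mem_bot] at h1
  exact Subtype.ext h1

omit [NumberField K] [NumberField M] [IsGalois K M] in
private theorem cs_ne_bot {Q : Ideal (𝓞 M)} (hQ : Q ≠ ⊥) (σ : Gal(M/K)) : σ • Q ≠ ⊥ := by
  intro h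
  apply hQ
  rw [eq_bot_iff]
  intro x hx
  have h1 : σ • x ∈ σ • Q := Ideal.smul_mem_pointwise_smul σ x Q hx
  rw [h, Ideal.mem_bot] at h1
  rw [Ideal.mem_bot]
  exact (smul_eq_zero_iff_eq σ).mp h1

/-- the decomposition group is contained in `D` if the residue degree below is one -/
private theorem cs_stab_le (D : Subgroup Gal(M/K)) (Q : Ideal (𝓞 M)) [Q.IsPrime] (hQ : Q ≠ ⊥)
    (hun : Unr K M (Q.under (𝓞 K))) (σ : Gal(M/K))
    (hdeg : Ideal.absNorm ((σ • Q).under (𝓞 (IntermediateField.fixedField D))) =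
      Ideal.absNorm (Q.under (𝓞 K))) :
    MulAction.stabilizer Gal(M/K) (σ • Q) ≤ D := by
  have hg := cs_gg D
  set V := (σ • Q).under (𝓞 (IntermediateField.fixedField D)) with hV
  have hQ' := cs_ne_bot hQ σ
  have hv0 : Q.under (𝓞 K) ≠ ⊥ := fun h => hQ (Ideal.eq_bot_of_comap_eq_bot h)
  have hV0 : V ≠ ⊥ := fun h => hQ' (Ideal.eq_bot_of_comap_eq_bot h)
  have hvp : (Q.under (𝓞 K)).IsPrime := inferInstance
  have hVp : V.IsPrime := inferInstance
  have hvm : (Q.under (𝓞 K)).IsMaximal := hvp.isMaximal hv0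
  have hVm : V.IsMaximal := hVp.isMaximal hV0
  have h1 := Ideal.card_stabilizer_eq_card_inertia_mul_finrank (G := Gal(M/K))
    (Q.under (𝓞 K)) (σ • Q)
  have h2 := Ideal.card_stabilizer_eq_card_inertia_mul_finrank (G := D) V (σ • Q)
  rw [cs_inertiaD D Q hun σ, one_mul] at h2
  rw [cs_inertia Q hun σ, Subgroup.card_bot, one_mul] at h1
  have h3 := Ideal.absNorm_eq_pow_inertiaDeg'_of_liesOver V (Q.under (𝓞 K)) hvp hv0
  rw [hdeg, Ideal.inertiaDeg'_eq_inertiaDeg] at h3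
  have hnorm : 1 < Ideal.absNorm (Q.under (𝓞 K)) := by
    have h4 : Ideal.absNorm (Q.under (𝓞 K)) ≠ 0 := by
      rw [ne_eq, Ideal.absNorm_eq_zero_iff]
      exact hv0
    have h5 : Ideal.absNorm (Q.under (𝓞 K)) ≠ 1 := by
      rw [ne_eq, Ideal.absNorm_eq_one_iff]
      exact hvp.ne_top
    omega
  have h6 : V.inertiaDeg (𝓞 K) = 1 := by
    have h7 : Ideal.absNorm (Q.under (𝓞 K)) ^ 1 =
        Ideal.absNorm (Q.under (𝓞 K)) ^ (V.inertiaDeg (𝓞 K)) := by rw [pow_one]; exact h3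
    exact (Nat.pow_right_injective hnorm h7).symm
  have h7 := Ideal.inertiaDeg_tower (R := 𝓞 K) V (σ • Q)
  rw [h6, one_mul] at h7
  have hD : Nat.card ((MulAction.stabilizer Gal(M/K) (σ • Q)).subgroupOf D) =
      (σ • Q).inertiaDeg (𝓞 (IntermediateField.fixedField D)) := by
    rw [← h2]
    exact Nat.card_congr (Equiv.subtypeEquivRight fun δ => Iff.rfl)
  have hcard : Nat.card ((MulAction.stabilizer Gal(M/K) (σ • Q)).subgroupOf D) =
      Nat.card (MulAction.stabilizer Gal(M/K) (σ • Q)) := by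
    rw [h1, hD, h7]
  -- the image of the stabilizer in D is the whole stabilizer
  have hmap : ((MulAction.stabilizer Gal(M/K) (σ • Q)).subgroupOf D).map D.subtype ≤
      MulAction.stabilizer Gal(M/K) (σ • Q) := by
    rintro _ ⟨δ, hδ, rfl⟩
    exact hδ
  have heq : ((MulAction.stabilizer Gal(M/K) (σ • Q)).subgroupOf D).map D.subtype =
      MulAction.stabilizer Gal(M/K) (σ • Q) := by
    refine Subgroup.eq_of_le_of_card_ge hmap ?_
    rw [Subgroup.card_map_of_injective D.subtype_injective, hcard]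
  rw [← heq]
  rintro _ ⟨δ, -, rfl⟩
  exact δ.2

theorem coset_unique (D : Subgroup Gal(M/K)) (Q : Ideal (𝓞 M)) [Q.IsPrime] (hQ : Q ≠ ⊥)
    (hun : Unr K M (Q.under (𝓞 K))) (σ τ : Gal(M/K))
    (hdeg : Ideal.absNorm ((σ⁻¹ • Q).under (𝓞 (IntermediateField.fixedField D))) =
      Ideal.absNorm (Q.under (𝓞 K)))
    (h : (σ⁻¹ • Q).under (𝓞 (IntermediateField.fixedField D)) =
      (τ⁻¹ • Q).under (𝓞 (IntermediateField.fixedField D))) : σ⁻¹ * τ ∈ D := by
  have hg := cs_gg D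
  have hle := cs_stab_le D Q hQ hun σ⁻¹ hdeg
  have hl : (τ⁻¹ • Q).LiesOver ((σ⁻¹ • Q).under (𝓞 (IntermediateField.fixedField D))) := ⟨h⟩
  obtain ⟨δ, hδ⟩ := Ideal.exists_smul_eq_of_isGaloisGroup
    ((σ⁻¹ • Q).under (𝓞 (IntermediateField.fixedField D))) (σ⁻¹ • Q) (τ⁻¹ • Q) D
  have hδ : (δ : Gal(M/K)) • σ⁻¹ • Q = τ⁻¹ • Q := hδ
  have hmem : (δ : Gal(M/K))⁻¹ * τ⁻¹ * σ ∈ MulAction.stabilizer Gal(M/K) (σ⁻¹ • Q) := by
    rw [MulAction.mem_stabilizer_iff, mul_smul, mul_smul, smul_inv_smul, ← hδ, inv_smul_smul]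
  have h1 := hle hmem
  have h2 : τ⁻¹ * σ ∈ D := by
    have h3 := D.mul_mem δ.2 h1
    have h4 : (δ : Gal(M/K)) * ((δ : Gal(M/K))⁻¹ * τ⁻¹ * σ) = τ⁻¹ * σ := by group
    rwa [h4] at h3
  have h3 := D.inv_mem h2
  have h4 : (τ⁻¹ * σ)⁻¹ = σ⁻¹ * τ := by group
  rwa [h4] at h3

theorem ord_conj (D : Subgroup Gal(M/K)) (Q : Ideal (𝓞 M)) [Q.IsPrime] (hQ : Q ≠ ⊥)
    (hun : Unr K M (Q.under (𝓞 K))) (σ : Gal(M/K))
    (x : 𝓞 (IntermediateField.fixedField D)) (hx : x ≠ 0) :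
    ordAt Q (σ • algebraMap (𝓞 (IntermediateField.fixedField D)) (𝓞 M) x) =
      ordAt ((σ⁻¹ • Q).under (𝓞 (IntermediateField.fixedField D))) x := by
  classical
  have hg := cs_gg D
  set V := (σ⁻¹ • Q).under (𝓞 (IntermediateField.fixedField D)) with hV
  have hQ' := cs_ne_bot hQ σ⁻¹
  have hV0 : V ≠ ⊥ := fun h => hQ' (Ideal.eq_bot_of_comap_eq_bot h)
  have hVp : V.IsPrime := inferInstance
  have h1 : ordAt Q (σ • algebraMap (𝓞 (IntermediateField.fixedField D)) (𝓞 M) x) =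
      ordAt (σ⁻¹ • Q) (algebraMap (𝓞 (IntermediateField.fixedField D)) (𝓞 M) x) := by
    have h2 := ordAt_smul (σ⁻¹ • Q) σ (algebraMap (𝓞 (IntermediateField.fixedField D)) (𝓞 M) x)
    rwa [smul_inv_smul] at h2
  rw [h1]
  have he : V.ramificationIdx' (σ⁻¹ • Q) = 1 := by
    rw [Ideal.ramificationIdx'_eq_ramificationIdx V (σ⁻¹ • Q) hV0,
      ← Ideal.ramificationIdxIn_eq_ramificationIdx V (σ⁻¹ • Q) D,
      ← Ideal.card_inertia_eq_ramificationIdxIn (G := D) V (σ⁻¹ • Q)]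
    exact cs_inertiaD D Q hun σ⁻¹
  have hi1 : Irreducible V := (Ideal.prime_of_isPrime hV0 hVp).irreducible
  have hi2 : Irreducible (σ⁻¹ • Q) := (Ideal.prime_of_isPrime hQ' inferInstance).irreducible
  have hx1 : Ideal.span {x} ≠ ⊥ := by
    rw [ne_eq, Ideal.span_singleton_eq_bot]
    exact hx
  have hx2 : Ideal.span {algebraMap (𝓞 (IntermediateField.fixedField D)) (𝓞 M) x} ≠ ⊥ := by
    rw [ne_eq, Ideal.span_singleton_eq_bot]
    exact (map_ne_zero_iff _ (FaithfulSMul.algebraMap_injective _ _)).mpr hx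
  have h3 := Ideal.IsDedekindDomain.emultiplicity_map_eq_ramificationIdx'_mul hx1 hi1 hi2 hQ'
  rw [he, Nat.cast_one, one_mul, Ideal.map_span, Set.image_singleton,
    UniqueFactorizationMonoid.emultiplicity_eq_count_normalizedFactors hi2 hx2,
    UniqueFactorizationMonoid.emultiplicity_eq_count_normalizedFactors hi1 hx1,
    normalize_eq, normalize_eq] at h3
  have h4 := ENat.natCast_inj.mp h3
  unfold ordAt
  convert h4 using 2

end H38.ML
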