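import Pool.Agent.H38.ML.Basic

/-!
# [H38 ML FACTOR] Facts on the Galois correspondence for homomorphisms of finite type (60-120 lines)

`Ω/K` is Galois (characteristic zero, algebraic closure).  Mathlib: `InfiniteGalois`
(`Mathlib/FieldTheory/Galois/Infinite.lean`): for a closed subgroup `U` the fixing subgroup of
`IntermediateField.fixedField U` is `U`; a subgroup containing an open subgroup is open, an open
subgroup is closed; `E.fixingSubgroup` is open for `E` finite dimensional
(`IntermediateField.fixingSubgroup_isOpen`).

`fixing_fixedField`: `U ⊇ E.fixingSubgroup` is open, hence closed, apply the correspondence; the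
fixed field of `U` is contained in the fixed field of `E.fixingSubgroup`, which is `E`, so it is finite
dimensional.

`factor`: `M = fixedField ρ.ker`; it is finite dimensional and `M.fixingSubgroup = ρ.ker`, a normal
subgroup, so `M/K` is Galois (`InfiniteGalois.normal_iff_isGalois` or similar).  The restriction
`res M : Gal(Ω/K) → Gal(M/K)` is surjective (`AlgEquiv.restrictNormalHom_surjective`) with kernel
`M.fixingSubgroup = ρ.ker` (`IntermediateField.restrictNormalHom_ker`), so `ρ` factors as
`e ∘ res M` with `e` injective (`QuotientGroup.lift` or choose preimages).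
-/

open scoped NumberField Pointwise

namespace H38.ML

variable {K Ω : Type} [Field K] [NumberField K] [Field Ω] [Algebra K Ω] [IsAlgClosure K Ω]

theorem fixing_fixedField (U : Subgroup Gal(Ω/K)) (E : IntermediateField K Ω)
    [FiniteDimensional K E] (h : E.fixingSubgroup ≤ U) :
    (IntermediateField.fixedField U).fixingSubgroup = U ∧
      FiniteDimensional K (IntermediateField.fixedField U) := by
  haveI : IsGalois K Ω := IsAlgClosure.isGalois K Ω
  have hopen : IsOpen (U : Set Gal(Ω/K)) :=
    Subgroup.isOpen_mono h (IntermediateField.fixingSubgroup_isOpen E)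
  have hclosed : IsClosed (U : Set Gal(Ω/K)) := OpenSubgroup.isClosed ⟨U, hopen⟩
  let C : ClosedSubgroup Gal(Ω/K) := ⟨U, hclosed⟩
  have h1 : (IntermediateField.fixedField U).fixingSubgroup = U :=
    InfiniteGalois.fixingSubgroup_fixedField C
  refine ⟨h1, ?_⟩
  rw [← InfiniteGalois.isOpen_iff_finite, h1]
  exact hopen

theorem factor {H : Type} [Group H] (ρ : Gal(Ω/K) →* H) (h : FT ρ) :
    ∃ (M : IntermediateField K Ω) (_ : FiniteDimensional K M) (_ : IsGalois K M)
      (e : Gal(M/K) →* H), Function.Injective e ∧ ∀ σ, e (res M σ) = ρ σ := by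
  haveI : IsGalois K Ω := IsAlgClosure.isGalois K Ω
  obtain ⟨E, hE, hle⟩ := h
  obtain ⟨h1, h2⟩ := fixing_fixedField ρ.ker E hle
  set M := IntermediateField.fixedField ρ.ker with hM
  haveI := h2
  haveI h3 : IsGalois K M := by
    rw [← InfiniteGalois.normal_iff_isGalois, h1]
    infer_instance
  have hker : (res M).ker = ρ.ker := by
    rw [← h1]
    exact IntermediateField.restrictNormalHom_ker M
  have hsurj : Function.Surjective (res M) := AlgEquiv.restrictNormalHom_surjective Ω
  refine ⟨M, h2, h3, (res M).liftOfSurjective hsurj ⟨ρ, hker.le⟩, ?_, ?_⟩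
  · rw [← MonoidHom.ker_eq_bot_iff, eq_bot_iff]
    intro g hg
    obtain ⟨σ, rfl⟩ := hsurj g
    rw [MonoidHom.mem_ker] at hg
    have : ρ σ = 1 := by
      rw [← hg]
      exact (MonoidHom.liftOfRightInverse_comp_apply (res M) _ _ ⟨ρ, hker.le⟩ σ).symm
    have h4 : σ ∈ (res M).ker := by
      rw [hker]
      exact this
    exact h4
  · intro σ
    exact MonoidHom.liftOfRightInverse_comp_apply (res M) _ _ ⟨ρ, hker.le⟩ σ

/-- Restriction to a finite normal subextension is of finite type. -/
theorem ft_res (M : IntermediateField K Ω) [FiniteDimensional K M] [Normal K M] :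
    FT (res M) :=
  ⟨M, inferInstance, (IntermediateField.restrictNormalHom_ker M).ge⟩

theorem ft_comp {H H' : Type} [Group H] [Group H'] (f : H →* H') (ρ : Gal(Ω/K) →* H) (h : FT ρ) :
    FT (f.comp ρ) := by
  obtain ⟨E, hE, hle⟩ := h
  refine ⟨E, hE, fun σ hσ => ?_⟩
  have := hle hσ
  rw [MonoidHom.mem_ker] at this ⊢
  simp [this]

end H38.ML
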