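import Pool.Agent.H38.ML.Basic

/-!
# [H38 ML UNRFIN] Only finitely many primes are ramified, and other finite sets of primes
(50-90 lines)

`finite_not_unr`: for every `σ ≠ 1` in `Gal(M/K)` there is `y_σ : 𝓞 M` with `σ • y_σ ≠ y_σ`
(`M` is the fraction field of `𝓞 M`).  If `v` is not unramified there are a prime `Q` over `v`
and `σ ≠ 1` in the inertia group of `Q`, so `σ • y_σ - y_σ ∈ Q`.  So `Q` contains the nonzero
element `δ = ∏_{σ ≠ 1} (σ • y_σ - y_σ)`, and `v = Q.under (𝓞 K)`.  The set of primes `Q` containing a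
nonzero element is finite (`Ideal.finite_factors` / `UniqueFactorizationMonoid` /
`IsDedekindDomain.HeightOneSpectrum` finiteness lemmas), so the set of the `v` is finite.

`finite_primes_over_mem`: the primes `v` of `K` below a prime containing a given nonzero
element / dividing a nonzero ideal of a finite extension: image of a finite set.
-/

open scoped NumberField Pointwise

namespace H38.ML

theorem finite_primes_below (K M : Type) [Field K] [NumberField K] [Field M] [NumberField M]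
    [Algebra K M] (I : Ideal (𝓞 M)) (hI : I ≠ ⊥) :
    {v : Ideal (𝓞 K) | ∃ Q : Ideal (𝓞 M), Q.IsPrime ∧ I ≤ Q ∧ Q.under (𝓞 K) = v}.Finite := by
  have h := Ideal.finite_factors (R := 𝓞 M) (I := I) hI
  refine (h.image (fun w => w.asIdeal.under (𝓞 K))).subset ?_
  rintro v ⟨Q, hQ, hIQ, rfl⟩
  have hQ0 : Q ≠ ⊥ := fun e => hI (le_bot_iff.1 (e ▸ hIQ))
  exact ⟨⟨Q, hQ, hQ0⟩, Ideal.dvd_iff_le.2 hIQ, rfl⟩

theorem unrfin_exists_smul_ne (K M : Type) [Field K] [NumberField K] [Field M] [NumberField M]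
    [Algebra K M] (σ : Gal(M/K)) (hσ : σ ≠ 1) : ∃ y : 𝓞 M, σ • y ≠ y := by
  by_contra hc
  push Not at hc
  apply hσ
  ext x
  obtain ⟨a, b, -, rfl⟩ := IsFractionRing.div_surjective (A := 𝓞 M) x
  have key : ∀ a : 𝓞 M, σ (algebraMap (𝓞 M) M a) = algebraMap (𝓞 M) M a := by
    intro a
    have h1 : algebraMap (𝓞 M) M (σ • a) = σ (algebraMap (𝓞 M) M a) := rfl
    rw [← h1, hc a]
  rw [map_div₀, key, key]
  rfl

theorem finite_not_unr (K M : Type) [Field K] [NumberField K] [Field M] [NumberField M]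
    [Algebra K M] [IsGalois K M] :
    {v : Ideal (𝓞 K) | v.IsPrime ∧ v ≠ ⊥ ∧ ¬ Unr K M v}.Finite := by
  classical
  have hy : ∀ σ : Gal(M/K), ∃ y : 𝓞 M, σ ≠ 1 → σ • y ≠ y := by
    intro σ
    by_cases h : σ = 1
    · exact ⟨0, fun h' => absurd h h'⟩
    · obtain ⟨y, hy⟩ := unrfin_exists_smul_ne K M σ h
      exact ⟨y, fun _ => hy⟩
  choose y hy using hy
  have : Fintype Gal(M/K) := Fintype.ofFinite _
  set δ : 𝓞 M := ∏ σ ∈ Finset.univ.filter (fun σ : Gal(M/K) => σ ≠ 1), (σ • y σ - y σ) with hδ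
  have hδ0 : δ ≠ 0 := by
    rw [hδ, Finset.prod_ne_zero_iff]
    intro σ hσ
    exact sub_ne_zero.2 (hy σ (Finset.mem_filter.1 hσ).2)
  refine (finite_primes_below K M (Ideal.span {δ})
    (by rwa [Ne, Ideal.span_singleton_eq_bot])).subset ?_
  rintro v ⟨-, -, hv⟩
  unfold Unr at hv
  push Not at hv
  obtain ⟨Q, hQ, hQv, hne⟩ := hv
  refine ⟨Q, hQ, ?_, hQv⟩
  obtain ⟨σ, hσ1⟩ := Subgroup.ne_bot_iff_exists_ne_one.1 hne
  rw [Ideal.span_singleton_le_iff_mem, hδ]
  have hm : (σ : Gal(M/K)) ∈ Finset.univ.filter (fun σ : Gal(M/K) => σ ≠ 1) := by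
    simp only [Finset.mem_filter, Finset.mem_univ, true_and]
    intro h
    exact hσ1 (Subtype.ext h)
  have hdiv : ((σ : Gal(M/K)) • y σ - y σ) ∣
      ∏ σ ∈ Finset.univ.filter (fun σ : Gal(M/K) => σ ≠ 1), (σ • y σ - y σ) :=
    Finset.dvd_prod_of_mem _ hm
  exact Ideal.mem_of_dvd _ hdiv (σ.2 (y σ))

end H38.ML
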