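import Pool.Agent.H38.ML.RootInert
import Pool.Agent.H38.ML.Factor

/-!
# [H38 ML KUMINERT] The twisted homomorphism on inertia groups (40-80 lines)

`τ ∈ inertia`, `res M τ = 1`: `O.ρ τ = j (∏ x, a x ^ κ τ x) * ρb 1`.  It is enough to see that
`a x ^ κ τ x ∈ B` for every `x`.  If `αO x ∈ 𝔓.under (𝓞 M)` then `a x ∈ B`.  Otherwise
`(αO x : 𝓞 Ω) ∉ 𝔓`; `β x` is an algebraic integer (`β x ^ q = αO x`), `β x ∉ 𝔓` (a power is not in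
`𝔓`), and `τ (β x) = z ^ κ τ x * β (1 • x) = z ^ κ τ x * β x`, so `q ∣ κ τ x` by
`pow_eq_one_of_inertia` and `a x ^ κ τ x = 1 ∈ B`.
-/

open scoped NumberField Pointwise

namespace H38.ML

variable {K Ω : Type} [Field K] [NumberField K] [Field Ω] [Algebra K Ω] [IsAlgClosure K Ω]

theorem kum_inertia (M : IntermediateField K Ω) [FiniteDimensional K M] [Normal K M]
    {H A X : Type} [Group H] [CommGroup A] [Fintype X] [MulAction Gal(M/K) X]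
    (ρb : Gal(M/K) →* H) (j : A →* H) (q : ℕ) (hq : 0 < q) (ζ : K) (hζ : IsPrimitiveRoot ζ q)
    (hA : ∀ t : A, t ^ q = 1) (a : X → A) (αO : X → 𝓞 M) (hα : ∀ x, αO x ≠ 0)
    (O : KumOut M ρb j q ζ a (fun x => ((αO x : 𝓞 M) : M)))
    (𝔓 : Ideal (𝓞 Ω)) [𝔓.IsPrime] (hq𝔓 : ((q : ℕ) : 𝓞 Ω) ∉ 𝔓) (B : Subgroup A)
    (hB : ∀ x, αO x ∈ 𝔓.under (𝓞 M) → a x ∈ B) (τ : Gal(Ω/K)) (hτ : τ ∈ 𝔓.inertia Gal(Ω/K))
    (hres : res M τ = 1) : O.ρ τ ∈ B.map j := by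
  rw [O.hρ, hres, map_one, mul_one]
  refine ⟨_, B.prod_mem fun x _ => ?_, rfl⟩
  rw [one_smul]
  by_cases hx : αO x ∈ 𝔓.under (𝓞 M)
  · exact B.pow_mem (hB x hx) _
  · have hpow : O.β x ^ q = (((αO x : 𝓞 M) : M) : Ω) := O.hβ x
    have hint : IsIntegral ℤ (O.β x) := by
      refine IsIntegral.of_pow hq ?_
      rw [hpow]
      exact (αO x).2.map (algebraMap M Ω : M →+* Ω).toIntAlgHom
    have hβ : (⟨O.β x, hint⟩ : 𝓞 Ω) ∉ 𝔓 := by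
      intro h
      apply hx
      have h1 : (⟨O.β x, hint⟩ : 𝓞 Ω) ^ q ∈ 𝔓 := Ideal.pow_mem_of_mem _ h q hq
      have h2 : (⟨O.β x, hint⟩ : 𝓞 Ω) ^ q = algebraMap (𝓞 M) (𝓞 Ω) (αO x) := by
        apply NumberField.RingOfIntegers.ext
        exact hpow
      rw [h2] at h1
      exact h1
    have hk : τ ((⟨O.β x, hint⟩ : 𝓞 Ω) : Ω) =
        algebraMap K Ω ζ ^ O.κ τ x * ((⟨O.β x, hint⟩ : 𝓞 Ω) : Ω) := by
      have h1 := O.hκ τ x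
      rw [hres, one_smul] at h1
      exact h1
    obtain ⟨l, hl⟩ := pow_eq_one_of_inertia 𝔓 q hq hq𝔓 ζ hζ τ hτ _ hβ (O.κ τ x) hk
    rw [hl, pow_mul, hA, one_pow]
    exact B.one_mem

end H38.ML
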