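import Pool.Agent.H38.ML.LayerRho
import Pool.Agent.H38.ML.KumInert

/-!
# [H38 ML LAYERINERT] Inertia groups of the twisted homomorphism (50-90 lines)

`𝔓` a prime of `𝓞 Ω` over `v ∉ S`, `Q = 𝔓.under (𝓞 M)`, a nonzero prime over `v`; `q ∉ 𝔓` because
`q ∉ v` (`hSq`).  `Unr K M v` (`hSu`) gives `res M τ = 1` for `τ` in the inertia group
(`res_eq_one`).  By `kum_inertia`, `O.ρ τ ∈ B.map A.subtype` as soon as `aX x ∈ B` for all `x` with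
`αX x ∈ Q`, i.e. with `ordAt Q (αX x) ≠ 0` (`ordAt_eq_zero_iff`).

`layer_inert_one`: `B = ⊥`: no `x` has `ordAt Q (αX x) ≠ 0`: by `ord_inl`, `ord_inr` it would be
`x = ⟨inr c, g⟩` with `V = (g⁻¹ • Q).under (𝓞 (Fc a c)) ∣ I c`, prime and over `v`, excluded.

`layer_inert`: `layer_unique` gives `g`; `B = zpowers (aX ⟨inr c, g⟩)`, and
`(aX ⟨inr c, g⟩ : Gal(M/K)) = g * a c * g⁻¹`.
-/

open scoped NumberField Pointwise IsMulCommutative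

noncomputable section

namespace H38.ML

variable {K Ω : Type} [Field K] [NumberField K] [Field Ω] [Algebra K Ω] [IsAlgClosure K Ω]
  {M : IntermediateField K Ω} [FiniteDimensional K M] [IsGalois K M] [NumberField M]
  {A : Subgroup Gal(M/K)} [A.Normal] [IsMulCommutative A] {b : ℕ} {a : Fin b → A}

omit [NumberField K] [IsAlgClosure K Ω] [FiniteDimensional K M] [IsGalois K M] [NumberField M] in
theorem layerInert_under (𝔓 : Ideal (𝓞 Ω)) (v : Ideal (𝓞 K)) (h𝔓v : 𝔓.under (𝓞 K) = v) :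
    (𝔓.under (𝓞 M)).under (𝓞 K) = v := by
  rw [Ideal.under_under, h𝔓v]

omit [FiniteDimensional K M] [IsGalois K M] [NumberField M] [IsAlgClosure K Ω] [NumberField K] in
theorem layerInert_ne_bot (𝔓 : Ideal (𝓞 Ω)) (v : Ideal (𝓞 K)) (hv0 : v ≠ ⊥)
    (h𝔓v : 𝔓.under (𝓞 K) = v) : 𝔓.under (𝓞 M) ≠ ⊥ := by
  intro h
  apply hv0
  rw [← layerInert_under (M := M) 𝔓 v h𝔓v, h, eq_bot_iff]
  intro x hx
  have h1 : algebraMap (𝓞 K) (𝓞 M) x = 0 := hx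
  have h2 : Function.Injective (algebraMap (𝓞 K) (𝓞 M)) := by
    exact FaithfulSMul.algebraMap_injective _ _
  exact h2 (by rw [h1, map_zero])

/-- the common part: all values on the inertia group lie in `B` -/
theorem layerInert_common [Fintype (XT a)] {S₀ : Set (Ideal (𝓞 K))} (q : ℕ) (hq : 0 < q) (ζ : K)
    (hζ : IsPrimitiveRoot ζ q) (hA : ∀ t : A, t ^ q = 1) (D : LayerData a q S₀)
    (I : Tup fun c => Fc a c) (αc : (c : Fin b) → 𝓞 (Fc a c))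
    (hα : IsGen D I αc) (O : LOut A a q ζ D.bt αc) (v : Ideal (𝓞 K)) (hv : v.IsPrime)
    (hv0 : v ≠ ⊥) (hvS : v ∉ D.S)
    (𝔓 : Ideal (𝓞 Ω)) (h𝔓 : 𝔓.IsPrime) (h𝔓v : 𝔓.under (𝓞 K) = v) (B : Subgroup A)
    (hB : ∀ x, ordAt (𝔓.under (𝓞 M)) (αX a D.bt αc x) ≠ 0 → aX a x ∈ B) (τ : Gal(Ω/K))
    (hτ : τ ∈ 𝔓.inertia Gal(Ω/K)) : O.ρ τ ∈ B.map A.subtype := by
  have hun : Unr K M (𝔓.under (𝓞 K)) := by
    rw [h𝔓v]
    exact D.hSu v hv hv0 hvS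
  have hres : res M τ = 1 := res_eq_one M 𝔓 hun τ hτ
  have hq𝔓 : ((q : ℕ) : 𝓞 Ω) ∉ 𝔓 := by
    intro h
    apply D.hSq v hv hv0 hvS
    rw [← h𝔓v]
    change algebraMap (𝓞 K) (𝓞 Ω) ((q : ℕ) : 𝓞 K) ∈ 𝔓
    rw [map_natCast]
    exact h
  have hQp : (𝔓.under (𝓞 M)).IsPrime := inferInstance
  refine kum_inertia M (MonoidHom.id Gal(M/K)) A.subtype q hq ζ hζ hA (aX a) (αX a D.bt αc)
    (alphaX_ne_zero D I αc hα) O 𝔓 hq𝔓 B (fun x hx => hB x ?_) τ hτ hres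
  intro h0
  rw [ordAt_eq_zero_iff _ (layerInert_ne_bot 𝔓 v hv0 h𝔓v) (alphaX_ne_zero D I αc hα x)] at h0
  exact h0 hx

theorem layer_inert_one [Fintype (XT a)] {S₀ : Set (Ideal (𝓞 K))} (q : ℕ) (hq : 0 < q) (ζ : K)
    (hζ : IsPrimitiveRoot ζ q) (hA : ∀ t : A, t ^ q = 1) (D : LayerData a q S₀)
    (I : Tup fun c => Fc a c) (hI : Good (K := K) D.S I) (αc : (c : Fin b) → 𝓞 (Fc a c))
    (hα : IsGen D I αc) (O : LOut A a q ζ D.bt αc) (v : Ideal (𝓞 K)) (hv : v.IsPrime)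
    (hv0 : v ≠ ⊥) (hvS : v ∉ D.S)
    (hvI : ∀ c (V : Ideal (𝓞 (Fc a c))), V.IsPrime → V ∣ I c → V.under (𝓞 K) ≠ v)
    (𝔓 : Ideal (𝓞 Ω)) (h𝔓 : 𝔓.IsPrime) (h𝔓v : 𝔓.under (𝓞 K) = v) (τ : Gal(Ω/K))
    (hτ : τ ∈ 𝔓.inertia Gal(Ω/K)) : O.ρ τ = 1 := by
  classical
  have hQp : (𝔓.under (𝓞 M)).IsPrime := inferInstance
  have hQ0 : 𝔓.under (𝓞 M) ≠ ⊥ := layerInert_ne_bot 𝔓 v hv0 h𝔓v
  have hQv : (𝔓.under (𝓞 M)).under (𝓞 K) = v := layerInert_under 𝔓 v h𝔓v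
  have hQS : (𝔓.under (𝓞 M)).under (𝓞 K) ∉ D.S := by rwa [hQv]
  have h := layerInert_common q hq ζ hζ hA D I αc hα O v hv hv0 hvS 𝔓 h𝔓 h𝔓v ⊥ (fun x hx => ?_) τ hτ
  · rw [Subgroup.map_bot] at h
    exact Subgroup.mem_bot.1 h
  · exfalso
    apply hx
    obtain ⟨i, y⟩ := x
    induction y using QuotientGroup.induction_on with
    | H g =>
      cases i with
      | inl t => exact ord_inl D αc (𝔓.under (𝓞 M)) hQ0 hQS t g
      | inr c =>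
        rw [ord_inr D I hI αc hα (𝔓.under (𝓞 M)) hQ0 hQS c g, if_neg]
        intro hdvd
        have hp : ((g⁻¹ • (𝔓.under (𝓞 M))).under (𝓞 (Fc a c))).IsPrime := inferInstance
        refine hvI c _ hp hdvd ?_
        rw [Ideal.under_under, Ideal.under_smul, hQv]

theorem layer_inert [Fintype (XT a)] {S₀ : Set (Ideal (𝓞 K))} (q : ℕ) (hq : 0 < q) (ζ : K)
    (hζ : IsPrimitiveRoot ζ q) (hA : ∀ t : A, t ^ q = 1) (D : LayerData a q S₀)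
    (I : Tup fun c => Fc a c) (hI : Good (K := K) D.S I) (αc : (c : Fin b) → 𝓞 (Fc a c))
    (hα : IsGen D I αc) (O : LOut A a q ζ D.bt αc) (v : Ideal (𝓞 K)) (c : Fin b)
    (V : Ideal (𝓞 (Fc a c))) (hV : V.IsPrime) (hVI : V ∣ I c) (hVv : V.under (𝓞 K) = v)
    (𝔓 : Ideal (𝓞 Ω)) (h𝔓 : 𝔓.IsPrime) (h𝔓v : 𝔓.under (𝓞 K) = v) :
    ∃ g : Gal(M/K), ∀ τ ∈ 𝔓.inertia Gal(Ω/K),
      O.ρ τ ∈ Subgroup.zpowers (g * ((a c : A) : Gal(M/K)) * g⁻¹) := by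
  classical
  have hvS : v ∉ D.S := by
    rw [← hVv]
    exact hI.notMem c V hV hVI
  have hv : v.IsPrime := by
    rw [← hVv]
    infer_instance
  have hV0 : V ≠ ⊥ := by
    rintro rfl
    exact hI.ne c (zero_dvd_iff.1 hVI)
  have hv0 : v ≠ ⊥ := by
    intro h
    exact hV0 (Ideal.eq_bot_of_comap_eq_bot (R := 𝓞 K) (hVv.trans h))
  have hQp : (𝔓.under (𝓞 M)).IsPrime := inferInstance
  have hQ0 : 𝔓.under (𝓞 M) ≠ ⊥ := layerInert_ne_bot 𝔓 v hv0 h𝔓v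
  have hQv : (𝔓.under (𝓞 M)).under (𝓞 K) = v := layerInert_under 𝔓 v h𝔓v
  have hQS : (𝔓.under (𝓞 M)).under (𝓞 K) ∉ D.S := by rwa [hQv]
  obtain ⟨g, -, hg⟩ := layer_unique D I hI αc hα (𝔓.under (𝓞 M)) hQ0 hQS c V hV hVI
    (hVv.trans hQv.symm)
  refine ⟨g, fun τ hτ => ?_⟩
  have h := layerInert_common q hq ζ hζ hA D I αc hα O v hv hv0 hvS 𝔓 h𝔓 h𝔓v
    (Subgroup.zpowers (aX a ⟨Sum.inr c, (g : Gal(M/K) ⧸ UU a (Sum.inr c))⟩)) (fun x hx => ?_) τ hτ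
  · rw [MonoidHom.map_zpowers] at h
    exact h
  · rw [hg x] at hx
    have hx' : x = ⟨Sum.inr c, (g : Gal(M/K) ⧸ UU a (Sum.inr c))⟩ := by
      by_contra hne
      rw [if_neg hne] at hx
      exact hx rfl
    rw [hx']
    exact Subgroup.mem_zpowers _

end H38.ML
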