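import Pool.Agent.H38.ML.Basic

/-!
# [H38 ML ORD] Elementary facts on `ordAt` (60-120 lines)

`ordAt Q z` is the multiplicity of `Q` in `normalizedFactors (Ideal.span {z})`.
`Ideal.span_singleton_mul_span_singleton`, `UniqueFactorizationMonoid.normalizedFactors_mul`,
`normalizedFactors_pow`; `ordAt Q z = 0 ↔ Q ∤ span {z}` (`Multiset.count_eq_zero`,
`UniqueFactorizationMonoid.mem_normalizedFactors_iff`, a nonzero prime ideal is a prime element of the
monoid of ideals, `Ideal.prime_of_isPrime`; ideals have unique unit so `normalize = id`).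
`ordAt_smul`: the automorphism `I ↦ σ • I` of the monoid of ideals preserves multiplicities
(e.g. express the count by `Q ^ k ∣ I` (`count_normalizedFactors_eq`-type lemma, or
`emultiplicity`), `σ • (Q ^ k) = (σ • Q) ^ k`, `σ • span {z} = span {σ • z}`).
`ordAt_of_span_mul`: immediate from `normalizedFactors_mul`.
`dvd_of_pow_eq`: `y ∈ M` with `y ^ p` an algebraic integer is an algebraic integer; then compare
`ordAt`.
-/

open scoped NumberField Pointwise

noncomputable section

namespace H38.ML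

variable {M : Type} [Field M] [NumberField M]

open UniqueFactorizationMonoid in
theorem ordAt_mul (Q : Ideal (𝓞 M)) {x y : 𝓞 M} (hx : x ≠ 0) (hy : y ≠ 0) :
    ordAt Q (x * y) = ordAt Q x + ordAt Q y := by
  classical
  unfold ordAt
  rw [← Ideal.span_singleton_mul_span_singleton, normalizedFactors_mul, Multiset.count_add]
  · rw [Ne, Ideal.zero_eq_bot, Ideal.span_singleton_eq_bot]; exact hx
  · rw [Ne, Ideal.zero_eq_bot, Ideal.span_singleton_eq_bot]; exact hy

theorem ordAt_one (Q : Ideal (𝓞 M)) : ordAt Q (1 : 𝓞 M) = 0 := by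
  have h := ordAt_mul Q (x := (1 : 𝓞 M)) (y := 1) one_ne_zero one_ne_zero
  rw [mul_one] at h
  omega

theorem ordAt_pow (Q : Ideal (𝓞 M)) {x : 𝓞 M} (hx : x ≠ 0) (n : ℕ) :
    ordAt Q (x ^ n) = n * ordAt Q x := by
  induction n with
  | zero => rw [pow_zero, ordAt_one, Nat.zero_mul]
  | succ n ih =>
    rw [pow_succ, ordAt_mul Q (pow_ne_zero n hx) hx, ih]
    ring

theorem ordAt_prod (Q : Ideal (𝓞 M)) {ι : Type} (s : Finset ι) (f : ι → 𝓞 M)
    (hf : ∀ i ∈ s, f i ≠ 0) : ordAt Q (∏ i ∈ s, f i) = ∑ i ∈ s, ordAt Q (f i) := by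
  classical
  induction s using Finset.induction_on with
  | empty => rw [Finset.prod_empty, Finset.sum_empty, ordAt_one]
  | insert a s ha ih =>
    rw [Finset.prod_insert ha, Finset.sum_insert ha, ordAt_mul Q, ih]
    · exact fun i hi => hf i (Finset.mem_insert_of_mem hi)
    · exact hf a (Finset.mem_insert_self a s)
    · exact Finset.prod_ne_zero_iff.2 fun i hi => hf i (Finset.mem_insert_of_mem hi)

open UniqueFactorizationMonoid in
theorem ordAt_eq_zero_iff (Q : Ideal (𝓞 M)) [Q.IsPrime] (hQ : Q ≠ ⊥) {z : 𝓞 M} (hz : z ≠ 0) :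
    ordAt Q z = 0 ↔ z ∉ Q := by
  classical
  have hz' : Ideal.span {z} ≠ (⊥ : Ideal (𝓞 M)) := by
    rw [Ne, Ideal.span_singleton_eq_bot]; exact hz
  unfold ordAt
  rw [Multiset.count_eq_zero, Ideal.mem_normalizedFactors_iff hz', Ideal.span_singleton_le_iff_mem]
  constructor
  · intro h hzQ
    exact h ⟨inferInstance, hzQ⟩
  · rintro h ⟨_, h2⟩
    exact h h2

open Classical in
theorem ordAt_of_span_mul (Q : Ideal (𝓞 M)) {z : 𝓞 M} (I J : Ideal (𝓞 M)) (hI : I ≠ ⊥)
    (hJ : J ≠ ⊥) (h : Ideal.span {z} = I * J) :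
    ordAt Q z = Multiset.count Q (UniqueFactorizationMonoid.normalizedFactors I) +
      Multiset.count Q (UniqueFactorizationMonoid.normalizedFactors J) := by
  unfold ordAt
  rw [h, UniqueFactorizationMonoid.normalizedFactors_mul hI hJ, Multiset.count_add]

private theorem dvd_smul {K : Type} [Field K] [Algebra K M] (σ : Gal(M/K)) (I J : Ideal (𝓞 M))
    (h : I ∣ J) : σ • I ∣ σ • J := by
  obtain ⟨L, rfl⟩ := h
  rw [smul_mul']
  exact dvd_mul_right _ _

private theorem dvd_smul_iff {K : Type} [Field K] [Algebra K M] (σ : Gal(M/K)) (I J : Ideal (𝓞 M)) :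
    σ • I ∣ σ • J ↔ I ∣ J := by
  constructor
  · intro h
    have := dvd_smul σ⁻¹ _ _ h
    rwa [inv_smul_smul, inv_smul_smul] at this
  · exact dvd_smul σ I J

open UniqueFactorizationMonoid in
open Classical in
private theorem count_smul {K : Type} [Field K] [Algebra K M] (Q : Ideal (𝓞 M)) (σ : Gal(M/K))
    (I : Ideal (𝓞 M)) (hI : I ≠ ⊥) :
    Multiset.count (σ • Q) (normalizedFactors (σ • I)) = Multiset.count Q (normalizedFactors I) := by
  have hsI : σ • I ≠ ⊥ := by
    intro h
    apply hI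
    have : σ⁻¹ • (σ • I) = σ⁻¹ • (⊥ : Ideal (𝓞 M)) := by rw [h]
    rw [inv_smul_smul] at this
    rw [this]
    exact smul_zero _
  by_cases hQ : Q.IsPrime ∧ Q ≠ ⊥
  · obtain ⟨hQp, hQ0⟩ := hQ
    have hsQ0 : σ • Q ≠ ⊥ := by
      intro h
      apply hQ0
      have : σ⁻¹ • (σ • Q) = σ⁻¹ • (⊥ : Ideal (𝓞 M)) := by rw [h]
      rw [inv_smul_smul] at this
      rw [this]
      exact smul_zero _
    have hirr : Irreducible Q := (Ideal.prime_of_isPrime hQ0 hQp).irreducible
    have hprime : Prime (σ • Q) := by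
      have h1 : (σ • Q).IsPrime := inferInstance
      exact Ideal.prime_of_isPrime hsQ0 h1
    have hirr2 : Irreducible (σ • Q) := hprime.irreducible
    set n := Multiset.count Q (normalizedFactors I) with hn
    have hle : Q ^ n ∣ I := by
      have := (le_emultiplicity_iff_replicate_le_normalizedFactors (n := n) hirr hI).2 (by
        rw [normalize_eq]
        exact Multiset.le_count_iff_replicate_le.1 hn.le)
      exact pow_dvd_of_le_emultiplicity this
    have hlt : ¬ Q ^ (n + 1) ∣ I := by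
      intro hd
      have h1 := le_emultiplicity_of_pow_dvd hd
      have h2 := (le_emultiplicity_iff_replicate_le_normalizedFactors (n := n + 1) hirr hI).1 h1
      rw [normalize_eq] at h2
      have h3 := Multiset.le_count_iff_replicate_le.2 h2
      omega
    refine UniqueFactorizationMonoid.count_normalizedFactors_eq hirr2 (normalize_eq _) ?_ ?_
    · rw [← smul_pow', dvd_smul_iff]
      exact hle
    · rw [← smul_pow', dvd_smul_iff]
      exact hlt
  · have h1 : Q ∉ normalizedFactors I := by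
      intro hmem
      have := (Ideal.mem_normalizedFactors_iff hI).1 hmem
      apply hQ
      refine ⟨this.1, ?_⟩
      intro h0
      rw [h0] at this
      exact hI (le_bot_iff.1 this.2)
    have h2 : σ • Q ∉ normalizedFactors (σ • I) := by
      intro hmem
      have := (Ideal.mem_normalizedFactors_iff hsI).1 hmem
      have h3 : (σ⁻¹ • (σ • Q)).IsPrime := by
        have := this.1
        infer_instance
      rw [inv_smul_smul] at h3
      apply hQ
      refine ⟨h3, ?_⟩
      intro h0
      rw [h0] at this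
      have h4 : σ • (⊥ : Ideal (𝓞 M)) = ⊥ := smul_zero _
      rw [h4] at this
      exact hsI (le_bot_iff.1 this.2)
    rw [Multiset.count_eq_zero_of_notMem h1, Multiset.count_eq_zero_of_notMem h2]

theorem ordAt_smul {K : Type} [Field K] [Algebra K M] (Q : Ideal (𝓞 M)) (σ : Gal(M/K))
    (z : 𝓞 M) : ordAt (σ • Q) (σ • z) = ordAt Q z := by
  classical
  unfold ordAt
  have hspan : Ideal.span {σ • z} = σ • Ideal.span {z} := by
    rw [Ideal.pointwise_smul_def, Ideal.map_span, Set.image_singleton]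
    rfl
  by_cases hz : z = 0
  · subst hz
    rw [smul_zero, Ideal.span_singleton_eq_bot.2 rfl, ← Ideal.zero_eq_bot,
      UniqueFactorizationMonoid.normalizedFactors_zero]
    simp
  · rw [hspan]
    exact count_smul Q σ _ (by rw [Ne, Ideal.span_singleton_eq_bot]; exact hz)

/-- If `∏ z_i ^ m_i` is a `p`-th power in `M`, then `p` divides `∑ m_i ord (z_i)`. -/
theorem dvd_of_pow_eq (Q : Ideal (𝓞 M)) {X : Type} [Fintype X] (z : X → 𝓞 M) (hz : ∀ x, z x ≠ 0)
    (m : X → ℕ) (p : ℕ) (hp : 0 < p) (y : M) (h : y ^ p = ∏ x, ((z x : 𝓞 M) : M) ^ m x) :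
    p ∣ ∑ x, m x * ordAt Q (z x) := by
  have hint : IsIntegral ℤ y := by
    apply IsIntegral.of_pow hp
    rw [h]
    exact IsIntegral.prod _ fun x _ => (z x).isIntegral_coe.pow _
  set y' : 𝓞 M := ⟨y, hint⟩ with hy'
  have h1 : y' ^ p = ∏ x, z x ^ m x := by
    apply NumberField.RingOfIntegers.ext
    have e1 : ((y' ^ p : 𝓞 M) : M) = (y' : M) ^ p := map_pow (algebraMap (𝓞 M) M) y' p
    have e2 : ((∏ x, z x ^ m x : 𝓞 M) : M) = ∏ x, ((z x : 𝓞 M) : M) ^ m x := by
      have := map_prod (algebraMap (𝓞 M) M) (fun x => z x ^ m x) Finset.univ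
      simp only [map_pow] at this
      exact this
    rw [e1, e2]
    exact h
  have hne : ∀ x ∈ (Finset.univ : Finset X), z x ^ m x ≠ 0 := fun x _ => pow_ne_zero _ (hz x)
  have hy0 : y' ≠ 0 := by
    intro h0
    rw [h0, zero_pow hp.ne'] at h1
    exact (Finset.prod_ne_zero_iff.2 hne) h1.symm
  have h2 := congrArg (ordAt Q) h1
  rw [ordAt_pow Q hy0, ordAt_prod Q _ _ hne] at h2
  have h3 : ∑ x, ordAt Q (z x ^ m x) = ∑ x, m x * ordAt Q (z x) :=
    Finset.sum_congr rfl fun x _ => ordAt_pow Q (hz x) (m x)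
  rw [← h3, ← h2]
  exact dvd_mul_right _ _

end H38.ML
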