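import Pool.Agent.H38.ML.Basic

/-!
# [H38 ML PRIME] Elements of least index have prime order (elementary, 60-100 lines)

Proof.  Let `N = orderOf g`, `N ≠ 1`.  Suppose `N` is not prime; choose a prime `p ∣ N`.  Then
`h = g ^ p ≠ 1` (otherwise `N ∣ p`).  As `h ∈ G`, `h ≠ 1`, we have `indG G ≤ ind h` (`Nat.sInf_le`),
so `ind g ≤ ind h`.  `zpowers h ≤ zpowers g`, so the orbit relation of `zpowers h` refines the one of
`zpowers g`; the map from `zpowers h`-orbits to `zpowers g`-orbits is surjective between finite sets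
with at most `n` elements, and `ind g ≤ ind h` gives `orbs (zpowers h) ≤ orbs (zpowers g)`
(both are `≤ n`), so the map is bijective: the two orbit relations coincide.
Hence for every `x : Fin n` there is `k : ℤ` with `g ^ (p k) x = g x`, i.e. `g ^ (p k - 1) x = x`.
Write `N = p ^ e * m` with `p ∤ m`.  `p ^ e` and `p k - 1` are coprime, so `m` is an integral
combination of `N` and `p k - 1`, hence `g ^ m x = x` for all `x`, so `g ^ m = 1`, so `N ∣ m`,
`p ∣ m`, contradiction.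
-/

namespace H38.ML

theorem prime_of_least {n : ℕ} (G : Subgroup (Equiv.Perm (Fin n))) (g : G) (hg : g ≠ 1)
    (h : ind (g : Equiv.Perm (Fin n)) = indG G) : (orderOf g).Prime := by
  classical
  by_contra hN
  obtain ⟨γ, hγ⟩ : ∃ γ : Equiv.Perm (Fin n), γ = (g : Equiv.Perm (Fin n)) := ⟨_, rfl⟩
  rw [← hγ] at h
  have hγG : γ ∈ G := by rw [hγ]; exact g.2
  rw [← Subgroup.orderOf_coe, ← hγ] at hN
  have hγ1 : γ ≠ 1 := by
    intro h1
    apply hg
    apply Subtype.ext
    rw [← hγ, h1]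
    rfl
  have hN1 : orderOf γ ≠ 1 := fun h1 => hγ1 (orderOf_eq_one_iff.1 h1)
  have hN0 : orderOf γ ≠ 0 := (orderOf_pos γ).ne'
  obtain ⟨p, hp, hpN⟩ := Nat.exists_prime_and_dvd hN1
  have hh1 : γ ^ p ≠ 1 := by
    intro h1
    have h2 : orderOf γ ∣ p := orderOf_dvd_of_pow_eq_one h1
    rcases (Nat.dvd_prime hp).1 h2 with h3 | h3
    · exact hN1 h3
    · exact hN (h3 ▸ hp)
  have hle : indG G ≤ ind (γ ^ p) := Nat.sInf_le ⟨γ ^ p, G.pow_mem hγG p, hh1, rfl⟩
  rw [← h] at hle
  have hcard : ∀ H : Subgroup (Equiv.Perm (Fin n)), orbs H ≤ n := by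
    intro H
    have h1 : Function.Surjective
        (Quotient.mk (MulAction.orbitRel H (Fin n))) := Quotient.mk_surjective
    have h2 := Nat.card_le_card_of_surjective _ h1
    rw [Nat.card_fin] at h2
    exact h2
  have horb : orbs (Subgroup.zpowers (γ ^ p)) ≤ orbs (Subgroup.zpowers γ) := by
    have h1 := hcard (Subgroup.zpowers (γ ^ p))
    have h2 := hcard (Subgroup.zpowers γ)
    unfold ind at hle
    omega
  have hsub : Subgroup.zpowers (γ ^ p) ≤ Subgroup.zpowers γ := by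
    rw [Subgroup.zpowers_le]
    exact Subgroup.pow_mem _ (Subgroup.mem_zpowers γ) p
  have hrel : ∀ x y : Fin n, MulAction.orbitRel (Subgroup.zpowers (γ ^ p)) (Fin n) x y →
      MulAction.orbitRel (Subgroup.zpowers γ) (Fin n) x y := by
    intro x y hxy
    rw [MulAction.orbitRel_apply] at hxy ⊢
    obtain ⟨⟨a, ha⟩, hax⟩ := hxy
    exact ⟨⟨a, hsub ha⟩, hax⟩
  let F : MulAction.orbitRel.Quotient (Subgroup.zpowers (γ ^ p)) (Fin n) →
      MulAction.orbitRel.Quotient (Subgroup.zpowers γ) (Fin n) :=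
    Quotient.map id hrel
  have hFs : Function.Surjective F := by
    intro q
    induction q using Quotient.inductionOn with
    | h x => exact ⟨Quotient.mk _ x, rfl⟩
  have hFb : Function.Bijective F := hFs.bijective_of_nat_card_le horb
  have hfix : ∀ x : Fin n, ∃ k : ℤ, (γ ^ ((p : ℤ) * k - 1)) x = x := by
    intro x
    have h1 : F (Quotient.mk _ (γ x)) = F (Quotient.mk _ x) := by
      change Quotient.mk _ (γ x) = Quotient.mk _ x
      apply Quotient.sound
      change MulAction.orbitRel (Subgroup.zpowers γ) (Fin n) (γ x) x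
      rw [MulAction.orbitRel_apply]
      exact ⟨⟨γ, Subgroup.mem_zpowers γ⟩, rfl⟩
    have h2 := Quotient.exact (hFb.1 h1)
    change MulAction.orbitRel (Subgroup.zpowers (γ ^ p)) (Fin n) (γ x) x at h2
    rw [MulAction.orbitRel_apply] at h2
    obtain ⟨⟨a, ha⟩, hax⟩ := h2
    obtain ⟨k, rfl⟩ := Subgroup.mem_zpowers_iff.1 ha
    refine ⟨k, ?_⟩
    have h3 : ((γ ^ p) ^ k) x = γ x := hax
    have h4 : γ ^ ((p : ℤ) * k - 1) = γ⁻¹ * (γ ^ p) ^ k := by
      rw [sub_eq_neg_add, zpow_add, zpow_neg_one, zpow_mul, zpow_natCast]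
    rw [h4, Equiv.Perm.mul_apply, h3]
    simp
  obtain ⟨e, m, hpm, hNe⟩ := Nat.exists_eq_pow_mul_and_not_dvd hN0 p hp.one_lt.ne'
  have hm : γ ^ m = 1 := by
    ext x
    obtain ⟨k, hk⟩ := hfix x
    have hco : IsCoprime ((p : ℤ) ^ e) ((p : ℤ) * k - 1) := by
      apply IsCoprime.pow_left
      exact ⟨k, -1, by ring⟩
    obtain ⟨u, v, huv⟩ := hco
    have h1 : (m : ℤ) = ((p : ℤ) * k - 1) * (v * m) + (orderOf γ : ℤ) * u := by
      rw [hNe]
      push_cast
      linear_combination (-(m : ℤ)) * huv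
    have h2 : γ ^ m = (γ ^ ((p : ℤ) * k - 1)) ^ (v * m : ℤ) := by
      calc γ ^ m = γ ^ (m : ℤ) := (zpow_natCast γ m).symm
        _ = γ ^ (((p : ℤ) * k - 1) * (v * m) + (orderOf γ : ℤ) * u) := congrArg _ h1
        _ = (γ ^ ((p : ℤ) * k - 1)) ^ (v * m : ℤ) := by
          rw [zpow_add, zpow_mul, zpow_mul γ (orderOf γ : ℤ) u,
            zpow_natCast γ (orderOf γ), pow_orderOf_eq_one, one_zpow, mul_one]
    have h3 : ((γ ^ ((p : ℤ) * k - 1)) ^ (v * m : ℤ)) x = x :=
      Equiv.Perm.zpow_apply_eq_self_of_apply_eq_self hk _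
    rw [h2, h3]
    rfl
  exact hpm (hpN.trans (orderOf_dvd_of_pow_eq_one hm))

end H38.ML
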