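import Pool.Agent.H38.ML.Factor

/-!
# [H38 ML SMALL] From a surjective homomorphism onto `G` to a small `G`-field (100-160 lines)

`G ≤ Perm (Fin n)` transitive, `ρ : Γ = Gal(QBar/K) → G` surjective of finite type,
`U = (MulAction.stabilizer G i₀).comap ρ`, `L = fixedField U`.  `U ⊇ ρ.ker ⊇ E.fixingSubgroup`,
so by `fixing_fixedField` `L.fixingSubgroup = U` and `L/K` is finite.

The bijection `e : (L →ₐ[K] QBar) ≃ Fin n`: every `φ : L →ₐ[K] QBar` is the restriction of some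
`σ ∈ Γ` (`AlgHom.liftNormal`/`IntermediateField.exists_algHom_of_...`/
`(AlgEquiv...)`: `QBar/K` is normal and algebraic, use e.g. `AlgEquiv.liftNormal` or
`IsAlgClosed.lift` + `Algebra.IsAlgebraic.algHom_bijective`), and
`σ|L = τ|L ↔ σ⁻¹ τ ∈ L.fixingSubgroup = U ↔ ρ σ i₀ = ρ τ i₀`.  Put `e φ = ρ σ i₀`.  It is well
defined, injective, and surjective because `ρ` is surjective and `G` transitive.
`e (σ ∘ φ) = ρ σ (e φ)` for all `σ ∈ Γ`.  `finrank K L = card (L →ₐ[K] QBar) = n`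
(`AlgHom.card` / `Field.finSepDegree` in characteristic zero with `QBar` algebraically closed).
`IsSmall`: `π ∈ G` gives `π = ρ σ` for some `σ`; conversely if `π (e φ) = e (σ ∘ φ) = ρ σ (e φ)` for all
`φ` then `π = ρ σ ∈ G`.
Last claim: under `e` the relation `∃ τ ∈ J, τ ∘ φ = ψ` becomes
`∃ g ∈ (J.map ρ).map G.subtype, g (e φ) = e ψ`, the orbit relation; so both sides count the
classes of the same relation (`Nat.card_congr`, `Quot.congr`/`Quotient` manipulations;
`MulAction.orbitRel.Quotient H α` is `Quotient (MulAction.orbitRel H α)`).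
-/

open scoped NumberField Pointwise

namespace H38.ML

/-- The subfield of `QBar` belonging to the stabilizer of `i₀`. -/
noncomputable abbrev fieldOf {n : ℕ} {G : Subgroup (Equiv.Perm (Fin n))}
    {K : IntermediateField ℚ QBar} (i₀ : Fin n) (ρ : Gal(QBar/K) →* G) : IntermediateField K QBar :=
  IntermediateField.fixedField ((MulAction.stabilizer G i₀).comap ρ)

/-- Every embedding of an intermediate field `L` is the restriction of an automorphism. -/
theorem small_exists_ext {K : IntermediateField ℚ QBar} (L : IntermediateField K QBar)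
    (φ : L →ₐ[K] QBar) :
    ∃ σ : Gal(QBar/K), φ = ((σ : Gal(QBar/K)) : QBar →ₐ[K] QBar).comp L.val := by
  have hn : Normal K QBar := IsAlgClosure.normal K QBar
  refine ⟨AlgEquiv.ofBijective (φ.liftNormal QBar) (AlgHom.normal_bijective K QBar QBar _), ?_⟩
  ext x
  exact (φ.liftNormal_commutes QBar x).symm

theorem small_comp_val_eq_iff {K : IntermediateField ℚ QBar} (L : IntermediateField K QBar)
    (σ τ : Gal(QBar/K)) :
    ((σ : Gal(QBar/K)) : QBar →ₐ[K] QBar).comp L.val =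
      ((τ : Gal(QBar/K)) : QBar →ₐ[K] QBar).comp L.val ↔ τ⁻¹ * σ ∈ L.fixingSubgroup := by
  rw [IntermediateField.mem_fixingSubgroup_iff]
  constructor
  · intro h x hx
    have h1 := DFunLike.congr_fun h (⟨x, hx⟩ : L)
    have h2 : σ x = τ x := h1
    rw [AlgEquiv.mul_apply, h2]
    exact τ.symm_apply_apply x
  · intro h
    ext x
    have h1 := h x.1 x.2
    rw [AlgEquiv.mul_apply] at h1
    have h2 : σ x.1 = τ x.1 := by
      have := congrArg τ h1
      have h3 : τ (τ⁻¹ (σ x.1)) = σ x.1 := τ.apply_symm_apply _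
      rw [h3] at this
      exact this
    exact h2

theorem small_field {n : ℕ} (G : Subgroup (Equiv.Perm (Fin n)))
    (hG : MulAction.IsPretransitive G (Fin n)) (K : IntermediateField ℚ QBar)
    [FiniteDimensional ℚ K] (i₀ : Fin n) (ρ : Gal(QBar/K) →* G) (hρ : Function.Surjective ρ)
    (hft : FT ρ) :
    FiniteDimensional K (fieldOf i₀ ρ) ∧ Module.finrank K (fieldOf i₀ ρ) = n ∧
      IsSmall G K (fieldOf i₀ ρ) ∧
      ∀ J : Subgroup Gal(QBar/K), embOrb (fieldOf i₀ ρ) J = orbs ((J.map ρ).map G.subtype) := by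
  classical
  have hnf : NumberField K := numberField_of_finite K
  obtain ⟨E, hE, hle⟩ := hft
  set U : Subgroup Gal(QBar/K) := (MulAction.stabilizer G i₀).comap ρ with hU
  have hEU : E.fixingSubgroup ≤ U := by
    intro σ hσ
    have h1 : ρ σ = 1 := hle hσ
    rw [hU, Subgroup.mem_comap, h1]
    exact one_mem _
  obtain ⟨hfix, hfin⟩ := fixing_fixedField U E hEU
  set L : IntermediateField K QBar := fieldOf i₀ ρ with hL
  have hfixL : L.fixingSubgroup = U := hfix
  have hfinL : FiniteDimensional K L := hfin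
  -- the key equivalence
  have key : ∀ σ τ : Gal(QBar/K),
      ((σ : Gal(QBar/K)) : QBar →ₐ[K] QBar).comp L.val =
        ((τ : Gal(QBar/K)) : QBar →ₐ[K] QBar).comp L.val ↔ ρ σ • i₀ = ρ τ • i₀ := by
    intro σ τ
    rw [small_comp_val_eq_iff, hfixL, hU, Subgroup.mem_comap, MulAction.mem_stabilizer_iff, map_mul,
      map_inv, mul_smul, inv_smul_eq_iff]
  choose f hf using small_exists_ext L
  have hcomp : ∀ (σ : Gal(QBar/K)) (φ : L →ₐ[K] QBar),
      ((σ : Gal(QBar/K)) : QBar →ₐ[K] QBar).comp φ =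
        ((σ * f φ : Gal(QBar/K)) : QBar →ₐ[K] QBar).comp L.val := by
    intro σ φ
    conv_lhs => rw [hf φ]
    ext x
    rfl
  have hinj : Function.Injective (fun φ : L →ₐ[K] QBar => ρ (f φ) • i₀) := by
    intro φ ψ h
    rw [hf φ, hf ψ]
    exact (key _ _).2 h
  have hsurj : Function.Surjective (fun φ : L →ₐ[K] QBar => ρ (f φ) • i₀) := by
    intro i
    obtain ⟨g, hg⟩ := hG.exists_smul_eq i₀ i
    obtain ⟨σ, rfl⟩ := hρ g
    refine ⟨((σ : Gal(QBar/K)) : QBar →ₐ[K] QBar).comp L.val, ?_⟩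
    rw [← hg]
    exact (key _ _).1 (hf _).symm
  let e : (L →ₐ[K] QBar) ≃ Fin n := Equiv.ofBijective _ ⟨hinj, hsurj⟩
  have he : ∀ φ, e φ = ρ (f φ) • i₀ := fun φ => rfl
  have heσ : ∀ (σ : Gal(QBar/K)) (φ : L →ₐ[K] QBar),
      e (((σ : Gal(QBar/K)) : QBar →ₐ[K] QBar).comp φ) = ρ σ • e φ := by
    intro σ φ
    rw [he, he, ← mul_smul, ← map_mul, ← key, ← hf, hcomp]
  have hrank : Module.finrank K L = n := by
    have h1 : Nat.card (L →ₐ[K] QBar) = Module.finrank K L :=
      AlgHom.natCard_of_splits K L QBar (fun x => IsAlgClosed.splits _)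
    rw [← h1, Nat.card_congr e, Nat.card_fin]
  refine ⟨hfinL, hrank, ⟨hrank, e, fun π => ⟨fun hπ => ?_, fun hπ => ?_⟩⟩, fun J => ?_⟩
  · obtain ⟨σ, hσ⟩ := hρ ⟨π, hπ⟩
    refine ⟨σ, fun φ => ?_⟩
    rw [heσ, hσ]
    rfl
  · obtain ⟨σ, hσ⟩ := hπ
    have h1 : π = (ρ σ : Equiv.Perm (Fin n)) := by
      ext i
      obtain ⟨φ, rfl⟩ := e.surjective i
      rw [hσ φ, heσ]
      rfl
    rw [h1]
    exact (ρ σ).2
  · unfold embOrb orbs
    refine Nat.card_congr (Quot.congr e fun φ ψ => ?_)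
    rw [MulAction.orbitRel_apply, MulAction.mem_orbit_iff]
    constructor
    · rintro ⟨τ, hτ, rfl⟩
      refine ⟨⟨((ρ τ⁻¹ : G) : Equiv.Perm (Fin n)),
        Subgroup.mem_map_of_mem G.subtype (Subgroup.mem_map_of_mem ρ (J.inv_mem hτ))⟩, ?_⟩
      rw [heσ]
      change ρ τ⁻¹ • ρ τ • e φ = e φ
      rw [← mul_smul, ← map_mul, inv_mul_cancel, map_one, one_smul]
    · rintro ⟨⟨g, hg⟩, hgx⟩
      obtain ⟨g', hg', rfl⟩ := Subgroup.mem_map.1 hg
      obtain ⟨τ, hτ, rfl⟩ := Subgroup.mem_map.1 hg'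
      have h2 : ρ τ • e ψ = e φ := hgx
      refine ⟨τ⁻¹, J.inv_mem hτ, ?_⟩
      apply e.injective
      rw [heσ, ← h2, ← mul_smul, ← map_mul, inv_mul_cancel, map_one, one_smul]

end H38.ML
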