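import Pool.Agent.H38.ML.Basic

/-!
# [H38 ML CONJMOD] Elements of prime order congruent modulo a normal subgroup of prime-to-`ℓ` order
are conjugate (60-100 lines)

Let `ℓ = orderOf g`, prime, `ℓ ∤ |N|`.

`conj_of_mod`: `g ≡ h mod N`.  The image `ḡ` of `g` in `G/N` has order dividing the prime `ℓ` and is
not `1` (if `g ∈ N` then `ℓ ∣ |N|`), so it has order `ℓ`; the same for `h`; in particular
`orderOf h = ℓ` (the order of `h̄ = ḡ` divides the prime `orderOf h`, and is `ℓ`).
Let `P = N ⊔ zpowers g`; `h ∈ P` because `g⁻¹ h ∈ N`.  `|P| = |N| ℓ` (or: `|P|` divides `|N| ℓ`: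
`P / N` is generated by `ḡ`), so `zpowers g` and `zpowers h` are subgroups of order `ℓ` of `P`
and `ℓ ^ 2 ∤ |P|`, hence both are Sylow `ℓ`-subgroups of `P` and conjugate in `P`
(`Sylow.exists_smul_eq`, work in the group `↥P`, e.g. with `Sylow.ofCard`): `x g x⁻¹ = h ^ k`,
`x ∈ P`.  Modulo `N`: `x̄` is a power of `ḡ`, so `x̄ ḡ x̄⁻¹ = ḡ`, so `ḡ = h̄ ^ k = ḡ ^ k`, `ℓ ∣ k - 1`
and `h ^ k = h`.
-/

namespace H38.ML

private theorem ord_quot {G : Type} [Group G] [Finite G] (N : Subgroup G) [N.Normal] (g : G)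
    (hg : (orderOf g).Prime) (hgN : Nat.Coprime (orderOf g) (Nat.card N)) :
    orderOf (g : G ⧸ N) = orderOf g := by
  have h1 : orderOf (g : G ⧸ N) ∣ orderOf g := orderOf_map_dvd (QuotientGroup.mk' N) g
  rcases (Nat.dvd_prime hg).1 h1 with h | h
  · exfalso
    rw [orderOf_eq_one_iff, QuotientGroup.eq_one_iff] at h
    have h2 : orderOf g ∣ Nat.card N := by
      have := orderOf_dvd_natCard (⟨g, h⟩ : N)
      rwa [Subgroup.orderOf_mk] at this
    have h3 : orderOf g ∣ 1 := by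
      rw [← hgN.gcd_eq_one]
      exact Nat.dvd_gcd dvd_rfl h2
    exact hg.one_lt.ne' (Nat.dvd_one.1 h3)
  · exact h

theorem conj_of_mod {G : Type} [Group G] [Finite G] (N : Subgroup G) [N.Normal] (g h : G)
    (hg : (orderOf g).Prime) (hh : (orderOf h).Prime) (hgN : Nat.Coprime (orderOf g) (Nat.card N))
    (hhN : Nat.Coprime (orderOf h) (Nat.card N)) (hgh : (g : G ⧸ N) = (h : G ⧸ N)) :
    ∃ x : G, h = x * g * x⁻¹ := by
  classical
  have og := ord_quot N g hg hgN
  have oh := ord_quot N h hh hhN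
  have hord : orderOf h = orderOf g := by rw [← og, ← oh, hgh]
  set P : Subgroup G := (Subgroup.zpowers (g : G ⧸ N)).comap (QuotientGroup.mk' N) with hP
  have hgP : g ∈ P := by
    rw [hP, Subgroup.mem_comap]
    exact Subgroup.mem_zpowers _
  have hhP : h ∈ P := by
    rw [hP, Subgroup.mem_comap]
    have : (QuotientGroup.mk' N) h = (g : G ⧸ N) := hgh.symm
    rw [this]
    exact Subgroup.mem_zpowers _
  set f : P →* G ⧸ N := (QuotientGroup.mk' N).comp P.subtype with hf
  have hker : f.ker = N.subgroupOf P := by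
    ext y
    rw [MonoidHom.mem_ker, Subgroup.mem_subgroupOf, hf]
    simp
  have hNP : N ≤ P := by
    intro y hy
    rw [hP, Subgroup.mem_comap]
    have : (QuotientGroup.mk' N) y = 1 := by
      rw [QuotientGroup.mk'_apply, QuotientGroup.eq_one_iff]
      exact hy
    rw [this]
    exact Subgroup.one_mem _
  have hcardker : Nat.card f.ker = Nat.card N := by
    rw [hker]
    exact Nat.card_congr (Subgroup.subgroupOfEquivOfLe hNP).toEquiv
  have hrange : f.range = Subgroup.zpowers (g : G ⧸ N) := by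
    apply le_antisymm
    · rintro _ ⟨y, rfl⟩
      exact y.2
    · rw [Subgroup.zpowers_le]
      exact ⟨⟨g, hgP⟩, rfl⟩
  have hcard : Nat.card P = Nat.card N * orderOf g := by
    have h1 := Subgroup.card_mul_index f.ker
    rw [Subgroup.index_ker, hcardker, hrange, Nat.card_zpowers, og] at h1
    exact h1.symm
  haveI : Fact (orderOf g).Prime := ⟨hg⟩
  have hfac : (Nat.card P).factorization (orderOf g) = 1 := by
    rw [hcard, Nat.factorization_mul Nat.card_pos.ne' hg.ne_zero, Finsupp.add_apply,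
      hg.factorization_self, Nat.factorization_eq_zero_of_not_dvd, zero_add]
    intro hd
    have h3 : orderOf g ∣ 1 := by
      rw [← hgN.gcd_eq_one]
      exact Nat.dvd_gcd dvd_rfl hd
    exact hg.one_lt.ne' (Nat.dvd_one.1 h3)
  have hcg : Nat.card (Subgroup.zpowers (⟨g, hgP⟩ : P)) = orderOf g ^ (Nat.card P).factorization (orderOf g) := by
    rw [hfac, pow_one, Nat.card_zpowers, Subgroup.orderOf_mk]
  have hch : Nat.card (Subgroup.zpowers (⟨h, hhP⟩ : P)) = orderOf g ^ (Nat.card P).factorization (orderOf g) := by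
    rw [hfac, pow_one, Nat.card_zpowers, Subgroup.orderOf_mk, hord]
  obtain ⟨x, hx⟩ := MulAction.exists_smul_eq P (Sylow.ofCard _ hcg) (Sylow.ofCard _ hch)
  have hx2 : x * ⟨g, hgP⟩ * x⁻¹ ∈ Subgroup.zpowers (⟨h, hhP⟩ : P) := by
    have h1 : ((x • (Sylow.ofCard _ hcg) : Sylow (orderOf g) P) : Subgroup P) =
        Subgroup.zpowers (⟨h, hhP⟩ : P) := by
      rw [hx]
      exact Sylow.coe_ofCard _ _
    rw [← h1, Sylow.coe_subgroup_smul]
    have h2 : (⟨g, hgP⟩ : P) ∈ ((Sylow.ofCard _ hcg : Sylow (orderOf g) P) : Subgroup P) := by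
      rw [Sylow.coe_ofCard]
      exact Subgroup.mem_zpowers _
    have h3 := Subgroup.smul_mem_pointwise_smul _ (MulAut.conj x) _ h2
    simpa [MulAut.smul_def, MulAut.conj_apply] using h3
  obtain ⟨k, hk⟩ := Subgroup.mem_zpowers_iff.1 hx2
  have hk' : h ^ k = (x : G) * g * (x : G)⁻¹ := by
    have := congrArg (Subtype.val) hk
    simpa using this
  -- modulo N
  have hxP : ((x : G) : G ⧸ N) ∈ Subgroup.zpowers (g : G ⧸ N) := x.2
  obtain ⟨a, ha⟩ := Subgroup.mem_zpowers_iff.1 hxP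
  have hq : (g : G ⧸ N) ^ k = (g : G ⧸ N) := by
    have h1 : ((h ^ k : G) : G ⧸ N) = (((x : G) * g * (x : G)⁻¹ : G) : G ⧸ N) := by rw [hk']
    rw [QuotientGroup.mk_zpow, QuotientGroup.mk_mul, QuotientGroup.mk_mul, QuotientGroup.mk_inv, ← hgh, ← ha] at h1
    rw [h1, ← zpow_neg, ← zpow_add_one, ← zpow_add]
    have : a + 1 + -a = 1 := by ring
    rw [this, zpow_one]
  have hd : ((orderOf g : ℕ) : ℤ) ∣ k - 1 := by
    rw [← og, orderOf_dvd_iff_zpow_eq_one, zpow_sub, zpow_one, hq, mul_inv_cancel]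
  have hfin : h ^ k = h := by
    rw [← hord, orderOf_dvd_iff_zpow_eq_one, zpow_sub, zpow_one] at hd
    rwa [mul_inv_eq_one] at hd
  exact ⟨x, by rw [← hk', hfin]⟩

end H38.ML
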