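import Pool.Agent.H38.ML.Prime
import Pool.Agent.H38.ML.ConjMod

/-!
# [H38 ML CLASSES] `K`-conjugacy and representatives of the classes (two short theorems, 80-120 lines)

`kconj_iff`: `→`: given `σ, a, x` take the image of `ζ` in `QBar`: `σ ζ = ζ` because `ζ ∈ K`, so
`ζ ^ a = ζ`, so `a ≡ 1` modulo `|G|` (`IsPrimitiveRoot`), so `g ^ a = g` (`pow_card_eq_one'`,
`a = 0` is possible only when `|G| = 1`).  `←`: take `σ = 1`, `a = 1`.

`classes`: by `kconj_iff` the relation in the definition of `beta` is conjugacy in `G` (an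
equivalence relation, so that `Quot.sound`/`Quot.exact` + `Relation.EqvGen` are easy to handle),
`LeastIn G T N` is finite; take `Fin (beta G K T N) ≃ Quot _` (`Finite.equivFin` or
`Nat.card`-version), `g c` a representative (`Quot.out`) of the class number `c` and `a c` its image
in `G ⧸ N`.  Prime order: `prime_of_least`.  `a c ≠ 1`: otherwise `g c ∈ N` and the prime
`orderOf (g c)` divides `|N|` (`Subgroup.orderOf_dvd_natCard`), contradiction to coprimality.
Last property: if `x * a c * x⁻¹ = a c'` choose `y : G` over `x`; then `y * g c * y⁻¹` and `g c'`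
have the same image in `G ⧸ N`, both have prime order prime to `|N|`, so by `conj_of_mod` they are
conjugate in `G`; so `g c` and `g c'` are conjugate, so they are in the same class and `c = c'`.
-/

open scoped NumberField

namespace H38.ML

variable {n : ℕ} (G : Subgroup (Equiv.Perm (Fin n))) (K : IntermediateField ℚ QBar)

theorem kconj_iff (ζ : K) (hζ : IsPrimitiveRoot ζ (Nat.card G)) (g h : G) :
    KConj G K g h ↔ ∃ x : G, h = x * g * x⁻¹ := by
  constructor
  · rintro ⟨σ, a, x, h1, rfl⟩
    have hz : IsPrimitiveRoot (algebraMap K QBar ζ) (Nat.card G) :=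
      hζ.map_of_injective (algebraMap K QBar).injective
    have h2 := h1 _ hz.pow_eq_one
    rw [AlgEquiv.commutes] at h2
    have hga : g ^ a = g := by
      cases a with
      | zero =>
        rw [pow_zero] at h2
        have h3 : Nat.card G ∣ 1 := hz.dvd_of_pow_eq_one 1 (by rw [pow_one, h2])
        have h4 : g ^ 1 = 1 := by
          obtain ⟨k, hk⟩ := h3
          rw [hk, pow_mul, pow_card_eq_one', one_pow]
        rw [pow_zero, ← h4, pow_one]
      | succ a =>
        have hz0 : algebraMap K QBar ζ ≠ 0 := hz.ne_zero Nat.card_pos.ne'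
        have h3 : (algebraMap K QBar ζ) ^ a = 1 := by
          rw [pow_succ] at h2
          exact mul_right_cancel₀ hz0 (by rw [← h2, one_mul])
        obtain ⟨k, hk⟩ := hz.dvd_of_pow_eq_one a h3
        rw [pow_succ, hk, pow_mul, pow_card_eq_one', one_pow, one_mul]
    exact ⟨x, by rw [hga]⟩
  · rintro ⟨x, rfl⟩
    exact ⟨1, 1, x, fun z _ => by rw [pow_one]; rfl, by rw [pow_one]⟩

theorem classes (ζ : K) (hζ : IsPrimitiveRoot ζ (Nat.card G)) (T N : Subgroup G) [T.Normal]
    [N.Normal] :
    ∃ (a : Fin (beta G K T N) → G ⧸ N) (g : Fin (beta G K T N) → G),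
      (∀ c, ((g c : G) : G ⧸ N) = a c) ∧
      (∀ c, g c ∈ T ∧ g c ≠ 1 ∧ ind (g c : Equiv.Perm (Fin n)) = indG G ∧
        (orderOf (g c)).Prime ∧ Nat.Coprime (orderOf (g c)) (Nat.card N)) ∧
      (∀ c, a c ≠ 1) ∧
      ∀ c c' (x : G ⧸ N), x * a c * x⁻¹ = a c' → c = c' := by
  haveI : Finite (LeastIn G T N) := by
    unfold LeastIn
    infer_instance
  let R : LeastIn G T N → LeastIn G T N → Prop := fun g h => KConj G K g.1 h.1
  haveI : Finite (Quot R) := Finite.of_surjective (Quot.mk R) Quot.mk_surjective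
  have hb : beta G K T N = Nat.card (Quot R) := rfl
  let e : Fin (beta G K T N) ≃ Quot R := (Finite.equivFin (Quot R)).symm
  have hrep : ∀ c, ∃ r : LeastIn G T N, Quot.mk R r = e c := fun c => Quot.exists_rep (e c)
  choose r hr using hrep
  have hprime : ∀ c, (orderOf (r c).1).Prime := fun c =>
    prime_of_least G (r c).1 (r c).2.2.1 (r c).2.2.2.1
  refine ⟨fun c => (((r c).1 : G) : G ⧸ N), fun c => (r c).1, fun c => rfl,
    fun c => ⟨(r c).2.1, (r c).2.2.1, (r c).2.2.2.1, hprime c, (r c).2.2.2.2⟩, ?_, ?_⟩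
  · intro c h
    rw [QuotientGroup.eq_one_iff] at h
    have h1 : orderOf (r c).1 ∣ Nat.card N := Subgroup.orderOf_dvd_natCard N h
    have h2 := Nat.Coprime.eq_one_of_dvd (r c).2.2.2.2 h1
    exact (hprime c).one_lt.ne' h2
  · intro c c' x hx
    obtain ⟨y, rfl⟩ := QuotientGroup.mk_surjective x
    have hord : orderOf (y * (r c).1 * y⁻¹) = orderOf (r c).1 :=
      orderOf_injective (MulAut.conj y).toMonoidHom (MulAut.conj y).injective (r c).1
    obtain ⟨w, hw⟩ := conj_of_mod N (y * (r c).1 * y⁻¹) (r c').1 (by rw [hord]; exact hprime c)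
      (hprime c') (by rw [hord]; exact (r c).2.2.2.2) (r c').2.2.2.2 hx
    have h1 : R (r c) (r c') := (kconj_iff G K ζ hζ _ _).2 ⟨w * y, by
      rw [hw]
      group⟩
    have h2 := Quot.sound h1
    rw [hr, hr] at h2
    exact e.injective h2

end H38.ML
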