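import Pool.Agent.H38.ML.Basic

/-!
# [H38 ML ASYM] Final asymptotic comparison and positivity of the index (two theorems, 40-80 lines)

`ind_pos`: if `g ≠ 1` choose `x` with `g x ≠ x`; `x` and `g x` are in the same orbit of `zpowers g`, so the
surjection from `Fin n` onto the set of orbits is not injective and `orbs < n`.

`asym`: put `X = (B / C) ^ (1/w)`; then `C * X ^ w = B` for `B ≥ 0`.  `X → ∞`, and
`log X = (log B - log C) / w ≥ log B / (2 w)` for `B ≥ C ^ 2` (and `B ≥ 1`).  So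
`c₁ * X * log X ^ d / m ≥ c * B ^ (1/w) * log B ^ d` with
`c = c₁ * C ^ (-1/w) * (2 w) ^ (-d) / m` (`Real.div_rpow`, `Real.rpow_natCast`, `Real.log_rpow`).
-/

namespace H38.ML

theorem ind_pos {n : ℕ} (g : Equiv.Perm (Fin n)) (hg : g ≠ 1) : 0 < ind g := by
  classical
  obtain ⟨x, hx⟩ : ∃ x, g x ≠ x := by
    by_contra hcon
    push Not at hcon
    exact hg (Equiv.ext hcon)
  unfold ind orbs
  rw [Nat.sub_pos_iff_lt]
  have : Fintype (MulAction.orbitRel.Quotient (Subgroup.zpowers g) (Fin n)) := Fintype.ofFinite _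
  rw [Nat.card_eq_fintype_card]
  have h := Fintype.card_lt_of_surjective_not_injective
    (Quotient.mk'' : Fin n → MulAction.orbitRel.Quotient (Subgroup.zpowers g) (Fin n))
    Quotient.mk''_surjective ?_
  · rwa [Fintype.card_fin] at h
  · intro hinj
    apply hx
    apply hinj
    rw [Quotient.eq'']
    exact MulAction.mem_orbit_iff.2 ⟨⟨g, Subgroup.mem_zpowers g⟩, rfl⟩

theorem asym (w d m C : ℕ) (hw : 0 < w) (hm : 0 < m) (hC : 0 < C) (c₁ : ℝ) (hc₁ : 0 < c₁)
    (X₀ : ℝ) :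
    ∃ c : ℝ, 0 < c ∧ ∃ B₀ : ℝ, ∀ B : ℝ, B₀ ≤ B → ∃ X : ℝ, X₀ ≤ X ∧ 0 ≤ X ∧
      (C : ℝ) * X ^ w ≤ B ∧
      c * B ^ (1 / (w : ℝ)) * Real.log B ^ d ≤ c₁ * X * Real.log X ^ d / m := by
  have hw' : (0 : ℝ) < w := by exact_mod_cast hw
  have hm' : (0 : ℝ) < m := by exact_mod_cast hm
  have hC' : (0 : ℝ) < C := by exact_mod_cast hC
  have hCw : (0 : ℝ) < (C : ℝ) ^ (1 / (w : ℝ)) := Real.rpow_pos_of_pos hC' _
  refine ⟨c₁ / ((C : ℝ) ^ (1 / (w : ℝ)) * (2 * w) ^ d * m), by positivity,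
    max 1 (max ((C : ℝ) ^ 2) (C * (max X₀ 0) ^ w)), fun B hB => ?_⟩
  have hB1 : 1 ≤ B := (le_max_left _ _).trans hB
  have hB2 : (C : ℝ) ^ 2 ≤ B := ((le_max_left _ _).trans (le_max_right _ _)).trans hB
  have hB3 : C * (max X₀ 0) ^ w ≤ B := ((le_max_right _ _).trans (le_max_right _ _)).trans hB
  have hB0 : 0 < B := by linarith
  have hBC : 0 < B / C := by positivity
  have hX : max X₀ 0 ≤ (B / C) ^ (1 / (w : ℝ)) := by
    have h1 : (max X₀ 0) ^ w ≤ B / C := by
      rw [le_div_iff₀ hC']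
      linarith
    have h2 : ((max X₀ 0) ^ w) ^ ((w : ℝ)⁻¹) = max X₀ 0 :=
      Real.pow_rpow_inv_natCast (le_max_right _ _) hw.ne'
    rw [one_div, ← h2]
    exact Real.rpow_le_rpow (by positivity) h1 (by positivity)
  refine ⟨(B / C) ^ (1 / (w : ℝ)), (le_max_left _ _).trans hX, (le_max_right _ _).trans hX, ?_, ?_⟩
  · rw [one_div, Real.rpow_inv_natCast_pow hBC.le hw.ne']
    rw [mul_div_cancel₀ _ hC'.ne']
  · have hlog : Real.log B / (2 * w) ≤ Real.log ((B / C) ^ (1 / (w : ℝ))) := by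
      rw [Real.log_rpow hBC, Real.log_div hB0.ne' hC'.ne']
      have h1 : 2 * Real.log C ≤ Real.log B := by
        have h2 := Real.log_le_log (by positivity) hB2
        rw [Real.log_pow] at h2
        exact_mod_cast h2
      rw [div_le_iff₀ (by positivity)]
      have h3 : 1 / (w : ℝ) * (Real.log B - Real.log C) * (2 * w) =
          2 * (Real.log B - Real.log C) := by
        field_simp
      rw [h3]
      linarith
    have hlogB : 0 ≤ Real.log B / (2 * w) := div_nonneg (Real.log_nonneg hB1) (by positivity)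
    have hpow : (Real.log B / (2 * w)) ^ d ≤ Real.log ((B / C) ^ (1 / (w : ℝ))) ^ d :=
      pow_le_pow_left₀ hlogB hlog d
    calc c₁ / ((C : ℝ) ^ (1 / (w : ℝ)) * (2 * w) ^ d * m) * B ^ (1 / (w : ℝ)) * Real.log B ^ d
        = c₁ * (B / C) ^ (1 / (w : ℝ)) * (Real.log B / (2 * w)) ^ d / m := by
          rw [Real.div_rpow hB0.le hC'.le, div_pow]
          field_simp
      _ ≤ c₁ * (B / C) ^ (1 / (w : ℝ)) * Real.log ((B / C) ^ (1 / (w : ℝ))) ^ d / m := by
          have h0 : 0 ≤ c₁ * (B / C) ^ (1 / (w : ℝ)) :=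
            mul_nonneg hc₁.le (Real.rpow_nonneg hBC.le _)
          exact div_le_div_of_nonneg_right (mul_le_mul_of_nonneg_left hpow h0) hm'.le

end H38.ML
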