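import Pool.Agent.H38.ML.Basic

/-!
# [H38 ML BASE] Large base fields (60-110 lines)

`K₀ = ℚ(ζ)` inside `QBar` with `ζ` a primitive root of unity of order `M = m * 2 ^ (s + 3)`
(`IntermediateField.adjoin ℚ {ζ}`; `QBar` contains primitive roots of every order,
`IsAlgClosed`/`HasEnoughRootsOfUnity`, or `IsCyclotomicExtension`).  For a number field `K ⊇ K₀`:
* `ζ ∈ K`, so `ζ ^ (2 ^ (s+3))` is a primitive `m`-th root of unity in `K`
  (`IsPrimitiveRoot.pow`).
* `K` contains a primitive 4-th root of unity `i`, so it has no real place: `K` is totally complex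
  (`NumberField.IsTotallyComplex`; a real embedding would send `i` to a real number of square `-1`).
* The number of infinite places of a totally complex field is `[K : ℚ] / 2`
  (`NumberField.InfinitePlace.card_add_two_mul_card_eq_rank` and `nrRealPlaces = 0`,
  `card = nrRealPlaces + nrComplexPlaces`), and `[K : ℚ] ≥ φ(M) ≥ φ(2 ^ (s+3)) = 2 ^ (s+2) ≥ 2 s`:
  `K` contains a root of unity of order `2 ^ (s+3)`, whose minimal polynomial is cyclotomic of
  degree `2 ^ (s+2)` (`IsPrimitiveRoot.minpoly_eq_cyclotomic..`, `Polynomial.cyclotomic.irreducible_rat`,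
  `Nat.totient_prime_pow`).
-/

open scoped NumberField

namespace H38.ML

theorem base_field (m s : ℕ) (hm : 0 < m) :
    ∃ K₀ : IntermediateField ℚ QBar, FiniteDimensional ℚ K₀ ∧
      ∀ (K : IntermediateField ℚ QBar) (_ : NumberField K), K₀ ≤ K →
        (∃ ζ : K, IsPrimitiveRoot ζ m) ∧ NumberField.IsTotallyComplex K ∧
          s ≤ Fintype.card (NumberField.InfinitePlace K) := by
  have hN0 : 0 < m * 2 ^ (s + 3) := by positivity
  have : NeZero (m * 2 ^ (s + 3)) := ⟨hN0.ne'⟩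
  obtain ⟨ζ, hζ⟩ := HasEnoughRootsOfUnity.exists_primitiveRoot QBar (m * 2 ^ (s + 3))
  have hint : IsIntegral ℚ ζ := (hζ.isIntegral hN0).tower_top
  refine ⟨IntermediateField.adjoin ℚ {ζ}, IntermediateField.adjoin.finiteDimensional hint,
    fun K hK hle => ?_⟩
  have hmem : ζ ∈ K := hle (IntermediateField.mem_adjoin_simple_self ℚ ζ)
  have hζK : IsPrimitiveRoot (⟨ζ, hmem⟩ : K) (m * 2 ^ (s + 3)) :=
    IsPrimitiveRoot.coe_submonoidClass_iff.1 hζ
  have h8 : 8 ≤ 2 ^ (s + 3) := by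
    calc 8 = 2 ^ 3 := by norm_num
      _ ≤ 2 ^ (s + 3) := Nat.pow_le_pow_right (by norm_num) (by omega)
  have hN2 : 2 < m * 2 ^ (s + 3) := by
    calc 2 < 1 * 2 ^ (s + 3) := by omega
      _ ≤ m * 2 ^ (s + 3) := Nat.mul_le_mul_right _ hm
  have hreal : NumberField.InfinitePlace.nrRealPlaces K = 0 :=
    NumberField.InfinitePlace.IsPrimitiveRoot.nrRealPlaces_eq_zero_of_two_lt hN2 hζK
  have hη : IsPrimitiveRoot ((⟨ζ, hmem⟩ : K) ^ m) (2 ^ (s + 3)) := hζK.pow hN0 rfl
  refine ⟨⟨_, hζK.pow hN0 (mul_comm m (2 ^ (s + 3)))⟩, NumberField.nrRealPlaces_eq_zero_iff.1 hreal,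
    ?_⟩
  have h1 := NumberField.InfinitePlace.card_eq_nrRealPlaces_add_nrComplexPlaces K
  have h2 := NumberField.InfinitePlace.card_add_two_mul_card_eq_rank K
  rw [hreal, zero_add] at h1 h2
  have h3 : (minpoly ℚ ((⟨ζ, hmem⟩ : K) ^ m)).natDegree ≤ Module.finrank ℚ K :=
    minpoly.natDegree_le _
  rw [← Polynomial.cyclotomic_eq_minpoly_rat hη (by positivity), Polynomial.natDegree_cyclotomic,
    Nat.totient_prime_pow Nat.prime_two (by omega)] at h3
  have h4 : s < 2 ^ s := Nat.lt_two_pow_self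
  have h5 : 2 ^ (s + 3 - 1) * (2 - 1) = 4 * 2 ^ s := by
    rw [show s + 3 - 1 = s + 2 by omega, pow_add]
    norm_num
    ring
  rw [h5] at h3
  omega

end H38.ML
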