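import Pool.Agent.H38.ML.Basic

/-!
# [H38 ML SYMGROUP] A criterion for the symmetric group (40-80 lines)

`G` is transitive (`htr`), the stabilizer of `x₀` is transitive on the other points (`hfix`), so `G`
is 2-transitive, hence preprimitive (Mathlib: `MulAction.IsMultiplyPretransitive`,
`isPreprimitive_of_is_two_pretransitive` or similar; `Mathlib/GroupTheory/GroupAction/MultipleTransitivity.lean`,
lemmas on `ofStabilizer`), and it contains a swap: Jordan's theorem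
`Equiv.Perm.subgroup_eq_top_of_isPreprimitive_of_isSwap_mem`
(`Mathlib/GroupTheory/GroupAction/Jordan.lean`).
Direct alternative: let `swap x y ∈ G`.  For every pair `u ≠ w` there is `g ∈ G` with
`{g x, g y} = {u, w}` by 2-transitivity, so `swap u w = g (swap x y) g⁻¹ ∈ G`; the swaps generate
`Perm α` (`Equiv.Perm.closure_isSwap`).
-/

namespace H38.ML

theorem top_of_three {α : Type} [Fintype α] [DecidableEq α] (G : Subgroup (Equiv.Perm α))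
    (htr : ∃ σ ∈ G, ∀ x y : α, ∃ i : ℕ, (σ ^ i) x = y)
    (hfix : ∃ σ ∈ G, ∃ x₀ : α, ∀ x y : α, x ≠ x₀ → y ≠ x₀ →
      ∃ i : ℕ, (σ ^ i) x = y ∧ (σ ^ i) x₀ = x₀)
    (hswap : ∃ σ ∈ G, σ.IsSwap) : G = ⊤ := by
  obtain ⟨σ₁, h₁, ht⟩ := htr
  obtain ⟨σ₂, h₂, x₀, hf⟩ := hfix
  obtain ⟨σ₃, h₃, x, y, hxy, hσ₃⟩ := hswap
  rw [eq_top_iff, ← Equiv.Perm.closure_isSwap, Subgroup.closure_le]
  rintro σ ⟨u, w, huw, rfl⟩
  obtain ⟨i, hi⟩ := ht u x₀
  obtain ⟨j, hj⟩ := ht x x₀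
  have hw : (σ₁ ^ i) w ≠ x₀ := by
    rw [← hi]
    exact fun h => huw ((σ₁ ^ i).injective h).symm
  have hy : (σ₁ ^ j) y ≠ x₀ := by
    rw [← hj]
    exact fun h => hxy ((σ₁ ^ j).injective h).symm
  obtain ⟨m, hm1, hm2⟩ := hf _ _ hw hy
  set g : Equiv.Perm α := (σ₁ ^ j)⁻¹ * σ₂ ^ m * σ₁ ^ i with hg
  have hgG : g ∈ G :=
    G.mul_mem (G.mul_mem (G.inv_mem (G.pow_mem h₁ j)) (G.pow_mem h₂ m)) (G.pow_mem h₁ i)
  have hgu : g u = x := by
    rw [hg, Equiv.Perm.mul_apply, Equiv.Perm.mul_apply, hi, hm2, Equiv.Perm.inv_eq_iff_eq, hj]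
  have hgw : g w = y := by
    rw [hg, Equiv.Perm.mul_apply, Equiv.Perm.mul_apply, hm1, Equiv.Perm.inv_eq_iff_eq]
  have hσ : Equiv.swap u w = g⁻¹ * σ₃ * g := by
    rw [hσ₃, ← hgu, ← hgw, Equiv.swap_apply_apply]
    group
  rw [SetLike.mem_coe, hσ]
  exact G.mul_mem (G.mul_mem (G.inv_mem hgG) h₃) hgG

end H38.ML
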