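import Pool.Agent.H38.ML.Split

/-!
# [H38 ML SYMPOLY] A polynomial with prescribed factorisations (120-180 lines)

Choose three different nonzero primes `v₁, v₂, v₃` of `K` which split completely in `E` and with
`#(𝓞 K ⧸ v_i) ≥ k` (`exists_split` three times, each time excluding the earlier ones and the
finitely many primes of norm `< k`, `Ideal.finite_setOf_absNorm_le`), and primes `w_i` of `𝓞 E` above
`v_i`.  The decomposition group of `w_i` is trivial, so the inertia degree is `1`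
(`Ideal.card_stabilizer_eq_card_inertia_mul_finrank`) and `𝓞 K ⧸ v_i → 𝓞 E ⧸ w_i` is bijective.
Over the finite field `κ_i = 𝓞 K ⧸ v_i` choose
`f₁` monic irreducible of degree `k` (finite fields have irreducible polynomials of every degree
`≥ 1`: e.g. the minimal polynomial of a generator of the extension of degree `k`,
`FiniteField`/`GaloisField`; search Mathlib for `exists_monic_irreducible_polynomial`),
`f₂ = X * g` with `g` monic irreducible of degree `k - 1`, `g ≠ X` (if `k - 1 = 1` take `g = X - 1`;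
for degree `≥ 2` automatic),
`f₃ = g₂ * ∏_{a ∈ s} (X - C a)` with `g₂` monic irreducible of degree `2` and `s` a set of `k - 2`
elements.
By the Chinese remainder theorem for the pairwise coprime `v_i`, applied to the coefficients, there
is a monic `f` of degree `k` over `𝓞 K` with `f ≡ f_i mod v_i`.
The maps `𝓞 E ⧸ w_i ← 𝓞 K ⧸ v_i` are isomorphisms, so `f.map (algebraMap (𝓞 K) (𝓞 E))` reduced
modulo `w_i` has the same factorisation type.
-/

open scoped NumberField Pointwise Polynomial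

namespace H38.ML

/-- finite fields have irreducible polynomials of every degree -/
private theorem sp_irred (κ : Type) [Field κ] [Finite κ] (n : ℕ) (hn : 1 ≤ n) :
    ∃ g : κ[X], g.Monic ∧ Irreducible g ∧ g.natDegree = n := by
  obtain ⟨p, hp⟩ := CharP.exists κ
  have hpp : Fact p.Prime := ⟨CharP.char_is_prime κ p⟩
  have hn0 : NeZero n := ⟨by omega⟩
  obtain ⟨α, hα⟩ := Field.exists_primitive_element κ (FiniteField.Extension κ p n)
  have hint : IsIntegral κ α := Algebra.IsIntegral.isIntegral α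
  refine ⟨minpoly κ α, minpoly.monic hint, minpoly.irreducible hint, ?_⟩
  rw [← IntermediateField.adjoin.finrank hint, hα, IntermediateField.finrank_top',
    FiniteField.finrank_extension]

private theorem sp_irred' (R : Type) [CommRing R] [Finite R] (hR : IsField R) (n : ℕ)
    (hn : 1 ≤ n) : ∃ g : R[X], g.Monic ∧ Irreducible g ∧ g.natDegree = n := by
  let _ := hR.toField
  exact sp_irred R n hn

private theorem sp_irred_ne (R : Type) [CommRing R] [Finite R] (hR : IsField R) (n : ℕ)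
    (hn : 1 ≤ n) : ∃ g : R[X], g.Monic ∧ Irreducible g ∧ g.natDegree = n ∧
      g ≠ Polynomial.X := by
  have hnt : Nontrivial R := hR.nontrivial
  have hdom : IsDomain R := hR.isDomain
  rcases Nat.lt_or_ge 1 n with h | h
  · obtain ⟨g, h1, h2, h3⟩ := sp_irred' R hR n hn
    refine ⟨g, h1, h2, h3, fun h4 => ?_⟩
    rw [h4, Polynomial.natDegree_X] at h3
    omega
  · have hn1 : n = 1 := by omega
    refine ⟨Polynomial.X - Polynomial.C 1, Polynomial.monic_X_sub_C 1,
      Polynomial.irreducible_X_sub_C 1, ?_, fun h4 => ?_⟩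
    · rw [Polynomial.natDegree_X_sub_C, hn1]
    · have h5 := congrArg (Polynomial.eval 0) h4
      simp at h5

private theorem sp_split_type (R : Type) [CommRing R] [Finite R] (hR : IsField R) (k : ℕ)
    (hk : 2 ≤ k) (hcard : k ≤ Nat.card R) :
    ∃ (g : R[X]) (s : Finset R), g.Monic ∧ Irreducible g ∧ g.natDegree = 2 ∧
      (g * ∏ t ∈ s, (Polynomial.X - Polynomial.C t)).Monic ∧
      (g * ∏ t ∈ s, (Polynomial.X - Polynomial.C t)).natDegree = k := by
  have hnt : Nontrivial R := hR.nontrivial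
  obtain ⟨g, h1, h2, h3⟩ := sp_irred' R hR 2 (by norm_num)
  have hfin : Fintype R := Fintype.ofFinite R
  obtain ⟨s, -, hs⟩ := Finset.exists_subset_card_eq (s := (Finset.univ : Finset R)) (n := k - 2)
    (by rw [Finset.card_univ, ← Nat.card_eq_fintype_card]; omega)
  have hmon : (∏ t ∈ s, (Polynomial.X - Polynomial.C t)).Monic :=
    Polynomial.monic_prod_of_monic _ _ fun t _ => Polynomial.monic_X_sub_C t
  refine ⟨g, s, h1, h2, h3, h1.mul hmon, ?_⟩
  rw [h1.natDegree_mul hmon, h3, Polynomial.natDegree_prod_of_monic _ _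
    fun t _ => Polynomial.monic_X_sub_C t]
  simp only [Polynomial.natDegree_X_sub_C, Finset.sum_const, smul_eq_mul, mul_one, hs]
  omega

/-- completely split primes: the residue fields agree -/
private theorem sp_prime (K E : Type) [Field K] [NumberField K] [Field E] [NumberField E]
    [Algebra K E] [IsGalois K E] (S : Set (Ideal (𝓞 K))) (hS : S.Finite) :
    ∃ (v : Ideal (𝓞 K)) (w : Ideal (𝓞 E)), v.IsPrime ∧ v ≠ ⊥ ∧ v ∉ S ∧ w.IsPrime ∧ w ≠ ⊥ ∧
      ∃ e : (𝓞 K ⧸ v) ≃+* (𝓞 E ⧸ w), ∀ x : 𝓞 K,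
        e (Ideal.Quotient.mk v x) = Ideal.Quotient.mk w (algebraMap (𝓞 K) (𝓞 E) x) := by
  obtain ⟨v, hv, hv0, hvS, hst⟩ := exists_split K E S hS
  have hvm : v.IsMaximal := hv.isMaximal hv0
  obtain ⟨w, hwm, hlo⟩ := Ideal.exists_maximal_ideal_liesOver_of_isIntegral (S := 𝓞 E) v
  have hwp : w.IsPrime := hwm.isPrime
  have hover : w.under (𝓞 K) = v := hlo.over.symm
  have hw0 : w ≠ ⊥ := by
    intro h
    apply hv0
    rw [← hover, h]
    exact Ideal.comap_bot_of_injective _ (FaithfulSMul.algebraMap_injective (𝓞 K) (𝓞 E))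
  have hstab := hst w hwp hover
  have h1 := Ideal.card_stabilizer_eq_card_inertia_mul_finrank (G := Gal(E/K)) v w
  rw [hstab, Subgroup.card_bot] at h1
  have h2 : w.inertiaDeg (𝓞 K) = 1 := Nat.eq_one_of_mul_eq_one_left h1.symm
  have h3 := Ideal.absNorm_pow_inertiaDeg v w
  rw [h2, pow_one] at h3
  have hle : v ≤ w.comap (algebraMap (𝓞 K) (𝓞 E)) := le_of_eq hover.symm
  let φ : (𝓞 K ⧸ v) →+* (𝓞 E ⧸ w) := Ideal.quotientMap w (algebraMap (𝓞 K) (𝓞 E)) hle
  have hinj : Function.Injective φ := Ideal.quotientMap_injective' (le_of_eq hover)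
  have hcard : Nat.card (𝓞 K ⧸ v) = Nat.card (𝓞 E ⧸ w) := by
    rw [Ideal.absNorm_apply, Ideal.absNorm_apply, Submodule.cardQuot_apply,
      Submodule.cardQuot_apply] at h3
    exact h3
  have hfw : Finite (𝓞 E ⧸ w) := Ideal.finiteQuotientOfFreeOfNeBot w hw0
  have hfv : Finite (𝓞 K ⧸ v) := Ideal.finiteQuotientOfFreeOfNeBot v hv0
  have hbij : Function.Bijective φ := hinj.bijective_of_nat_card_le hcard.ge
  exact ⟨v, w, hv, hv0, hvS, hwp, hw0, RingEquiv.ofBijective φ hbij, fun x => rfl⟩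

/-- Chinese remainder theorem for the coefficients -/
private theorem sp_crt (R : Type) [CommRing R] [Nontrivial R] (v : Fin 3 → Ideal R)
    (hv : Pairwise (Function.onFun IsCoprime v)) (k : ℕ) (l : Fin 3 → R[X])
    (hm : ∀ i, ((l i).map (Ideal.Quotient.mk (v i))).Monic)
    (hd : ∀ i, ((l i).map (Ideal.Quotient.mk (v i))).natDegree = k) :
    ∃ f : R[X], f.Monic ∧ f.natDegree = k ∧
      ∀ i, f.map (Ideal.Quotient.mk (v i)) = (l i).map (Ideal.Quotient.mk (v i)) := by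
  choose c hc using fun j : ℕ => Ideal.exists_forall_sub_mem_ideal hv fun i => (l i).coeff j
  set q : R[X] := ∑ j ∈ Finset.range k, Polynomial.C (c j) * Polynomial.X ^ j with hq
  have hqd : q.degree < k := by
    rw [← Polynomial.mem_degreeLT, hq]
    refine Submodule.sum_mem _ fun j hj => ?_
    rw [Polynomial.mem_degreeLT]
    refine (Polynomial.degree_C_mul_X_pow_le j (c j)).trans_lt ?_
    exact_mod_cast Finset.mem_range.1 hj
  have hqc : ∀ j, q.coeff j = if j < k then c j else 0 := by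
    intro j
    rw [hq, Polynomial.finsetSum_coeff]
    simp only [Polynomial.coeff_C_mul, Polynomial.coeff_X_pow, mul_ite, mul_one, mul_zero]
    rw [Finset.sum_ite_eq]
    simp only [Finset.mem_range]
  refine ⟨Polynomial.X ^ k + q, Polynomial.monic_X_pow_add hqd,
    ?_, fun i => ?_⟩
  · rw [Polynomial.natDegree_add_eq_left_of_degree_lt
      (by rw [Polynomial.degree_X_pow]; exact hqd), Polynomial.natDegree_X_pow]
  ext j
  rw [Polynomial.coeff_map, Polynomial.coeff_map, Polynomial.coeff_add, Polynomial.coeff_X_pow,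
    hqc]
  rcases lt_trichotomy j k with h | h | h
  · rw [if_neg (by omega), if_pos h, zero_add]
    exact Ideal.Quotient.eq.2 (hc j i)
  · subst h
    rw [if_pos rfl, if_neg (lt_irrefl _), add_zero, map_one]
    have h1 := (hm i).coeff_natDegree
    rw [hd i, Polynomial.coeff_map] at h1
    exact h1.symm
  · rw [if_neg (by omega), if_neg (by omega), add_zero, map_zero]
    have h1 := Polynomial.coeff_eq_zero_of_natDegree_lt
      (p := (l i).map (Ideal.Quotient.mk (v i))) (n := j) (by rw [hd i]; exact h)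
    rw [Polynomial.coeff_map] at h1
    exact h1.symm

private theorem sp_transfer {R S : Type} [CommRing R] [CommRing S] [Algebra R S] (v : Ideal R)
    (w : Ideal S) (e : (R ⧸ v) ≃+* (S ⧸ w))
    (he : ∀ x : R, e (Ideal.Quotient.mk v x) = Ideal.Quotient.mk w (algebraMap R S x))
    (f : R[X]) : (f.map (algebraMap R S)).map (Ideal.Quotient.mk w) =
      Polynomial.mapEquiv e (f.map (Ideal.Quotient.mk v)) := by
  rw [Polynomial.mapEquiv_apply, Polynomial.map_map, Polynomial.map_map]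
  congr 1
  ext x
  exact (he x).symm

theorem sym_poly (K E : Type) [Field K] [NumberField K] [Field E] [NumberField E] [Algebra K E]
    [IsGalois K E] (k : ℕ) (hk : 2 ≤ k) :
    ∃ f : (𝓞 K)[X], f.Monic ∧ f.natDegree = k ∧
      (∃ w : Ideal (𝓞 E), w.IsPrime ∧ w ≠ ⊥ ∧
        Irreducible ((f.map (algebraMap (𝓞 K) (𝓞 E))).map (Ideal.Quotient.mk w))) ∧
      (∃ w : Ideal (𝓞 E), w.IsPrime ∧ w ≠ ⊥ ∧ ∃ g : (𝓞 E ⧸ w)[X], g.Monic ∧ Irreducible g ∧
        g ≠ Polynomial.X ∧
        (f.map (algebraMap (𝓞 K) (𝓞 E))).map (Ideal.Quotient.mk w) = Polynomial.X * g) ∧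
      (∃ w : Ideal (𝓞 E), w.IsPrime ∧ w ≠ ⊥ ∧ ∃ (g : (𝓞 E ⧸ w)[X]) (s : Finset (𝓞 E ⧸ w)),
        g.Monic ∧ Irreducible g ∧ g.natDegree = 2 ∧
        (f.map (algebraMap (𝓞 K) (𝓞 E))).map (Ideal.Quotient.mk w) =
          g * ∏ t ∈ s, (Polynomial.X - Polynomial.C t)) := by
  classical
  have hS0 : {I : Ideal (𝓞 K) | Ideal.absNorm I ≤ k}.Finite :=
    Ideal.finite_setOfPred_absNorm_le k
  obtain ⟨v₀, w₀, hv₀, hv₀0, -, hw₀, hw₀0, e₀, he₀⟩ := sp_prime K E ∅ Set.finite_empty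
  obtain ⟨v₁, w₁, hv₁, hv₁0, hv₁S, hw₁, hw₁0, e₁, he₁⟩ := sp_prime K E {v₀}
    (Set.finite_singleton _)
  obtain ⟨v₂, w₂, hv₂, hv₂0, hv₂S, hw₂, hw₂0, e₂, he₂⟩ := sp_prime K E
    ({v₀, v₁} ∪ {I : Ideal (𝓞 K) | Ideal.absNorm I ≤ k}) (Set.Finite.union (by simp) hS0)
  have h01 : v₀ ≠ v₁ := fun h => hv₁S (by rw [h]; exact Set.mem_singleton _)
  have h02 : v₀ ≠ v₂ := fun h => hv₂S (Or.inl (by rw [h]; exact Set.mem_insert _ _))
  have h12 : v₁ ≠ v₂ := fun h => hv₂S (Or.inl (by rw [h]; exact Or.inr rfl))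
  have hcard : k ≤ Nat.card (𝓞 K ⧸ v₂) := by
    by_contra hlt
    refine hv₂S (Or.inr ?_)
    change Ideal.absNorm v₂ ≤ k
    rw [Ideal.absNorm_apply, Submodule.cardQuot_apply]
    omega
  have hm₀ : v₀.IsMaximal := hv₀.isMaximal hv₀0
  have hm₁ : v₁.IsMaximal := hv₁.isMaximal hv₁0
  have hm₂ : v₂.IsMaximal := hv₂.isMaximal hv₂0
  have hf₀ : Finite (𝓞 K ⧸ v₀) := Ideal.finiteQuotientOfFreeOfNeBot v₀ hv₀0
  have hf₁ : Finite (𝓞 K ⧸ v₁) := Ideal.finiteQuotientOfFreeOfNeBot v₁ hv₁0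
  have hf₂ : Finite (𝓞 K ⧸ v₂) := Ideal.finiteQuotientOfFreeOfNeBot v₂ hv₂0
  have hF₀ : IsField (𝓞 K ⧸ v₀) := (Ideal.Quotient.maximal_ideal_iff_isField_quotient v₀).1 hm₀
  have hF₁ : IsField (𝓞 K ⧸ v₁) := (Ideal.Quotient.maximal_ideal_iff_isField_quotient v₁).1 hm₁
  have hF₂ : IsField (𝓞 K ⧸ v₂) := (Ideal.Quotient.maximal_ideal_iff_isField_quotient v₂).1 hm₂
  obtain ⟨g₀, hg₀m, hg₀i, hg₀d⟩ := sp_irred' (𝓞 K ⧸ v₀) hF₀ k (by omega)
  obtain ⟨g₁, hg₁m, hg₁i, hg₁d, hg₁X⟩ := sp_irred_ne (𝓞 K ⧸ v₁) hF₁ (k - 1) (by omega)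
  obtain ⟨g₂, s, hg₂m, hg₂i, hg₂d, hpm, hpd⟩ := sp_split_type (𝓞 K ⧸ v₂) hF₂ k hk hcard
  have hnt₁ : Nontrivial (𝓞 K ⧸ v₁) := hF₁.nontrivial
  obtain ⟨l₀, hl₀⟩ := Polynomial.map_surjective (Ideal.Quotient.mk v₀)
    Ideal.Quotient.mk_surjective g₀
  obtain ⟨l₁, hl₁⟩ := Polynomial.map_surjective (Ideal.Quotient.mk v₁)
    Ideal.Quotient.mk_surjective (Polynomial.X * g₁)
  obtain ⟨l₂, hl₂⟩ := Polynomial.map_surjective (Ideal.Quotient.mk v₂)
    Ideal.Quotient.mk_surjective (g₂ * ∏ t ∈ s, (Polynomial.X - Polynomial.C t))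
  have hcop : Pairwise (Function.onFun IsCoprime ![v₀, v₁, v₂]) := by
    intro i j hij
    have key : ∀ a b : Ideal (𝓞 K), a.IsMaximal → b.IsMaximal → a ≠ b → IsCoprime a b :=
      fun a b ha hb hab => Ideal.isCoprime_iff_sup_eq.2 (ha.coprime_of_ne hb hab)
    fin_cases i <;> fin_cases j
    · exact absurd rfl hij
    · exact key _ _ hm₀ hm₁ h01
    · exact key _ _ hm₀ hm₂ h02
    · exact key _ _ hm₁ hm₀ h01.symm
    · exact absurd rfl hij
    · exact key _ _ hm₁ hm₂ h12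
    · exact key _ _ hm₂ hm₀ h02.symm
    · exact key _ _ hm₂ hm₁ h12.symm
    · exact absurd rfl hij
  have hmon₁ : (Polynomial.X * g₁).Monic := Polynomial.monic_X.mul hg₁m
  obtain ⟨f, hfm, hfd, hf⟩ := sp_crt (𝓞 K) ![v₀, v₁, v₂] hcop k ![l₀, l₁, l₂]
    (by
      intro i
      fin_cases i
      · exact hl₀ ▸ hg₀m
      · exact hl₁ ▸ hmon₁
      · exact hl₂ ▸ hpm)
    (by
      intro i
      fin_cases i
      · exact (congrArg Polynomial.natDegree hl₀).trans hg₀d
      · refine (congrArg Polynomial.natDegree hl₁).trans ?_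
        rw [Polynomial.monic_X.natDegree_mul hg₁m, Polynomial.natDegree_X, hg₁d]
        omega
      · exact (congrArg Polynomial.natDegree hl₂).trans hpd)
  have hf0 : f.map (Ideal.Quotient.mk v₀) = g₀ := (hf 0).trans hl₀
  have hf1 : f.map (Ideal.Quotient.mk v₁) = Polynomial.X * g₁ := (hf 1).trans hl₁
  have hf2 : f.map (Ideal.Quotient.mk v₂) =
      g₂ * ∏ t ∈ s, (Polynomial.X - Polynomial.C t) := (hf 2).trans hl₂
  refine ⟨f, hfm, hfd, ⟨w₀, hw₀, hw₀0, ?_⟩, ⟨w₁, hw₁, hw₁0, ?_⟩, ⟨w₂, hw₂, hw₂0, ?_⟩⟩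
  · rw [sp_transfer v₀ w₀ e₀ he₀, hf0, MulEquiv.irreducible_iff]
    exact hg₀i
  · refine ⟨Polynomial.mapEquiv e₁ g₁, ?_, ?_, ?_, ?_⟩
    · rw [Polynomial.mapEquiv_apply]
      exact hg₁m.map _
    · rw [MulEquiv.irreducible_iff]
      exact hg₁i
    · intro h
      apply hg₁X
      apply (Polynomial.mapEquiv e₁).injective
      rw [h, Polynomial.mapEquiv_apply, Polynomial.map_X]
    · rw [sp_transfer v₁ w₁ e₁ he₁, hf1, map_mul]
      congr 1
      rw [Polynomial.mapEquiv_apply, Polynomial.map_X]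
  · refine ⟨Polynomial.mapEquiv e₂ g₂, s.image e₂, ?_, ?_, ?_, ?_⟩
    · rw [Polynomial.mapEquiv_apply]
      exact hg₂m.map _
    · rw [MulEquiv.irreducible_iff]
      exact hg₂i
    · rw [Polynomial.mapEquiv_apply]
      have hnt : Nontrivial (𝓞 E ⧸ w₂) := Ideal.Quotient.nontrivial_iff.2 hw₂.ne_top
      rw [hg₂m.natDegree_map, hg₂d]
    · rw [sp_transfer v₂ w₂ e₂ he₂, hf2, map_mul, map_prod,
        Finset.prod_image fun x _ y _ h => e₂.injective h]
      congr 1
      refine Finset.prod_congr rfl fun t _ => ?_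
      rw [Polynomial.mapEquiv_apply, Polynomial.map_sub, Polynomial.map_X, Polynomial.map_C]
      rfl

end H38.ML
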