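import Pool.Agent.H38.ML.FrobRoots
import Pool.Agent.H38.ML.SymPoly
import Pool.Agent.H38.ML.SymGroup

/-!
# [H38 ML SYMREAL] `S_k` is a Galois group over every number field, disjoint from a given field
(120-180 lines)

`K` a number field, `Ω` an algebraic closure, `E/K` a finite Galois extension inside `Ω`
(`NumberField E` by `NumberField.of_module_finite`).  Claim: there is `ρ : Gal(Ω/K) → Perm (Fin k)` of
finite type with `ρ (E.fixingSubgroup) = ⊤`.
`k ≤ 1`: `Perm (Fin k)` is trivial, `ρ = 1`.  Let `k ≥ 2` and `f` as in `sym_poly`.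
`R` = roots of `f` in `Ω`.  `Gal(Ω/K)` permutes `R`: a homomorphism `ρ₁ : Gal(Ω/K) →* Perm R`,
of finite type (trivial on the fixing subgroup of `K(R)`).  `#R = k` (see below), choose
`Perm R ≃* Perm (Fin k)` (`Equiv.permCongr`).
Apply `frob_roots` over the number field `E` (`IsAlgClosure E Ω`), to `f' = f.map (algebraMap ..)` and
the three primes `w`.  Each reduction is separable: finite fields are perfect, the reduction is a
product of pairwise different monic irreducible polynomials: for `w₁` irreducible; for `w₂`: `X` and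
`g ≠ X`; for `w₃`: `g₂` of degree `2` and different `X - C t` (in particular `f` has `k` different
roots: `c` has fibre of size `k` over the irreducible reduction at `w₁`).  The roots of `f'` over `E` are
the elements of `R`.  The elements `σ ∈ Gal(Ω/E)` give elements of `Gal(Ω/K)` in `E.fixingSubgroup`.
* `w₁`: all `c x` are equal (to the reduction), so `σ` is transitive on `R` in the sense of `htr`.
* `w₂`: exactly one `x₀` has `c x₀ = X`, so `σ^i x₀ = x₀` for all `i`; all other `x` have `c x = g`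
  (an irreducible monic divisor of `X * g` is `X` or `g`), so `hfix`.
* `w₃`: exactly two roots `x, y` have `c = g₂`, and each other root is alone in its class, so it is fixed
  by `σ`; `σ x ≠ x` since otherwise `y` is not of the form `σ^i x`; `σ x` has `c (σ x) = c x`, so
  `σ x = y`, `σ y = x`: `σ` acts as a swap.
`top_of_three` for the image of `E.fixingSubgroup` in `Perm R`.
-/

open scoped NumberField Pointwise Polynomial

noncomputable section

namespace H38.ML

/-- The combinatorial data given by `frob_roots`. -/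
private structure FR {κ R : Type} [CommRing κ] (τ : Equiv.Perm R) (c : R → κ[X]) (F : κ[X]) :
    Prop where
  h1 : ∀ x, Irreducible (c x) ∧ (c x).Monic ∧ c x ∣ F
  h2 : ∀ x y, c x = c y ↔ ∃ i : ℕ, (τ ^ i) x = y
  h3 : ∀ g : κ[X], Irreducible g → g.Monic → g ∣ F → Nat.card {x // c x = g} = g.natDegree

section sym
variable {κ R : Type} [Field κ]

private theorem FR.irr {τ : Equiv.Perm R} {c : R → κ[X]} {F : κ[X]} (h : FR τ c F)
    (hF : Irreducible F) (hFm : F.Monic) : (∀ x y, ∃ i : ℕ, (τ ^ i) x = y) ∧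
      Nat.card R = F.natDegree := by
  have hc : ∀ x, c x = F := fun x =>
    Polynomial.eq_of_monic_of_associated (h.h1 x).2.1 hFm
      ((h.h1 x).1.associated_of_dvd hF (h.h1 x).2.2)
  refine ⟨fun x y => (h.h2 x y).1 ((hc x).trans (hc y).symm), ?_⟩
  rw [← h.h3 F hF hFm dvd_rfl]
  exact Nat.card_congr (Equiv.subtypeUnivEquiv hc).symm

/-- a class with one element -/
private theorem FR.unique {τ : Equiv.Perm R} {c : R → κ[X]} {F : κ[X]} (h : FR τ c F)
    {g : κ[X]} (hg : Irreducible g) (hgm : g.Monic) (hgF : g ∣ F) (hd : g.natDegree = 1) :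
    ∃ x₀ : R, c x₀ = g ∧ (∀ x, c x = g → x = x₀) ∧ ∀ i : ℕ, (τ ^ i) x₀ = x₀ := by
  have h1 := h.h3 g hg hgm hgF
  rw [hd] at h1
  obtain ⟨hs, ⟨x₀, hx₀⟩⟩ := Nat.card_eq_one_iff_unique.1 h1
  have hu : ∀ x, c x = g → x = x₀ := fun x hx =>
    congrArg Subtype.val (hs.elim ⟨x, hx⟩ ⟨x₀, hx₀⟩)
  refine ⟨x₀, hx₀, hu, fun i => ?_⟩
  apply hu
  rw [← hx₀]
  exact ((h.h2 x₀ ((τ ^ i) x₀)).2 ⟨i, rfl⟩).symm

private theorem FR.X_mul {τ : Equiv.Perm R} {c : R → κ[X]} {g : κ[X]}
    (h : FR τ c (Polynomial.X * g)) (hg : Irreducible g) (hgm : g.Monic) :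
    ∃ x₀ : R, ∀ x y : R, x ≠ x₀ → y ≠ x₀ → ∃ i : ℕ, (τ ^ i) x = y ∧ (τ ^ i) x₀ = x₀ := by
  obtain ⟨x₀, hx₀, hu, hfix⟩ := h.unique Polynomial.irreducible_X Polynomial.monic_X
    (dvd_mul_right _ _) Polynomial.natDegree_X
  have hc : ∀ x, x ≠ x₀ → c x = g := by
    intro x hx
    rcases (h.h1 x).1.prime.dvd_or_dvd (h.h1 x).2.2 with h4 | h4
    · exact absurd (hu x (Polynomial.eq_of_monic_of_associated (h.h1 x).2.1 Polynomial.monic_X
        ((h.h1 x).1.associated_of_dvd Polynomial.irreducible_X h4))) hx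
    · exact Polynomial.eq_of_monic_of_associated (h.h1 x).2.1 hgm
        ((h.h1 x).1.associated_of_dvd hg h4)
  refine ⟨x₀, fun x y hx hy => ?_⟩
  obtain ⟨i, hi⟩ := (h.h2 x y).1 ((hc x hx).trans (hc y hy).symm)
  exact ⟨i, hi, hfix i⟩

private theorem FR.swap [DecidableEq R] {τ : Equiv.Perm R} {c : R → κ[X]} {g : κ[X]}
    {s : Finset κ}
    (h : FR τ c (g * ∏ t ∈ s, (Polynomial.X - Polynomial.C t))) (hg : Irreducible g)
    (hgm : g.Monic) (hd : g.natDegree = 2) : τ.IsSwap := by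
  have h3 := h.h3 g hg hgm (dvd_mul_right _ _)
  rw [hd, Nat.card_eq_two_iff] at h3
  obtain ⟨⟨x, hx⟩, ⟨y, hy⟩, hne, huniv⟩ := h3
  have hxy : x ≠ y := fun e => hne (Subtype.ext e)
  have hall : ∀ z, c z = g → z = x ∨ z = y := by
    intro z hz
    have : (⟨z, hz⟩ : {x // c x = g}) ∈ (Set.univ : Set {x // c x = g}) := trivial
    rw [← huniv] at this
    rcases this with h | h
    · exact Or.inl (congrArg Subtype.val h)
    · exact Or.inr (congrArg Subtype.val h)
  have hτ : ∀ z, c (τ z) = c z := fun z => ((h.h2 z (τ z)).2 ⟨1, by simp⟩).symm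
  have hnfix : ∀ z w, c z = c w → z ≠ w → τ z ≠ z := by
    intro z w hzw hzw' hfix
    obtain ⟨i, hi⟩ := (h.h2 z w).1 hzw
    have : (τ ^ i) z = z := by
      clear hi
      induction i with
      | zero => rfl
      | succ n ih => rw [pow_succ, Equiv.Perm.mul_apply, hfix, ih]
    exact hzw' (this.symm.trans hi)
  have hτx : τ x = y := by
    rcases hall (τ x) ((hτ x).trans hx) with h4 | h4
    · exact absurd h4 (hnfix x y (hx.trans hy.symm) hxy)
    · exact h4
  have hτy : τ y = x := by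
    rcases hall (τ y) ((hτ y).trans hy) with h4 | h4
    · exact h4
    · exact absurd h4 (hnfix y x (hy.trans hx.symm) hxy.symm)
  refine ⟨x, y, hxy, ?_⟩
  ext z
  by_cases hzx : z = x
  · rw [hzx, Equiv.swap_apply_left, hτx]
  by_cases hzy : z = y
  · rw [hzy, Equiv.swap_apply_right, hτy]
  rw [Equiv.swap_apply_of_ne_of_ne hzx hzy]
  have hcz : c z ≠ g := fun e => (hall z e).elim hzx hzy
  have hdvd : c z ∣ ∏ t ∈ s, (Polynomial.X - Polynomial.C t) := by
    rcases (h.h1 z).1.prime.dvd_or_dvd (h.h1 z).2.2 with h4 | h4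
    · exact absurd (Polynomial.eq_of_monic_of_associated (h.h1 z).2.1 hgm
        ((h.h1 z).1.associated_of_dvd hg h4)) hcz
    · exact h4
  obtain ⟨t, ht, hct⟩ := (h.h1 z).1.prime.exists_mem_finset_dvd hdvd
  have hct' : c z = Polynomial.X - Polynomial.C t :=
    Polynomial.eq_of_monic_of_associated (h.h1 z).2.1 (Polynomial.monic_X_sub_C t)
      ((h.h1 z).1.associated_of_dvd (Polynomial.irreducible_X_sub_C t) hct)
  have hdt : Polynomial.X - Polynomial.C t ∣ g * ∏ t ∈ s, (Polynomial.X - Polynomial.C t) :=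
    Dvd.dvd.mul_left (Finset.dvd_prod_of_mem (fun t => Polynomial.X - Polynomial.C t) ht) g
  obtain ⟨x₀, hx₀, hu, hfix⟩ := h.unique (Polynomial.irreducible_X_sub_C t)
    (Polynomial.monic_X_sub_C t) hdt (Polynomial.natDegree_X_sub_C t)
  have h5 : z = x₀ := hu z hct'
  have h6 := hfix 1
  rw [pow_one, ← h5] at h6
  rw [h6]

private theorem sep_X_mul [Finite κ] {g : κ[X]} (hg : Irreducible g) (hgm : g.Monic)
    (hX : g ≠ Polynomial.X) : (Polynomial.X * g).Separable := by
  refine Polynomial.Separable.mul (PerfectField.separable_of_irreducible Polynomial.irreducible_X)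
    (PerfectField.separable_of_irreducible hg) ?_
  rw [Polynomial.irreducible_X.coprime_iff_not_dvd]
  intro h
  exact hX (Polynomial.eq_of_monic_of_associated hgm Polynomial.monic_X
    (Polynomial.irreducible_X.associated_of_dvd hg h).symm)

private theorem sep_two [Finite κ] {g : κ[X]} (hg : Irreducible g)
    (hd : g.natDegree = 2) (s : Finset κ) :
    (g * ∏ t ∈ s, (Polynomial.X - Polynomial.C t)).Separable := by
  refine Polynomial.Separable.mul (PerfectField.separable_of_irreducible hg) ?_ ?_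
  · exact Polynomial.separable_prod_X_sub_C_iff'.2 fun _ _ _ _ h => h
  · refine IsCoprime.prod_right fun t _ => ?_
    rw [hg.coprime_iff_not_dvd]
    intro h
    have := Polynomial.natDegree_le_of_dvd h (Polynomial.X_sub_C_ne_zero t)
    rw [hd, Polynomial.natDegree_X_sub_C] at this
    omega

end sym

section main

variable {K Ω : Type} [Field K] [NumberField K] [Field Ω] [Algebra K Ω] [IsAlgClosure K Ω]

private theorem restrictScalars_pow (E : IntermediateField K Ω) (σ : Gal(Ω/E)) (i : ℕ) (x : Ω) :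
    ((σ.restrictScalars K : Gal(Ω/K)) ^ i) x = (σ ^ i) x := by
  induction i generalizing x with
  | zero => rfl
  | succ n ih =>
    rw [pow_succ, pow_succ, AlgEquiv.mul_apply, AlgEquiv.mul_apply, ih]
    rfl

private theorem rootSet_eq (E : IntermediateField K Ω) [NumberField E] (f : (𝓞 K)[X])
    (hf : f.Monic) :
    (((f.map (algebraMap (𝓞 K) (𝓞 E))).map (algebraMap (𝓞 E) E)).rootSet Ω) =
      (f.map (algebraMap (𝓞 K) K)).rootSet Ω := by
  have h : ((f.map (algebraMap (𝓞 K) (𝓞 E))).map (algebraMap (𝓞 E) E)) =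
      (f.map (algebraMap (𝓞 K) K)).map (algebraMap K E) := by
    rw [Polynomial.map_map, Polynomial.map_map]
    rfl
  have h0 : f.map (algebraMap (𝓞 K) K) ≠ 0 := (hf.map _).ne_zero
  rw [h]
  ext x
  rw [Polynomial.mem_rootSet, Polynomial.mem_rootSet, Polynomial.aeval_map_algebraMap,
    Polynomial.map_ne_zero_iff (algebraMap K E).injective]

private theorem get_FR (E : IntermediateField K Ω) [NumberField E] [IsAlgClosure E Ω]
    (f : (𝓞 K)[X]) (hf : f.Monic) (w : Ideal (𝓞 E)) [w.IsPrime] (hw : w ≠ ⊥)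
    (hsep : ((f.map (algebraMap (𝓞 K) (𝓞 E))).map (Ideal.Quotient.mk w)).Separable) :
    ∃ τ ∈ E.fixingSubgroup.map
        (MulAction.toPermHom Gal(Ω/K) ((f.map (algebraMap (𝓞 K) K)).rootSet Ω)),
      ∃ c : (f.map (algebraMap (𝓞 K) K)).rootSet Ω → (𝓞 E ⧸ w)[X],
        FR τ c ((f.map (algebraMap (𝓞 K) (𝓞 E))).map (Ideal.Quotient.mk w)) := by
  obtain ⟨σ, c, h1, h2, h3⟩ := frob_roots (K := E) (Ω := Ω) (f.map (algebraMap (𝓞 K) (𝓞 E)))
    (hf.map _) w hw hsep
  have hR := rootSet_eq E f hf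
  have hpow : ∀ (i : ℕ) (x : (f.map (algebraMap (𝓞 K) K)).rootSet Ω),
      (((MulAction.toPermHom Gal(Ω/K) ((f.map (algebraMap (𝓞 K) K)).rootSet Ω)
        (σ.restrictScalars K) ^ i) x : (f.map (algebraMap (𝓞 K) K)).rootSet Ω) : Ω) =
        (σ ^ i) (x : Ω) := by
    intro i x
    rw [← map_pow]
    show ((σ.restrictScalars K : Gal(Ω/K)) ^ i) (x : Ω) = _
    exact restrictScalars_pow E σ i x
  refine ⟨_, Subgroup.mem_map_of_mem _ (x := (σ.restrictScalars K : Gal(Ω/K))) ?_,
    fun x => c ⟨x.1, (Set.ext_iff.1 hR x.1).2 x.2⟩, ⟨?_, ?_, ?_⟩⟩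
  · rw [IntermediateField.mem_fixingSubgroup_iff]
    intro x hx
    exact σ.commutes ⟨x, hx⟩
  · exact fun x => h1 _
  · intro x y
    rw [h2]
    refine exists_congr fun i => ?_
    constructor
    · intro h
      exact Subtype.ext ((hpow i x).trans h)
    · intro h
      rw [← hpow i x, h]
  · intro g hg hgm hgF
    rw [← h3 g hg hgm hgF]
    exact Nat.card_congr ((Equiv.setCongr hR.symm).subtypeEquiv fun x => Iff.rfl)

private theorem ft_toPermHom (P : K[X]) : FT (MulAction.toPermHom Gal(Ω/K) (P.rootSet Ω)) := by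
  have hfin : FiniteDimensional K (IntermediateField.adjoin K (P.rootSet Ω)) := by
    apply IntermediateField.finiteDimensional_adjoin
    intro x _
    exact (Algebra.IsAlgebraic.isAlgebraic (R := K) x).isIntegral
  refine ⟨IntermediateField.adjoin K (P.rootSet Ω), hfin, ?_⟩
  intro σ hσ
  rw [IntermediateField.mem_fixingSubgroup_iff] at hσ
  rw [MonoidHom.mem_ker]
  ext x
  exact hσ x.1 (IntermediateField.subset_adjoin K _ x.2)

end main

theorem sym_real {K Ω : Type} [Field K] [NumberField K] [Field Ω] [Algebra K Ω]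
    [IsAlgClosure K Ω] (k : ℕ) (E : IntermediateField K Ω) [FiniteDimensional K E]
    [IsGalois K E] :
    ∃ ρ : Gal(Ω/K) →* Equiv.Perm (Fin k), FT ρ ∧ ∀ y, ∃ σ ∈ E.fixingSubgroup, ρ σ = y := by
  classical
  rcases Nat.lt_or_ge k 2 with hk | hk
  · have hs0 : Subsingleton (Fin k) := by
      rw [Fin.subsingleton_iff_le_one]
      omega
    exact ⟨1, ⟨⊥, inferInstance, fun σ _ => by simp⟩,
      fun y => ⟨1, one_mem _, Subsingleton.elim _ _⟩⟩
  have hNE : NumberField E := NumberField.of_module_finite K E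
  have hACE : IsAlgClosure E Ω :=
    { isAlgClosed := IsAlgClosure.isAlgClosed K
      isAlgebraic := by
        have : Algebra.IsAlgebraic K Ω := IsAlgClosure.isAlgebraic
        exact Algebra.IsAlgebraic.tower_top (K := K) E }
  obtain ⟨f, hf, hfk, ⟨w₁, hw₁, hw₁0, hirr⟩, ⟨w₂, hw₂, hw₂0, g₂, hg₂m, hg₂, hg₂X, hf₂⟩,
    ⟨w₃, hw₃, hw₃0, g₃, s, hg₃m, hg₃, hg₃d, hf₃⟩⟩ := sym_poly K E k hk
  have fin : ∀ w : Ideal (𝓞 E), w ≠ ⊥ → Finite (𝓞 E ⧸ w) := fun w hw =>
    Ring.HasFiniteQuotients.finiteQuotient hw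
  set P : K[X] := f.map (algebraMap (𝓞 K) K) with hP
  set G := E.fixingSubgroup.map (MulAction.toPermHom Gal(Ω/K) (P.rootSet Ω)) with hG
  -- the first prime
  have H1 : (∃ τ ∈ G, ∀ x y : P.rootSet Ω, ∃ i : ℕ, (τ ^ i) x = y) ∧
      Nat.card (P.rootSet Ω) = k := by
    have := fin w₁ hw₁0
    have hmax : w₁.IsMaximal := hw₁.isMaximal hw₁0
    letI := Ideal.Quotient.field w₁
    obtain ⟨τ, hτ, c, h⟩ := get_FR E f hf w₁ hw₁0 (PerfectField.separable_of_irreducible hirr)
    have h1 := h.irr hirr ((hf.map _).map _)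
    refine ⟨⟨τ, hτ, h1.1⟩, ?_⟩
    rw [h1.2, (hf.map _).natDegree_map, hf.natDegree_map, hfk]
  have H2 : ∃ τ ∈ G, ∃ x₀ : P.rootSet Ω, ∀ x y : P.rootSet Ω, x ≠ x₀ → y ≠ x₀ →
      ∃ i : ℕ, (τ ^ i) x = y ∧ (τ ^ i) x₀ = x₀ := by
    have := fin w₂ hw₂0
    have hmax : w₂.IsMaximal := hw₂.isMaximal hw₂0
    letI := Ideal.Quotient.field w₂
    obtain ⟨τ, hτ, c, h⟩ := get_FR E f hf w₂ hw₂0 (by
      rw [hf₂]
      exact sep_X_mul hg₂ hg₂m hg₂X)
    rw [hf₂] at h
    exact ⟨τ, hτ, h.X_mul hg₂ hg₂m⟩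
  have H3 : ∃ τ ∈ G, τ.IsSwap := by
    have := fin w₃ hw₃0
    have hmax : w₃.IsMaximal := hw₃.isMaximal hw₃0
    letI := Ideal.Quotient.field w₃
    obtain ⟨τ, hτ, c, h⟩ := get_FR E f hf w₃ hw₃0 (by
      rw [hf₃]
      exact sep_two hg₃ hg₃d s)
    rw [hf₃] at h
    exact ⟨τ, hτ, h.swap hg₃ hg₃m hg₃d⟩
  have htop : G = ⊤ := top_of_three G H1.1 H2 H3
  let e : P.rootSet Ω ≃ Fin k := Finite.equivFinOfCardEq H1.2
  refine ⟨e.permCongrHom.toMonoidHom.comp (MulAction.toPermHom Gal(Ω/K) (P.rootSet Ω)),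
    ft_comp _ _ (ft_toPermHom P), fun y => ?_⟩
  have hy : e.permCongrHom.symm y ∈ G := by
    rw [htop]
    trivial
  obtain ⟨σ, hσ, hσy⟩ := Subgroup.mem_map.1 hy
  refine ⟨σ, hσ, ?_⟩
  rw [MonoidHom.comp_apply, hσy]
  exact e.permCongrHom.apply_symm_apply y

end H38.ML
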