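import Pool.Agent.H38.ML.Split
import Pool.Agent.H38.ML.Ord

/-!
# [H38 ML BT] Elements with prescribed orders at completely split primes (60-100 lines)

`T` finite.  By `exists_split` and induction on `T` (or on `Fin (card T)`) choose pairwise different
nonzero primes `v t ∉ S` of `K` with trivial decomposition groups, and a prime `W t` of `𝓞 M` above
`v t` (`Ideal.exists_ideal_over_prime...` / nonempty `primesOver`).  The primes `σ • W t`
(`σ ∈ Gal(M/K)`, `t ∈ T`) are pairwise different: for different `t` they lie over different `v t`, for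
the same `t` use that the stabilizer is trivial.  By the Chinese remainder theorem for the
pairwise coprime ideals `(W t)^2` and `σ • W t'` (`(σ, t') ≠ (1, t)`) there is, for every `t`, an element
`b t ∈ W t`, `b t ∉ (W t)^2`, `b t ≡ 1` modulo all the other `σ⁻¹ • W t'`, `(σ, t') ≠ (1, t)`
(`IsDedekindDomain.exists_forall_sub_mem_ideal` or `Ideal.quotientInfRingEquivPiQuotient`).
Then `ordAt (W t) (b t) = 1` (in `W t`, not in its square) and for `(σ, t') ≠ (1, t)`:
`σ • b t' ∈ W t ↔ b t' ∈ σ⁻¹ • W t`, false, so `ordAt (W t) (σ • b t') = 0`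
(`ordAt_eq_zero_iff`).  `b t ≠ 0` because `b t ∉ (W t)^2`.
-/

open scoped NumberField Pointwise

namespace H38.ML

theorem exists_bt (K M : Type) [Field K] [NumberField K] [Field M] [NumberField M]
    [Algebra K M] [IsGalois K M] (T : Type) [Finite T] (S : Set (Ideal (𝓞 K))) (hS : S.Finite) :
    ∃ (bt : T → 𝓞 M) (W : T → Ideal (𝓞 M)), (∀ t, bt t ≠ 0) ∧
      (∀ t, (W t).IsPrime ∧ W t ≠ ⊥ ∧ (W t).under (𝓞 K) ∉ S) ∧
      (∀ t, ordAt (W t) (bt t) = 1) ∧
      (∀ t t' (σ : Gal(M/K)), ¬ (t = t' ∧ σ = 1) → ordAt (W t) (σ • bt t') = 0) := by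
  classical
  -- the set of good primes is infinite
  let V : Set (Ideal (𝓞 K)) := {v | v.IsPrime ∧ v ≠ ⊥ ∧ v ∉ S ∧
      ∀ Q : Ideal (𝓞 M), Q.IsPrime → Q.under (𝓞 K) = v →
        MulAction.stabilizer Gal(M/K) Q = ⊥}
  have hV : V.Infinite := by
    intro hfin
    obtain ⟨v, h1, h2, h3, h4⟩ := exists_split K M (S ∪ V) (hS.union hfin)
    exact h3 (Or.inr ⟨h1, h2, fun h => h3 (Or.inl h), h4⟩)
  have : Infinite V := hV.to_subtype
  obtain ⟨n, ⟨eT⟩⟩ := Finite.exists_equiv_fin T
  let emb : T ↪ V := (eT.toEmbedding.trans Fin.valEmbedding).trans (Infinite.natEmbedding V)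
  let v : T → Ideal (𝓞 K) := fun t => (emb t : Ideal (𝓞 K))
  have hvinj : Function.Injective v := fun a b h => emb.injective (Subtype.ext h)
  have hv : ∀ t, v t ∈ V := fun t => (emb t).2
  have hW : ∀ t, ∃ W : Ideal (𝓞 M), W.IsPrime ∧ W.under (𝓞 K) = v t := by
    intro t
    have := (hv t).1
    obtain ⟨Q, -, hQ1, hQ2⟩ := Ideal.exists_ideal_over_prime_of_isIntegral (v t)
      (⊥ : Ideal (𝓞 M)) (by
        intro x hx
        have hx' : algebraMap (𝓞 K) (𝓞 M) x = 0 := by simpa using hx
        have : x = 0 := (FaithfulSMul.algebraMap_injective (𝓞 K) (𝓞 M)) (by simpa using hx')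
        rw [this]; exact (v t).zero_mem)
    exact ⟨Q, hQ1, hQ2⟩
  choose W hWp hWv using hW
  have hWbot : ∀ t, W t ≠ ⊥ := by
    intro t h
    apply (hv t).2.1
    rw [← hWv t, h]
    exact Ideal.under_bot (𝓞 K) (𝓞 M)
  -- distinctness
  have hdist : ∀ (σ τ : Gal(M/K)) (t t' : T), σ • W t = τ • W t' → σ = τ ∧ t = t' := by
    intro σ τ t t' h
    have ht : t = t' := by
      apply hvinj
      rw [← hWv t, ← hWv t', ← Ideal.under_smul (𝓞 K) (W t) σ, h,
        Ideal.under_smul (𝓞 K) (W t') τ]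
    subst ht
    refine ⟨?_, rfl⟩
    have hst := (hv t).2.2.2 (W t) (hWp t) (hWv t)
    have : τ⁻¹ * σ ∈ MulAction.stabilizer Gal(M/K) (W t) := by
      rw [MulAction.mem_stabilizer_iff, mul_smul, h, inv_smul_smul]
    rw [hst, Subgroup.mem_bot] at this
    exact (inv_mul_eq_one.mp this).symm
  have hsmulp : ∀ (σ : Gal(M/K)) t, Prime (σ • W t) := by
    intro σ t
    have := hWp t
    have h1 : (σ • W t).IsPrime := inferInstance
    have h2 : σ • W t ≠ ⊥ := by
      intro h
      apply hWbot t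
      refine (Submodule.eq_bot_iff _).mpr fun x hx => ?_
      have h3 : σ • x ∈ σ • W t := by
        rw [Ideal.mem_pointwise_smul_iff_inv_smul_mem, inv_smul_smul]; exact hx
      rw [h] at h3
      exact (smul_eq_zero_iff_eq σ).mp ((Submodule.mem_bot _).mp h3)
    exact Ideal.prime_of_isPrime h2 h1
  have hb : ∀ t', ∃ b : 𝓞 M, b ∈ W t' ∧ b ∉ (W t') ^ 2 ∧
      ∀ (σ : Gal(M/K)) (t : T), ¬ (t = t' ∧ σ = 1) → b ∉ σ⁻¹ • W t := by
    intro t'
    obtain ⟨π, hπ1, hπ2⟩ := Ideal.exists_mem_pow_notMem_pow_succ (W t') (hWbot t')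
      (hWp t').ne_top 1
    have : Fintype T := Fintype.ofFinite T
    have : FiniteDimensional K M := inferInstance
    have : Fintype Gal(M/K) := Fintype.ofFinite _
    obtain ⟨y, hy⟩ := IsDedekindDomain.exists_forall_sub_mem_ideal
      (s := (Finset.univ : Finset (Gal(M/K) × T)))
      (fun i => i.1⁻¹ • W i.2) (fun _ => 2)
      (fun i _ => hsmulp _ _)
      (fun i _ j _ hij h => hij (by
        obtain ⟨h1, h2⟩ := hdist _ _ _ _ h
        exact Prod.ext (inv_injective h1) h2))
      (fun i => if (i : Gal(M/K) × T) = (1, t') then π else 1)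
    refine ⟨y, ?_, ?_, ?_⟩
    · have := hy (1, t') (Finset.mem_univ _)
      simp only [if_true, inv_one, one_smul] at this
      have h2 : y - π ∈ W t' := Ideal.pow_le_self two_ne_zero this
      have h3 : π ∈ W t' := by simpa using hπ1
      have := (W t').add_mem h2 h3
      simpa using this
    · intro hy2
      have := hy (1, t') (Finset.mem_univ _)
      simp only [if_true, inv_one, one_smul] at this
      have h3 : π ∈ W t' ^ 2 := by
        have := ((W t') ^ 2).sub_mem hy2 this
        simpa using this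
      exact hπ2 h3
    · intro σ t hne hmem
      have := hy (σ, t) (Finset.mem_univ _)
      have hne' : ¬ ((σ, t) : Gal(M/K) × T) = (1, t') := by
        intro h
        exact hne ⟨congrArg Prod.snd h, congrArg Prod.fst h⟩
      simp only [if_neg hne'] at this
      have h2 : y - 1 ∈ σ⁻¹ • W t := Ideal.pow_le_self two_ne_zero this
      have h3 : (1 : 𝓞 M) ∈ σ⁻¹ • W t := by
        have := (σ⁻¹ • W t).sub_mem hmem h2
        simpa using this
      have h4 := hsmulp σ⁻¹ t
      exact (Ideal.isPrime_of_prime h4).ne_top ((Ideal.eq_top_iff_one _).mpr h3)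
  choose b hb1 hb2 hb3 using hb
  have hb0 : ∀ t, b t ≠ 0 := fun t h => hb2 t (by rw [h]; exact Ideal.zero_mem _)
  refine ⟨b, W, hb0, fun t => ⟨hWp t, hWbot t, by rw [hWv]; exact (hv t).2.2.1⟩, ?_, ?_⟩
  · intro t
    have := hWp t
    have := Ideal.count_normalizedFactors_eq (p := W t) (x := Ideal.span {b t}) (n := 1)
      (by rw [pow_one, Ideal.span_singleton_le_iff_mem]; exact hb1 t)
      (by rw [Ideal.span_singleton_le_iff_mem]; exact hb2 t)
    unfold ordAt
    convert this
  · intro t t' σ hne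
    have := hWp t
    rw [ordAt_eq_zero_iff (W t) (hWbot t)]
    · intro hmem
      apply hb3 t' σ t hne
      rw [Ideal.mem_pointwise_smul_iff_inv_smul_mem, inv_inv]
      exact hmem
    · intro h
      apply hb0 t'
      exact (smul_eq_zero_iff_eq σ).mp h

end H38.ML
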