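import Pool.Agent.H38.ML.KumSurj
import Pool.Agent.H38.ML.Ord

/-!
# [H38 ML KUMORD] Surjectivity from the orders at suitable primes (30-60 lines)

Apply `kum_surj`.  Given `p, χ, m, y` with `y ^ p = ∏ x, α x ^ m x`: choose `t` with `χ t ≠ 1` and
`Q, x₀` from `hW t`.  `dvd_of_pow_eq` gives `p ∣ ∑ x, m x * ordAt Q (αO x) = m x₀`.  Then
`χ t = χ (a x₀) = (ζ ^ (q/p)) ^ m x₀ = 1` because `p ∣ m x₀` and `(ζ ^ (q/p)) ^ p = ζ ^ q = 1`;
contradiction.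
-/

open scoped NumberField Pointwise

namespace H38.ML

variable {K Ω : Type} [Field K] [NumberField K] [Field Ω] [Algebra K Ω] [IsAlgClosure K Ω]

theorem kum_surj_ord (M : IntermediateField K Ω) [FiniteDimensional K M] [Normal K M]
    [NumberField M]
    {H A X : Type} [Group H] [CommGroup A] [Finite A] [Fintype X] [MulAction Gal(M/K) X]
    (ρb : Gal(M/K) →* H) (j : A →* H) (q : ℕ) (hq : 0 < q) (ζ : K) (hζ : IsPrimitiveRoot ζ q)
    (hA : ∀ t : A, t ^ q = 1) (a : X → A) (αO : X → 𝓞 M) (hα : ∀ x, αO x ≠ 0)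
    (O : KumOut M ρb j q ζ a (fun x => ((αO x : 𝓞 M) : M)))
    (hW : ∀ t : A, ∃ (Q : Ideal (𝓞 M)) (x₀ : X), Q.IsPrime ∧ Q ≠ ⊥ ∧ a x₀ = t ∧
      ordAt Q (αO x₀) = 1 ∧ ∀ x, x ≠ x₀ → ordAt Q (αO x) = 0) (t : A) :
    ∃ σ ∈ M.fixingSubgroup, O.ρ σ = j t := by
  have hα' : ∀ x, ((αO x : 𝓞 M) : M) ≠ 0 := fun x h => hα x (by
    exact NumberField.RingOfIntegers.coe_eq_zero_iff.1 h)
  refine kum_surj M ρb j q hq ζ hζ hA a (fun x => ((αO x : 𝓞 M) : M)) hα' O ?_ t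
  intro p hp hpq χ hχ hχp m hm y hy
  obtain ⟨s, hs⟩ := hχ
  obtain ⟨Q, x₀, hQ, hQ0, has, h1, h0⟩ := hW s
  have hdvd := dvd_of_pow_eq Q αO hα m p hp.pos y hy
  have hsum : ∑ x, m x * ordAt Q (αO x) = m x₀ := by
    rw [Finset.sum_eq_single x₀]
    · rw [h1, mul_one]
    · intro x _ hx
      rw [h0 x hx, mul_zero]
    · intro h
      exact absurd (Finset.mem_univ _) h
  rw [hsum] at hdvd
  obtain ⟨k, hk⟩ := hdvd
  apply hs
  rw [← has]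
  apply Units.ext
  rw [hm x₀, hk, pow_mul, ← pow_mul ζ, Nat.div_mul_cancel hpq, hζ.pow_eq_one, one_pow,
    Units.val_one]

end H38.ML
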