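import Pool.Agent.H38.ML.KumEx
import Pool.Agent.H38.ML.KumOrd
import Pool.Agent.H38.ML.Bt

/-!
# Split embedding problems with abelian kernel, strong form

The solution stays surjective on the subgroup fixing a given finite Galois extension `E`.
-/

open scoped NumberField Pointwise

namespace H38.ML

variable {K Ω : Type} [Field K] [NumberField K] [Field Ω] [Algebra K Ω] [IsAlgClosure K Ω]

theorem up_step2 {H' : Type} [Group H'] [Finite H'] (A H₁ : Subgroup H') (hn : A.Normal)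
    (hA : ∀ s ∈ A, ∀ t ∈ A, s * t = t * s) (hsup : A ⊔ H₁ = ⊤) (ζ : K)
    (hζ : IsPrimitiveRoot ζ (Nat.card A)) (E : IntermediateField K Ω) [FiniteDimensional K E]
    [IsGalois K E] (ρ : Gal(Ω/K) →* H₁) (hρ : ∀ h, ∃ σ ∈ E.fixingSubgroup, ρ σ = h)
    (hft : FT ρ) :
    ∃ ρ' : Gal(Ω/K) →* H', FT ρ' ∧ ∀ h, ∃ σ ∈ E.fixingSubgroup, ρ' σ = h := by
  classical
  have hft2 : FT ((H₁.subtype.comp ρ).prod (res E)) := by
    obtain ⟨E₁, hE₁, hE₁'⟩ := hft
    refine ⟨E₁ ⊔ E, IntermediateField.finiteDimensional_sup E₁ E, ?_⟩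
    intro σ hσ
    have h1 : σ ∈ E₁.fixingSubgroup := IntermediateField.fixingSubgroup_le le_sup_left hσ
    have h2 : σ ∈ E.fixingSubgroup := IntermediateField.fixingSubgroup_le le_sup_right hσ
    rw [MonoidHom.mem_ker, MonoidHom.prod_apply]
    have h3 : ρ σ = 1 := hE₁' h1
    have h4 : res E σ = 1 := by
      rw [← IntermediateField.restrictNormalHom_ker E] at h2
      exact h2
    rw [h4]
    simp [h3]
  obtain ⟨M, hfd, hgal, e₂, he₂, hres₂⟩ := factor ((H₁.subtype.comp ρ).prod (res E)) hft2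
  let e : Gal(M/K) →* H' := (MonoidHom.fst H' Gal(E/K)).comp e₂
  have hres : ∀ σ, e (res M σ) = (ρ σ : H') := by
    intro σ
    change (e₂ (res M σ)).1 = _
    rw [hres₂ σ]
    rfl
  have hME : ∀ σ ∈ M.fixingSubgroup, σ ∈ E.fixingSubgroup := by
    intro σ hσ
    have h1 : res M σ = 1 := by
      rw [← IntermediateField.restrictNormalHom_ker M] at hσ
      exact hσ
    have h2 := hres₂ σ
    rw [h1, map_one] at h2
    have h3 : res E σ = 1 := (congrArg Prod.snd h2).symm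
    rw [← IntermediateField.restrictNormalHom_ker E]
    exact h3
  haveI : NumberField M := NumberField.of_module_finite K M
  letI cg : CommGroup A :=
    { (inferInstance : Group A) with
      mul_comm := fun s t => Subtype.ext (hA s.1 s.2 t.1 t.2) }
  obtain ⟨bt, W, hbt, hW, hW1, hW0⟩ := exists_bt K M A ∅ Set.finite_empty
  letI : Fintype (Σ _ : A, Gal(M/K)) := Fintype.ofFinite _
  let a : (Σ _ : A, Gal(M/K)) → A := fun x =>
    ⟨e x.2 * x.1 * (e x.2)⁻¹, hn.conj_mem _ x.1.2 _⟩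
  let αO : (Σ _ : A, Gal(M/K)) → 𝓞 M := fun x => x.2 • bt x.1
  have hα : ∀ x, αO x ≠ 0 := by
    intro x h
    apply hbt x.1
    have := congrArg (fun z => x.2⁻¹ • z) h
    simpa [αO] using this
  have hqpos : 0 < Nat.card A := Nat.card_pos
  have hApow : ∀ t : A, t ^ Nat.card A = 1 := fun t => pow_card_eq_one'
  obtain ⟨O⟩ := exists_kumOut M e A.subtype (Nat.card A) hqpos ζ hζ hApow a
    (fun x => ((αO x : 𝓞 M) : M)) (fun x h => hα x (by exact_mod_cast h))
    (by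
      rintro g ⟨t, h⟩
      show (((g * h) • bt t : 𝓞 M) : M) = g ((h • bt t : 𝓞 M) : M)
      rw [mul_smul]
      rfl)
    (by
      rintro g ⟨t, h⟩
      show e (g * h) * (t : H') * (e (g * h))⁻¹ = e g * (e h * t * (e h)⁻¹) * (e g)⁻¹
      rw [map_mul]
      group)
  have hsur := kum_surj_ord M e A.subtype (Nat.card A) hqpos ζ hζ hApow a αO hα O
    (by
      intro t
      refine ⟨W t, ⟨t, 1⟩, (hW t).1, (hW t).2.1, ?_, ?_, ?_⟩
      · apply Subtype.ext
        simp [a]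
      · simpa [αO] using hW1 t
      · rintro ⟨t', σ⟩ hne
        apply hW0 t t' σ
        rintro ⟨rfl, rfl⟩
        exact hne rfl)
  refine ⟨O.ρ, O.ft, ?_⟩
  intro h
  have hh : h ∈ A ⊔ H₁ := by rw [hsup]; trivial
  obtain ⟨s, hs, h₁, hh₁, rfl⟩ := Subgroup.mem_sup_of_normal_left.1 hh
  obtain ⟨τ, hτE, hτ⟩ := hρ ⟨h₁, hh₁⟩
  have h1 : O.ρ τ = A.subtype (∏ x, a (res M τ • x) ^ O.κ τ x) * h₁ := by
    rw [O.hρ τ, hres τ]
    simp [hτ]
  obtain ⟨σ, hσE, hσ⟩ := hsur ((⟨s, hs⟩ : A) * (∏ x, a (res M τ • x) ^ O.κ τ x)⁻¹)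
  refine ⟨σ * τ, Subgroup.mul_mem _ (hME σ hσE) hτE, ?_⟩
  rw [map_mul, hσ, h1]
  simp

end H38.ML
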