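import Pool.Agent.H38.ML.BuildDef
import Pool.Agent.H38.ML.SymReal
import Pool.Agent.H38.ML.Up2
import Pool.Agent.H38.ML.Base

/-!
# Buildable groups are realizable over all large number fields (assembly)
-/

open scoped NumberField Pointwise

noncomputable section

namespace H38.ML

/-- Strong realizability: surjective on the fixing subgroup of any given finite Galois `E`. -/
def StrongReal (Q : Type) [Group Q] : Prop :=
  ∃ K₁ : IntermediateField ℚ QBar, FiniteDimensional ℚ K₁ ∧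
    ∀ K : IntermediateField ℚ QBar, K₁ ≤ K → FiniteDimensional ℚ K →
      ∀ E : IntermediateField K QBar, FiniteDimensional K E → IsGalois K E →
        ∃ ρ : Gal(QBar/K) →* Q, FT ρ ∧ ∀ y, ∃ σ ∈ E.fixingSubgroup, ρ σ = y

theorem Buildable.finite {Q : Type} [Group Q] (h : Buildable Q) : Finite Q := by
  induction h with
  | sym k => infer_instance
  | quot f hf _ ih => haveI := ih; exact Finite.of_surjective f hf
  | prod _ _ ih1 ih2 => haveI := ih1; haveI := ih2; infer_instance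
  | split φ _ ih =>
    haveI := ih
    exact Finite.of_equiv _ SemidirectProduct.equivProd.symm

theorem StrongReal.realizable {Q : Type} [Group Q] (h : StrongReal Q) : Realizable Q := by
  obtain ⟨K₁, hK₁, h⟩ := h
  refine ⟨K₁, hK₁, fun K hK hKf => ?_⟩
  obtain ⟨ρ, hρ, hs⟩ := h K hK hKf ⊥ inferInstance inferInstance
  exact ⟨ρ, fun y => (hs y).imp fun σ hσ => hσ.2, hρ⟩

theorem Buildable.strongReal {Q : Type} [Group Q] (h : Buildable Q) : StrongReal Q := by
  induction h with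
  | sym k =>
    refine ⟨⊥, inferInstance, fun K _ hKf E hE hEg => ?_⟩
    haveI := hKf
    haveI : NumberField K := numberField_of_finite K
    haveI := hE
    haveI := hEg
    exact sym_real k E
  | quot f hf _ ih =>
    obtain ⟨K₁, hK₁, h⟩ := ih
    refine ⟨K₁, hK₁, fun K hK hKf E hE hEg => ?_⟩
    haveI := hKf
    haveI : NumberField K := numberField_of_finite K
    obtain ⟨ρ, hρ, hs⟩ := h K hK hKf E hE hEg
    refine ⟨f.comp ρ, ft_comp f ρ hρ, fun y => ?_⟩
    obtain ⟨x, rfl⟩ := hf y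
    obtain ⟨σ, hσ, rfl⟩ := hs x
    exact ⟨σ, hσ, rfl⟩
  | prod _ _ ih1 ih2 =>
    obtain ⟨K₁, hK₁, h₁⟩ := ih1
    obtain ⟨K₂, hK₂, h₂⟩ := ih2
    haveI := hK₁
    haveI := hK₂
    refine ⟨K₁ ⊔ K₂, IntermediateField.finiteDimensional_sup K₁ K₂, fun K hK hKf E hE hEg => ?_⟩
    haveI := hKf
    haveI : NumberField K := numberField_of_finite K
    haveI := hE
    haveI := hEg
    obtain ⟨ρ₁, hρ₁, hs₁⟩ := h₁ K (le_sup_left.trans hK) hKf E hE hEg
    obtain ⟨M, hMf, hMg, e, he, hres⟩ := factor ρ₁ hρ₁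
    obtain ⟨ρ₂, hρ₂, hs₂⟩ := h₂ K (le_sup_right.trans hK) hKf (E ⊔ M)
      (IntermediateField.finiteDimensional_sup E M) inferInstance
    refine ⟨ρ₁.prod ρ₂, ?_, ?_⟩
    · obtain ⟨E₁, hE₁, hE₁'⟩ := hρ₁
      obtain ⟨E₂, hE₂, hE₂'⟩ := hρ₂
      refine ⟨E₁ ⊔ E₂, IntermediateField.finiteDimensional_sup E₁ E₂, ?_⟩
      intro σ hσ
      have h1 : ρ₁ σ = 1 := hE₁' (IntermediateField.fixingSubgroup_le le_sup_left hσ)
      have h2 : ρ₂ σ = 1 := hE₂' (IntermediateField.fixingSubgroup_le le_sup_right hσ)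
      rw [MonoidHom.mem_ker, MonoidHom.prod_apply, h1, h2]
      rfl
    · rintro ⟨y₁, y₂⟩
      obtain ⟨σ, hσ, hσ'⟩ := hs₁ y₁
      obtain ⟨τ, hτ, hτ'⟩ := hs₂ (y₂ * (ρ₂ σ)⁻¹)
      have hτE : τ ∈ E.fixingSubgroup := IntermediateField.fixingSubgroup_le le_sup_left hτ
      have hτM : τ ∈ M.fixingSubgroup := IntermediateField.fixingSubgroup_le le_sup_right hτ
      have hτ1 : ρ₁ τ = 1 := by
        rw [← hres τ]
        rw [← IntermediateField.restrictNormalHom_ker M] at hτM
        have : res M τ = 1 := hτM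
        rw [this, map_one]
      refine ⟨τ * σ, Subgroup.mul_mem _ hτE hσ, ?_⟩
      rw [MonoidHom.prod_apply, map_mul, map_mul, hτ1, hσ', hτ']
      simp
  | @split Q A _ _ _ φ hQ ih =>
    haveI : Finite Q := hQ.finite
    obtain ⟨K₁, hK₁, h⟩ := ih
    obtain ⟨K₂, hK₂, hbase⟩ := base_field (Nat.card A) 0 Nat.card_pos
    haveI := hK₁
    haveI := hK₂
    refine ⟨K₁ ⊔ K₂, IntermediateField.finiteDimensional_sup K₁ K₂, fun K hK hKf E hE hEg => ?_⟩
    haveI := hKf
    haveI : NumberField K := numberField_of_finite K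
    haveI := hE
    haveI := hEg
    obtain ⟨⟨ζ, hζ⟩, -, -⟩ := hbase K inferInstance (le_sup_right.trans hK)
    obtain ⟨ρ, hρ, hs⟩ := h K (le_sup_left.trans hK) hKf E hE hEg
    haveI : Finite (A ⋊[φ] Q) := Finite.of_equiv _ SemidirectProduct.equivProd.symm
    let A' : Subgroup (A ⋊[φ] Q) := (SemidirectProduct.inl : A →* A ⋊[φ] Q).range
    let H₁ : Subgroup (A ⋊[φ] Q) := (SemidirectProduct.inr : Q →* A ⋊[φ] Q).range
    have hcard : Nat.card A' = Nat.card A :=
      (Nat.card_congr (MonoidHom.ofInjective SemidirectProduct.inl_injective).toEquiv).symm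
    let i : Q ≃* H₁ := MonoidHom.ofInjective SemidirectProduct.inr_injective
    refine up_step2 A' H₁ ?_ ?_ ?_ ζ (by rw [hcard]; exact hζ) E (i.toMonoidHom.comp ρ) ?_
      (ft_comp _ ρ hρ)
    · rw [show A' = (SemidirectProduct.rightHom : A ⋊[φ] Q →* Q).ker from
        SemidirectProduct.range_inl_eq_ker_rightHom]
      infer_instance
    · rintro _ ⟨s, rfl⟩ _ ⟨t, rfl⟩
      rw [← map_mul, ← map_mul, mul_comm]
    · rw [eq_top_iff]
      rintro x -
      rw [← SemidirectProduct.inl_left_mul_inr_right x]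
      exact Subgroup.mul_mem_sup ⟨_, rfl⟩ ⟨_, rfl⟩
    · intro y
      obtain ⟨σ, hσ, hσ'⟩ := hs (i.symm y)
      refine ⟨σ, hσ, ?_⟩
      change i (ρ σ) = y
      rw [hσ', i.apply_symm_apply]

theorem buildable_realizable {Q : Type} [Group Q] (h : Buildable Q) : Realizable Q :=
  h.strongReal.realizable

end H38.ML
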