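import Pool.Agent.H38.ML.CB

/-!
# [H38 ML REMOVAL] Removing one prime from a counting problem (50-90 lines)

`f` maps the elements of `A` injectively to pairs `(e, t')`, `t'` in `B`, `N t = p ^ e * N t'`.
So for `X ≥ 1` and every `m : ℕ`
`cnt A N X ≤ ∑_{e ≥ 0} cnt B N (X / p^e) ≤ m * cnt B N X + ∑_{e ≥ m, p^e ≤ X} C (X/p^e) (1 + log X)^k
  ≤ m * cnt B N X + 2 C p^{-m} X (1 + log X)^k`
(`cnt B N Y = 0` for `Y < 1`, `∑_{e ≥ m} p^{-e} ≤ 2 p^{-m}`).
Choose `m` with `2 C 2^k p^{-m} ≤ c/2` (`1 + log X ≤ 2 log X` for `X ≥ e`):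
`m * cnt B N X ≥ (c/2) X (log X)^k` for `X` large; `m ≥ 1` w.l.o.g.
-/

namespace H38.ML

private theorem cnt_mono_zero {T : Type} (N : T → ℕ) (B : T → Prop) (hBpos : ∀ t, B t → 0 < N t)
    (X : ℝ) (hX : X < 1) : cnt B N X = 0 := by
  unfold cnt
  rw [Nat.card_eq_zero]
  left
  refine ⟨?_⟩
  rintro ⟨t, ht1, ht2⟩
  have h1 : 0 < N t := hBpos t ht1
  have h2 : (1 : ℝ) ≤ (N t : ℝ) := by exact_mod_cast h1
  linarith

private theorem cnt_mono {T : Type} (N : T → ℕ) (B : T → Prop)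
    (hBfin : ∀ X : ℝ, {t | B t ∧ (N t : ℝ) ≤ X}.Finite) (X Y : ℝ) (h : X ≤ Y) :
    cnt B N X ≤ cnt B N Y := by
  have h1 : cnt B N X = ({t | B t ∧ (N t : ℝ) ≤ X}).ncard := rfl
  have h2 : cnt B N Y = ({t | B t ∧ (N t : ℝ) ≤ Y}).ncard := rfl
  rw [h1, h2]
  refine Set.ncard_le_ncard ?_ (hBfin Y)
  rintro t ⟨ht1, ht2⟩
  exact ⟨ht1, ht2.trans h⟩

private theorem cnt_le_sum {T : Type} (N : T → ℕ) (A B : T → Prop) (p : ℕ) (hp : 2 ≤ p) (f : T → ℕ × T)
    (hf : ∀ t, A t → B (f t).2 ∧ N t = p ^ (f t).1 * N (f t).2)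
    (hinj : Set.InjOn f {t | A t}) (hBpos : ∀ t, B t → 0 < N t)
    (hBfin : ∀ X : ℝ, {t | B t ∧ (N t : ℝ) ≤ X}.Finite) (X : ℝ) (hX : 1 ≤ X) :
    cnt A N X ≤ ∑ e ∈ Finset.range (⌊X⌋₊ + 1), cnt B N (X / (p : ℝ) ^ e) := by
  classical
  set U : Finset (ℕ × T) := (Finset.range (⌊X⌋₊ + 1)).biUnion
    (fun e => ((hBfin (X / (p : ℝ) ^ e)).toFinset).image (fun t' => (e, t'))) with hU
  have h1 : cnt A N X = ({t | A t ∧ (N t : ℝ) ≤ X}).ncard := rfl
  have hpr : (0 : ℝ) < (p : ℝ) := by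
    have : (2 : ℝ) ≤ (p : ℝ) := by exact_mod_cast hp
    linarith
  have h2 : ({t | A t ∧ (N t : ℝ) ≤ X}).ncard ≤ ((U : Set (ℕ × T))).ncard := by
    refine Set.ncard_le_ncard_of_injOn f ?_ ?_ U.finite_toSet
    · rintro t ⟨ht1, ht2⟩
      obtain ⟨hb, hN⟩ := hf t ht1
      rw [hU]
      simp only [Finset.coe_biUnion, Set.mem_iUnion, Finset.mem_coe, Finset.mem_range, Finset.mem_image,
        Set.Finite.mem_toFinset, exists_prop]
      have hN2 : (N t : ℝ) = (p : ℝ) ^ (f t).1 * (N (f t).2 : ℝ) := by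
        rw [hN]; push_cast; ring
      have hpos : 0 < N (f t).2 := hBpos _ hb
      have hge : p ^ (f t).1 ≤ N t := by
        rw [hN]
        exact Nat.le_mul_of_pos_right _ hpos
      refine ⟨(f t).1, ?_, (f t).2, ⟨hb, ?_⟩, rfl⟩
      · have h3 : (f t).1 < p ^ (f t).1 := Nat.lt_pow_self (by omega)
        have h4 : ((f t).1 : ℝ) ≤ X := by
          have : ((f t).1 : ℝ) ≤ (N t : ℝ) := by exact_mod_cast (h3.le.trans hge)
          linarith
        have := Nat.le_floor h4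
        omega
      · rw [le_div_iff₀ (by positivity)]
        rw [hN2] at ht2
        linarith
    · intro t ht t' ht' heq
      exact hinj ht.1 ht'.1 heq
  rw [h1]
  refine h2.trans ?_
  rw [Set.ncard_coe_finset, hU]
  refine Finset.card_biUnion_le.trans ?_
  refine Finset.sum_le_sum fun e _ => ?_
  refine Finset.card_image_le.trans (le_of_eq ?_)
  have := Set.ncard_eq_toFinset_card _ (hBfin (X / (p : ℝ) ^ e))
  rw [← this]
  rfl

theorem removal {T : Type} (N : T → ℕ) (A B : T → Prop) (p k : ℕ) (hp : 2 ≤ p) (f : T → ℕ × T)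
    (hf : ∀ t, A t → B (f t).2 ∧ N t = p ^ (f t).1 * N (f t).2)
    (hinj : Set.InjOn f {t | A t}) (hBpos : ∀ t, B t → 0 < N t)
    (hBfin : ∀ X : ℝ, {t | B t ∧ (N t : ℝ) ≤ X}.Finite)
    (hup : ∃ C : ℝ, 0 < C ∧ ∀ X : ℝ, 1 ≤ X → (cnt B N X : ℝ) ≤ C * X * (1 + Real.log X) ^ k)
    (hlow : ∃ c : ℝ, 0 < c ∧ ∃ X₀ : ℝ, ∀ X : ℝ, X₀ ≤ X →
      c * X * Real.log X ^ k ≤ (cnt A N X : ℝ)) :
    ∃ c : ℝ, 0 < c ∧ ∃ X₀ : ℝ, ∀ X : ℝ, X₀ ≤ X → c * X * Real.log X ^ k ≤ (cnt B N X : ℝ) := by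
  obtain ⟨C, hC, hup⟩ := hup
  obtain ⟨c, hc, X₀, hlow⟩ := hlow
  have hp2 : (2 : ℝ) ≤ (p : ℝ) := by exact_mod_cast hp
  have hpr : (0 : ℝ) < (p : ℝ) := by linarith
  set x : ℝ := 1 / (p : ℝ) with hx
  have hx0 : 0 < x := by rw [hx]; positivity
  have hx1 : x ≤ 1 / 2 := by rw [hx]; exact one_div_le_one_div_of_le (by norm_num) hp2
  obtain ⟨m, hm⟩ := exists_pow_lt_of_lt_one (show (0 : ℝ) < c / (2 * (2 * C * 2 ^ k)) by positivity)
    (show x < 1 by linarith)
  refine ⟨c / (2 * (m + 1)), by positivity, max X₀ (Real.exp 1), ?_⟩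
  intro X hX
  have hX1 : X₀ ≤ X := (le_max_left _ _).trans hX
  have hXe : Real.exp 1 ≤ X := (le_max_right _ _).trans hX
  have hX1' : 1 ≤ X := by
    have : (1 : ℝ) ≤ Real.exp 1 := by
      have := Real.add_one_le_exp (1 : ℝ)
      linarith
    linarith
  have hX0 : 0 < X := by linarith
  have hlog : 1 ≤ Real.log X := by
    rw [← Real.log_exp 1]
    exact Real.log_le_log (Real.exp_pos _) hXe
  have hsum := cnt_le_sum N A B p hp f hf hinj hBpos hBfin X hX1'
  have hsumr : (cnt A N X : ℝ) ≤ ∑ e ∈ Finset.range (⌊X⌋₊ + 1), (cnt B N (X / (p : ℝ) ^ e) : ℝ) := by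
    exact_mod_cast hsum
  have hterm : ∀ e ∈ Finset.range (⌊X⌋₊ + 1), (cnt B N (X / (p : ℝ) ^ e) : ℝ) ≤
      (if e < m then (cnt B N X : ℝ) else 0) +
      (if m ≤ e then (C * X * (1 + Real.log X) ^ k) * x ^ e else 0) := by
    intro e _
    by_cases hem : e < m
    · rw [if_pos hem, if_neg (by omega), add_zero]
      have h1 : X / (p : ℝ) ^ e ≤ X := by
        apply div_le_self hX0.le
        exact one_le_pow₀ (by linarith)
      exact_mod_cast cnt_mono N B hBfin _ _ h1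
    · rw [if_neg hem, if_pos (by omega), zero_add]
      have hpe : (0 : ℝ) < (p : ℝ) ^ e := by positivity
      by_cases h1 : X / (p : ℝ) ^ e < 1
      · rw [cnt_mono_zero N B hBpos _ h1]
        push_cast
        positivity
      · push Not at h1
        refine (hup _ h1).trans ?_
        have h2 : X / (p : ℝ) ^ e ≤ X := by
          apply div_le_self hX0.le
          exact one_le_pow₀ (by linarith)
        have h3 : (1 + Real.log (X / (p : ℝ) ^ e)) ^ k ≤ (1 + Real.log X) ^ k := by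
          refine pow_le_pow_left₀ ?_ ?_ k
          · have := Real.log_nonneg h1
            linarith
          · have := Real.log_le_log (by positivity) h2
            linarith
        calc C * (X / (p : ℝ) ^ e) * (1 + Real.log (X / (p : ℝ) ^ e)) ^ k
            ≤ C * (X / (p : ℝ) ^ e) * (1 + Real.log X) ^ k :=
              mul_le_mul_of_nonneg_left h3 (by positivity)
          _ = (C * X * (1 + Real.log X) ^ k) * x ^ e := by
              rw [hx, one_div, inv_pow]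
              ring
  have h1 := hsumr.trans (Finset.sum_le_sum hterm)
  rw [Finset.sum_add_distrib] at h1
  have h2 : ∑ e ∈ Finset.range (⌊X⌋₊ + 1), (if e < m then (cnt B N X : ℝ) else 0) ≤ m * (cnt B N X : ℝ) := by
    rw [← Finset.sum_filter, Finset.sum_const, nsmul_eq_mul]
    refine mul_le_mul_of_nonneg_right ?_ (Nat.cast_nonneg _)
    have : (Finset.range (⌊X⌋₊ + 1)).filter (fun e => e < m) ⊆ Finset.range m := by
      intro e he
      rw [Finset.mem_filter] at he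
      exact Finset.mem_range.2 he.2
    have := Finset.card_le_card this
    rw [Finset.card_range] at this
    exact_mod_cast this
  have h3 : ∑ e ∈ Finset.range (⌊X⌋₊ + 1), (if m ≤ e then (C * X * (1 + Real.log X) ^ k) * x ^ e else 0) ≤
      (C * X * (1 + Real.log X) ^ k) * (2 * x ^ m) := by
    rw [← Finset.sum_filter, ← Finset.mul_sum]
    refine mul_le_mul_of_nonneg_left ?_ (by positivity)
    have e1 : (Finset.range (⌊X⌋₊ + 1)).filter (fun e => m ≤ e) = Finset.Ico m (⌊X⌋₊ + 1) := by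
      ext e
      simp only [Finset.mem_filter, Finset.mem_range, Finset.mem_Ico]
      omega
    rw [e1]
    refine (geom_sum_Ico_le_of_lt_one hx0.le (by linarith)).trans ?_
    rw [div_le_iff₀ (by linarith)]
    have : 0 < x ^ m := by positivity
    nlinarith
  have h4 : (C * X * (1 + Real.log X) ^ k) * (2 * x ^ m) ≤ c / 2 * X * Real.log X ^ k := by
    have h5 : (1 + Real.log X) ^ k ≤ 2 ^ k * Real.log X ^ k := by
      rw [← mul_pow]
      exact pow_le_pow_left₀ (by linarith) (by linarith) k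
    have h6 : 2 * C * 2 ^ k * x ^ m ≤ c / 2 := by
      have h7 : x ^ m * (2 * (2 * C * 2 ^ k)) < c := by
        rwa [lt_div_iff₀ (by positivity)] at hm
      linarith
    calc (C * X * (1 + Real.log X) ^ k) * (2 * x ^ m)
        ≤ (C * X * (2 ^ k * Real.log X ^ k)) * (2 * x ^ m) := by
          refine mul_le_mul_of_nonneg_right ?_ (by positivity)
          exact mul_le_mul_of_nonneg_left h5 (by positivity)
      _ = (2 * C * 2 ^ k * x ^ m) * (X * Real.log X ^ k) := by ring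
      _ ≤ (c / 2) * (X * Real.log X ^ k) := by
          refine mul_le_mul_of_nonneg_right h6 ?_
          have : 0 ≤ Real.log X := by linarith
          positivity
      _ = c / 2 * X * Real.log X ^ k := by ring
  have h5 := hlow X hX1
  have h6 : c / 2 * X * Real.log X ^ k ≤ m * (cnt B N X : ℝ) := by
    have e1 : c * X * Real.log X ^ k = c / 2 * X * Real.log X ^ k + c / 2 * X * Real.log X ^ k := by ring
    linarith
  have h7 : (0 : ℝ) ≤ (cnt B N X : ℝ) := Nat.cast_nonneg _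
  have hm0 : (0 : ℝ) ≤ (m : ℝ) := Nat.cast_nonneg _
  have e2 : c / (2 * ((m : ℝ) + 1)) * X * Real.log X ^ k = (c / 2 * X * Real.log X ^ k) / ((m : ℝ) + 1) := by
    field_simp
  rw [e2, div_le_iff₀ (by positivity)]
  nlinarith

end H38.ML
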