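import Pool.Agent.H38.ML.Bad
import Pool.Agent.H38.ML.Removal

/-!
# [H38 ML COUNTGOOD] Counting good tuples (100-160 lines)

Let `c₀ X (log X)^(b-1) ≤ cnt(all nonzero tuples)` for `X ≥ X₀` (`cb_tup`).  `bad_count` with
`ε = c₀ / 2^(b+1)` gives `z`; since `1 + log X ≤ 2 log X` for `X ≥ e`, the set
`A₀ = {I : all I c ≠ ⊥, no BadAt v I for any nonzero prime v with N(v) > z}` satisfies
`cnt(A₀) ≥ (c₀/2) X (log X)^(b-1)` for large `X`.
Let `Z` be the finite set of the pairs `(c, V)`, `V` a nonzero prime of `F c` such that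
`V.under (𝓞 K) ∈ S` or `N(V.under (𝓞 K)) ≤ z` (finitely many ideals of `K` of norm `≤ z`; finitely many primes `V`
over each nonzero `v`).  For a subset `Z' ⊆ Z` let
`A_{Z'} = {I ∈ A₀ : V ∤ I c for all (c, V) ∈ Z'}`.  Claim: `cnt(A_{Z'}) ≥ c' X (log X)^(b-1)` for large
`X`; by induction (`Finset.induction_on`): `A_{Z' ∪ {(c,V)}}` from `A_{Z'}` with `removal`:
`p = N(V) ≥ 2`, `f I = (e, I')` with `e` the multiplicity of `V` in `I c` and `I'` the tuple `I` with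
`I c` replaced by the cofactor of `V^e` (so `I c = V^e * I' c`); `I' ∈ A₀`: a bad pattern of `I'`
is a bad pattern of `I` since `I' ∣ I`.  Upper bounds from `cb_tup` (monotone).
Finally `A_Z ⊆ {Good S}`: if `V` is a prime dividing `I c` then `V ≠ ⊥`, `v = V.under (𝓞 K)` is a nonzero
prime, `(c, V) ∉ Z`, so `v ∉ S` and `N(v) > z`, so `BadAt v I` fails, which is `deg`, `sq`, `inj`,
`disj`.
The Finset `Ts` is the (finite, `cb_tup`) set `{I : Good S I, nrm I ≤ X}`.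
-/

open scoped NumberField

namespace H38.ML

variable {K : Type} [Field K] [NumberField K] {b : ℕ} {F : Fin b → Type} [∀ c, Field (F c)]
  [∀ c, NumberField (F c)] [∀ c, Algebra K (F c)]

theorem cg_ncard {T : Type} (P : T → Prop) (N : T → ℕ) (X : ℝ) :
    cnt P N X = {t | P t ∧ (N t : ℝ) ≤ X}.ncard := by
  unfold cnt
  rw [← Nat.card_coe_set_eq]
  rfl

theorem cg_mono {T : Type} {P Q : T → Prop} {N : T → ℕ} {X : ℝ}
    (hfin : {t | Q t ∧ (N t : ℝ) ≤ X}.Finite) (h : ∀ t, P t → Q t) :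
    cnt P N X ≤ cnt Q N X := by
  rw [cg_ncard, cg_ncard]
  exact Set.ncard_le_ncard (fun t ht => ⟨h t ht.1, ht.2⟩) hfin

theorem badAt_mono {v : Ideal (𝓞 K)} {I J : Tup F} (h : ∀ c, J c ∣ I c) (hJ : BadAt v J) :
    BadAt v I := by
  rcases hJ with ⟨c, V, h1, h2, h3, h4⟩ | ⟨c, V, h1, h2, h3⟩ |
    ⟨c, V, V', h1, h2, h3, h4, h5, h6, h7⟩ | ⟨c, c', V, V', h1, h2, h3, h4, h5, h6, h7⟩
  · exact Or.inl ⟨c, V, h1, h2.trans (h c), h3, h4⟩
  · exact Or.inr (Or.inl ⟨c, V, h1, h2.trans (h c), h3⟩)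
  · exact Or.inr (Or.inr (Or.inl ⟨c, V, V', h1, h2, h3, h4.trans (h c), h5.trans (h c), h6, h7⟩))
  · exact Or.inr (Or.inr (Or.inr ⟨c, c', V, V', h1, h2, h3, h4.trans (h c), h5.trans (h c'),
      h6, h7⟩))

/-- tuples without bad pattern at large primes -/
def CGA (K : Type) [Field K] [NumberField K] {b : ℕ} {F : Fin b → Type} [∀ c, Field (F c)]
    [∀ c, NumberField (F c)] [∀ c, Algebra K (F c)] (z : ℕ) (I : Tup F) : Prop :=
  (∀ c, I c ≠ ⊥) ∧ ∀ v : Ideal (𝓞 K), v.IsPrime → v ≠ ⊥ → z < Ideal.absNorm v → ¬ BadAt v I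

theorem cg_start (hb : 0 < b) :
    ∃ z : ℕ, ∃ c : ℝ, 0 < c ∧ ∃ X₀ : ℝ, ∀ X : ℝ, X₀ ≤ X →
      c * X * Real.log X ^ (b - 1) ≤ (cnt (fun I : Tup F => CGA K z I) (fun I => nrm I) X : ℝ) := by
  have hcb := cb_tup b hb F
  obtain ⟨c₀, hc₀, X₀, hl⟩ := hcb.lower
  obtain ⟨z, hz⟩ := bad_count (K := K) (F := F) hb (c₀ / 2 ^ b) (by positivity)
  refine ⟨z, c₀ / 2, by positivity, max X₀ (Real.exp 1), fun X hX => ?_⟩
  have hX1 : X₀ ≤ X := (le_max_left _ _).trans hX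
  have hX2 : Real.exp 1 ≤ X := (le_max_right _ _).trans hX
  have he : 1 ≤ Real.exp 1 := Real.one_le_exp (by norm_num)
  have hX3 : 1 ≤ X := he.trans hX2
  have hlog : 1 ≤ Real.log X := by
    rw [Real.le_log_iff_exp_le (by linarith)]; exact hX2
  have h1 := hl X hX1
  have h2 := hz X hX3
  set Bd : Tup F → Prop := fun I => (∀ c, I c ≠ ⊥) ∧ ∃ v : Ideal (𝓞 K), v.IsPrime ∧ v ≠ ⊥ ∧
        z < Ideal.absNorm v ∧ BadAt v I with hBd
  have hfin := hcb.fin X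
  have hsum : cnt (fun I : Tup F => ∀ c, I c ≠ ⊥) (fun I => nrm I) X ≤
      cnt (fun I : Tup F => CGA K z I) (fun I => nrm I) X + cnt Bd (fun I => nrm I) X := by
    rw [cg_ncard, cg_ncard, cg_ncard]
    refine (Set.ncard_le_ncard ?_ ?_).trans (Set.ncard_union_le _ _)
    · intro I hI
      by_cases hB : ∃ v : Ideal (𝓞 K), v.IsPrime ∧ v ≠ ⊥ ∧ z < Ideal.absNorm v ∧ BadAt v I
      · exact Or.inr ⟨⟨hI.1, hB⟩, hI.2⟩
      · refine Or.inl ⟨⟨hI.1, fun v h3 h4 h5 h6 => hB ⟨v, h3, h4, h5, h6⟩⟩, hI.2⟩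
    · refine hfin.subset ?_
      rintro I (hI | hI)
      · exact ⟨hI.1.1, hI.2⟩
      · exact ⟨hI.1.1, hI.2⟩
  have h3 : c₀ / 2 ^ b * X * (1 + Real.log X) ^ (b - 1) ≤ c₀ / 2 * X * Real.log X ^ (b - 1) := by
    have h4 : (1 + Real.log X) ^ (b - 1) ≤ 2 ^ (b - 1) * Real.log X ^ (b - 1) := by
      rw [← mul_pow]
      exact pow_le_pow_left₀ (by linarith) (by linarith) _
    have h5 : (2 : ℝ) ^ b = 2 * 2 ^ (b - 1) := by
      rw [← pow_succ']
      congr 1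
      omega
    calc c₀ / 2 ^ b * X * (1 + Real.log X) ^ (b - 1) ≤
        c₀ / 2 ^ b * X * (2 ^ (b - 1) * Real.log X ^ (b - 1)) :=
          mul_le_mul_of_nonneg_left h4 (by positivity)
      _ = c₀ / 2 * X * Real.log X ^ (b - 1) := by
          rw [h5]
          field_simp
  have h6 : (cnt (fun I : Tup F => ∀ c, I c ≠ ⊥) (fun I => nrm I) X : ℝ) ≤
      cnt (fun I : Tup F => CGA K z I) (fun I => nrm I) X + cnt Bd (fun I => nrm I) X := by
    exact_mod_cast hsum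
  linarith

theorem cg_nrm_update (I : Tup F) (c : Fin b) (J W : Ideal (𝓞 (F c))) (h : I c = W * J) :
    nrm I = Ideal.absNorm W * nrm (Function.update I c J) := by
  classical
  unfold nrm
  rw [← Finset.mul_prod_erase Finset.univ (fun c => Ideal.absNorm (I c)) (Finset.mem_univ c),
    ← Finset.mul_prod_erase Finset.univ
      (fun c' => Ideal.absNorm (Function.update I c J c')) (Finset.mem_univ c)]
  rw [Function.update_self, h, map_mul, mul_assoc]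
  congr 2
  refine Finset.prod_congr rfl fun c' hc' => ?_
  rw [Function.update_of_ne (Finset.ne_of_mem_erase hc')]

theorem cg_step (hb : 0 < b) (z : ℕ) (Z : Finset ((c : Fin b) × Ideal (𝓞 (F c))))
    (hZ : ∀ x ∈ Z, x.2.IsPrime ∧ x.2 ≠ ⊥)
    (h0 : ∃ c : ℝ, 0 < c ∧ ∃ X₀ : ℝ, ∀ X : ℝ, X₀ ≤ X →
      c * X * Real.log X ^ (b - 1) ≤
        (cnt (fun I : Tup F => CGA K z I) (fun I => nrm I) X : ℝ)) :
    ∃ c : ℝ, 0 < c ∧ ∃ X₀ : ℝ, ∀ X : ℝ, X₀ ≤ X →
      c * X * Real.log X ^ (b - 1) ≤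
        (cnt (fun I : Tup F => CGA K z I ∧ ∀ x ∈ Z, ¬ x.2 ∣ I x.1) (fun I => nrm I) X : ℝ) := by
  classical
  have hcb := cb_tup b hb F
  induction Z using Finset.induction_on with
  | empty => simpa using h0
  | insert y Z hy ih =>
    have hIH := ih (fun x hx => hZ x (Finset.mem_insert_of_mem hx))
    obtain ⟨c, V⟩ := y
    obtain ⟨hV1, hV2⟩ := hZ ⟨c, V⟩ (Finset.mem_insert_self _ _)
    have hV1' : V.IsPrime := hV1
    have hV2' : V ≠ ⊥ := hV2
    have hVunit : ¬ IsUnit V := by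
      rw [Ideal.isUnit_iff]; exact hV1'.ne_top
    have hex : ∀ J0 : Ideal (𝓞 (F c)), ∃ e : ℕ, ∃ J : Ideal (𝓞 (F c)), J0 ≠ ⊥ →
        J0 = V ^ e * J ∧ ¬ V ∣ J := by
      intro J0
      by_cases h : J0 = ⊥
      · exact ⟨0, ⊥, fun h' => absurd h h'⟩
      · have hfm : FiniteMultiplicity V J0 := FiniteMultiplicity.of_not_isUnit hVunit h
        obtain ⟨J, hJ1, hJ2⟩ := hfm.exists_eq_pow_mul_and_not_dvd
        exact ⟨_, J, fun _ => ⟨hJ1, hJ2⟩⟩
    choose e J hJ using hex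
    have hp2 : 2 ≤ Ideal.absNorm V := by
      have h1 : Ideal.absNorm V ≠ 0 := by
        rw [Ne, Ideal.absNorm_eq_zero_iff]; exact hV2'
      have h2 : Ideal.absNorm V ≠ 1 := by
        rw [Ne, Ideal.absNorm_eq_one_iff]; exact hV1'.ne_top
      omega
    refine removal (fun I : Tup F => nrm I)
      (fun I : Tup F => CGA K z I ∧ ∀ x ∈ Z, ¬ x.2 ∣ I x.1) _ (Ideal.absNorm V) (b - 1) hp2
      (fun I => (e (I c), Function.update I c (J (I c)))) ?_ ?_ ?_ ?_ ?_ hIH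
    · rintro I ⟨⟨hI1, hI2⟩, hI3⟩
      obtain ⟨hJ1, hJ2⟩ := hJ (I c) (hI1 c)
      have hdvd : ∀ c', Function.update I c (J (I c)) c' ∣ I c' := by
        intro c'
        by_cases hc : c' = c
        · subst hc
          rw [Function.update_self]
          exact Dvd.intro_left (V ^ e (I c')) hJ1.symm
        · rw [Function.update_of_ne hc]
      refine ⟨⟨⟨fun c' => ?_, fun v h1 h2 h3 h4 => hI2 v h1 h2 h3 (badAt_mono hdvd h4)⟩,
        fun x hx => ?_⟩, ?_⟩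
      · intro h
        have h5 := hdvd c'
        have h' : Function.update I c (J (I c)) c' = ⊥ := h
        rw [h'] at h5
        exact hI1 c' (zero_dvd_iff.mp h5)
      · rw [Finset.mem_insert] at hx
        rcases hx with hx | hx
        · subst hx
          show ¬ V ∣ Function.update I c (J (I c)) c
          rw [Function.update_self]
          exact hJ2
        · intro h
          exact hI3 x hx (h.trans (hdvd x.1))
      · show nrm I = Ideal.absNorm V ^ e (I c) * nrm (Function.update I c (J (I c)))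
        rw [← map_pow]
        exact cg_nrm_update I c _ _ hJ1
    · intro I hI I' hI' hf
      have h1 : e (I c) = e (I' c) := congrArg Prod.fst hf
      have h2 : Function.update I c (J (I c)) = Function.update I' c (J (I' c)) :=
        congrArg Prod.snd hf
      funext c'
      by_cases hc : c' = c
      · subst hc
        have h3 := congrFun h2 c'
        rw [Function.update_self, Function.update_self] at h3
        rw [(hJ (I c') (hI.1.1 c')).1, (hJ (I' c') (hI'.1.1 c')).1, h1, h3]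
      · have h3 := congrFun h2 c'
        rwa [Function.update_of_ne hc, Function.update_of_ne hc] at h3
    · intro I hI
      exact hcb.pos I hI.1.1
    · intro X
      exact (hcb.fin X).subset fun I hI => ⟨hI.1.1.1, hI.2⟩
    · obtain ⟨C, hC, hu⟩ := hcb.upper
      refine ⟨C, hC, fun X hX => le_trans ?_ (hu X hX)⟩
      have h6 := cg_mono (P := fun I : Tup F => CGA K z I ∧ ∀ x ∈ insert ⟨c, V⟩ Z, ¬ x.2 ∣ I x.1)
        (hcb.fin X) (fun I hI => hI.1.1)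
      exact_mod_cast h6

theorem cg_finite (z : ℕ) (S : Set (Ideal (𝓞 K))) (hS : S.Finite) :
    {x : (c : Fin b) × Ideal (𝓞 (F c)) | x.2.IsPrime ∧ x.2 ≠ ⊥ ∧
      (x.2.under (𝓞 K) ∈ S ∨ Ideal.absNorm (x.2.under (𝓞 K)) ≤ z)}.Finite := by
  classical
  have hT : (S ∪ {v : Ideal (𝓞 K) | Ideal.absNorm v ≤ z}).Finite :=
    hS.union (Ideal.finite_setOfPred_absNorm_le z)
  have h1 : ∀ c : Fin b, {V : Ideal (𝓞 (F c)) | V.IsPrime ∧ V ≠ ⊥ ∧
      (V.under (𝓞 K) ∈ S ∨ Ideal.absNorm (V.under (𝓞 K)) ≤ z)}.Finite := by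
    intro c
    have h2 : ∀ v ∈ (S ∪ {v : Ideal (𝓞 K) | Ideal.absNorm v ≤ z}),
        {V : Ideal (𝓞 (F c)) | V.IsPrime ∧ V ≠ ⊥ ∧ V.under (𝓞 K) = v}.Finite := by
      intro v _
      by_cases hv : v.IsPrime ∧ v ≠ ⊥
      · have hmax : v.IsMaximal := hv.1.isMaximal hv.2
        refine (IsDedekindDomain.primesOver_finite v (𝓞 (F c))).subset ?_
        rintro V ⟨h3, h4, h5⟩
        exact ⟨h3, ⟨h5.symm⟩⟩
      · refine Set.finite_empty.subset ?_
        rintro V ⟨h3, h4, h5⟩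
        refine hv ⟨?_, ?_⟩
        · rw [← h5]; exact Ideal.IsPrime.under (𝓞 K) V
        · rw [← h5]
          intro h6
          exact h4 (Ideal.eq_bot_of_comap_eq_bot h6)
    refine (hT.biUnion h2).subset ?_
    rintro V ⟨h3, h4, h5⟩
    rw [Set.mem_iUnion₂]
    exact ⟨V.under (𝓞 K), h5, h3, h4, rfl⟩
  have h3 : (⋃ c : Fin b, (Sigma.mk c) '' {V : Ideal (𝓞 (F c)) | V.IsPrime ∧ V ≠ ⊥ ∧
      (V.under (𝓞 K) ∈ S ∨ Ideal.absNorm (V.under (𝓞 K)) ≤ z)}).Finite :=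
    Set.finite_iUnion fun c => (h1 c).image _
  refine h3.subset ?_
  rintro ⟨c, V⟩ h
  rw [Set.mem_iUnion]
  exact ⟨c, V, h, rfl⟩

theorem cg_good {z : ℕ} {S : Set (Ideal (𝓞 K))} {I : Tup F} (h1 : CGA K z I)
    (h2 : ∀ x : (c : Fin b) × Ideal (𝓞 (F c)), (x.2.IsPrime ∧ x.2 ≠ ⊥ ∧
      (x.2.under (𝓞 K) ∈ S ∨ Ideal.absNorm (x.2.under (𝓞 K)) ≤ z)) → ¬ x.2 ∣ I x.1) :
    Good (K := K) S I := by
  have hne : ∀ c (V : Ideal (𝓞 (F c))), V ∣ I c → V ≠ ⊥ := by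
    intro c V hV h
    rw [h] at hV
    exact h1.1 c (zero_dvd_iff.mp hV)
  have hpr : ∀ c (V : Ideal (𝓞 (F c))), V.IsPrime → V ∣ I c → (V.under (𝓞 K)).IsPrime :=
    fun c V hV _ => Ideal.IsPrime.under (𝓞 K) V
  have hbot : ∀ c (V : Ideal (𝓞 (F c))), V ∣ I c → V.under (𝓞 K) ≠ ⊥ := by
    intro c V hV h
    exact hne c V hV (Ideal.eq_bot_of_comap_eq_bot h)
  have hS : ∀ c (V : Ideal (𝓞 (F c))), V.IsPrime → V ∣ I c → V.under (𝓞 K) ∉ S :=
    fun c V hV hd h => h2 ⟨c, V⟩ ⟨hV, hne c V hd, Or.inl h⟩ hd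
  have hz : ∀ c (V : Ideal (𝓞 (F c))), V.IsPrime → V ∣ I c →
      z < Ideal.absNorm (V.under (𝓞 K)) := by
    intro c V hV hd
    by_contra h
    exact h2 ⟨c, V⟩ ⟨hV, hne c V hd, Or.inr (not_lt.mp h)⟩ hd
  have hnb : ∀ c (V : Ideal (𝓞 (F c))), V.IsPrime → V ∣ I c → ¬ BadAt (V.under (𝓞 K)) I :=
    fun c V hV hd => h1.2 _ (hpr c V hV hd) (hbot c V hd) (hz c V hV hd)
  refine ⟨h1.1, hS, ?_, ?_, ?_, ?_⟩
  · intro c V hV hd
    by_contra h
    exact hnb c V hV hd (Or.inl ⟨c, V, hV, hd, rfl, h⟩)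
  · intro c V hV hd
    exact hnb c V hV ((dvd_pow_self V two_ne_zero).trans hd)
      (Or.inr (Or.inl ⟨c, V, hV, hd, rfl⟩))
  · intro c V V' hV hV' hd hd' heq
    by_contra h
    exact hnb c V hV hd (Or.inr (Or.inr (Or.inl ⟨c, V, V', hV, hV', h, hd, hd', rfl, heq.symm⟩)))
  · intro c c' V V' hV hV' hd hd' hcc heq
    exact hnb c V hV hd
      (Or.inr (Or.inr (Or.inr ⟨c, c', V, V', hcc, hV, hV', hd, hd', rfl, heq.symm⟩)))

theorem count_good (hb : 0 < b) (S : Set (Ideal (𝓞 K))) (hS : S.Finite) :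
    ∃ c : ℝ, 0 < c ∧ ∃ X₀ : ℝ, ∀ X : ℝ, X₀ ≤ X → ∃ Ts : Finset (Tup F),
      (∀ I ∈ Ts, Good (K := K) S I ∧ (nrm I : ℝ) ≤ X) ∧
        c * X * Real.log X ^ (b - 1) ≤ (Ts.card : ℝ) := by
  classical
  have hcb := cb_tup b hb F
  obtain ⟨z, h0⟩ := cg_start (K := K) (F := F) hb
  have hfz := cg_finite (K := K) (F := F) z S hS
  obtain ⟨c, hc, X₀, hl⟩ := cg_step (K := K) (F := F) hb z hfz.toFinset
    (fun x hx => by
      rw [Set.Finite.mem_toFinset] at hx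
      exact ⟨hx.1, hx.2.1⟩) h0
  refine ⟨c, hc, X₀, fun X hX => ?_⟩
  have hfin : {I : Tup F | Good (K := K) S I ∧ (nrm I : ℝ) ≤ X}.Finite :=
    (hcb.fin X).subset fun I hI => ⟨hI.1.ne, hI.2⟩
  refine ⟨hfin.toFinset, fun I hI => by rwa [Set.Finite.mem_toFinset] at hI, ?_⟩
  refine (hl X hX).trans ?_
  have h1 : cnt (fun I : Tup F => CGA K z I ∧ ∀ x ∈ hfz.toFinset, ¬ x.2 ∣ I x.1)
      (fun I => nrm I) X ≤ cnt (fun I : Tup F => Good (K := K) S I) (fun I => nrm I) X := by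
    refine cg_mono hfin ?_
    rintro I ⟨h1, h2⟩
    exact cg_good h1 fun x hx => h2 x (by rw [Set.Finite.mem_toFinset]; exact hx)
  have h2 : cnt (fun I : Tup F => Good (K := K) S I) (fun I => nrm I) X = hfin.toFinset.card := by
    rw [cg_ncard]
    exact Set.ncard_eq_toFinset_card _ hfin
  rw [h2] at h1
  exact_mod_cast h1

end H38.ML
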