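import Pool.Agent.H38.ML.ConjMod

/-!
# [H38 ML INERTORB] Orbits of an inertia group on `Fin n` (60-100 lines)

`J` is a subgroup of `G` with `J ∩ N = 1` whose image in `G ⧸ N` is contained in the cyclic group
generated by `y ḡ y⁻¹`, where `g` has least index, prime order `ℓ`, `ℓ ∤ |N|`.

Proof.  `J → G ⧸ N` is injective.  If `J = ⊥` then `orbs (⊥.map _) = n` (the orbits of the trivial
group on `Fin n` are the points), done.  Otherwise there is `x ∈ J`, `x ≠ 1`; its image is a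
nontrivial element of `zpowers (y ḡ y⁻¹)`, a group of prime order `ℓ` (the order of `y ḡ y⁻¹` is the
order of `ḡ`, a divisor of `ℓ`; if it were `1`, the image of `x` would be `1`), so
`y ḡ y⁻¹` is a power of the image of `x`; replace `x` by that power: `x ∈ J` and the image of `x` is
`y ḡ y⁻¹`.  Choose `z : G` over `y`, `g' = z g z⁻¹`: then `x ≡ g' mod N`; `orderOf x = ℓ`
(by injectivity of `J → G ⧸ N`: `x ^ ℓ ∈ J` has trivial image), and `conj_of_mod` gives
`x = w g' w⁻¹`, so `x` is conjugate to `g` in `G`.  Every element of `J` has image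
`(y ḡ y⁻¹)^k`, the image of `x ^ k`, so `J = zpowers x`, `J.map G.subtype = zpowers (x : Perm)`, and
`orbs (zpowers (x : Perm)) = orbs (zpowers (g : Perm))` because `x = u g u⁻¹` with `u : G`
(bijection `i ↦ u i` of `Fin n` between the orbits).  Finally
`ind g = indG G` is `n - orbs (zpowers g) = indG G`, so `n ≤ indG G + orbs (zpowers g)`.
-/

namespace H38.ML

theorem mem_orbit_zpowers_iff {n : ℕ} (a : Equiv.Perm (Fin n)) (i j : Fin n) :
    i ∈ MulAction.orbit (Subgroup.zpowers a) j ↔ ∃ k : ℤ, (a ^ k) j = i := by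
  rw [MulAction.mem_orbit_iff]
  constructor
  · rintro ⟨⟨m, hm⟩, h⟩
    obtain ⟨k, rfl⟩ := Subgroup.mem_zpowers_iff.1 hm
    exact ⟨k, h⟩
  · rintro ⟨k, h⟩
    exact ⟨⟨a ^ k, Subgroup.zpow_mem_zpowers a k⟩, h⟩

theorem orbs_conj {n : ℕ} (a p : Equiv.Perm (Fin n)) :
    orbs (Subgroup.zpowers (p * a * p⁻¹)) = orbs (Subgroup.zpowers a) := by
  unfold orbs
  symm
  refine Nat.card_congr (Quotient.congr p ?_)
  intro i j
  change i ∈ MulAction.orbit (Subgroup.zpowers a) j ↔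
    p i ∈ MulAction.orbit (Subgroup.zpowers (p * a * p⁻¹)) (p j)
  rw [mem_orbit_zpowers_iff, mem_orbit_zpowers_iff]
  constructor
  · rintro ⟨k, h⟩
    refine ⟨k, ?_⟩
    rw [conj_zpow, Equiv.Perm.mul_apply, Equiv.Perm.mul_apply,
      show p⁻¹ (p j) = j from p.symm_apply_apply j, h]
  · rintro ⟨k, h⟩
    refine ⟨k, ?_⟩
    rw [conj_zpow, Equiv.Perm.mul_apply, Equiv.Perm.mul_apply,
      show p⁻¹ (p j) = j from p.symm_apply_apply j] at h
    exact p.injective h

/-- The trivial group has `n` orbits. -/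
theorem orbs_bot {n : ℕ} : orbs (⊥ : Subgroup (Equiv.Perm (Fin n))) = n := by
  unfold orbs
  rw [← Nat.card_eq_of_bijective
    (Quotient.mk (MulAction.orbitRel (⊥ : Subgroup (Equiv.Perm (Fin n))) (Fin n))), Nat.card_fin]
  refine ⟨?_, Quotient.mk_surjective⟩
  intro i j h
  have h1 : i ∈ MulAction.orbit (⊥ : Subgroup (Equiv.Perm (Fin n))) j := Quotient.exact h
  obtain ⟨⟨m, hm⟩, h2⟩ := MulAction.mem_orbit_iff.1 h1
  rw [Subgroup.mem_bot] at hm
  subst hm
  exact h2.symm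

theorem orbs_of_inertia {n : ℕ} (G : Subgroup (Equiv.Perm (Fin n))) (N : Subgroup G) [N.Normal]
    (g : G) (hi : ind (g : Equiv.Perm (Fin n)) = indG G) (hp : (orderOf g).Prime)
    (hc : Nat.Coprime (orderOf g) (Nat.card N)) (J : Subgroup G) (hJN : ∀ x ∈ J, x ∈ N → x = 1)
    (y : G ⧸ N) (hJ : ∀ x ∈ J, ((x : G) : G ⧸ N) ∈ Subgroup.zpowers (y * (g : G ⧸ N) * y⁻¹)) :
    n ≤ indG G + orbs (J.map G.subtype) := by
  rcases eq_or_ne J ⊥ with hJ0 | hJ0
  · rw [hJ0, Subgroup.map_bot, orbs_bot]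
    omega
  obtain ⟨x, hxJ, hx1⟩ : ∃ x ∈ J, x ≠ 1 := by
    by_contra hcon
    push Not at hcon
    exact hJ0 ((Subgroup.eq_bot_iff_forall J).2 hcon)
  set c : G ⧸ N := y * (g : G ⧸ N) * y⁻¹ with hcdef
  have hcl : c ^ orderOf g = 1 := by
    rw [hcdef, conj_pow, ← QuotientGroup.mk_pow, pow_orderOf_eq_one, QuotientGroup.mk_one]
    simp
  obtain ⟨k, hk⟩ := Subgroup.mem_zpowers_iff.1 (hJ x hxJ)
  have hxbar : ((x : G) : G ⧸ N) ≠ 1 := by
    intro h
    exact hx1 (hJN x hxJ ((QuotientGroup.eq_one_iff x).1 h))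
  have hkl : ¬ ((orderOf g : ℕ) : ℤ) ∣ k := by
    rintro ⟨m, rfl⟩
    apply hxbar
    rw [← hk, zpow_mul, zpow_natCast, hcl, one_zpow]
  have hco : IsCoprime k ((orderOf g : ℕ) : ℤ) := by
    have := (Prime.coprime_iff_not_dvd (Nat.prime_iff_prime_int.1 hp)).2 hkl
    exact this.symm
  obtain ⟨u, v, huv⟩ := hco
  have hx1c : (((x ^ u : G)) : G ⧸ N) = c := by
    rw [QuotientGroup.mk_zpow, ← hk, ← zpow_mul]
    calc c ^ (k * u) = c ^ (u * k) * (c ^ (orderOf g)) ^ v := by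
          rw [hcl, one_zpow, mul_one, mul_comm]
      _ = c ^ (u * k + v * (orderOf g : ℤ)) := by
          rw [← zpow_natCast, ← zpow_mul, ← zpow_add, mul_comm v]
      _ = c := by rw [huv, zpow_one]
  have hx1J : x ^ u ∈ J := J.zpow_mem hxJ u
  generalize x ^ u = x1 at hx1c hx1J
  have hc1 : c ≠ 1 := by
    intro h
    apply hxbar
    rw [← hk, h, one_zpow]
  have hx1ne : x1 ≠ 1 := by
    rintro rfl
    exact hc1 (by rw [← hx1c, QuotientGroup.mk_one])
  have hx1l : x1 ^ orderOf g = 1 := by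
    refine hJN _ (J.pow_mem hx1J _) ?_
    rw [← QuotientGroup.eq_one_iff, QuotientGroup.mk_pow, hx1c, hcl]
  haveI : Fact (orderOf g).Prime := ⟨hp⟩
  have ho1 : orderOf x1 = orderOf g := orderOf_eq_prime hx1l hx1ne
  obtain ⟨z, hz⟩ := QuotientGroup.mk_surjective (s := N) y
  have ho2 : orderOf (z * g * z⁻¹) = orderOf g := by
    have h1 : (z * g * z⁻¹) ^ orderOf g = 1 := by
      rw [conj_pow, pow_orderOf_eq_one]; simp
    refine orderOf_eq_prime h1 ?_
    intro h2
    have h3 : g = 1 := by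
      have : z * g = z := by
        calc z * g = (z * g * z⁻¹) * z := by group
          _ = z := by rw [h2, one_mul]
      simpa using this
    rw [h3, orderOf_one] at hp
    exact Nat.not_prime_one hp
  obtain ⟨w, hw⟩ := conj_of_mod N (z * g * z⁻¹) x1 (by rw [ho2]; exact hp) (by rw [ho1]; exact hp)
    (by rw [ho2]; exact hc) (by rw [ho1]; exact hc)
    (by rw [hx1c, hcdef, QuotientGroup.mk_mul, QuotientGroup.mk_mul, QuotientGroup.mk_inv, hz])
  have hJz : J = Subgroup.zpowers x1 := by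
    refine le_antisymm ?_ (by rw [Subgroup.zpowers_le]; exact hx1J)
    intro t ht
    obtain ⟨m, hm⟩ := Subgroup.mem_zpowers_iff.1 (hJ t ht)
    refine Subgroup.mem_zpowers_iff.2 ⟨m, ?_⟩
    have h1 : (x1 ^ m)⁻¹ * t ∈ J := J.mul_mem (J.inv_mem (J.zpow_mem hx1J m)) ht
    have h2 : (x1 ^ m)⁻¹ * t ∈ N := by
      rw [← QuotientGroup.eq, QuotientGroup.mk_zpow, hx1c, hm]
    have h3 := hJN _ h1 h2
    exact (inv_mul_eq_one.1 h3)
  have hmap : J.map G.subtype = Subgroup.zpowers (x1 : Equiv.Perm (Fin n)) := by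
    rw [hJz, MonoidHom.map_zpowers]
    rfl
  have hconj : (x1 : Equiv.Perm (Fin n)) = (w * z : G) * (g : Equiv.Perm (Fin n)) *
      ((w * z : G) : Equiv.Perm (Fin n))⁻¹ := by
    rw [hw]
    push_cast
    group
  have horb : orbs (J.map G.subtype) = orbs (Subgroup.zpowers (g : Equiv.Perm (Fin n))) := by
    rw [hmap, hconj, orbs_conj]
  rw [horb]
  unfold ind at hi
  omega

end H38.ML
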