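import Pool.Agent.H38.ML.Ord
import Pool.Agent.H38.ML.Factor

/-!
# [H38 ML KUMINJ] The twisted homomorphism determines the orders (80-130 lines)

Let `z = algebraMap K Ω ζ`.  For `σ ∈ M.fixingSubgroup` (`res M σ = 1`) the equality
`O.ρ σ = O'.ρ σ` and the injectivity of `j` give `∏ a x ^ κ σ x = ∏ a x ^ κ' σ x`.
Let `χ : A →* Kˣ` be a character; `χ (a x) ^ q = 1`, so `χ (a x) = ζ ^ m x` for some `m x : ℕ`.
Put `y = ∏ β x ^ m x`, `y' = ∏ β' x ^ m x` (nonzero).  For `σ ∈ M.fixingSubgroup`: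
`σ y = (∏ z ^ (κ σ x * m x)) y = χ (∏ a x ^ κ σ x) y` and the same for `y'` with the same factor.
So `w = y * y' ^ (q-1)` satisfies `σ w = χ(..) ^ q w = w`: it lies in
`M = fixedField M.fixingSubgroup`, and
`w ^ q = (∏ αO x ^ m x) * (∏ αO' x ^ m x) ^ (q-1)`.
Apply `dvd_of_pow_eq` (index set `X ⊕ X`, or first multiply out) with `p = q`:
`q ∣ ∑ m x * ordAt Q (αO x) + (q-1) * ∑ m x * ordAt Q (αO' x)`, i.e. the two sums are congruent
modulo `q`.  Hence `χ (∏ a x ^ ordAt Q (αO x)) = ζ ^ ∑ m x * ordAt .. ` is equal to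
`χ (∏ a x ^ ordAt Q (αO' x))`.  As the characters `A →* Kˣ` separate the elements of the finite
commutative group `A` (exponent dividing `q`, `K` contains a primitive `q`-th root of unity;
Mathlib: `CommGroup.exists_apply_ne_one_of_hasEnoughRootsOfUnity`), the two products are equal.
-/

open scoped NumberField Pointwise

namespace H38.ML

variable {K Ω : Type} [Field K] [NumberField K] [Field Ω] [Algebra K Ω] [IsAlgClosure K Ω]

omit [NumberField K] in
theorem kum_inj_sep {A : Type} [CommGroup A] [Finite A] (q : ℕ) (hq : 0 < q) (ζ : K)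
    (hζ : IsPrimitiveRoot ζ q) (hA : ∀ t : A, t ^ q = 1) (s t : A)
    (h : ∀ χ : A →* Kˣ, χ s = χ t) : s = t := by
  by_contra hne
  have : NeZero q := ⟨hq.ne'⟩
  have : HasEnoughRootsOfUnity K q := { prim := ⟨ζ, hζ⟩, cyc := inferInstance }
  have : HasEnoughRootsOfUnity K (Monoid.exponent A) :=
    HasEnoughRootsOfUnity.of_dvd K (Monoid.exponent_dvd_of_forall_pow_eq_one hA)
  have h1 : s * t⁻¹ ≠ 1 := fun h => hne (mul_inv_eq_one.mp h)
  obtain ⟨χ, hχ⟩ := CommGroup.exists_apply_ne_one_of_hasEnoughRootsOfUnity A K h1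
  exact hχ (by rw [map_mul, map_inv, h χ, mul_inv_cancel])

omit [NumberField K] [IsAlgClosure K Ω] in
theorem kum_inj_act (M : IntermediateField K Ω) [FiniteDimensional K M] [Normal K M]
    {H A X : Type} [Group H] [CommGroup A] [Fintype X] [MulAction Gal(M/K) X]
    (ρb : Gal(M/K) →* H) (j : A →* H) (q : ℕ) (ζ : K) (a : X → A) (α : X → M)
    (O : KumOut M ρb j q ζ a α) (χ : A →* Kˣ) (m : X → ℕ)
    (hm : ∀ x, ((χ (a x) : Kˣ) : K) = ζ ^ m x) (σ : Gal(Ω/K)) (hσ : res M σ = 1) :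
    σ (∏ x, O.β x ^ m x) =
      algebraMap K Ω ((χ (∏ x, a x ^ O.κ σ x) : Kˣ) : K) * ∏ x, O.β x ^ m x := by
  rw [map_prod, map_prod]
  simp only [Units.coe_prod, map_prod]
  rw [← Finset.prod_mul_distrib]
  refine Finset.prod_congr rfl fun x _ => ?_
  have h1 := O.hκ σ x
  rw [hσ, one_smul] at h1
  rw [map_pow σ, h1, mul_pow, map_pow χ, Units.val_pow_eq_pow_val, hm, map_pow, map_pow, ← pow_mul,
    ← pow_mul, mul_comm (m x)]

theorem kum_inj (M : IntermediateField K Ω) [FiniteDimensional K M] [Normal K M] [NumberField M]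
    {H A X : Type} [Group H] [CommGroup A] [Finite A] [Fintype X] [MulAction Gal(M/K) X]
    (ρb : Gal(M/K) →* H) (j : A →* H) (hj : Function.Injective j) (q : ℕ) (hq : 0 < q) (ζ : K)
    (hζ : IsPrimitiveRoot ζ q) (hA : ∀ t : A, t ^ q = 1) (a : X → A) (αO αO' : X → 𝓞 M)
    (hα : ∀ x, αO x ≠ 0) (hα' : ∀ x, αO' x ≠ 0)
    (O : KumOut M ρb j q ζ a (fun x => ((αO x : 𝓞 M) : M)))
    (O' : KumOut M ρb j q ζ a (fun x => ((αO' x : 𝓞 M) : M)))
    (h : ∀ σ, O.ρ σ = O'.ρ σ) (Q : Ideal (𝓞 M)) :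
    ∏ x, a x ^ ordAt Q (αO x) = ∏ x, a x ^ ordAt Q (αO' x) := by
  have : IsGalois K Ω := IsAlgClosure.isGalois K Ω
  refine kum_inj_sep q hq ζ hζ hA _ _ fun χ => ?_
  have hm0 : ∀ x, ∃ m : ℕ, ((χ (a x) : Kˣ) : K) = ζ ^ m := by
    intro x
    have h1 : ((χ (a x) : Kˣ) : K) ^ q = 1 := by
      rw [← Units.val_pow_eq_pow_val, ← map_pow, hA, map_one, Units.val_one]
    have : NeZero q := ⟨hq.ne'⟩
    obtain ⟨i, -, hi⟩ := hζ.eq_pow_of_pow_eq_one h1
    exact ⟨i, hi.symm⟩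
  choose m hm using hm0
  have hres : ∀ σ ∈ M.fixingSubgroup, res M σ = 1 := by
    intro σ hσ
    have h1 := IntermediateField.restrictNormalHom_ker M
    rw [← h1] at hσ
    exact hσ
  have hκκ : ∀ σ ∈ M.fixingSubgroup, ∏ x, a x ^ O.κ σ x = ∏ x, a x ^ O'.κ σ x := by
    intro σ hσ
    have h1 := O.hρ σ
    have h2 := O'.hρ σ
    rw [hres σ hσ] at h1 h2
    rw [map_one, mul_one] at h1 h2
    simp only [one_smul] at h1 h2
    apply hj
    rw [← h1, ← h2, h σ]
  set y : Ω := ∏ x, O.β x ^ m x with hy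
  set y' : Ω := ∏ x, O'.β x ^ m x with hy'
  set w : Ω := y * y' ^ (q - 1) with hw
  have hfix : ∀ σ ∈ M.fixingSubgroup, σ w = w := by
    intro σ hσ
    have h1 := kum_inj_act M ρb j q ζ a _ O χ m hm σ (hres σ hσ)
    have h2 := kum_inj_act M ρb j q ζ a _ O' χ m hm σ (hres σ hσ)
    rw [← hκκ σ hσ] at h2
    rw [← hy] at h1
    rw [← hy'] at h2
    rw [hw, map_mul, map_pow, h1, h2]
    set c : Ω := algebraMap K Ω ((χ (∏ x, a x ^ O.κ σ x) : Kˣ) : K) with hc
    have hcq : c ^ q = 1 := by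
      rw [hc, ← map_pow, ← Units.val_pow_eq_pow_val, ← map_pow, hA, map_one, Units.val_one, map_one]
    have hqq : c * c ^ (q - 1) = c ^ q := by
      rw [← pow_succ']
      congr 1
      omega
    calc c * y * (c * y') ^ (q - 1) = (c * c ^ (q - 1)) * (y * y' ^ (q - 1)) := by
          rw [mul_pow]; ring
      _ = y * y' ^ (q - 1) := by rw [hqq, hcq, one_mul]
  have hwM : w ∈ M := by
    have h1 : w ∈ IntermediateField.fixedField M.fixingSubgroup := by
      rw [IntermediateField.mem_fixedField_iff]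
      exact hfix
    rwa [InfiniteGalois.fixedField_fixingSubgroup M] at h1
  have hwq : (⟨w, hwM⟩ : M) ^ q =
      ∏ x : X ⊕ X, ((Sum.elim αO αO' x : 𝓞 M) : M) ^ (Sum.elim m (fun x => m x * (q - 1)) x) := by
    apply Subtype.ext
    rw [Fintype.prod_sum_type]
    simp only [Sum.elim_inl, Sum.elim_inr]
    have e1 : y ^ q = ((∏ x, ((αO x : 𝓞 M) : M) ^ m x : M) : Ω) := by
      rw [hy, ← Finset.prod_pow]
      push_cast
      refine Finset.prod_congr rfl fun x _ => ?_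
      rw [← pow_mul, mul_comm, pow_mul, O.hβ]
    have e2 : (y' ^ (q - 1)) ^ q = ((∏ x, ((αO' x : 𝓞 M) : M) ^ (m x * (q - 1)) : M) : Ω) := by
      rw [hy', ← Finset.prod_pow, ← Finset.prod_pow]
      push_cast
      refine Finset.prod_congr rfl fun x _ => ?_
      have e4 := O'.hβ x
      rw [← pow_mul, ← pow_mul, ← e4, ← pow_mul]
      congr 1
      ring
    have e3 : w ^ q = y ^ q * (y' ^ (q - 1)) ^ q := by rw [hw, mul_pow]
    rw [e1, e2] at e3
    simpa using e3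
  have hdvd := dvd_of_pow_eq Q (Sum.elim αO αO') (by
    rintro (x | x)
    · exact hα x
    · exact hα' x) (Sum.elim m (fun x => m x * (q - 1))) q hq ⟨w, hwM⟩ hwq
  rw [Fintype.sum_sum_type] at hdvd
  simp only [Sum.elim_inl, Sum.elim_inr] at hdvd
  have hev : ∀ e : X → ℕ, ((χ (∏ x, a x ^ e x) : Kˣ) : K) = ζ ^ ∑ x, m x * e x := by
    intro e
    rw [map_prod, Units.coe_prod, ← Finset.prod_pow_eq_pow_sum]
    refine Finset.prod_congr rfl fun x _ => ?_
    rw [map_pow, Units.val_pow_eq_pow_val, hm, pow_mul]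
  apply Units.ext
  rw [hev, hev]
  set S := ∑ x, m x * ordAt Q (αO x) with hS
  set S' := ∑ x, m x * ordAt Q (αO' x) with hS'
  have h5 : ∑ x, m x * (q - 1) * ordAt Q (αO' x) = (q - 1) * S' := by
    rw [hS', Finset.mul_sum]
    refine Finset.sum_congr rfl fun x _ => ?_
    ring
  rw [h5] at hdvd
  obtain ⟨k, hk⟩ := hdvd
  have h6 : S + q * S' = q * k + S' := by
    have h7 : q * S' = (q - 1) * S' + S' := by
      conv_lhs => rw [show q = (q - 1) + 1 by omega]
      rw [add_mul, one_mul]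
    omega
  have h8 : ζ ^ (S + q * S') = ζ ^ (q * k + S') := by rw [h6]
  rw [pow_add, pow_add, pow_mul, pow_mul, hζ.pow_eq_one, one_pow, one_pow, mul_one, one_mul] at h8
  exact h8

end H38.ML
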