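import Pool.Agent.H38.ML.LayerRho
import Pool.Agent.H38.ML.KumInj

/-!
# [H38 ML LAYERINJ] The tuple is determined by the homomorphism (80-130 lines)

It suffices (symmetry) to show: if a prime `V` of `Fc a c` divides `I c` then it divides `I' c`;
then `I c` and `I' c` are nonzero squarefree ideals with the same prime divisors, so they are equal.
Let `V ∣ I c`, `v = V.under (𝓞 K) ∉ S`, and choose a prime `Q` of `𝓞 M` above `V`; `Q ≠ ⊥`.
`layer_unique` gives `g` and `∏ x, aX x ^ ordAt Q (αX x) = aX ⟨inr c, g⟩ = g a_c g⁻¹` (as an element of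
`Gal(M/K)`), which is `≠ 1`.  By `kum_inj` the product for `I'` is the same element, so it is
`≠ 1`, so there is `x` with `ordAt Q (αX' x) ≠ 0`; by `ord_inl`, `ord_inr` it is of the form
`⟨inr c', h⟩` with `V' = (h⁻¹ • Q).under (𝓞 (Fc a c')) ∣ I' c'`, prime, over `v`.  `layer_unique` for
`I', c', V'` gives `g'` with `(g'⁻¹ • Q).under = V'` and the product for `I'` equal to
`g' a_{c'} g'⁻¹`.  So `g a_c g⁻¹ = g' a_{c'} g'⁻¹`, hence `c = c'` by `hnc` and, after substitution,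
`g'⁻¹ * g` (and its inverse) centralizes `a c`, so it fixes `Fc a c` pointwise and
`(g'⁻¹ • Q).under (𝓞 (Fc a c)) = (g⁻¹ • Q).under (𝓞 (Fc a c))` (write
`g'⁻¹ • Q = (g'⁻¹ g) • (g⁻¹ • Q)`), i.e. `V' = V`.  So `V ∣ I' c`.
-/

open scoped NumberField Pointwise IsMulCommutative

noncomputable section

namespace H38.ML

variable {K Ω : Type} [Field K] [NumberField K] [Field Ω] [Algebra K Ω] [IsAlgClosure K Ω]
  {M : IntermediateField K Ω} [FiniteDimensional K M] [IsGalois K M] [NumberField M]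
  {A : Subgroup Gal(M/K)} [A.Normal] [IsMulCommutative A] {b : ℕ} {a : Fin b → A}

private theorem under_underK {c : Fin b} (Q : Ideal (𝓞 M)) :
    ((Q).under (𝓞 (Fc a c))).under (𝓞 K) = Q.under (𝓞 K) := Ideal.under_under Q

private theorem aX_inr (c : Fin b) (g : Gal(M/K)) :
    ((aX a ⟨Sum.inr c, (g : Gal(M/K) ⧸ UU a (Sum.inr c))⟩ : A) : Gal(M/K)) =
      g * ((a c : A) : Gal(M/K)) * g⁻¹ := rfl

open Classical in
private theorem prod_layer [Fintype (XT a)] (f : XT a → ℕ) (x₀ : XT a)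
    (hf : ∀ x, f x = if x = x₀ then 1 else 0) :
    ∏ x, aX a x ^ f x = aX a x₀ := by
  rw [Finset.prod_eq_single x₀]
  · rw [hf, if_pos rfl, pow_one]
  · intro x _ hx
    rw [hf, if_neg hx, pow_zero]
  · intro h
    exact absurd (Finset.mem_univ _) h

open Classical in
private theorem layer_dvd [Fintype (XT a)] {S₀ : Set (Ideal (𝓞 K))} (q : ℕ) (hq : 0 < q) (ζ : K)
    (hζ : IsPrimitiveRoot ζ q) (hA : ∀ t : A, t ^ q = 1) (ha1 : ∀ c, a c ≠ 1)
    (hnc : ∀ c c' (g : Gal(M/K)), g * ((a c : A) : Gal(M/K)) * g⁻¹ = (a c' : A) → c = c')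
    (D : LayerData a q S₀) (I I' : Tup fun c => Fc a c) (hI : Good (K := K) D.S I)
    (hI' : Good (K := K) D.S I') (αc αc' : (c : Fin b) → 𝓞 (Fc a c)) (hα : IsGen D I αc)
    (hα' : IsGen D I' αc') (O : LOut A a q ζ D.bt αc) (O' : LOut A a q ζ D.bt αc')
    (h : O.ρ = O'.ρ) (c : Fin b) (V : Ideal (𝓞 (Fc a c))) (hV : V.IsPrime) (hVI : V ∣ I c) :
    V ∣ I' c := by
  have hV0 : V ≠ ⊥ := by
    rintro rfl
    exact hI.ne c (le_bot_iff.mp (Ideal.dvd_iff_le.mp hVI))
  obtain ⟨⟨Q, hQp, hQV⟩⟩ := Ideal.nonempty_primesOver (S := 𝓞 M) V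
  have hQV' : Q.under (𝓞 (Fc a c)) = V := hQV.over.symm
  have := hQp
  have hQ0 : Q ≠ ⊥ := by
    rintro rfl
    apply hV0
    rw [← hQV']
    exact Ideal.comap_bot_of_injective _ (FaithfulSMul.algebraMap_injective _ _)
  have hQK : V.under (𝓞 K) = Q.under (𝓞 K) := by
    rw [← hQV', Ideal.under_under]
  have hQS : Q.under (𝓞 K) ∉ D.S := by
    rw [← hQK]
    exact hI.notMem c V hV hVI
  obtain ⟨g, hg, hg1⟩ := layer_unique D I hI αc hα Q hQ0 hQS c V hV hVI hQK
  have hp := kum_inj M (MonoidHom.id Gal(M/K)) A.subtype A.subtype_injective q hq ζ hζ hA (aX a)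
    (αX a D.bt αc) (αX a D.bt αc') (alphaX_ne_zero D I αc hα) (alphaX_ne_zero D I' αc' hα') O O'
    (fun σ => by rw [h]) Q
  rw [prod_layer _ _ hg1] at hp
  have hne : ∃ x, ordAt Q (αX a D.bt αc' x) ≠ 0 := by
    by_contra hcon
    push Not at hcon
    rw [Finset.prod_eq_one (fun x _ => by rw [hcon x, pow_zero])] at hp
    have h2 := congrArg (fun t : A => (t : Gal(M/K))) hp
    simp only [aX_inr, OneMemClass.coe_one] at h2
    apply ha1 c
    apply Subtype.ext
    have h3 : ((a c : A) : Gal(M/K)) = g⁻¹ * (g * ((a c : A) : Gal(M/K)) * g⁻¹) * g := by group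
    rw [h3, h2]
    simp
  obtain ⟨⟨i, x⟩, hx⟩ := hne
  induction x using QuotientGroup.induction_on with
  | H y =>
    cases i with
    | inl t => exact absurd (ord_inl D αc' Q hQ0 hQS t y) hx
    | inr c' =>
      rw [ord_inr D I' hI' αc' hα' Q hQ0 hQS c' y] at hx
      have hd : (y⁻¹ • Q).under (𝓞 (Fc a c')) ∣ I' c' := by
        by_contra hcon
        rw [if_neg hcon] at hx
        exact hx rfl
      have hQK' : ((y⁻¹ • Q).under (𝓞 (Fc a c'))).under (𝓞 K) = Q.under (𝓞 K) := by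
        rw [Ideal.under_under]
        exact Ideal.under_smul (𝓞 K) Q y⁻¹
      obtain ⟨g', hg', hg1'⟩ := layer_unique D I' hI' αc' hα' Q hQ0 hQS c' _ inferInstance hd hQK'
      rw [prod_layer _ _ hg1'] at hp
      have h2 := congrArg (fun t : A => (t : Gal(M/K))) hp
      simp only [aX_inr] at h2
      have h3 : (g'⁻¹ * g) * ((a c : A) : Gal(M/K)) * (g'⁻¹ * g)⁻¹ = (a c' : A) := by
        have h4 : (g'⁻¹ * g) * ((a c : A) : Gal(M/K)) * (g'⁻¹ * g)⁻¹ =
            g'⁻¹ * (g * ((a c : A) : Gal(M/K)) * g⁻¹) * g' := by group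
        rw [h4, h2]
        group
      have hcc : c = c' := hnc c c' _ h3
      subst hcc
      have h5 : (g'⁻¹ * g) ∈ Subgroup.centralizer {((a c : A) : Gal(M/K))} := by
        rw [Subgroup.mem_centralizer_singleton_iff]
        have h6 : (g'⁻¹ * g) * ((a c : A) : Gal(M/K)) = ((g'⁻¹ * g) * ((a c : A) : Gal(M/K)) *
          (g'⁻¹ * g)⁻¹) * (g'⁻¹ * g) := by group
        rw [h3] at h6
        exact h6
      have h7 : (g'⁻¹ • Q).under (𝓞 (Fc a c)) = (g⁻¹ • Q).under (𝓞 (Fc a c)) := by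
        have h6 : g'⁻¹ • Q = (g'⁻¹ * g) • (g⁻¹ • Q) := by
          rw [smul_smul]
          congr 1
          group
        rw [h6]
        ext y
        rw [Ideal.mem_comap, Ideal.mem_comap, Ideal.mem_pointwise_smul_iff_inv_smul_mem]
        have h7 : (g'⁻¹ * g)⁻¹ • algebraMap (𝓞 (Fc a c)) (𝓞 M) y =
            algebraMap (𝓞 (Fc a c)) (𝓞 M) y := by
          apply NumberField.RingOfIntegers.ext
          have h2 := (y : Fc a c).2
          rw [IntermediateField.mem_fixedField_iff] at h2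
          exact h2 _ (inv_mem h5)
        rw [h7]
      rw [← hg, ← h7, hg']
      exact hd

theorem layer_inj [Fintype (XT a)] {S₀ : Set (Ideal (𝓞 K))} (q : ℕ) (hq : 0 < q) (ζ : K)
    (hζ : IsPrimitiveRoot ζ q) (hA : ∀ t : A, t ^ q = 1) (ha1 : ∀ c, a c ≠ 1)
    (hnc : ∀ c c' (g : Gal(M/K)), g * ((a c : A) : Gal(M/K)) * g⁻¹ = (a c' : A) → c = c')
    (D : LayerData a q S₀) (I I' : Tup fun c => Fc a c) (hI : Good (K := K) D.S I)
    (hI' : Good (K := K) D.S I') (αc αc' : (c : Fin b) → 𝓞 (Fc a c)) (hα : IsGen D I αc)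
    (hα' : IsGen D I' αc') (O : LOut A a q ζ D.bt αc) (O' : LOut A a q ζ D.bt αc')
    (h : O.ρ = O'.ρ) : I = I' := by
  classical
  have h1 := layer_dvd q hq ζ hζ hA ha1 hnc D I I' hI hI' αc αc' hα hα' O O' h
  have h2 := layer_dvd q hq ζ hζ hA ha1 hnc D I' I hI' hI αc' αc hα' hα O' O h.symm
  funext c
  have key : ∀ J J' : Ideal (𝓞 (Fc a c)), J ≠ ⊥ → J' ≠ ⊥ →
      (∀ V : Ideal (𝓞 (Fc a c)), V.IsPrime → ¬ V ^ 2 ∣ J) →
      (∀ V : Ideal (𝓞 (Fc a c)), V.IsPrime → V ∣ J → V ∣ J') → J ∣ J' := by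
    intro J J' hJ hJ' hsq hd
    rw [UniqueFactorizationMonoid.dvd_iff_normalizedFactors_le_normalizedFactors hJ hJ',
      Multiset.le_iff_count]
    intro V
    by_cases hm : V ∈ UniqueFactorizationMonoid.normalizedFactors J
    · have hp := UniqueFactorizationMonoid.prime_of_normalized_factor V hm
      have hVp : V.IsPrime := Ideal.isPrime_of_prime hp
      have hVd := UniqueFactorizationMonoid.dvd_of_mem_normalizedFactors hm
      have e1 : Multiset.count V (UniqueFactorizationMonoid.normalizedFactors J) = 1 :=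
        UniqueFactorizationMonoid.count_normalizedFactors_eq hp.irreducible (normalize_eq V)
          (by rwa [pow_one]) (hsq V hVp)
      have e2 : 1 ≤ Multiset.count V (UniqueFactorizationMonoid.normalizedFactors J') := by
        rw [Multiset.one_le_count_iff_mem,
          UniqueFactorizationMonoid.mem_normalizedFactors_iff hJ']
        exact ⟨hp, hd V hVp hVd⟩
      rw [e1]
      exact e2
    · rw [Multiset.count_eq_zero.mpr hm]
      exact Nat.zero_le _
  exact dvd_antisymm (key _ _ (hI.ne c) (hI'.ne c) (fun V hV => hI.sq c V hV) (h1 c))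
    (key _ _ (hI'.ne c) (hI.ne c) (fun V hV => hI'.sq c V hV) (h2 c))

end H38.ML
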