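import Pool.Agent.H38.ML.LayerInert
import Pool.Agent.H38.ML.LayerInj

/-!
# The layer `T/N`: assembly (complete)
-/

open scoped NumberField Pointwise IsMulCommutative

noncomputable section

namespace H38.ML

variable {K Ω : Type} [Field K] [NumberField K] [Field Ω] [Algebra K Ω] [IsAlgClosure K Ω]
  {M : IntermediateField K Ω} [FiniteDimensional K M] [IsGalois K M] [NumberField M]
  {A : Subgroup Gal(M/K)} [A.Normal] [IsMulCommutative A] {b : ℕ} (a : Fin b → A)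

open Classical in
theorem layer (ha1 : ∀ c, a c ≠ 1)
    (hnc : ∀ c c' (g : Gal(M/K)), g * ((a c : A) : Gal(M/K)) * g⁻¹ = (a c' : A) → c = c')
    (q : ℕ) (hq : 0 < q) (ζ : K) (hζ : IsPrimitiveRoot ζ q) (hA : ∀ t : A, t ^ q = 1)
    (S₀ : Set (Ideal (𝓞 K))) (hS₀ : S₀.Finite) :
    ∃ S : Set (Ideal (𝓞 K)), S.Finite ∧ S₀ ⊆ S ∧
      ∃ R : (Tup fun c => Fc a c) → (Gal(Ω/K) →* Gal(M/K)),
        (∀ I, Good (K := K) S I → Function.Surjective (R I) ∧ FT (R I)) ∧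
        (∀ I, Good (K := K) S I → ∀ v : Ideal (𝓞 K), v.IsPrime → v ≠ ⊥ → v ∉ S →
          (∀ c (V : Ideal (𝓞 (Fc a c))), V.IsPrime → V ∣ I c → V.under (𝓞 K) ≠ v) →
          ∀ 𝔓 : Ideal (𝓞 Ω), 𝔓.IsPrime → 𝔓.under (𝓞 K) = v →
            ∀ τ ∈ 𝔓.inertia Gal(Ω/K), R I τ = 1) ∧
        (∀ I, Good (K := K) S I → ∀ c (V : Ideal (𝓞 (Fc a c))), V.IsPrime → V ∣ I c →
          ∀ 𝔓 : Ideal (𝓞 Ω), 𝔓.IsPrime → 𝔓.under (𝓞 K) = V.under (𝓞 K) →
            ∃ g : Gal(M/K), ∀ τ ∈ 𝔓.inertia Gal(Ω/K),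
              R I τ ∈ Subgroup.zpowers (g * ((a c : A) : Gal(M/K)) * g⁻¹)) ∧
        (∀ I I', Good (K := K) S I → Good (K := K) S I' → R I = R I' → I = I') := by
  haveI : Fintype (XT a) := Fintype.ofFinite _
  obtain ⟨D⟩ := exists_layerData a q hq S₀ hS₀
  have hgen : ∀ I : Tup fun c => Fc a c, Good (K := K) D.S I →
      ∃ αc : (c : Fin b) → 𝓞 (Fc a c), IsGen D I αc := by
    intro I hI
    have h : ∀ c, ∃ x : 𝓞 (Fc a c), x ≠ 0 ∧ ∃ J ∈ D.R c, Ideal.span {x} = I c * J := by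
      intro c
      obtain ⟨J, hJ, x, hx, hx'⟩ := D.hR c (I c) (hI.ne c)
      exact ⟨x, hx, J, hJ, hx'⟩
    choose αc hα using h
    exact ⟨αc, hα⟩
  let αc : (I : Tup fun c => Fc a c) → (c : Fin b) → 𝓞 (Fc a c) := fun I =>
    if h : Good (K := K) D.S I then (hgen I h).choose else fun _ => 0
  have hα : ∀ I, Good (K := K) D.S I → IsGen D I (αc I) := by
    intro I hI
    have : αc I = (hgen I hI).choose := by simp [αc, hI]
    rw [this]
    exact (hgen I hI).choose_spec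
  let O : (I : Tup fun c => Fc a c) → Good (K := K) D.S I → LOut A a q ζ D.bt (αc I) :=
    fun I hI => (layer_kumOut q hq ζ hζ hA D I (αc I) (hα I hI)).some
  let R : (Tup fun c => Fc a c) → (Gal(Ω/K) →* Gal(M/K)) := fun I =>
    if h : Good (K := K) D.S I then (O I h).ρ else 1
  have hR : ∀ I (hI : Good (K := K) D.S I), R I = (O I hI).ρ := by
    intro I hI
    simp [R, hI]
  refine ⟨D.S, D.hS, D.hS₀, R, ?_, ?_, ?_, ?_⟩
  · intro I hI
    rw [hR I hI]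
    exact ⟨layer_surj q hq ζ hζ hA D I hI (αc I) (hα I hI) (O I hI), (O I hI).ft⟩
  · intro I hI v hv hv0 hvS hvI 𝔓 h𝔓 h𝔓v τ hτ
    rw [hR I hI]
    exact layer_inert_one q hq ζ hζ hA D I hI (αc I) (hα I hI) (O I hI) v hv hv0 hvS hvI 𝔓 h𝔓
      h𝔓v τ hτ
  · intro I hI c V hV hVI 𝔓 h𝔓 h𝔓v
    rw [hR I hI]
    exact layer_inert q hq ζ hζ hA D I hI (αc I) (hα I hI) (O I hI) _ c V hV hVI rfl 𝔓 h𝔓 h𝔓v
  · intro I I' hI hI' h
    rw [hR I hI, hR I' hI'] at h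
    exact layer_inj q hq ζ hζ hA ha1 hnc D I I' hI hI' (αc I) (αc I') (hα I hI) (hα I' hI')
      (O I hI) (O I' hI') h

end H38.ML
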