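import Pool.Agent.H38.ML.Defs

/-!
# The condition on the lower layers (definition)
-/

namespace H38.ML

/-- The condition on the lower layers: `N = L 0 ≥ L 1 ≥ ⋯ ≥ L r = 1` with all `L i` normal in `G`
and all factors `L i / L (i+1)` abelian, such that for each `i` either the order of the factor is
prime to the order of `G / L i`, or `G / L (i+1) → G / L i` splits and the order of the factor is
prime to the index of a subgroup `Z` of `G` which centralizes the factor (that is: `G` acts on the
factor through a group of order prime to the order of the factor). -/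
def GoodTower {G : Type} [Group G] (N : Subgroup G) : Prop :=
  ∃ (r : ℕ) (L : ℕ → Subgroup G), L 0 = N ∧ L r = ⊥ ∧ ∀ i < r,
    L (i + 1) ≤ L i ∧ (L (i + 1)).Normal ∧ ⁅L i, L i⁆ ≤ L (i + 1) ∧
      (Nat.Coprime (L i).index ((L (i + 1)).relIndex (L i)) ∨
        ((∃ C : Subgroup G, C ⊔ L i = ⊤ ∧ C ⊓ L i = L (i + 1)) ∧
          ∃ Z : Subgroup G, (∀ g ∈ Z, ∀ x ∈ L i, g * x * g⁻¹ * x⁻¹ ∈ L (i + 1)) ∧
            Nat.Coprime Z.index ((L (i + 1)).relIndex (L i))))

end H38.ML
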