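import Pool.Agent.H38.ML.Low2
import Pool.Agent.H38.ML.Tower

/-!
# [H38 ML LOWCHAIN2] All layers below `N`, general form (80-120 lines, adapt the finished
`LowChain.lean`)

As `low_chain`, with `GoodTower` and `low_step2`.  In the step from `P = L i` to `P' = L (i+1)`,
`π : G ⧸ P' →* G ⧸ P`, `H = G ⧸ P`, `A = π.ker`:
* first alternative (coprime): `s` from `exists_section`, `Z = ⊥` (index `|H|`).
* second alternative: `C ⊔ P = ⊤`, `C ⊓ P = P'`.  The restriction of `G → G ⧸ P` to `C` is surjective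
  (`C ⊔ P = ⊤`, `P` normal) with kernel `C ⊓ P = P'`, so there is a homomorphism `s : G ⧸ P →* G ⧸ P'`
  with `s (c : G ⧸ P) = (c : G ⧸ P')` for `c ∈ C`, and `π (s h) = h`.
  Let `Z_H = {h : G ⧸ P | ∀ a ∈ π.ker, s h * a = a * s h}`, the kernel of the action of `G ⧸ P` on the
  commutative group `π.ker` by conjugation through `s`: a normal subgroup of `G ⧸ P`.
  It contains the image of `Z`: for `g ∈ Z` write `g = c x` with `c ∈ C`, `x ∈ P` (`C ⊔ P = ⊤`); then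
  `s (g) = (c : G ⧸ P')`, and `g * y * g⁻¹ * y⁻¹ ∈ P'` for `y ∈ P`, and conjugation by `x ∈ P` on
  `P ⧸ P'` is trivial (commutative), so conjugation by `c` is trivial on `P ⧸ P'` as well.
  So `Z_H.index ∣ (Z.map (mk' P)).index ∣ Z.index`
  (`Subgroup.index_dvd_of_le`, `Subgroup.index_map_dvd`), coprime to `|π.ker| = P'.relIndex P`.
-/

open scoped NumberField Pointwise commutatorElement

namespace H38.ML

variable {K Ω : Type} [Field K] [NumberField K] [Field Ω] [Algebra K Ω] [IsAlgClosure K Ω]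

/-- the section and the subgroup acting trivially, in the split case -/
theorem lc2_split {G : Type} [Group G] (P P' : Subgroup G) [P.Normal] [P'.Normal]
    (hle : P' ≤ P) (π : G ⧸ P' →* G ⧸ P) (hπmk : ∀ g : G, π (g : G ⧸ P') = (g : G ⧸ P))
    (hab : ∀ a b : G ⧸ P', π a = 1 → π b = 1 → a * b = b * a)
    (C : Subgroup G) (hC : C ⊔ P = ⊤) (hC' : C ⊓ P = P') (Z : Subgroup G)
    (hZ : ∀ g ∈ Z, ∀ x ∈ P, g * x * g⁻¹ * x⁻¹ ∈ P') :
    ∃ (s : G ⧸ P →* G ⧸ P') (Z' : Subgroup (G ⧸ P)), Z'.Normal ∧ (∀ h, π (s h) = h) ∧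
      (∀ z ∈ Z', ∀ a : G ⧸ P', π a = 1 → s z * a = a * s z) ∧ Z'.index ∣ Z.index := by
  let f : C →* G ⧸ P := (QuotientGroup.mk' P).comp C.subtype
  let g : C →* G ⧸ P' := (QuotientGroup.mk' P').comp C.subtype
  have hdec : ∀ x : G, ∃ c ∈ C, ∃ y ∈ P, c * y = x := by
    intro x
    have h1 : x ∈ (↑(C ⊔ P) : Set G) := by rw [hC]; trivial
    rw [Subgroup.mul_normal] at h1
    obtain ⟨c, hc, y, hy, hcy⟩ := h1
    exact ⟨c, hc, y, hy, hcy⟩
  have hmkcy : ∀ c : G, ∀ y ∈ P, ((c * y : G) : G ⧸ P) = (c : G ⧸ P) := by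
    intro c y hy
    rw [QuotientGroup.mk_mul, (QuotientGroup.eq_one_iff y).2 hy, mul_one]
  have hf : Function.Surjective f := by
    intro q
    obtain ⟨x, rfl⟩ := QuotientGroup.mk_surjective q
    obtain ⟨c, hc, y, hy, rfl⟩ := hdec x
    exact ⟨⟨c, hc⟩, (hmkcy c y hy).symm⟩
  have hker : f.ker ≤ g.ker := by
    intro c hc
    have h1 : ((c : G) : G ⧸ P) = 1 := hc
    rw [QuotientGroup.eq_one_iff] at h1
    have h2 : (c : G) ∈ P' := by
      rw [← hC']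
      exact ⟨c.2, h1⟩
    exact (QuotientGroup.eq_one_iff (c : G)).2 h2
  let s : G ⧸ P →* G ⧸ P' := f.liftOfSurjective hf ⟨g, hker⟩
  have hs : ∀ c : C, s ((c : G) : G ⧸ P) = ((c : G) : G ⧸ P') := fun c =>
    f.liftOfRightInverse_comp_apply _ (Function.rightInverse_surjInv hf) ⟨g, hker⟩ c
  have hsec : ∀ h, π (s h) = h := by
    intro h
    obtain ⟨c, rfl⟩ := hf h
    change π (s ((c : G) : G ⧸ P)) = ((c : G) : G ⧸ P)
    rw [hs, hπmk]
  let Z' : Subgroup (G ⧸ P) := (Subgroup.centralizer (π.ker : Set (G ⧸ P'))).comap s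
  have hZ'n : Z'.Normal := by
    haveI : (Subgroup.centralizer (π.ker : Set (G ⧸ P'))).Normal := inferInstance
    exact Subgroup.Normal.comap this s
  refine ⟨s, Z', hZ'n, hsec, ?_, ?_⟩
  · intro z hz a ha
    have h1 : s z ∈ Subgroup.centralizer (π.ker : Set (G ⧸ P')) := hz
    rw [Subgroup.mem_centralizer_iff] at h1
    exact (h1 a ha).symm
  · have hle' : Z.map (QuotientGroup.mk' P) ≤ Z' := by
      rintro _ ⟨x, hx, rfl⟩
      change s (x : G ⧸ P) ∈ Subgroup.centralizer (π.ker : Set (G ⧸ P'))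
      rw [Subgroup.mem_centralizer_iff]
      intro a ha
      obtain ⟨y, rfl⟩ := QuotientGroup.mk_surjective a
      have hy : y ∈ P := by
        have h2 : π (y : G ⧸ P') = 1 := ha
        rw [hπmk, QuotientGroup.eq_one_iff] at h2
        exact h2
      obtain ⟨c, hc, w, hw, rfl⟩ := hdec x
      rw [hmkcy c w hw]
      have h3 : s (c : G ⧸ P) = (c : G ⧸ P') := hs ⟨c, hc⟩
      rw [h3]
      have h4 : (w : G ⧸ P') * (y : G ⧸ P') = (y : G ⧸ P') * (w : G ⧸ P') :=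
        hab _ _ (by rw [hπmk, QuotientGroup.eq_one_iff]; exact hw) ha
      have h5 : ((c * w : G) : G ⧸ P') * (y : G ⧸ P') = (y : G ⧸ P') * ((c * w : G) : G ⧸ P') := by
        have h6 := (QuotientGroup.eq_one_iff (N := P') _).2 (hZ _ hx y hy)
        rw [QuotientGroup.mk_mul, QuotientGroup.mk_mul, QuotientGroup.mk_mul,
          QuotientGroup.mk_inv, QuotientGroup.mk_inv, mul_inv_eq_one, mul_inv_eq_iff_eq_mul] at h6
        exact h6
      rw [QuotientGroup.mk_mul] at h5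
      have h7 : (c : G ⧸ P') * (y : G ⧸ P') * (w : G ⧸ P') =
          (y : G ⧸ P') * (c : G ⧸ P') * (w : G ⧸ P') := by
        rw [mul_assoc, ← h4, ← mul_assoc, h5, mul_assoc]
      exact (mul_right_cancel h7).symm
    exact (Subgroup.index_dvd_of_le hle').trans
      (Subgroup.index_map_dvd Z (QuotientGroup.mk'_surjective P))

theorem low_chain2_aux {G : Type} [Group G] [Finite G] (N : Subgroup G) [N.Normal]
    (r : ℕ) (L : ℕ → Subgroup G) (hL0 : L 0 = N)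
    (hL : ∀ i < r, L (i + 1) ≤ L i ∧ (L (i + 1)).Normal ∧ ⁅L i, L i⁆ ≤ L (i + 1) ∧
      (Nat.Coprime (L i).index ((L (i + 1)).relIndex (L i)) ∨
        ((∃ C : Subgroup G, C ⊔ L i = ⊤ ∧ C ⊓ L i = L (i + 1)) ∧
          ∃ Z : Subgroup G, (∀ g ∈ Z, ∀ x ∈ L i, g * x * g⁻¹ * x⁻¹ ∈ L (i + 1)) ∧
            Nat.Coprime Z.index ((L (i + 1)).relIndex (L i)))))
    (hK : NumberField.IsTotallyComplex K)
    (hs : 2 * Nat.card G + 1 ≤ Fintype.card (NumberField.InfinitePlace K)) (ζ : K)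
    (hζ : IsPrimitiveRoot ζ (Nat.card G)) (ρ : Gal(Ω/K) →* G ⧸ N) (hρ : Function.Surjective ρ)
    (hft : FT ρ) (i : ℕ) :
    i ≤ r → ∀ (P : Subgroup G) [P.Normal], P = L i →
      ∃ ρi : Gal(Ω/K) →* G ⧸ P, Function.Surjective ρi ∧ FT ρi ∧
        (∀ (σ : Gal(Ω/K)) (g : G), (g : G ⧸ P) = ρi σ → (g : G ⧸ N) = ρ σ) ∧
        ∀ 𝔓 : Ideal (𝓞 Ω), 𝔓.IsPrime → ((Nat.card G : ℕ) : 𝓞 Ω) ∉ 𝔓 →
          ∀ τ ∈ 𝔓.inertia Gal(Ω/K), ρ τ = 1 → ρi τ = 1 := by
  induction i with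
  | zero =>
    intro _ P hPn hP
    rw [hL0] at hP
    subst hP
    exact ⟨ρ, hρ, hft, fun σ g h => h, fun 𝔓 _ _ τ _ h => h⟩
  | succ i ih =>
    intro hi P' hPn' hP'
    obtain ⟨hle, -, hcomm, hcop⟩ := hL i (by omega)
    have hnorm : (L i).Normal := by
      rcases Nat.eq_zero_or_pos i with h | h
      · rw [h, hL0]; infer_instance
      · obtain ⟨k, rfl⟩ : ∃ k, i = k + 1 := ⟨i - 1, by omega⟩
        exact (hL k (by omega)).2.1
    obtain ⟨P, hP⟩ : ∃ P, P = L i := ⟨_, rfl⟩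
    rw [← hP, ← hP'] at hcop
    rw [← hP] at hcomm hnorm
    rw [← hP, ← hP'] at hle
    rw [← hP'] at hcomm
    obtain ⟨ρi, hsurj, hfti, hlift, hin⟩ := ih (by omega) P hP
    let π : G ⧸ P' →* G ⧸ P := QuotientGroup.map P' P (MonoidHom.id G) (by
      rw [Subgroup.comap_id]; exact hle)
    have hπmk : ∀ g : G, π (g : G ⧸ P') = (g : G ⧸ P) := fun g => rfl
    have hπ : Function.Surjective π := by
      intro y
      obtain ⟨g, rfl⟩ := QuotientGroup.mk_surjective y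
      exact ⟨(g : G ⧸ P'), rfl⟩
    have hab : ∀ a b : G ⧸ P', π a = 1 → π b = 1 → a * b = b * a := by
      intro a b
      obtain ⟨x, rfl⟩ := QuotientGroup.mk_surjective a
      obtain ⟨y, rfl⟩ := QuotientGroup.mk_surjective b
      intro hx hy
      rw [hπmk, QuotientGroup.eq_one_iff] at hx hy
      rw [← QuotientGroup.mk_mul, ← QuotientGroup.mk_mul, QuotientGroup.eq]
      apply hcomm
      have h1 : (x * y)⁻¹ * (y * x) = ⁅y⁻¹, x⁻¹⁆ := by
        rw [commutatorElement_def]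
        group
      rw [h1]
      exact Subgroup.commutator_mem_commutator (P.inv_mem hy) (P.inv_mem hx)
    have hcard : Nat.card π.ker = P'.relIndex P := by
      have h1 := Subgroup.card_mul_index π.ker
      rw [Subgroup.index_ker, MonoidHom.range_eq_top.2 hπ, Subgroup.card_top] at h1
      have h2 := Subgroup.relIndex_mul_index hle
      have h3 : Nat.card (G ⧸ P) = P.index := rfl
      have h4 : Nat.card (G ⧸ P') = P'.index := rfl
      rw [h3, h4, ← h2] at h1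
      exact Nat.eq_of_mul_eq_mul_right (Nat.pos_of_ne_zero P.index_ne_zero_of_finite) h1
    have hdvd : Nat.card π.ker ∣ Nat.card G := by
      have h1 : Nat.card π.ker ∣ Nat.card (G ⧸ P') := Subgroup.card_subgroup_dvd_card _
      exact h1.trans (Subgroup.index_dvd_card P')
    obtain ⟨c, hc⟩ := hdvd
    have hGpos : 0 < Nat.card G := Nat.card_pos
    have hζ' : IsPrimitiveRoot (ζ ^ c) (Nat.card π.ker) :=
      hζ.pow hGpos (by rw [hc, mul_comm])
    obtain ⟨s, Z', hZn, hsec, hZ', hcop'⟩ : ∃ (s : G ⧸ P →* G ⧸ P') (Z' : Subgroup (G ⧸ P)),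
        Z'.Normal ∧ (∀ h, π (s h) = h) ∧
        (∀ z ∈ Z', ∀ a : G ⧸ P', π a = 1 → s z * a = a * s z) ∧
        Nat.Coprime Z'.index (Nat.card π.ker) := by
      rcases hcop with hcop | ⟨⟨C, hC, hC'⟩, Z, hZ, hcopZ⟩
      · obtain ⟨s, hsec⟩ := exists_section π hπ (by rw [hcard]; exact hcop)
        refine ⟨s, ⊥, inferInstance, hsec, fun z hz a _ => ?_, ?_⟩
        · rw [Subgroup.mem_bot.1 hz, map_one, one_mul, mul_one]
        · rw [Subgroup.index_bot, hcard]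
          exact hcop
      · obtain ⟨s, Z', hZn, hsec, hZ', hdv⟩ := lc2_split P P' hle π hπmk hab C hC hC' Z hZ
        refine ⟨s, Z', hZn, hsec, hZ', ?_⟩
        rw [hcard]
        exact Nat.Coprime.coprime_dvd_left hdv hcopZ
    obtain ⟨ρ', hsurj', hft', hlift', hin'⟩ := low_step2 π hπ hab s hsec Z' hZ' hcop' hK (by
        refine le_trans (Nat.add_le_add_right (Nat.mul_le_mul_left 2 ?_) 1) hs
        exact Nat.le_of_dvd hGpos (Subgroup.index_dvd_card P')) (ζ ^ c) hζ' ρi hsurj hfti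
    refine ⟨ρ', hsurj', hft', ?_, ?_⟩
    · intro σ g hg
      apply hlift
      rw [← hπmk, hg, hlift']
    · intro 𝔓 h𝔓 hG τ hτ hτ1
      refine hin' 𝔓 h𝔓 (fun hmem => hG ?_) τ hτ (hin 𝔓 h𝔓 hG τ hτ hτ1)
      rw [hc, Nat.cast_mul]
      exact Ideal.mul_mem_right _ _ hmem

theorem low_chain2 {G : Type} [Group G] [Finite G] (N : Subgroup G) [N.Normal]
    (htow : GoodTower N) (hK : NumberField.IsTotallyComplex K)
    (hs : 2 * Nat.card G + 1 ≤ Fintype.card (NumberField.InfinitePlace K)) (ζ : K)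
    (hζ : IsPrimitiveRoot ζ (Nat.card G)) (ρ : Gal(Ω/K) →* G ⧸ N) (hρ : Function.Surjective ρ)
    (hft : FT ρ) :
    ∃ ρ' : Gal(Ω/K) →* G, Function.Surjective ρ' ∧ FT ρ' ∧
      (∀ σ, ((ρ' σ : G) : G ⧸ N) = ρ σ) ∧
      ∀ 𝔓 : Ideal (𝓞 Ω), 𝔓.IsPrime → ((Nat.card G : ℕ) : 𝓞 Ω) ∉ 𝔓 →
        ∀ τ ∈ 𝔓.inertia Gal(Ω/K), ρ τ = 1 → ρ' τ = 1 := by
  obtain ⟨r, L, hL0, hLr, hL⟩ := htow
  obtain ⟨ρr, hsurj, hftr, hlift, hin⟩ :=
    low_chain2_aux N r L hL0 hL hK hs ζ hζ ρ hρ hft r le_rfl ⊥ hLr.symm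
  let e : G ⧸ (⊥ : Subgroup G) ≃* G := QuotientGroup.quotientBot
  have he : ∀ x : G ⧸ (⊥ : Subgroup G), ((e x : G) : G ⧸ (⊥ : Subgroup G)) = x := by
    intro x
    obtain ⟨g, rfl⟩ := QuotientGroup.mk_surjective x
    rfl
  refine ⟨e.toMonoidHom.comp ρr, e.surjective.comp hsurj, ?_, ?_, ?_⟩
  · obtain ⟨E, hE, hle⟩ := hftr
    refine ⟨E, hE, fun σ hσ => ?_⟩
    have h1 : ρr σ = 1 := hle hσ
    rw [MonoidHom.mem_ker]
    change e (ρr σ) = 1
    rw [h1, map_one]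
  · intro σ
    exact hlift σ _ (he _)
  · intro 𝔓 h𝔓 hG τ hτ hτ1
    change e (ρr τ) = 1
    rw [hin 𝔓 h𝔓 hG τ hτ hτ1, map_one]

end H38.ML
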