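import Pool.Agent.H38.ML.Small

/-!
# [H38 ML MULT] Many homomorphisms give many isomorphism classes of fields (100-150 lines)

Notation of `Small.lean`.  Key fact: for surjective `ρ` of finite type with field `L = fieldOf i₀ ρ`,
`ρ.ker = {σ | ∀ φ : L →ₐ[K] QBar, σ ∘ φ = φ}`: indeed (with `e` of `Small.lean`, or directly:
every `φ` is `τ|L`, `τ ∈ Γ`, and `σ ∘ τ|L = τ|L ↔ τ⁻¹ σ τ ∈ U ↔ ρ σ` fixes `ρ τ i₀`)
`σ` fixes all embeddings iff `ρ σ` fixes all points of `Fin n` (transitivity) iff `ρ σ = 1`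
(`G` is a group of permutations).  The right side only depends on the `K`-isomorphism class of `L`:
if `f : L ≃ₐ[K] L'` then the embeddings of `L'` are the `φ ∘ f⁻¹`.  So if `ρ, ρ'` have isomorphic
fields, then `ρ.ker = ρ'.ker`, and there is a function `φ : G → G` with `ρ' σ = φ (ρ σ)` for all `σ`.

Counting: let `C = {c // ∃ L, ⟦L⟧ = c ∧ IsSmall G K L ∧ relDisc K L ≤ B}` (the type in `nK`), and
`F : Rs → C`, `ρ ↦ ⟦fieldOf i₀ ρ⟧`.  If `C` is infinite then `nK = ⊤` and the right side is `⊤`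
(`Nat.card G ^ Nat.card G ≠ 0`).  Otherwise every fibre of `F` has at most
`Nat.card G ^ Nat.card G = Nat.card (G → G)` elements: fix `ρ₀` in the fibre and send `ρ` to a
`φ : G → G` with `ρ = φ ∘ ρ₀`; this is injective.  So `Rs.card ≤ |G|^|G| * card C`
(`Finset.card_le_mul_card_image`).
-/

open scoped NumberField Pointwise

namespace H38.ML

theorem mult_ker {n : ℕ} (G : Subgroup (Equiv.Perm (Fin n)))
    (hG : MulAction.IsPretransitive G (Fin n)) (K : IntermediateField ℚ QBar)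
    [FiniteDimensional ℚ K] (i₀ : Fin n) (ρ : Gal(QBar/K) →* G) (hρ : Function.Surjective ρ)
    (hft : FT ρ) (σ : Gal(QBar/K)) :
    ρ σ = 1 ↔ ∀ φ : fieldOf i₀ ρ →ₐ[K] QBar,
      ((σ : Gal(QBar/K)) : QBar →ₐ[K] QBar).comp φ = φ := by
  classical
  have hnf : NumberField K := numberField_of_finite K
  obtain ⟨E, hE, hle⟩ := hft
  set U : Subgroup Gal(QBar/K) := (MulAction.stabilizer G i₀).comap ρ with hU
  have hEU : E.fixingSubgroup ≤ U := by
    intro σ hσ
    have h1 : ρ σ = 1 := hle hσ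
    rw [hU, Subgroup.mem_comap, h1]
    exact one_mem _
  obtain ⟨hfix, hfin⟩ := fixing_fixedField U E hEU
  set L : IntermediateField K QBar := fieldOf i₀ ρ with hL
  have hfixL : L.fixingSubgroup = U := hfix
  have key : ∀ σ τ : Gal(QBar/K),
      ((σ : Gal(QBar/K)) : QBar →ₐ[K] QBar).comp L.val =
        ((τ : Gal(QBar/K)) : QBar →ₐ[K] QBar).comp L.val ↔ ρ σ • i₀ = ρ τ • i₀ := by
    intro σ τ
    rw [small_comp_val_eq_iff, hfixL, hU, Subgroup.mem_comap, MulAction.mem_stabilizer_iff, map_mul,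
      map_inv, mul_smul, inv_smul_eq_iff]
  constructor
  · intro h φ
    obtain ⟨τ, rfl⟩ := small_exists_ext L φ
    have h1 : ((σ : Gal(QBar/K)) : QBar →ₐ[K] QBar).comp
        (((τ : Gal(QBar/K)) : QBar →ₐ[K] QBar).comp L.val) =
        ((σ * τ : Gal(QBar/K)) : QBar →ₐ[K] QBar).comp L.val := by
      ext x; rfl
    rw [h1, key, map_mul, h, one_mul]
  · intro h
    have h2 : ∀ i : Fin n, ρ σ • i = i := by
      intro i
      obtain ⟨g, hg⟩ := hG.exists_smul_eq i₀ i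
      obtain ⟨τ, rfl⟩ := hρ g
      have h3 := h (((τ : Gal(QBar/K)) : QBar →ₐ[K] QBar).comp L.val)
      have h1 : ((σ : Gal(QBar/K)) : QBar →ₐ[K] QBar).comp
          (((τ : Gal(QBar/K)) : QBar →ₐ[K] QBar).comp L.val) =
          ((σ * τ : Gal(QBar/K)) : QBar →ₐ[K] QBar).comp L.val := by
        ext x; rfl
      rw [h1, key, map_mul, mul_smul, hg] at h3
      exact h3
    apply Subtype.ext
    apply Equiv.ext
    intro i
    exact h2 i

theorem mult_iso {K : IntermediateField ℚ QBar} (L L' : IntermediateField K QBar)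
    (h : Nonempty (L ≃ₐ[K] L')) (σ : Gal(QBar/K))
    (hL : ∀ φ : L →ₐ[K] QBar, ((σ : Gal(QBar/K)) : QBar →ₐ[K] QBar).comp φ = φ) :
    ∀ φ : L' →ₐ[K] QBar, ((σ : Gal(QBar/K)) : QBar →ₐ[K] QBar).comp φ = φ := by
  obtain ⟨f⟩ := h
  intro φ
  ext x
  obtain ⟨y, rfl⟩ := f.surjective x
  exact DFunLike.congr_fun (hL (φ.comp (f : L →ₐ[K] L'))) y

theorem mult_fun {Γ G : Type*} [Group Γ] [Group G] (ρ ρ' : Γ →* G)
    (hρ : Function.Surjective ρ) (h : ∀ σ, ρ σ = 1 → ρ' σ = 1) :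
    ∃ φ : G → G, ∀ σ, ρ' σ = φ (ρ σ) := by
  choose s hs using hρ
  refine ⟨fun g => ρ' (s g), fun σ => ?_⟩
  have h1 : ρ ((s (ρ σ))⁻¹ * σ) = 1 := by rw [map_mul, map_inv, hs, inv_mul_cancel]
  have h2 := h _ h1
  rw [map_mul, map_inv, inv_mul_eq_one] at h2
  exact h2.symm

theorem many_classes {n : ℕ} (G : Subgroup (Equiv.Perm (Fin n)))
    (hG : MulAction.IsPretransitive G (Fin n)) (K : IntermediateField ℚ QBar)
    [FiniteDimensional ℚ K] (i₀ : Fin n) (B : ℝ) (Rs : Finset (Gal(QBar/K) →* G))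
    (hRs : ∀ ρ ∈ Rs, Function.Surjective ρ ∧ FT ρ ∧ (relDisc K (fieldOf i₀ ρ) : ℝ) ≤ B) :
    ((Rs.card : ℕ) : ℕ∞) ≤ ((Nat.card G ^ Nat.card G : ℕ) : ℕ∞) * nK G K B := by
  classical
  set f : (Gal(QBar/K) →* G) → Quotient (isoSetoid K) :=
    fun ρ => Quotient.mk (isoSetoid K) (fieldOf i₀ ρ) with hf
  set S : Set (Quotient (isoSetoid K)) := {c | ∃ L : IntermediateField K QBar,
    Quotient.mk (isoSetoid K) L = c ∧ IsSmall G K L ∧ (relDisc K L : ℝ) ≤ B} with hS
  have hnK : nK G K B = ENat.card S := rfl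
  have hcard0 : Nat.card G ≠ 0 := Nat.card_pos.ne'
  have hpow0 : (Nat.card G ^ Nat.card G : ℕ) ≠ 0 := pow_ne_zero _ hcard0
  rcases Set.finite_or_infinite S with hfin | hinf
  · have hFS : Finite S := hfin
    have himg : ((Rs.image f : Finset _) : Set (Quotient (isoSetoid K))) ⊆ S := by
      intro c hc
      rw [Finset.mem_coe, Finset.mem_image] at hc
      obtain ⟨ρ, hρ, rfl⟩ := hc
      obtain ⟨h1, h2, h3⟩ := hRs ρ hρ
      exact ⟨fieldOf i₀ ρ, rfl, (small_field G hG K i₀ ρ h1 h2).2.2.1, h3⟩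
    have h4 : (Rs.image f).card ≤ Nat.card S := by
      have := Set.ncard_le_ncard himg hfin
      rwa [Set.ncard_coe_finset] at this
    have h5 : Rs.card ≤ (Nat.card G ^ Nat.card G) * (Rs.image f).card := by
      refine Finset.card_le_mul_card_image Rs _ fun c hc => ?_
      obtain ⟨ρ₀, hρ₀, hc₀⟩ := Finset.mem_image.mp hc
      obtain ⟨hs₀, hft₀, -⟩ := hRs ρ₀ hρ₀
      have hex : ∀ ρ : Gal(QBar/K) →* G, ρ ∈ Rs.filter (fun ρ => f ρ = c) →
          ∃ φ : G → G, ∀ σ, ρ σ = φ (ρ₀ σ) := by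
        intro ρ hρ
        rw [Finset.mem_filter] at hρ
        obtain ⟨hs, hft, -⟩ := hRs ρ hρ.1
        refine mult_fun ρ₀ ρ hs₀ fun σ h1 => ?_
        rw [mult_ker G hG K i₀ ρ hs hft]
        rw [mult_ker G hG K i₀ ρ₀ hs₀ hft₀] at h1
        have h6 : f ρ₀ = f ρ := hc₀.trans hρ.2.symm
        have h7 : Nonempty (fieldOf i₀ ρ₀ ≃ₐ[K] fieldOf i₀ ρ) := Quotient.exact h6
        exact mult_iso _ _ h7 σ h1
      have hcG : Nat.card G ^ Nat.card G = (Finset.univ : Finset (G → G)).card := by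
        rw [Finset.card_univ, Fintype.card_fun, Nat.card_eq_fintype_card]
      rw [hcG]
      refine Finset.card_le_card_of_injOn
        (fun ρ => if h : ρ ∈ Rs.filter (fun ρ => f ρ = c) then (hex ρ h).choose else id)
        (fun _ _ => Finset.mem_coe.mpr (Finset.mem_univ _)) ?_
      intro ρ hρ ρ' hρ' heq
      have hρm : ρ ∈ Rs.filter (fun ρ => f ρ = c) := hρ
      have hρm' : ρ' ∈ Rs.filter (fun ρ => f ρ = c) := hρ'
      simp only [dif_pos hρm, dif_pos hρm'] at heq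
      ext1 σ
      rw [(hex ρ hρm).choose_spec σ, (hex ρ' hρm').choose_spec σ, heq]
    have h8 : Rs.card ≤ (Nat.card G ^ Nat.card G) * Nat.card S :=
      h5.trans (Nat.mul_le_mul_left _ h4)
    rw [hnK, ENat.card_eq_coe_natCard]
    exact_mod_cast h8
  · have hI : Infinite S := hinf.to_subtype
    rw [hnK, ENat.card_eq_top_of_infinite, ENat.mul_top (by exact_mod_cast hpow0)]
    exact le_top

end H38.ML
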