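import Pool.Agent.H38.ML.Basic

/-!
# [H38 ML NRMEQ] The norm of a good tuple (40-80 lines)

The set of pairs `(c, V)`, `V` a prime dividing `I c`, is finite; `T` is its image under
`(c, V) ↦ V.under (𝓞 K)`, which is injective on this set (`inj`, `disj`).  Each `I c` is squarefree
(`sq`) and nonzero, so `I c = ∏_{V ∣ I c} V`, `absNorm (I c) = ∏ absNorm V = ∏ absNorm (V.under (𝓞 K))`
(`deg`).
-/

open scoped NumberField

namespace H38.ML

variable {K : Type} [Field K] [NumberField K] {b : ℕ} {F : Fin b → Type} [∀ c, Field (F c)]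
  [∀ c, NumberField (F c)] [∀ c, Algebra K (F c)]

theorem nrmeq_one {M : Type} [Field M] [NumberField M] (J : Ideal (𝓞 M)) (hJ : J ≠ ⊥)
    (hsq : ∀ V : Ideal (𝓞 M), V.IsPrime → ¬ V ^ 2 ∣ J) :
    (UniqueFactorizationMonoid.normalizedFactors J).Nodup := by
  classical
  rw [Multiset.nodup_iff_count_le_one]
  intro V
  by_contra hc
  have h2 : 2 ≤ Multiset.count V (UniqueFactorizationMonoid.normalizedFactors J) := by omega
  have hmem : V ∈ UniqueFactorizationMonoid.normalizedFactors J :=
    Multiset.count_pos.1 (by omega)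
  have hV := ((Ideal.mem_normalizedFactors_iff hJ).1 hmem).1
  apply hsq V hV
  have h3 := Multiset.prod_dvd_prod_of_le (Multiset.le_count_iff_replicate_le.1 h2)
  rwa [Multiset.prod_replicate, Ideal.prod_normalizedFactors_eq_self hJ] at h3

theorem nrm_eq (S : Set (Ideal (𝓞 K))) (I : Tup F) (hI : Good (K := K) S I) :
    ∃ T : Finset (Ideal (𝓞 K)), (∀ v, v ∈ T ↔ ∃ (c : Fin b) (V : Ideal (𝓞 (F c))),
      V.IsPrime ∧ V ∣ I c ∧ V.under (𝓞 K) = v) ∧ ∏ v ∈ T, Ideal.absNorm v = nrm I := by
  classical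
  let P : (c : Fin b) → Finset (Ideal (𝓞 (F c))) := fun c =>
    (UniqueFactorizationMonoid.normalizedFactors (I c)).toFinset
  have hP : ∀ c (V : Ideal (𝓞 (F c))), V ∈ P c ↔ V.IsPrime ∧ V ∣ I c := by
    intro c V
    simp only [P, Multiset.mem_toFinset]
    rw [Ideal.mem_normalizedFactors_iff (hI.ne c), Ideal.dvd_iff_le]
  refine ⟨Finset.univ.biUnion (fun c => (P c).image (fun V => V.under (𝓞 K))), ?_, ?_⟩
  · intro v
    simp only [Finset.mem_biUnion, Finset.mem_univ, true_and, Finset.mem_image, hP, and_assoc]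
  · rw [Finset.prod_biUnion]
    · unfold nrm
      refine Finset.prod_congr rfl (fun c _ => ?_)
      rw [Finset.prod_image]
      · have h1 : ∏ V ∈ P c, Ideal.absNorm (V.under (𝓞 K)) = ∏ V ∈ P c, Ideal.absNorm V :=
          Finset.prod_congr rfl (fun V hV =>
            (hI.deg c V ((hP c V).1 hV).1 ((hP c V).1 hV).2).symm)
        rw [h1, ← map_prod]
        congr 1
        have hnd := nrmeq_one (I c) (hI.ne c) (hI.sq c)
        have h2 : ∏ V ∈ P c, V = (UniqueFactorizationMonoid.normalizedFactors (I c)).prod := by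
          rw [Finset.prod_eq_multiset_prod, Multiset.toFinset_val, hnd.dedup, Multiset.map_id']
        rw [h2, Ideal.prod_normalizedFactors_eq_self (hI.ne c)]
      · intro V hV V' hV' h
        have hV := (hP c V).1 hV
        have hV' := (hP c V').1 hV'
        exact hI.inj c V V' hV.1 hV'.1 hV.2 hV'.2 h
    · intro c _ c' _ hcc
      rw [Function.onFun, Finset.disjoint_left]
      intro v hv hv'
      obtain ⟨V, hV, rfl⟩ := Finset.mem_image.1 hv
      obtain ⟨V', hV', h⟩ := Finset.mem_image.1 hv'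
      have hV := (hP c V).1 hV
      have hV' := (hP c' V').1 hV'
      exact hI.disj c c' V V' hV.1 hV'.1 hV.2 hV'.2 hcc h.symm

end H38.ML
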