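import Pool.Agent.H38.ML.Up
import Pool.Agent.H38.ML.Base

/-!
# [H38 ML SEMI] Semiabelian groups are Galois groups over all large number fields (50-90 lines)

`K₁` from `base_field (Nat.card Q) 0`: every number field `K ⊇ K₁` contains a primitive `|Q|`-th root
of unity.  By downward induction: for every `k ≤ r` there is a surjective homomorphism of finite
type `Γ → H k`.  `k = r`: the trivial group (`H r = ⊥`), the trivial homomorphism.
Step `k + 1 → k` (`k < r`): apply `up_step` to the group `H k`, its subgroups
`(A k).subgroupOf (H k)` (normal, commutative) and `(H (k+1)).subgroupOf (H k)`, with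
`(H (k+1)).subgroupOf (H k) ≃* H (k+1)` (`Subgroup.subgroupOfEquivOfLe`); the order of `A k` divides
`|Q|`, so `K` contains a primitive root of this order (`IsPrimitiveRoot.pow`).
At `k = 0`: `H 0 = ⊤ ≃* Q` (`Subgroup.topEquiv`).
`NumberField K` for a finite dimensional `K`: `numberField_of_finite`; `IsAlgClosure K QBar` is an
instance (`isAlgClosure_QBar`).
-/

open scoped NumberField Pointwise

namespace H38.ML

theorem semiabelian_realizable (Q : Type) [Group Q] [Finite Q] (h : Semiabelian Q) :
    Realizable Q := by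
  obtain ⟨r, H, A, h0, hr, hstep⟩ := h
  obtain ⟨K₁, hfd, hbase⟩ := base_field (Nat.card Q) 0 Nat.card_pos
  refine ⟨K₁, hfd, fun K hK hfK => ?_⟩
  haveI : NumberField K := numberField_of_finite K
  obtain ⟨⟨ζ, hζ⟩, -, -⟩ := hbase K inferInstance hK
  have key : ∀ d k, k + d = r →
      ∃ ρ : Gal(QBar/K) →* H k, Function.Surjective ρ ∧ FT ρ := by
    intro d
    induction d with
    | zero =>
      intro k hk
      have hk' : k = r := by omega
      subst hk'
      refine ⟨1, ?_, ⊥, inferInstance, ?_⟩
      · rintro ⟨x, hx⟩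
        have hx' := hx
        rw [hr, Subgroup.mem_bot] at hx'
        subst hx'
        exact ⟨1, rfl⟩
      · intro σ _
        simp [MonoidHom.mem_ker]
    | succ d ih =>
      intro k hk
      have hkr : k < r := by omega
      obtain ⟨hH, hA, hn, hc, hsup⟩ := hstep k hkr
      obtain ⟨ρ, hρ, hft⟩ := ih (k + 1) (by omega)
      let e : (H (k + 1)).subgroupOf (H k) ≃* H (k + 1) := Subgroup.subgroupOfEquivOfLe hH
      have hnorm : ((A k).subgroupOf (H k)).Normal := by
        refine ⟨?_⟩
        intro a ha h
        rw [Subgroup.mem_subgroupOf] at ha ⊢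
        exact hn h.1 h.2 _ ha
      have hcard : Nat.card ((A k).subgroupOf (H k)) ∣ Nat.card Q :=
        (Subgroup.card_subgroup_dvd_card _).trans (Subgroup.card_subgroup_dvd_card _)
      have hζ' : IsPrimitiveRoot (ζ ^ (Nat.card Q / Nat.card ((A k).subgroupOf (H k))))
          (Nat.card ((A k).subgroupOf (H k))) :=
        hζ.pow Nat.card_pos (Nat.div_mul_cancel hcard).symm
      exact up_step ((A k).subgroupOf (H k)) ((H (k + 1)).subgroupOf (H k)) hnorm
        (fun s hs t ht => Subtype.ext (hc _ hs _ ht))
        (by rw [← Subgroup.subgroupOf_sup hA hH, hsup, Subgroup.subgroupOf_self])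
        _ hζ' (e.symm.toMonoidHom.comp ρ) (e.symm.surjective.comp hρ)
        (ft_comp e.symm.toMonoidHom ρ hft)
  obtain ⟨ρ, hρ, hft⟩ := key r 0 (by omega)
  let e : H 0 ≃* Q := (MulEquiv.subgroupCongr h0).trans Subgroup.topEquiv
  exact ⟨e.toMonoidHom.comp ρ, e.surjective.comp hρ, ft_comp e.toMonoidHom ρ hft⟩

end H38.ML
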