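import Pool.Agent.H38.ML.Tower

/-!
# [H38 ML ZTOWER] Groups with cyclic Sylow subgroups (40-80 lines)

`IsZGroup G`: all Sylow subgroups are cyclic.  `ℓ = (Nat.card G).minFac`, `P` a Sylow `ℓ`-subgroup,
cyclic.  Mathlib: `IsCyclic.isComplement'` (end of `Mathlib/GroupTheory/Transfer.lean`): the kernel `N`
of the transfer is a normal complement of `P`; `MonoidHom.not_dvd_card_ker_transferSylow`.
`N.index = |P|` is a power of `ℓ`.  `N` is the kernel of a homomorphism to a commutative group, so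
`⁅⊤, ⊤⁆ ≤ N`.
Tower: `L 0 = N`, `L 1 = commutator G = ⁅⊤, ⊤⁆`, `L k = ⊥` for `k ≥ 2`, `r = 2`, using the first
alternative each time: `|N / L 1|` divides `|N|`, prime to `ℓ`, so prime to `N.index`;
`commutator G` is cyclic (`IsZGroup.isCyclic_commutator`), so commutative, and its order is prime to its
index (`IsZGroup.coprime_commutator_index`).
-/

namespace H38.ML

private theorem zt_comm {P : Type} [Group P] (hP : IsCyclic P) (x y : P) : x * y = y * x := by
  obtain ⟨g, hg⟩ := hP.exists_generator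
  obtain ⟨a, rfl⟩ := hg x
  obtain ⟨b, rfl⟩ := hg y
  simp only [← zpow_add, add_comm]

theorem zgroup_tower {G : Type} [Group G] [Finite G] (hZ : IsZGroup G) (h1 : Nat.card G ≠ 1) :
    ∃ N : Subgroup G, N.Normal ∧ ⁅(⊤ : Subgroup G), (⊤ : Subgroup G)⁆ ≤ N ∧
      ¬ (Nat.card G).minFac ∣ Nat.card N ∧ GoodTower N := by
  classical
  haveI := hZ
  haveI hprime : Fact (Nat.card G).minFac.Prime := ⟨Nat.minFac_prime h1⟩
  obtain ⟨P⟩ : Nonempty (Sylow (Nat.card G).minFac G) := inferInstance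
  have hP : IsCyclic P := inferInstance
  have hle := hP.normalizer_le_centralizer rfl
  obtain ⟨f, hcompl, hndvd⟩ : ∃ f : G →* P, f.ker.IsComplement' P ∧
      ¬ (Nat.card G).minFac ∣ Nat.card f.ker :=
    ⟨MonoidHom.transferSylow P hle, MonoidHom.ker_transferSylow_isComplement' P hle,
      MonoidHom.not_dvd_card_ker_transferSylow P hle⟩
  have hcomm : ⁅(⊤ : Subgroup G), (⊤ : Subgroup G)⁆ ≤ f.ker := by
    rw [Subgroup.commutator_le]
    intro x _ y _
    rw [MonoidHom.mem_ker, map_commutatorElement, commutatorElement_eq_one_iff_mul_comm]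
    exact zt_comm hP _ _
  have hnorm : f.ker.Normal := MonoidHom.normal_ker f
  have hidx : Nat.Coprime f.ker.index (Nat.card f.ker) := by
    rw [hcompl.symm.index_eq_card]
    obtain ⟨k, hk⟩ := P.2.exists_card_eq
    have : Nat.card P = (Nat.card G).minFac ^ k := hk
    rw [this]
    exact Nat.Coprime.pow_left k ((Nat.Prime.coprime_iff_not_dvd hprime.out).mpr hndvd)
  refine ⟨f.ker, hnorm, hcomm, hndvd, 2, fun k => if k = 0 then f.ker else if k = 1 then
    ⁅(⊤ : Subgroup G), (⊤ : Subgroup G)⁆ else ⊥, rfl, rfl, ?_⟩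
  intro i hi
  have hi' : i = 0 ∨ i = 1 := by omega
  rcases hi' with rfl | rfl
  · refine ⟨hcomm, Subgroup.commutator_normal _ _, Subgroup.commutator_mono le_top le_top, Or.inl ?_⟩
    exact hidx.coprime_dvd_right (Subgroup.relIndex_dvd_card _ _)
  · refine ⟨bot_le, Subgroup.normal_bot, ?_, Or.inl ?_⟩
    · have hc : IsCyclic (commutator G) := IsZGroup.isCyclic_commutator G
      show ⁅⁅(⊤ : Subgroup G), (⊤ : Subgroup G)⁆, ⁅(⊤ : Subgroup G), (⊤ : Subgroup G)⁆⁆ ≤ ⊥
      rw [← commutator_def, Subgroup.commutator_le]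
      intro x hx y hy
      rw [Subgroup.mem_bot, commutatorElement_eq_one_iff_mul_comm]
      exact congrArg Subtype.val (zt_comm hc ⟨x, hx⟩ ⟨y, hy⟩)
    · show Nat.Coprime (⁅(⊤ : Subgroup G), (⊤ : Subgroup G)⁆).index
        ((⊥ : Subgroup G).relIndex ⁅(⊤ : Subgroup G), (⊤ : Subgroup G)⁆)
      rw [Subgroup.relIndex_bot_left, ← commutator_def]
      exact (IsZGroup.coprime_commutator_index G).symm

end H38.ML
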