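import Pool.Agent.H38.ML.Tower
import Pool.Agent.H38.ML.Classes
import Pool.Agent.H38.ML.InertOrb
import Pool.Agent.H38.ML.Mult
import Pool.Agent.H38.ML.LowChain2
import Pool.Agent.H38.ML.Layer
import Pool.Agent.H38.ML.Disc
import Pool.Agent.H38.ML.CountGood
import Pool.Agent.H38.ML.NrmEq
import Pool.Agent.H38.ML.Semi
import Pool.Agent.H38.ML.Build
import Pool.Agent.H38.ML.RegInd
import Pool.Agent.H38.ML.ZTower
import Pool.Agent.H38.ML.BetaEq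
import Pool.Agent.H38.ML.Asym

/-!
# The main theorem: assembly
-/

open scoped NumberField Pointwise IsMulCommutative commutatorElement

noncomputable section

namespace H38.ML

/-- Every prime of `K` lies below a prime of `𝓞 Ω`. -/
theorem exists_over {K Ω : Type} [Field K] [NumberField K] [Field Ω] [Algebra K Ω]
    [IsAlgClosure K Ω] (v : Ideal (𝓞 K)) (hv : v.IsPrime) :
    ∃ 𝔓 : Ideal (𝓞 Ω), 𝔓.IsPrime ∧ 𝔓.under (𝓞 K) = v := by
  obtain ⟨Q, hQ, hQv⟩ := Ideal.exists_ideal_over_prime_of_isIntegral v (⊥ : Ideal (𝓞 Ω)) (by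
    rw [← RingHom.ker_eq_comap_bot]
    have : Function.Injective (algebraMap (𝓞 K) (𝓞 Ω)) :=
      NumberField.RingOfIntegers.algebraMap.injective K Ω
    rw [(RingHom.injective_iff_ker_eq_bot _).mp this]
    exact bot_le)
  exact ⟨Q, hQv.1, hQv.2⟩

/-- A natural number not in a prime of `K` is not in a prime above it. -/
theorem natCast_notMem_over {K Ω : Type} [Field K] [Field Ω] [Algebra K Ω]
    (𝔓 : Ideal (𝓞 Ω)) (m : ℕ) (h : ((m : ℕ) : 𝓞 K) ∉ 𝔓.under (𝓞 K)) :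
    ((m : ℕ) : 𝓞 Ω) ∉ 𝔓 := by
  intro h1
  apply h
  rw [Ideal.under_def, Ideal.mem_comap, map_natCast]
  exact h1

/-- For one good tuple: a surjective homomorphism onto `G` whose field has a small
discriminant. -/
theorem one_tuple {n : ℕ} (G : Subgroup (Equiv.Perm (Fin n)))
    (hG : MulAction.IsPretransitive G (Fin n)) (i₀ : Fin n) (N : Subgroup G) [N.Normal]
    (htow : GoodTower N) (K : IntermediateField ℚ QBar) [FiniteDimensional ℚ K]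
    [NumberField K] (htc : NumberField.IsTotallyComplex K)
    (hpl : 2 * Nat.card G + 1 ≤ Fintype.card (NumberField.InfinitePlace K)) (ζ : K)
    (hζ : IsPrimitiveRoot ζ (Nat.card G)) (M : IntermediateField K QBar)
    [FiniteDimensional K M] [IsGalois K M] [NumberField M] (e : Gal(M/K) →* G ⧸ N)
    (hes : Function.Surjective e) {A : Subgroup Gal(M/K)} {b : ℕ}
    (a : Fin b → A) (g : Fin b → G)
    (hga : ∀ c, ((g c : G) : G ⧸ N) = e ((a c : A) : Gal(M/K)))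
    (hg : ∀ c, ind (g c : Equiv.Perm (Fin n)) = indG G ∧
        (orderOf (g c)).Prime ∧ Nat.Coprime (orderOf (g c)) (Nat.card N))
    (S : Set (Ideal (𝓞 K)))
    (hSG : ∀ v : Ideal (𝓞 K), v.IsPrime → v ≠ ⊥ → v ∉ S → ((Nat.card G : ℕ) : 𝓞 K) ∉ v)
    (I : Tup fun c => Fc a c) (hI : Good (K := K) S I) (R : Gal(QBar/K) →* Gal(M/K))
    (hR : Function.Surjective R) (hRft : FT R)
    (hR1 : ∀ v : Ideal (𝓞 K), v.IsPrime → v ≠ ⊥ → v ∉ S →
      (∀ c (V : Ideal (𝓞 (Fc a c))), V.IsPrime → V ∣ I c → V.under (𝓞 K) ≠ v) →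
      ∀ 𝔓 : Ideal (𝓞 QBar), 𝔓.IsPrime → 𝔓.under (𝓞 K) = v →
        ∀ τ ∈ 𝔓.inertia Gal(QBar/K), R τ = 1)
    (hR2 : ∀ c (V : Ideal (𝓞 (Fc a c))), V.IsPrime → V ∣ I c →
      ∀ 𝔓 : Ideal (𝓞 QBar), 𝔓.IsPrime → 𝔓.under (𝓞 K) = V.under (𝓞 K) →
        ∃ x : Gal(M/K), ∀ τ ∈ 𝔓.inertia Gal(QBar/K),
          R τ ∈ Subgroup.zpowers (x * ((a c : A) : Gal(M/K)) * x⁻¹))
    (C : ℕ)
    (hC : ∀ (L : IntermediateField K QBar) (_ : FiniteDimensional K L)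
      (_ : NumberField L), Module.finrank K L = n →
      ∀ (T : Finset (Ideal (𝓞 K))) (w : ℕ), (∀ v ∈ T, v.IsPrime ∧ v ≠ ⊥) →
        (∀ v ∈ T, ∃ 𝔓 : Ideal (𝓞 QBar), 𝔓.IsPrime ∧ 𝔓.under (𝓞 K) = v ∧
          n ≤ w + embOrb L (𝔓.inertia Gal(QBar/K))) →
        (∀ v : Ideal (𝓞 K), v.IsPrime → v ≠ ⊥ → v ∉ S → v ∉ T →
          ∃ 𝔓 : Ideal (𝓞 QBar), 𝔓.IsPrime ∧ 𝔓.under (𝓞 K) = v ∧
            n ≤ embOrb L (𝔓.inertia Gal(QBar/K))) →
        Ideal.absNorm (differentIdeal (𝓞 K) (𝓞 L)) ≤ C * (∏ v ∈ T, Ideal.absNorm v) ^ w) :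
    ∃ ρ : Gal(QBar/K) →* G, Function.Surjective ρ ∧ FT ρ ∧ (∀ σ, ((ρ σ : G) : G ⧸ N) = e (R σ)) ∧
      relDisc K (fieldOf i₀ ρ) ≤ C * nrm I ^ indG G := by
  obtain ⟨ρ, hρ, hρft, hρN, hρI⟩ := low_chain2 N htow htc hpl ζ hζ (e.comp R) (hes.comp hR)
    (ft_comp e R hRft)
  refine ⟨ρ, hρ, hρft, hρN, ?_⟩
  obtain ⟨hfin, hrank, hsmall, horb⟩ := small_field G hG K i₀ ρ hρ hρft
  haveI := hfin
  haveI : NumberField (fieldOf i₀ ρ) := NumberField.of_module_finite K _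
  obtain ⟨T, hT, hTn⟩ := nrm_eq S I hI
  have hdisc : relDisc K (fieldOf i₀ ρ) =
      Ideal.absNorm (differentIdeal (𝓞 K) (𝓞 (fieldOf i₀ ρ))) := by
    rw [relDisc, dif_pos (show NumberField (fieldOf i₀ ρ) from inferInstance)]
  rw [hdisc, ← hTn]
  have hTp : ∀ v ∈ T, v.IsPrime ∧ v ≠ ⊥ := by
    intro v hv
    obtain ⟨c, V, hV, hVI, rfl⟩ := (hT v).mp hv
    haveI := hV
    refine ⟨inferInstance, ?_⟩
    intro h0
    have hV0 : V ≠ ⊥ := by
      rintro rfl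
      refine hI.ne c ?_
      rwa [← Ideal.zero_eq_bot, zero_dvd_iff, Ideal.zero_eq_bot] at hVI
    exact hV0 (Ideal.eq_bot_of_comap_eq_bot h0)
  refine hC _ hfin inferInstance hrank T (indG G) hTp ?_ ?_
  · intro v hv
    obtain ⟨hvp, hv0⟩ := hTp v hv
    obtain ⟨c, V, hV, hVI, hVv⟩ := (hT v).mp hv
    have hvS : v ∉ S := hVv ▸ hI.notMem c V hV hVI
    obtain ⟨𝔓, h𝔓, h𝔓v⟩ := exists_over (Ω := QBar) v hvp
    refine ⟨𝔓, h𝔓, h𝔓v, ?_⟩
    rw [horb]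
    obtain ⟨x, hx⟩ := hR2 c V hV hVI 𝔓 h𝔓 (h𝔓v.trans hVv.symm)
    have hG𝔓 : ((Nat.card G : ℕ) : 𝓞 QBar) ∉ 𝔓 :=
      natCast_notMem_over (K := K) 𝔓 _ (by rw [h𝔓v]; exact hSG v hvp hv0 hvS)
    refine orbs_of_inertia G N (g c) (hg c).1 (hg c).2.1 (hg c).2.2 _ ?_ (e x) ?_
    · rintro _ ⟨τ, hτ, rfl⟩ hN
      apply hρI 𝔓 h𝔓 hG𝔓 τ hτ
      rw [← hρN τ]
      exact (QuotientGroup.eq_one_iff _).mpr hN
    · rintro _ ⟨τ, hτ, rfl⟩
      have hρτ : ((ρ τ : G) : G ⧸ N) = e (R τ) := hρN τ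
      rw [hρτ, hga c]
      obtain ⟨k, hk⟩ := hx τ hτ
      refine ⟨k, ?_⟩
      change (e x * e ((a c : A) : Gal(M/K)) * (e x)⁻¹) ^ k = e (R τ)
      have hk' : (x * ((a c : A) : Gal(M/K)) * x⁻¹) ^ k = R τ := hk
      rw [← hk', map_zpow, map_mul, map_mul, map_inv]
  · intro v hvp hv0 hvS hvT
    obtain ⟨𝔓, h𝔓, h𝔓v⟩ := exists_over (Ω := QBar) v hvp
    refine ⟨𝔓, h𝔓, h𝔓v, ?_⟩
    rw [horb]
    have hG𝔓 : ((Nat.card G : ℕ) : 𝓞 QBar) ∉ 𝔓 :=
      natCast_notMem_over (K := K) 𝔓 _ (by rw [h𝔓v]; exact hSG v hvp hv0 hvS)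
    have h1 : (𝔓.inertia Gal(QBar/K)).map ρ = ⊥ := by
      rw [eq_bot_iff]
      rintro _ ⟨τ, hτ, rfl⟩
      rw [Subgroup.mem_bot]
      apply hρI 𝔓 h𝔓 hG𝔓 τ hτ
      change e (R τ) = 1
      rw [hR1 v hvp hv0 hvS (fun c V hV hVI hVv => hvT ((hT v).mpr ⟨c, V, hV, hVI, hVv⟩)) 𝔓 h𝔓
        h𝔓v τ hτ, map_one]
    rw [h1, Subgroup.map_bot, orbs_bot]

theorem lower_bound {n : ℕ} (hn : 2 ≤ n) (G : Subgroup (Equiv.Perm (Fin n)))
    (hG : MulAction.IsPretransitive G (Fin n)) (T N : Subgroup G) (hT : T.Normal) (hN : N.Normal)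
    (hTT : ⁅T, T⁆ ≤ N) (htow : GoodTower N) (hreal : Realizable (G ⧸ N))
    (hne : Nonempty (LeastIn G T N)) :
    ∃ K₀ : IntermediateField ℚ QBar, FiniteDimensional ℚ K₀ ∧
      ∀ K : IntermediateField ℚ QBar, K₀ ≤ K → FiniteDimensional ℚ K →
        ∃ c : ℝ, 0 < c ∧ ∃ B₀ : ℝ, ∀ B : ℝ, B₀ ≤ B →
          ((⌈c * B ^ (1 / (indG G : ℝ)) * Real.log B ^ (beta G K T N - 1)⌉₊ : ℕ) : ℕ∞) ≤
            nK G K B := by
  haveI := hT
  haveI := hN
  obtain ⟨K₁, hK₁, hreal⟩ := hreal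
  obtain ⟨K₂, hK₂, hbase⟩ := base_field (Nat.card G) (2 * Nat.card G + 1) Nat.card_pos
  haveI := hK₁
  haveI := hK₂
  refine ⟨K₁ ⊔ K₂, IntermediateField.finiteDimensional_sup K₁ K₂, ?_⟩
  intro K hK hKfin
  haveI := hKfin
  haveI : NumberField K := numberField_of_finite K
  obtain ⟨⟨ζ, hζ⟩, htc, hpl⟩ := hbase K inferInstance (le_trans le_sup_right hK)
  obtain ⟨ρ₀, hρ₀, hft₀⟩ := hreal K (le_trans le_sup_left hK) hKfin
  obtain ⟨M, hMfin, hMgal, e, heinj, he⟩ := factor ρ₀ hft₀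
  haveI : NumberField M := NumberField.of_module_finite K M
  have hes : Function.Surjective e := by
    intro y
    obtain ⟨σ, rfl⟩ := hρ₀ y
    exact ⟨res M σ, he σ⟩
  let E : Gal(M/K) ≃* G ⧸ N := MulEquiv.ofBijective e ⟨heinj, hes⟩
  have hE : ∀ x, E x = e x := fun x => rfl
  obtain ⟨a₀, g, hga, hg, ha1, hnc⟩ := classes G K ζ hζ T N
  -- the subgroup `A`
  let A : Subgroup Gal(M/K) := (T.map (QuotientGroup.mk' N)).comap e
  haveI hTm : (T.map (QuotientGroup.mk' N)).Normal :=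
    Subgroup.Normal.map hT _ (QuotientGroup.mk'_surjective N)
  haveI : A.Normal := Subgroup.Normal.comap hTm e
  haveI : IsMulCommutative A := by
    refine ⟨⟨?_⟩⟩
    rintro ⟨x, hx⟩ ⟨y, hy⟩
    ext1
    change x * y = y * x
    apply heinj
    rw [map_mul, map_mul]
    obtain ⟨x', hx', hxe⟩ := hx
    obtain ⟨y', hy', hye⟩ := hy
    rw [← hxe, ← hye, ← map_mul, ← map_mul]
    apply (QuotientGroup.eq).mpr
    have h1 : ⁅y'⁻¹, x'⁻¹⁆ ∈ N := hTT (Subgroup.commutator_mem_commutator (T.inv_mem hy')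
      (T.inv_mem hx'))
    have h2 : (x' * y')⁻¹ * (y' * x') = ⁅y'⁻¹, x'⁻¹⁆ := by
      rw [commutatorElement_def]; group
    rw [h2]; exact h1
  have haA : ∀ c, E.symm (a₀ c) ∈ A := by
    intro c
    change e (E.symm (a₀ c)) ∈ T.map (QuotientGroup.mk' N)
    rw [← hE, E.apply_symm_apply, ← hga c]
    exact ⟨g c, (hg c).1, rfl⟩
  let a : Fin (beta G K T N) → A := fun c => ⟨E.symm (a₀ c), haA c⟩
  have hea : ∀ c, e ((a c : A) : Gal(M/K)) = a₀ c := fun c => E.apply_symm_apply (a₀ c)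
  have ha1' : ∀ c, a c ≠ 1 := by
    intro c h
    apply ha1 c
    rw [← hea c, h]
    simp
  have hnc' : ∀ c c' (x : Gal(M/K)), x * ((a c : A) : Gal(M/K)) * x⁻¹ = (a c' : A) → c = c' := by
    intro c c' x h
    apply hnc c c' (e x)
    rw [← hea c, ← hea c', ← h, map_mul, map_mul, map_inv]
  have hA : ∀ t : A, t ^ Nat.card G = 1 := by
    intro t
    have h1 : Nat.card Gal(M/K) ∣ Nat.card G := by
      rw [Nat.card_congr E.toEquiv]
      exact Subgroup.card_quotient_dvd_card N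
    have h2 : Nat.card A ∣ Nat.card G := (Subgroup.card_subgroup_dvd_card A).trans h1
    exact (orderOf_dvd_iff_pow_eq_one).mp ((orderOf_dvd_natCard t).trans h2)
  -- bad primes
  have hGne : (((Nat.card G * n.factorial : ℕ) : ℕ) : 𝓞 K) ≠ 0 := by
    rw [Nat.cast_ne_zero]
    exact Nat.mul_ne_zero Nat.card_pos.ne' (Nat.factorial_ne_zero n)
  let S₀ : Set (Ideal (𝓞 K)) := {v | ∃ Q : Ideal (𝓞 K), Q.IsPrime ∧
    Ideal.span {(((Nat.card G * n.factorial : ℕ) : ℕ) : 𝓞 K)} ≤ Q ∧ Q.under (𝓞 K) = v}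
  have hS₀ : S₀.Finite := finite_primes_below K K _ (by simpa using hGne)
  have hS₀mem : ∀ v : Ideal (𝓞 K), v.IsPrime →
      (((Nat.card G * n.factorial : ℕ) : ℕ) : 𝓞 K) ∈ v → v ∈ S₀ := by
    intro v hv hmem
    refine ⟨v, hv, ?_, ?_⟩
    · rw [Ideal.span_singleton_le_iff_mem]; exact hmem
    · ext x; simp [Ideal.mem_comap]
  obtain ⟨S, hS, hS₀S, R, hR, hR1, hR2, hR3⟩ := layer a ha1' hnc' (Nat.card G) Nat.card_pos ζ hζ hA
    S₀ hS₀ (Ω := QBar)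
  have hSG : ∀ v : Ideal (𝓞 K), v.IsPrime → v ≠ ⊥ → v ∉ S → ((Nat.card G : ℕ) : 𝓞 K) ∉ v := by
    intro v hv _ hvS h
    apply hvS
    apply hS₀S
    apply hS₀mem v hv
    rw [Nat.cast_mul]
    exact Ideal.mul_mem_right _ _ h
  have hSn : ∀ v : Ideal (𝓞 K), v.IsPrime → v ≠ ⊥ → v ∉ S → ((n.factorial : ℕ) : 𝓞 K) ∉ v := by
    intro v hv _ hvS h
    apply hvS
    apply hS₀S
    apply hS₀mem v hv
    rw [Nat.cast_mul]
    exact Ideal.mul_mem_left _ _ h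
  obtain ⟨C, hC0, hC⟩ := disc_bound QBar n S hS hSn
  have i₀ : Fin n := ⟨0, by omega⟩
  have hone : ∀ I : Tup fun c => Fc a c, Good (K := K) S I →
      ∃ ρ : Gal(QBar/K) →* G, Function.Surjective ρ ∧ FT ρ ∧
        (∀ σ, ((ρ σ : G) : G ⧸ N) = e (R I σ)) ∧
        relDisc K (fieldOf i₀ ρ) ≤ C * nrm I ^ indG G := by
    intro I hI
    exact one_tuple G hG i₀ N htow K htc hpl ζ hζ M e hes a g (fun c => (hga c).trans (hea c).symm)
      (fun c => ⟨(hg c).2.2.1, (hg c).2.2.2.1, (hg c).2.2.2.2⟩) S hSG I hI (R I) (hR I hI).1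
      (hR I hI).2 (hR1 I hI) (hR2 I hI) C hC
  classical
  choose! ρf hρf using hone
  have hb : 0 < beta G K T N := by
    haveI : Finite (LeastIn G T N) := Subtype.finite
    haveI : Nonempty (Quot fun g h : LeastIn G T N => KConj G K g.1 h.1) :=
      hne.map (Quot.mk _)
    haveI : Finite (Quot fun g h : LeastIn G T N => KConj G K g.1 h.1) :=
      Finite.of_surjective (Quot.mk _) Quot.mk_surjective
    exact Nat.card_pos
  have hind : 0 < indG G := by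
    obtain ⟨⟨x, _, hx1, hx2, _⟩⟩ := hne
    rw [← hx2]
    exact ind_pos _ (fun h => hx1 (Subtype.ext h))
  obtain ⟨c₁, hc₁, X₀, hcount⟩ := count_good (K := K) (F := fun c => Fc a c) hb S hS
  obtain ⟨c, hc, B₀, hB⟩ := asym (indG G) (beta G K T N - 1) (Nat.card G ^ Nat.card G) C hind
    (pow_pos Nat.card_pos _) hC0 c₁ hc₁ X₀
  refine ⟨c, hc, B₀, ?_⟩
  intro B hBB
  obtain ⟨X, hX₀, hX0, hXB, hXc⟩ := hB B hBB
  obtain ⟨Ts, hTs, hTc⟩ := hcount X hX₀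
  have hinj : Set.InjOn ρf (Ts : Set (Tup fun c => Fc a c)) := by
    intro I hI I' hI' h
    apply hR3 I I' (hTs I hI).1 (hTs I' hI').1
    apply MonoidHom.ext
    intro σ
    apply heinj
    rw [← (hρf I (hTs I hI).1).2.2.1 σ, ← (hρf I' (hTs I' hI').1).2.2.1 σ, h]
  have hmany := many_classes G hG K i₀ B (Ts.image ρf) (by
    intro ρ hρ
    obtain ⟨I, hI, rfl⟩ := Finset.mem_image.mp hρ
    obtain ⟨hG1, hIX⟩ := hTs I hI
    obtain ⟨h1, h2, _, h4⟩ := hρf I hG1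
    refine ⟨h1, h2, ?_⟩
    calc (relDisc K (fieldOf i₀ (ρf I)) : ℝ) ≤ ((C * nrm I ^ indG G : ℕ) : ℝ) := by
          exact_mod_cast h4
      _ = (C : ℝ) * (nrm I : ℝ) ^ indG G := by push_cast; ring
      _ ≤ (C : ℝ) * X ^ indG G := by
          apply mul_le_mul_of_nonneg_left _ (Nat.cast_nonneg C)
          exact pow_le_pow_left₀ (Nat.cast_nonneg _) hIX _
      _ ≤ B := hXB)
  rw [Finset.card_image_of_injOn hinj] at hmany
  cases hk : nK G K B using ENat.recTopCoe with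
  | top => exact le_top
  | coe k =>
    rw [hk] at hmany
    have h1 : Ts.card ≤ Nat.card G ^ Nat.card G * k := by exact_mod_cast hmany
    have h2 : (Ts.card : ℝ) ≤ ((Nat.card G ^ Nat.card G : ℕ) : ℝ) * k := by exact_mod_cast h1
    have hpos : (0 : ℝ) < ((Nat.card G ^ Nat.card G : ℕ) : ℝ) := by
      exact_mod_cast pow_pos (Nat.card_pos (α := G)) _
    have h3 : c * B ^ (1 / (indG G : ℝ)) * Real.log B ^ (beta G K T N - 1) ≤ (k : ℝ) := by
      refine hXc.trans ?_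
      rw [div_le_iff₀ hpos]
      calc c₁ * X * Real.log X ^ (beta G K T N - 1) ≤ Ts.card := hTc
        _ ≤ ((Nat.card G ^ Nat.card G : ℕ) : ℝ) * k := h2
        _ = k * ((Nat.card G ^ Nat.card G : ℕ) : ℝ) := mul_comm _ _
    have h4 : ⌈c * B ^ (1 / (indG G : ℝ)) * Real.log B ^ (beta G K T N - 1)⌉₊ ≤ k :=
      Nat.ceil_le.mpr h3
    exact_mod_cast h4

/-- Groups with cyclic Sylow subgroups in their regular representation: the lower bound has exactly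
the conjectured order. -/
theorem zgroup_lower_bound {n : ℕ} (hn : 2 ≤ n) (G : Subgroup (Equiv.Perm (Fin n)))
    (hG : MulAction.IsPretransitive G (Fin n)) (hcard : Nat.card G = n) (hZ : IsZGroup G) :
    ∃ K₀ : IntermediateField ℚ QBar, FiniteDimensional ℚ K₀ ∧
      ∀ K : IntermediateField ℚ QBar, K₀ ≤ K → FiniteDimensional ℚ K →
        ∃ c : ℝ, 0 < c ∧ ∃ B₀ : ℝ, ∀ B : ℝ, B₀ ≤ B →
          ((⌈c * B ^ (1 / (indG G : ℝ)) * Real.log B ^ (betaAll G K - 1)⌉₊ : ℕ) : ℕ∞) ≤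
            nK G K B := by
  have h1 : Nat.card G ≠ 1 := by omega
  obtain ⟨N, hN, hcomm, hdvd, htow⟩ := zgroup_tower hZ h1
  haveI := hN
  rw [hcard] at hdvd
  have hleast : ∀ g : G, g ≠ 1 → ind (g : Equiv.Perm (Fin n)) = indG G →
      g ∈ (⊤ : Subgroup G) ∧ Nat.Coprime (orderOf g) (Nat.card N) := by
    intro g hg hi
    refine ⟨Subgroup.mem_top g, ?_⟩
    rw [orderOf_of_least_regular hn G hG hcard g hg hi]
    exact (Nat.Prime.coprime_iff_not_dvd (Nat.minFac_prime (by omega))).mpr hdvd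
  have hbot : G ≠ ⊥ := by
    rintro rfl
    rw [Subgroup.card_bot] at hcard
    omega
  obtain ⟨g, hg, hi⟩ := exists_least G hbot
  have hreal : Realizable (G ⧸ N) := by
    apply semiabelian_realizable
    refine ⟨1, fun k => if k = 0 then ⊤ else ⊥, fun _ => ⊤, by simp, by simp, ?_⟩
    intro k hk
    obtain rfl : k = 0 := by omega
    refine ⟨by simp, by simp, fun _ _ _ _ => Subgroup.mem_top _, ?_, by simp⟩
    rintro x - y -
    obtain ⟨x, rfl⟩ := QuotientGroup.mk_surjective x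
    obtain ⟨y, rfl⟩ := QuotientGroup.mk_surjective y
    rw [← QuotientGroup.mk_mul, ← QuotientGroup.mk_mul, QuotientGroup.eq]
    apply hcomm
    have h2 : (x * y)⁻¹ * (y * x) = ⁅y⁻¹, x⁻¹⁆ := by
      rw [commutatorElement_def]; group
    rw [h2]
    exact Subgroup.commutator_mem_commutator (Subgroup.mem_top _) (Subgroup.mem_top _)
  obtain ⟨K₀, hK₀, h⟩ := lower_bound hn G hG ⊤ N inferInstance hN hcomm htow hreal
    ⟨⟨g, (hleast g hg hi).1, hg, hi, (hleast g hg hi).2⟩⟩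
  refine ⟨K₀, hK₀, fun K hK hKf => ?_⟩
  rw [← beta_eq_betaAll G K ⊤ N hleast]
  exact h K hK hKf

end H38.ML
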