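import Pool.Agent.H38.ML.Spec
import Pool.Agent.H38.ML.Final2

/-!
# The definitions of `Spec.lean` agree with those used in the proofs
-/

open scoped NumberField

noncomputable section

namespace H38.ML

theorem goodTower_of_spec {G : Type} [Group G] {N : Subgroup G} (h : Spec.GoodTower N) :
    GoodTower N := h

theorem buildable_of_spec (Q : Type) [Group Q] (h : Spec.Buildable Q) : Buildable Q := by
  induction h with
  | sym k => exact Buildable.sym k
  | quot f hf _ ih => exact Buildable.quot f hf ih
  | prod _ _ ih1 ih2 => exact Buildable.prod ih1 ih2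
  | split φ _ ih => exact Buildable.split φ ih

theorem realizable_of_spec {Q : Type} [Group Q] (h : Spec.Realizable Q) : Realizable Q := by
  obtain ⟨K₁, hK₁, h⟩ := h
  refine ⟨K₁, hK₁.to_finiteDimensional, fun K hK hKf => ?_⟩
  haveI : NumberField K := NumberField.of_module_finite ℚ K
  obtain ⟨ρ, hρ, hft⟩ := h K hK inferInstance
  exact ⟨ρ, hρ, hft⟩

theorem nK_le_spec {n : ℕ} (hn : 2 ≤ n) (G : Subgroup (Equiv.Perm (Fin n)))
    (K : IntermediateField ℚ QBar) [NumberField K] (B : ℝ) :
    nK G K B ≤ Spec.nK K QBar G B := by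
  have key : ∀ c : {c : Quotient (isoSetoid K) // ∃ L : IntermediateField K QBar,
      Quotient.mk (isoSetoid K) L = c ∧ IsSmall G K L ∧ (relDisc K L : ℝ) ≤ B},
      ∃ L : {L : IntermediateField K QBar // Spec.IsSmall K QBar G L ∧
        ∃ _ : NumberField L, (Spec.relDisc K L : ℝ) ≤ B}, Quotient.mk (isoSetoid K) L.1 = c.1 := by
    rintro ⟨c, L, hL, hs, hd⟩
    haveI : FiniteDimensional K L := by
      apply Module.finite_of_finrank_pos
      rw [hs.1]; omega
    haveI : NumberField L := NumberField.of_module_finite K L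
    refine ⟨⟨L, hs, inferInstance, ?_⟩, hL⟩
    rw [relDisc, dif_pos (show NumberField L from inferInstance)] at hd
    exact hd
  choose f hf using key
  apply ENat.card_le_card_of_injective (f := fun c => Quot.mk _ (f c))
  intro c c' h
  have h3 : ∀ x y : {L : IntermediateField K QBar // Spec.IsSmall K QBar G L ∧
        ∃ _ : NumberField L, (Spec.relDisc K L : ℝ) ≤ B},
      Relation.EqvGen (fun L L' => Nonempty (L.1 ≃ₐ[K] L'.1)) x y →
        Nonempty (x.1 ≃ₐ[K] y.1) := by
    intro x y hxy
    induction hxy with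
    | rel x y hxy => exact hxy
    | refl x => exact ⟨AlgEquiv.refl⟩
    | symm x y _ ih => exact ⟨(Classical.choice ih).symm⟩
    | trans x y z _ _ ih1 ih2 => exact ⟨(Classical.choice ih1).trans (Classical.choice ih2)⟩
  have h1 : Nonempty ((f c).1 ≃ₐ[K] (f c').1) := h3 _ _ (Quot.eqvGen_exact h)
  apply Subtype.ext
  rw [← hf c, ← hf c']
  exact Quotient.sound h1

theorem beta_eq_spec {n : ℕ} (G : Subgroup (Equiv.Perm (Fin n)))
    (K : IntermediateField ℚ QBar) (T N : Subgroup G) :
    beta G K T N = Spec.beta K QBar G T N := rfl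

theorem betaAll_eq_spec {n : ℕ} (G : Subgroup (Equiv.Perm (Fin n)))
    (K : IntermediateField ℚ QBar) : betaAll G K = Spec.betaAll K QBar G := rfl

theorem indG_eq_spec {n : ℕ} (G : Subgroup (Equiv.Perm (Fin n))) : indG G = Spec.indG G := rfl

end H38.ML
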