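import Pool.Agent.H38.ML.CB

/-!
# [H38 ML HARM] Sums of `1/N` and `1/N²` (three theorems, 100-160 lines)

Let `J(X) = cnt P N X`, `c X ≤ J(X)` for `X ≥ X₀` and `J(X) ≤ C X` for `X ≥ 1` (and `J(X) = 0` for
`X < 1`).  For an integer `m ≥ 1`: `1/m = 1/(Y+1) + ∑_{k=m}^{Y} 1/(k(k+1))` for `Y ≥ m`, so for an
integer `Y ≥ 1`
`∑_{N t ≤ Y} 1/N t = J(Y)/(Y+1) + ∑_{k=1}^{Y} J(k)/(k(k+1))` (interchange of finite sums).
`harm_upper`: `≤ C + C ∑_{k=1}^{Y} 1/(k+1) ≤ C + C log (Y+1) ...`; with `Y = ⌊X⌋`: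
`∑_{k ≤ Y} 1/(k+1) ≤ log (Y + 1)`, and `log (Y+1) ≤ log X + 1` for `X ≥ 1`
(`Y + 1 ≤ 2 X`), so the sum is `≤ C (2 + log X) ≤ 2 C (1 + log X)`.
`harm_lower`: `≥ ∑_{k = k₀}^{Y} c/(k+1)`, `k₀ = ⌈X₀⌉ + 1`, `≥ c (log (Y+2) - log (k₀+1)) ≥ (c/2) log X` for `X`
large.
`sq_tail`: the same partial summation for `1/m²`: with `Y` the maximum of `N` on `s` the sum is at most
`C Y/(Y+1)² + ∑_{z < k ≤ Y} 2 C/(k (k+1)) ≤ 3 C / z`.
-/

namespace H38.ML

variable {T : Type} {P : T → Prop} {N : T → ℕ}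

private theorem tele (g : ℕ → ℝ) (m n : ℕ) (h : m ≤ n) :
    ∑ k ∈ Finset.Ico m n, (g k - g (k + 1)) = g m - g n := by
  induction n, h using Nat.le_induction with
  | base => simp
  | succ n hn ih =>
    rw [Finset.sum_Ico_succ_top hn, ih]
    ring

private theorem abel (g : ℕ → ℝ) (s : Finset T) (a Y : ℕ) (hs : ∀ t ∈ s, a ≤ N t ∧ N t ≤ Y) :
    ∑ t ∈ s, g (N t) = (s.card : ℝ) * g (Y + 1) +
      ∑ k ∈ Finset.Ico a (Y + 1), (g k - g (k + 1)) * ((s.filter (fun t => N t ≤ k)).card : ℝ) := by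
  have h1 : ∀ t ∈ s, g (N t) = g (Y + 1) +
      ∑ k ∈ Finset.Ico a (Y + 1), if N t ≤ k then (g k - g (k + 1)) else 0 := by
    intro t ht
    obtain ⟨ha, hY⟩ := hs t ht
    have h2 : ∑ k ∈ Finset.Ico a (Y + 1), (if N t ≤ k then (g k - g (k + 1)) else 0) =
        ∑ k ∈ Finset.Ico (N t) (Y + 1), (g k - g (k + 1)) := by
      rw [← Finset.sum_filter]
      apply Finset.sum_congr _ (fun _ _ => rfl)
      ext k
      simp only [Finset.mem_filter, Finset.mem_Ico]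
      omega
    rw [h2, tele g _ _ (by omega)]
    ring
  rw [Finset.sum_congr rfl h1, Finset.sum_add_distrib, Finset.sum_const, nsmul_eq_mul,
    Finset.sum_comm]
  congr 1
  refine Finset.sum_congr rfl fun k _ => ?_
  rw [← Finset.sum_filter, Finset.sum_const, nsmul_eq_mul]
  ring

private theorem cnt_eq (h : CB P N 0) (X : ℝ) : cnt P N X = (h.fin X).toFinset.card := by
  have := Set.ncard_eq_toFinset_card _ (h.fin X)
  rw [← this]
  rfl

private theorem filter_le (h : CB P N 0) (s : Finset T) (hs : ∀ t ∈ s, P t) (k : ℕ) :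
    (s.filter (fun t => N t ≤ k)).card ≤ cnt P N k := by
  rw [cnt_eq h]
  refine Finset.card_le_card ?_
  intro t ht
  rw [Finset.mem_filter] at ht
  rw [Set.Finite.mem_toFinset]
  exact ⟨hs t ht.1, by exact_mod_cast ht.2⟩

private theorem filter_eq (h : CB P N 0) (X : ℝ) (k : ℕ) (hk : (k : ℝ) ≤ X) :
    ((h.fin X).toFinset.filter (fun t => N t ≤ k)).card = cnt P N k := by
  rw [cnt_eq h]
  congr 1
  ext t
  rw [Finset.mem_filter, Set.Finite.mem_toFinset, Set.Finite.mem_toFinset]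
  simp only [Set.mem_setOf_eq]
  constructor
  · rintro ⟨⟨h1, h2⟩, h3⟩
    exact ⟨h1, by exact_mod_cast h3⟩
  · rintro ⟨h1, h2⟩
    exact ⟨⟨h1, h2.trans hk⟩, by exact_mod_cast h2⟩

private theorem mem_bd (h : CB P N 0) (X : ℝ) (hX : 0 ≤ X) :
    ∀ t ∈ (h.fin X).toFinset, 1 ≤ N t ∧ N t ≤ ⌊X⌋₊ := by
  intro t ht
  rw [Set.Finite.mem_toFinset] at ht
  exact ⟨h.pos t ht.1, Nat.le_floor ht.2⟩

theorem harm_upper (h : CB P N 0) :
    ∃ C : ℝ, 0 < C ∧ ∀ X : ℝ, 1 ≤ X →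
      ∑ t ∈ (h.fin X).toFinset, (1 : ℝ) / N t ≤ C * (1 + Real.log X) := by
  obtain ⟨C, hC, hup⟩ := h.upper
  refine ⟨2 * C, by positivity, ?_⟩
  intro X hX
  have hX0 : 0 ≤ X := by linarith
  have hlog : 0 ≤ Real.log X := Real.log_nonneg hX
  have hab := abel (fun m => (1 : ℝ) / m) (h.fin X).toFinset 1 ⌊X⌋₊ (mem_bd h X hX0)
  rw [hab]
  have hfl : (⌊X⌋₊ : ℝ) ≤ X := Nat.floor_le hX0
  have hfl1 : 1 ≤ ⌊X⌋₊ := Nat.le_floor (by exact_mod_cast hX)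
  have h1 : (((h.fin X).toFinset.card : ℝ)) * (1 / ((⌊X⌋₊ + 1 : ℕ) : ℝ)) ≤ C := by
    have hc : (cnt P N X : ℝ) ≤ C * X := by
      have := hup X hX
      simpa using this
    rw [← cnt_eq h]
    have h3 : X ≤ ((⌊X⌋₊ + 1 : ℕ) : ℝ) := by
      push_cast
      exact (Nat.lt_floor_add_one X).le
    have h4 : (0 : ℝ) < ((⌊X⌋₊ + 1 : ℕ) : ℝ) := by positivity
    rw [mul_one_div, div_le_iff₀ h4]
    nlinarith
  have h2 : ∑ k ∈ Finset.Ico 1 (⌊X⌋₊ + 1), ((fun m : ℕ => (1 : ℝ) / m) k - (fun m : ℕ => (1 : ℝ) / m) (k + 1)) *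
      (((h.fin X).toFinset.filter (fun t => N t ≤ k)).card : ℝ) ≤ C * (1 + Real.log X) := by
    have h3 : ∀ k ∈ Finset.Ico 1 (⌊X⌋₊ + 1), ((fun m : ℕ => (1 : ℝ) / m) k - (fun m : ℕ => (1 : ℝ) / m) (k + 1)) *
      (((h.fin X).toFinset.filter (fun t => N t ≤ k)).card : ℝ) ≤ C * ((k : ℝ))⁻¹ := by
      intro k hk
      rw [Finset.mem_Ico] at hk
      have hk1 : (1 : ℝ) ≤ (k : ℝ) := by exact_mod_cast hk.1
      have hkX : (k : ℝ) ≤ X := by
        have : (k : ℝ) ≤ (⌊X⌋₊ : ℝ) := by exact_mod_cast (by omega : k ≤ ⌊X⌋₊)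
        linarith
      rw [filter_eq h X k hkX]
      have hc : (cnt P N (k : ℝ) : ℝ) ≤ C * k := by
        have := hup k hk1
        simpa using this
      have e1 : ((fun m : ℕ => (1 : ℝ) / m) k - (fun m : ℕ => (1 : ℝ) / m) (k + 1)) =
          1 / ((k : ℝ) * (k + 1)) := by
        simp only
        push_cast
        field_simp
        ring
      rw [e1]
      calc 1 / ((k : ℝ) * (k + 1)) * (cnt P N (k : ℝ) : ℝ) ≤ 1 / ((k : ℝ) * (k + 1)) * (C * k) :=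
            mul_le_mul_of_nonneg_left hc (by positivity)
        _ = C * (1 / ((k : ℝ) + 1)) := by field_simp
        _ ≤ C * ((k : ℝ))⁻¹ := by
            refine mul_le_mul_of_nonneg_left ?_ hC.le
            rw [← one_div]
            exact one_div_le_one_div_of_le (by linarith) (by linarith)
    refine (Finset.sum_le_sum h3).trans ?_
    rw [← Finset.mul_sum]
    refine mul_le_mul_of_nonneg_left ?_ hC.le
    have h4 : ∑ k ∈ Finset.Ico 1 (⌊X⌋₊ + 1), ((k : ℝ))⁻¹ = ((harmonic ⌊X⌋₊ : ℚ) : ℝ) := by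
      rw [harmonic_eq_sum_Icc]
      push_cast
      rfl
    rw [h4]
    refine (harmonic_le_one_add_log ⌊X⌋₊).trans ?_
    have h5 : Real.log (⌊X⌋₊ : ℝ) ≤ Real.log X :=
      Real.log_le_log (by exact_mod_cast hfl1) hfl
    linarith
  nlinarith

theorem harm_lower (h : CB P N 0) :
    ∃ c : ℝ, 0 < c ∧ ∃ X₀ : ℝ, ∀ X : ℝ, X₀ ≤ X →
      c * Real.log X ≤ ∑ t ∈ (h.fin X).toFinset, (1 : ℝ) / N t := by
  obtain ⟨c, hc, X₀, hlow⟩ := h.lower
  set k₀ : ℕ := ⌈X₀⌉₊ + 1 with hk₀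
  have hk1 : 1 ≤ k₀ := by omega
  have hk1r : (1 : ℝ) ≤ (k₀ : ℝ) := by exact_mod_cast hk1
  refine ⟨c / 2, by positivity, max (k₀ : ℝ) (Real.exp (2 * (1 + Real.log k₀))), ?_⟩
  intro X hX
  have hX1 : (k₀ : ℝ) ≤ X := (le_max_left _ _).trans hX
  have hX2 : Real.exp (2 * (1 + Real.log k₀)) ≤ X := (le_max_right _ _).trans hX
  have hX0 : 0 ≤ X := by linarith
  have hXpos : 0 < X := by linarith
  have hlogX : 2 * (1 + Real.log k₀) ≤ Real.log X := by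
    rw [← Real.log_exp (2 * (1 + Real.log k₀))]
    exact Real.log_le_log (Real.exp_pos _) hX2
  have hab := abel (fun m => (1 : ℝ) / m) (h.fin X).toFinset 1 ⌊X⌋₊ (mem_bd h X hX0)
  rw [hab]
  have hfl : (⌊X⌋₊ : ℝ) ≤ X := Nat.floor_le hX0
  have hflk : k₀ ≤ ⌊X⌋₊ := Nat.le_floor hX1
  have h1 : 0 ≤ (((h.fin X).toFinset.card : ℝ)) * (1 / ((⌊X⌋₊ + 1 : ℕ) : ℝ)) := by positivity
  have e1 : ∀ k : ℕ, 1 ≤ k → ((fun m : ℕ => (1 : ℝ) / m) k - (fun m : ℕ => (1 : ℝ) / m) (k + 1)) =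
      1 / ((k : ℝ) * (k + 1)) := by
    intro k hk
    have : (1 : ℝ) ≤ (k : ℝ) := by exact_mod_cast hk
    simp only
    push_cast
    field_simp
    ring
  have h2 : ∑ k ∈ Finset.Ico k₀ (⌊X⌋₊ + 1), c * ((((k + 1 : ℕ) : ℝ)))⁻¹ ≤
      ∑ k ∈ Finset.Ico 1 (⌊X⌋₊ + 1), ((fun m : ℕ => (1 : ℝ) / m) k - (fun m : ℕ => (1 : ℝ) / m) (k + 1)) *
      (((h.fin X).toFinset.filter (fun t => N t ≤ k)).card : ℝ) := by
    have hsub : Finset.Ico k₀ (⌊X⌋₊ + 1) ⊆ Finset.Ico 1 (⌊X⌋₊ + 1) := by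
      apply Finset.Ico_subset_Ico_left hk1
    refine le_trans (Finset.sum_le_sum ?_) (Finset.sum_le_sum_of_subset_of_nonneg hsub ?_)
    · intro k hk
      rw [Finset.mem_Ico] at hk
      have hkk : 1 ≤ k := by omega
      have hk1' : (1 : ℝ) ≤ (k : ℝ) := by exact_mod_cast hkk
      have hkX : (k : ℝ) ≤ X := by
        have : (k : ℝ) ≤ (⌊X⌋₊ : ℝ) := by exact_mod_cast (by omega : k ≤ ⌊X⌋₊)
        linarith
      rw [filter_eq h X k hkX, e1 k hkk]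
      have hkX0 : X₀ ≤ (k : ℝ) := by
        refine (Nat.le_ceil X₀).trans ?_
        exact_mod_cast (by omega : ⌈X₀⌉₊ ≤ k)
      have hc' : c * k ≤ (cnt P N (k : ℝ) : ℝ) := by
        have := hlow k hkX0
        simpa using this
      calc c * ((((k + 1 : ℕ) : ℝ)))⁻¹ = 1 / ((k : ℝ) * (k + 1)) * (c * k) := by
            push_cast
            field_simp
        _ ≤ _ := mul_le_mul_of_nonneg_left hc' (by positivity)
    · intro k hk _
      rw [Finset.mem_Ico] at hk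
      rw [e1 k hk.1]
      positivity
  have h3 : ∑ k ∈ Finset.Ico k₀ (⌊X⌋₊ + 1), ((((k + 1 : ℕ) : ℝ)))⁻¹ =
      ((harmonic (⌊X⌋₊ + 1) : ℚ) : ℝ) - ((harmonic k₀ : ℚ) : ℝ) := by
    unfold harmonic
    push_cast
    rw [Finset.sum_Ico_eq_sub _ (by omega : k₀ ≤ ⌊X⌋₊ + 1)]
  rw [← Finset.mul_sum, h3] at h2
  have h4 : Real.log X ≤ ((harmonic (⌊X⌋₊ + 1) : ℚ) : ℝ) := by
    refine le_trans ?_ (log_add_one_le_harmonic (⌊X⌋₊ + 1))
    refine Real.log_le_log hXpos ?_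
    have := (Nat.lt_floor_add_one X).le
    push_cast
    linarith
  have h5 : ((harmonic k₀ : ℚ) : ℝ) ≤ 1 + Real.log k₀ := harmonic_le_one_add_log k₀
  have h6 : c / 2 * Real.log X ≤ c * (((harmonic (⌊X⌋₊ + 1) : ℚ) : ℝ) - ((harmonic k₀ : ℚ) : ℝ)) := by
    nlinarith
  linarith

theorem sq_tail (h : CB P N 0) :
    ∃ C : ℝ, 0 < C ∧ ∀ z : ℝ, 1 ≤ z → ∀ s : Finset T, (∀ t ∈ s, P t ∧ z < (N t : ℝ)) →
      ∑ t ∈ s, (1 : ℝ) / (N t : ℝ) ^ 2 ≤ C / z := by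
  obtain ⟨C, hC, hup⟩ := h.upper
  refine ⟨3 * C, by positivity, ?_⟩
  intro z hz s hs
  have hz0 : 0 < z := by linarith
  rcases s.eq_empty_or_nonempty with hse | hse
  · subst hse
    simp only [Finset.sum_empty]
    positivity
  set Y : ℕ := s.sup N with hY
  set a : ℕ := ⌊z⌋₊ + 1 with ha
  have hbd : ∀ t ∈ s, a ≤ N t ∧ N t ≤ Y := by
    intro t ht
    refine ⟨?_, Finset.le_sup ht⟩
    have := (hs t ht).2
    have : ⌊z⌋₊ < N t := (Nat.floor_lt hz0.le).2 this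
    omega
  obtain ⟨t0, ht0⟩ := hse
  have haY : a ≤ Y := (hbd t0 ht0).1.trans (hbd t0 ht0).2
  have hza : z < (a : ℝ) := by
    rw [ha]
    push_cast
    exact Nat.lt_floor_add_one z
  have ha1 : 1 ≤ a := by omega
  have hY1 : 1 ≤ Y := ha1.trans haY
  have hYr : (1 : ℝ) ≤ (Y : ℝ) := by exact_mod_cast hY1
  have hcard : ∀ k : ℕ, 1 ≤ k → ((s.filter (fun t => N t ≤ k)).card : ℝ) ≤ C * k := by
    intro k hk
    have h1 : ((s.filter (fun t => N t ≤ k)).card : ℝ) ≤ (cnt P N (k : ℝ) : ℝ) := by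
      exact_mod_cast filter_le h s (fun t ht => (hs t ht).1) k
    have h2 := hup (k : ℝ) (by exact_mod_cast hk)
    refine h1.trans ?_
    simpa using h2
  have hab := abel (fun m => (1 : ℝ) / (m : ℝ) ^ 2) s a Y hbd
  rw [hab]
  have hall : s.filter (fun t => N t ≤ Y) = s := by
    apply Finset.filter_true_of_mem
    exact fun t ht => (hbd t ht).2
  have h1 : (s.card : ℝ) * (1 / (((Y + 1 : ℕ) : ℝ)) ^ 2) ≤ C / z := by
    have h2 := hcard Y hY1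
    rw [hall] at h2
    have hzY : z ≤ (Y : ℝ) := by
      have : (a : ℝ) ≤ (Y : ℝ) := by exact_mod_cast haY
      linarith
    push_cast
    rw [mul_one_div, div_le_div_iff₀ (by positivity) hz0]
    have h3 : (s.card : ℝ) * z ≤ C * Y * Y := by
      calc (s.card : ℝ) * z ≤ (C * Y) * Y :=
            mul_le_mul h2 hzY hz0.le (by positivity)
        _ = C * Y * Y := rfl
    nlinarith [mul_pos hC (by linarith : (0:ℝ) < (Y : ℝ))]
  have h2 : ∑ k ∈ Finset.Ico a (Y + 1), ((fun m : ℕ => (1 : ℝ) / (m : ℝ) ^ 2) k -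
      (fun m : ℕ => (1 : ℝ) / (m : ℝ) ^ 2) (k + 1)) * ((s.filter (fun t => N t ≤ k)).card : ℝ) ≤
      ∑ k ∈ Finset.Ico a (Y + 1), (2 * C) * ((fun m : ℕ => (1 : ℝ) / m) k - (fun m : ℕ => (1 : ℝ) / m) (k + 1)) := by
    refine Finset.sum_le_sum fun k hk => ?_
    rw [Finset.mem_Ico] at hk
    have hk1 : 1 ≤ k := ha1.trans hk.1
    have hkr : (1 : ℝ) ≤ (k : ℝ) := by exact_mod_cast hk1
    have e1 : ((fun m : ℕ => (1 : ℝ) / (m : ℝ) ^ 2) k - (fun m : ℕ => (1 : ℝ) / (m : ℝ) ^ 2) (k + 1)) =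
        (2 * k + 1) / ((k : ℝ) ^ 2 * (k + 1) ^ 2) := by
      simp only
      push_cast
      field_simp
      ring
    have e2 : ((fun m : ℕ => (1 : ℝ) / m) k - (fun m : ℕ => (1 : ℝ) / m) (k + 1)) =
        1 / ((k : ℝ) * (k + 1)) := by
      simp only
      push_cast
      field_simp
      ring
    rw [e1, e2]
    calc (2 * k + 1) / ((k : ℝ) ^ 2 * (k + 1) ^ 2) * ((s.filter (fun t => N t ≤ k)).card : ℝ)
        ≤ (2 * k + 1) / ((k : ℝ) ^ 2 * (k + 1) ^ 2) * (C * k) :=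
          mul_le_mul_of_nonneg_left (hcard k hk1) (by positivity)
      _ = C * ((2 * k + 1) / ((k + 1))) * (1 / ((k : ℝ) * (k + 1))) := by field_simp
      _ ≤ C * 2 * (1 / ((k : ℝ) * (k + 1))) := by
          refine mul_le_mul_of_nonneg_right ?_ (by positivity)
          refine mul_le_mul_of_nonneg_left ?_ hC.le
          rw [div_le_iff₀ (by positivity)]
          linarith
      _ = (2 * C) * (1 / ((k : ℝ) * (k + 1))) := by ring
  have h3 : ∑ k ∈ Finset.Ico a (Y + 1), (2 * C) * ((fun m : ℕ => (1 : ℝ) / m) k - (fun m : ℕ => (1 : ℝ) / m) (k + 1)) ≤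
      2 * (C / z) := by
    rw [← Finset.mul_sum, tele (fun m : ℕ => (1 : ℝ) / m) a (Y + 1) (by omega)]
    have h4 : (1 : ℝ) / (a : ℝ) ≤ 1 / z := one_div_le_one_div_of_le hz0 hza.le
    have h5 : (0 : ℝ) ≤ 1 / ((Y + 1 : ℕ) : ℝ) := by positivity
    calc 2 * C * ((fun m : ℕ => (1 : ℝ) / m) a - (fun m : ℕ => (1 : ℝ) / m) (Y + 1)) ≤ 2 * C * (1 / z) := by
          refine mul_le_mul_of_nonneg_left ?_ (by positivity)
          simp only
          linarith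
      _ = 2 * (C / z) := by ring
  have h4 : 3 * C / z = C / z + 2 * (C / z) := by ring
  rw [h4]
  exact add_le_add h1 (h2.trans h3)

end H38.ML
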