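import Pool.Agent.H38.ML.CB

/-!
# [H38 ML IDEALCOUNT] Counting ideals (30-60 lines)

Mathlib: `NumberField.Ideal.tendsto_norm_le_div_atTop₀`: the number of nonzero ideals of norm `≤ s`
divided by `s` has a positive limit; finiteness: `Ideal.finite_setOf_absNorm_le` and variants (look
into the proof of that theorem).  Lower bound: immediate.  Upper bound: for `X ≥ X₁` from the limit,
for `1 ≤ X ≤ X₁` by monotonicity (`cnt ≤ cnt(X₁) ≤ cnt(X₁) * X`).  Transport the count from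
`(Ideal (𝓞 F))⁰` to ideals `≠ ⊥`.  `Ideal.absNorm I > 0` for `I ≠ ⊥`.
-/

open scoped NumberField

namespace H38.ML

theorem cb_ideals (F : Type) [Field F] [NumberField F] :
    CB (fun I : Ideal (𝓞 F) => I ≠ ⊥) (fun I => Ideal.absNorm I) 0 := by
  classical
  have hfin : ∀ X : ℝ, {I : Ideal (𝓞 F) | I ≠ ⊥ ∧ ((Ideal.absNorm I : ℕ) : ℝ) ≤ X}.Finite := by
    intro X
    refine (Ideal.finite_setOfPred_absNorm_le (S := 𝓞 F) ⌊X⌋₊).subset ?_
    rintro I ⟨_, h2⟩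
    exact Nat.le_floor h2
  have hcnt : ∀ X : ℝ, cnt (fun I : Ideal (𝓞 F) => I ≠ ⊥) (fun I => Ideal.absNorm I) X =
      Nat.card {I : nonZeroDivisors (Ideal (𝓞 F)) // ((Ideal.absNorm (I : Ideal (𝓞 F)) : ℕ) : ℝ) ≤ X} := by
    intro X
    unfold cnt
    refine Nat.card_congr ?_
    refine
      { toFun := fun I => ⟨⟨I.1, mem_nonZeroDivisors_iff_ne_zero.2 I.2.1⟩, I.2.2⟩
        invFun := fun I => ⟨I.1.1, nonZeroDivisors.coe_ne_zero I.1, I.2⟩
        left_inv := fun I => rfl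
        right_inv := fun I => rfl }
  have hmono : ∀ X Y : ℝ, X ≤ Y →
      cnt (fun I : Ideal (𝓞 F) => I ≠ ⊥) (fun I => Ideal.absNorm I) X ≤
        cnt (fun I : Ideal (𝓞 F) => I ≠ ⊥) (fun I => Ideal.absNorm I) Y := by
    intro X Y hXY
    unfold cnt
    haveI : Finite {t : Ideal (𝓞 F) // t ≠ ⊥ ∧ ((Ideal.absNorm t : ℕ) : ℝ) ≤ Y} := (hfin Y).to_subtype
    refine Nat.card_le_card_of_injective
      (fun I => ⟨I.1, I.2.1, I.2.2.trans hXY⟩ :
        {t : Ideal (𝓞 F) // t ≠ ⊥ ∧ ((Ideal.absNorm t : ℕ) : ℝ) ≤ X} →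
        {t : Ideal (𝓞 F) // t ≠ ⊥ ∧ ((Ideal.absNorm t : ℕ) : ℝ) ≤ Y}) ?_
    intro a b h
    exact Subtype.ext (congrArg (fun z => z.1) h)
  obtain ⟨κ, hκ, hlim⟩ : ∃ κ : ℝ, 0 < κ ∧ Filter.Tendsto (fun s : ℝ ↦
      (Nat.card {I : nonZeroDivisors (Ideal (𝓞 F)) // ((Ideal.absNorm (I : Ideal (𝓞 F)) : ℕ) : ℝ) ≤ s} : ℝ) / s)
        Filter.atTop (nhds κ) := by
    refine ⟨_, ?_, NumberField.Ideal.tendsto_norm_le_div_atTop₀ F⟩
    have h1 : 0 < NumberField.Units.regulator F := NumberField.Units.regulator_pos F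
    have h2 : 0 < NumberField.classNumber F := Fintype.card_pos
    have h3 : 0 < NumberField.Units.torsionOrder F := Nat.pos_of_ne_zero
      (NumberField.Units.torsionOrder_ne_zero F)
    have h4 : 0 < Real.sqrt |(NumberField.discr F : ℝ)| := by
      apply Real.sqrt_pos.2
      have := NumberField.discr_ne_zero F
      have h5 : ((NumberField.discr F : ℤ) : ℝ) ≠ 0 := by exact_mod_cast this
      exact abs_pos.2 h5
    have h2' : (0 : ℝ) < NumberField.classNumber F := by exact_mod_cast h2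
    have h3' : (0 : ℝ) < NumberField.Units.torsionOrder F := by exact_mod_cast h3
    have h6 := Real.pi_pos
    positivity
  have hup : ∃ X₁ : ℝ, 1 ≤ X₁ ∧ ∀ X : ℝ, X₁ ≤ X →
      (cnt (fun I : Ideal (𝓞 F) => I ≠ ⊥) (fun I => Ideal.absNorm I) X : ℝ) ≤ (κ + 1) * X ∧
      (κ / 2) * X ≤ (cnt (fun I : Ideal (𝓞 F) => I ≠ ⊥) (fun I => Ideal.absNorm I) X : ℝ) := by
    have e1 := hlim.eventually (eventually_le_nhds (show κ < κ + 1 by linarith))
    have e2 := hlim.eventually (eventually_ge_nhds (show κ / 2 < κ by linarith))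
    have e3 := (e1.and e2).and (Filter.eventually_ge_atTop (1 : ℝ))
    obtain ⟨X₁, hX₁⟩ := Filter.eventually_atTop.1 e3
    refine ⟨max X₁ 1, le_max_right _ _, fun X hX => ?_⟩
    obtain ⟨⟨ha, hb⟩, hc⟩ := hX₁ X ((le_max_left _ _).trans hX)
    have hX0 : 0 < X := by linarith
    rw [hcnt]
    exact ⟨(div_le_iff₀ hX0).1 ha, (le_div_iff₀ hX0).1 hb⟩
  obtain ⟨X₁, hX₁, hX⟩ := hup
  refine ⟨?_, hfin, ?_, ?_⟩
  · intro I hI
    exact Nat.pos_of_ne_zero (fun h => hI (Ideal.absNorm_eq_zero_iff.1 h))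
  · refine ⟨(κ + 1) + cnt (fun I : Ideal (𝓞 F) => I ≠ ⊥) (fun I => Ideal.absNorm I) X₁, by positivity,
      fun X h1 => ?_⟩
    rw [pow_zero, mul_one]
    set c1 : ℝ := (cnt (fun I : Ideal (𝓞 F) => I ≠ ⊥) (fun I => Ideal.absNorm I) X₁ : ℝ) with hc1
    have hc1' : 0 ≤ c1 := Nat.cast_nonneg _
    rcases le_total X₁ X with h | h
    · have := (hX X h).1
      nlinarith
    · have h2 : (cnt (fun I : Ideal (𝓞 F) => I ≠ ⊥) (fun I => Ideal.absNorm I) X : ℝ) ≤ c1 := by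
        rw [hc1]; exact Nat.cast_le.2 (hmono X X₁ h)
      nlinarith
  · refine ⟨κ / 2, by positivity, X₁, fun X h => ?_⟩
    rw [pow_zero, mul_one]
    exact (hX X h).2

end H38.ML
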