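import Pool.Agent.H38.ML.UnrFin

/-!
# [H38 ML SPLIT] Primes of `K` that split completely in `M` (80-140 lines)

Claim: for every finite set `S` of primes of `K` there is a nonzero prime `v ∉ S` of `K` such that
all decomposition groups in `Gal(M/K)` above `v` are trivial.

Proof.  Choose `θ : 𝓞 M` with `σ • θ ≠ θ` for all `σ ≠ 1` (an integral multiple of a primitive
element), `f = minpoly ℤ θ`, `δ = ∏_{σ ≠ 1} (σ • θ - θ) ≠ 0`.
(a) For `N ≠ 0` there are a prime `p ∤ N` and an integer `a` with `p ∣ f(a)`: if `c = f(0) ≠ 0`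
then `f(c N k) = c (1 + N ..)` is not `± c` for some `k`.
(b) There is a prime `Q` of `𝓞 M` containing `p` and `θ - a`: lying over for `ℤ[X] → 𝓞 M`,
`X ↦ θ`, and the kernel of `ℤ[X] → ZMod p`, `X ↦ a`.
(c) If `p` does not divide the norm of `δ` then `δ ∉ Q`. If `σ • Q = Q` then `σ • θ - a ∈ Q`, so
`σ • θ - θ ∈ Q`, so `σ = 1`. The other primes above `v = Q.under (𝓞 K)` are conjugate to `Q`.
-/

open scoped NumberField Pointwise

namespace H38.ML

open Polynomial in
private theorem exists_prime_dvd_eval (f : ℤ[X]) (hf : 0 < f.natDegree) (N : ℤ) (hN : N ≠ 0) :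
    ∃ (p : ℕ) (a : ℤ), p.Prime ∧ ¬ (p : ℤ) ∣ N ∧ (p : ℤ) ∣ f.eval a := by
  by_cases hc : f.eval 0 = 0
  · obtain ⟨p, hp, hpp⟩ := Nat.exists_infinite_primes (N.natAbs + 1)
    refine ⟨p, 0, hpp, fun h => ?_, by rw [hc]; exact dvd_zero _⟩
    have h1 := Int.le_of_dvd (Int.natAbs_pos.2 hN |> fun h => by exact_mod_cast h)
      (Int.dvd_natAbs.2 h)
    have h2 : p ≤ N.natAbs := by exact_mod_cast h1
    omega
  · set c := f.eval 0 with hcdef
    -- finitely many arguments with value `± c`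
    have hfin : {x : ℤ | f.eval x = c ∨ f.eval x = -c}.Finite := by
      have h1 : ∀ d : ℤ, {x : ℤ | f.eval x = d}.Finite := by
        intro d
        have hne : f - C d ≠ 0 := by
          intro h
          have : f = C d := sub_eq_zero.1 h
          rw [this, natDegree_C] at hf
          exact lt_irrefl _ hf
        refine (f - C d).roots.toFinset.finite_toSet.subset fun x hx => ?_
        have hx' : f.eval x = d := hx
        simp only [Finset.mem_coe, Multiset.mem_toFinset, mem_roots', ne_eq, IsRoot.def,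
          eval_sub, eval_C]
        exact ⟨hne, by rw [hx', sub_self]⟩
      exact (h1 c).union (h1 (-c))
    have hinj : Function.Injective (fun k : ℤ => c * N * k) := by
      intro k l hkl
      exact mul_left_cancel₀ (mul_ne_zero hc hN) hkl
    have hinf : (Set.range (fun k : ℤ => c * N * k)).Infinite := Set.infinite_range_of_injective hinj
    obtain ⟨x, ⟨k, rfl⟩, hx⟩ := hinf.exists_notMem_finite hfin
    simp only [Set.mem_ofPred_eq, not_or] at hx
    obtain ⟨h, hh⟩ := sub_dvd_eval_sub (c * N * k) 0 f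
    have hval : f.eval (c * N * k) = c * (1 + N * (k * h)) := by
      have : f.eval (c * N * k) = c + (c * N * k - 0) * h := by rw [← hh]; ring
      rw [this]; ring
    have hu : (1 + N * (k * h)).natAbs ≠ 1 := by
      intro hu
      rcases Int.natAbs_eq (1 + N * (k * h)) with h1 | h1
      · rw [hu] at h1
        apply hx.1
        change f.eval (c * N * k) = c
        rw [hval, h1]; simp
      · rw [hu] at h1
        apply hx.2
        change f.eval (c * N * k) = -c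
        rw [hval, h1]; simp
    obtain ⟨p, hp, hpd⟩ := Int.exists_prime_and_dvd hu
    refine ⟨p.natAbs, c * N * k, Int.prime_iff_natAbs_prime.1 hp, fun hpN => ?_, ?_⟩
    · rw [Int.natAbs_dvd] at hpN
      have h1 : p ∣ 1 := by
        have := dvd_sub hpd (hpN.mul_right (k * h))
        simpa using this
      exact hp.not_unit (isUnit_of_dvd_one h1)
    · rw [Int.natAbs_dvd, hval]
      exact hpd.mul_left c

private theorem exists_theta (K M : Type) [Field K] [NumberField K] [Field M] [NumberField M]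
    [Algebra K M] [IsGalois K M] : ∃ θ : 𝓞 M, ∀ σ : Gal(M/K), σ • θ = θ → σ = 1 := by
  obtain ⟨α, hα⟩ := Field.exists_primitive_element K M
  obtain ⟨y, hy, hint⟩ := IsAlgebraic.exists_integral_multiple
    (R := ℤ) ((IsFractionRing.isAlgebraic_iff ℤ ℚ M).2
      (Algebra.IsAlgebraic.isAlgebraic (R := ℚ) α))
  refine ⟨⟨y • α, hint⟩, fun σ hσ => ?_⟩
  have h1 : σ (y • α) = y • α := congrArg (fun z : 𝓞 M => (z : M)) hσ
  have h2 : σ α = α := by
    rw [map_zsmul] at h1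
    have h3 : (y : M) * σ α = (y : M) * α := by simpa [zsmul_eq_mul] using h1
    exact mul_left_cancel₀ (by exact_mod_cast hy) h3
  have hle : (⊤ : IntermediateField K M) ≤
      IntermediateField.fixedField (Subgroup.zpowers σ) := by
    rw [← hα, IntermediateField.adjoin_simple_le_iff, IntermediateField.mem_fixedField_iff]
    intro g hg
    obtain ⟨n, rfl⟩ := hg
    have h5 : σ ∈ MulAction.stabilizer Gal(M/K) α := h2
    exact Subgroup.zpow_mem _ h5 n
  ext x
  have hx := hle (IntermediateField.mem_top (x := x))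
  rw [IntermediateField.mem_fixedField_iff] at hx
  exact hx σ (Subgroup.mem_zpowers σ)

open Polynomial in
private theorem exists_prime_over (M : Type) [Field M] [NumberField M] (θ : 𝓞 M) (p : ℕ)
    (hp : p.Prime) (a : ℤ) (ha : (p : ℤ) ∣ (minpoly ℤ θ).eval a) :
    ∃ Q : Ideal (𝓞 M), Q.IsPrime ∧ (p : 𝓞 M) ∈ Q ∧ θ - (a : 𝓞 M) ∈ Q := by
  have : Fact p.Prime := ⟨hp⟩
  letI : Algebra ℤ[X] (𝓞 M) := (aeval θ : ℤ[X] →ₐ[ℤ] 𝓞 M).toRingHom.toAlgebra
  have hmap : ∀ g : ℤ[X], algebraMap ℤ[X] (𝓞 M) g = aeval θ g := fun g => rfl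
  have : IsScalarTower ℤ ℤ[X] (𝓞 M) := IsScalarTower.of_algebraMap_eq fun n => by
    rw [hmap]; simp
  have : Algebra.IsIntegral ℤ[X] (𝓞 M) := Algebra.IsIntegral.tower_top (R := ℤ)
  let ψ : ℤ[X] →+* ZMod p := (Int.castRingHom (ZMod p)).comp (evalRingHom a)
  have hψ : ∀ g : ℤ[X], g ∈ RingHom.ker ψ ↔ (p : ℤ) ∣ g.eval a := by
    intro g
    rw [RingHom.mem_ker]
    change (Int.castRingHom (ZMod p)) (g.eval a) = 0 ↔ _
    rw [eq_intCast, ZMod.intCast_zmod_eq_zero_iff_dvd]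
  have hker : RingHom.ker (algebraMap ℤ[X] (𝓞 M)) ≤ RingHom.ker ψ := by
    intro g hg
    rw [RingHom.mem_ker, hmap] at hg
    rw [hψ]
    have h1 : minpoly ℤ θ ∣ g := minpoly.isIntegrallyClosed_dvd (Algebra.IsIntegral.isIntegral θ) hg
    obtain ⟨h, rfl⟩ := h1
    rw [eval_mul]
    exact ha.mul_right _
  have hprime : (RingHom.ker ψ).IsPrime := RingHom.ker_isPrime ψ
  obtain ⟨Q, hQ, hQP⟩ := Ideal.exists_ideal_over_prime_of_isIntegral_of_isDomain
    (R := ℤ[X]) (S := 𝓞 M) (RingHom.ker ψ) hker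
  refine ⟨Q, hQ, ?_, ?_⟩
  · have h1 : (C (p : ℤ) : ℤ[X]) ∈ RingHom.ker ψ := by rw [hψ, eval_C]
    rw [← hQP, Ideal.mem_comap, hmap] at h1
    simpa using h1
  · have h1 : (X - C a : ℤ[X]) ∈ RingHom.ker ψ := by
      rw [hψ, eval_sub, eval_X, eval_C, sub_self]; exact dvd_zero _
    rw [← hQP, Ideal.mem_comap, hmap] at h1
    simpa using h1

private theorem not_mem_of_not_dvd {R : Type} [CommRing R] (P : Ideal R) (hP : P ≠ ⊤) (p N : ℕ)
    (hp : p.Prime) (hpN : ¬ p ∣ N) (h1 : (p : R) ∈ P) : (N : R) ∉ P := by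
  intro h2
  have hcop : IsCoprime (p : ℤ) (N : ℤ) := by
    rw [Nat.isCoprime_iff_coprime]
    exact (Nat.Prime.coprime_iff_not_dvd hp).2 hpN
  obtain ⟨u, v, huv⟩ := hcop
  apply hP
  rw [Ideal.eq_top_iff_one]
  have h3 : ((u * p + v * N : ℤ) : R) = 1 := by rw [huv]; simp
  rw [← h3]
  push_cast
  exact Ideal.add_mem _ (Ideal.mul_mem_left _ _ h1) (Ideal.mul_mem_left _ _ h2)

theorem exists_split (K M : Type) [Field K] [NumberField K] [Field M] [NumberField M]
    [Algebra K M] [IsGalois K M] (S : Set (Ideal (𝓞 K))) (hS : S.Finite) :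
    ∃ v : Ideal (𝓞 K), v.IsPrime ∧ v ≠ ⊥ ∧ v ∉ S ∧
      ∀ Q : Ideal (𝓞 M), Q.IsPrime → Q.under (𝓞 K) = v →
        MulAction.stabilizer Gal(M/K) Q = ⊥ := by
  classical
  obtain ⟨θ, hθ⟩ := exists_theta K M
  -- the element δ and its norm
  set δ : 𝓞 M := ∏ σ ∈ (Finset.univ : Finset Gal(M/K)).erase 1, (σ • θ - θ) with hδ
  have hδ0 : δ ≠ 0 := by
    rw [hδ, Finset.prod_ne_zero_iff]
    intro σ hσ h0
    exact (Finset.ne_of_mem_erase hσ) (hθ σ (sub_eq_zero.1 h0))
  set d₁ : ℕ := Ideal.absNorm (Ideal.span {δ}) with hd₁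
  have hd₁0 : d₁ ≠ 0 := by
    rw [hd₁, Ne, Ideal.absNorm_eq_zero_iff, Ideal.span_singleton_eq_bot]
    exact hδ0
  set d₂ : ℕ := ∏ v ∈ hS.toFinset.erase ⊥, Ideal.absNorm v with hd₂
  have hd₂0 : d₂ ≠ 0 := by
    rw [hd₂, Finset.prod_ne_zero_iff]
    intro v hv
    rw [Ne, Ideal.absNorm_eq_zero_iff]
    exact Finset.ne_of_mem_erase hv
  have hdeg : 0 < (minpoly ℤ θ).natDegree := minpoly.natDegree_pos (Algebra.IsIntegral.isIntegral θ)
  obtain ⟨p, a, hp, hpN, hpa⟩ := exists_prime_dvd_eval (minpoly ℤ θ) hdeg ((d₁ * d₂ : ℕ) : ℤ)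
    (by exact_mod_cast mul_ne_zero hd₁0 hd₂0)
  have hpN' : ¬ p ∣ d₁ * d₂ := by exact_mod_cast hpN
  have hp1 : ¬ p ∣ d₁ := fun h => hpN' (h.mul_right _)
  obtain ⟨Q, hQ, hpQ, hθQ⟩ := exists_prime_over M θ p hp a hpa
  have hpv : ((p : ℕ) : 𝓞 K) ∈ Q.under (𝓞 K) := by
    rw [Ideal.under_def, Ideal.mem_comap, map_natCast]
    exact hpQ
  have hvp : (Q.under (𝓞 K)).IsPrime := hQ.under (𝓞 K)
  refine ⟨Q.under (𝓞 K), hvp, ?_, ?_, ?_⟩
  · intro h
    rw [h, Ideal.mem_bot] at hpv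
    exact hp.ne_zero (by exact_mod_cast hpv)
  · intro hv
    have hne : Q.under (𝓞 K) ≠ ⊥ := by
      intro h
      rw [h, Ideal.mem_bot] at hpv
      exact hp.ne_zero (by exact_mod_cast hpv)
    have h1 : Ideal.absNorm (Q.under (𝓞 K)) ∣ d₂ :=
      Finset.dvd_prod_of_mem _ (Finset.mem_erase.2 ⟨hne, hS.mem_toFinset.2 hv⟩)
    have h2 : ¬ p ∣ Ideal.absNorm (Q.under (𝓞 K)) := fun h =>
      hpN' ((h.trans h1).mul_left _)
    exact not_mem_of_not_dvd (Q.under (𝓞 K)) hvp.ne_top p _ hp h2 hpv (Ideal.absNorm_mem _)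
  · intro Q' hQ' hQQ'
    obtain ⟨τ, rfl⟩ := Algebra.IsInvariant.exists_smul_of_under_eq (𝓞 K) (𝓞 M) Gal(M/K) Q Q'
      hQQ'.symm
    have key : ∀ σ : Gal(M/K), σ • Q = Q → σ = 1 := by
      intro σ hσ
      by_contra hne
      have h1 : σ • (θ - (a : 𝓞 M)) ∈ Q := by
        have := Ideal.smul_mem_pointwise_smul σ _ Q hθQ
        rwa [hσ] at this
      have h2 : σ • θ - θ ∈ Q := by
        have h3 : σ • (θ - (a : 𝓞 M)) = σ • θ - a := by
          rw [smul_sub]
          congr 1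
          exact map_intCast (MulSemiringAction.toRingHom Gal(M/K) (𝓞 M) σ) a
        rw [h3] at h1
        have h4 := Q.sub_mem h1 hθQ
        have h5 : σ • θ - (a : 𝓞 M) - (θ - a) = σ • θ - θ := by ring
        rwa [h5] at h4
      have h6 : δ ∈ Q := by
        have : σ • θ - θ ∣ δ :=
          Finset.dvd_prod_of_mem _ (Finset.mem_erase.2 ⟨hne, Finset.mem_univ _⟩)
        exact Q.mem_of_dvd this h2
      have h7 : ((d₁ : ℕ) : 𝓞 M) ∈ Q :=
        (Ideal.span_singleton_le_iff_mem Q).2 h6 (Ideal.absNorm_mem _)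
      exact not_mem_of_not_dvd Q hQ.ne_top p d₁ hp hp1 hpQ h7
    rw [eq_bot_iff]
    intro σ hσ
    rw [MulAction.mem_stabilizer_iff] at hσ
    have h1 : (τ⁻¹ * σ * τ) • Q = Q := by
      rw [mul_smul, mul_smul, hσ, inv_smul_smul]
    have h2 := key _ h1
    rw [Subgroup.mem_bot]
    have h3 : σ = τ * (τ⁻¹ * σ * τ) * τ⁻¹ := by group
    rw [h3, h2]
    group

end H38.ML
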