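import Pool.Agent.H38.ML.Basic

/-!
# [H38 ML CLSREP] Representatives of the ideal classes (20-40 lines)

The class group of a number field is finite (`NumberField.RingOfIntegers.instFintypeClassGroup` or
similar).  For every class `C` choose a nonzero integral ideal `J_C` in the class `C⁻¹`
(`ClassGroup.mk0_surjective`), `R = {J_C}`.  For `I ≠ ⊥` take `J = J_C` with `C` the class of `I`:
`I * J` is principal (`ClassGroup.mk0_eq_one_iff`), with nonzero generator.
-/

open scoped NumberField Pointwise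

namespace H38.ML

theorem exists_classRep (F : Type) [Field F] [NumberField F] :
    ∃ R : Finset (Ideal (𝓞 F)), (∀ J ∈ R, J ≠ ⊥) ∧ ∀ I : Ideal (𝓞 F), I ≠ ⊥ →
      ∃ J ∈ R, ∃ x : 𝓞 F, x ≠ 0 ∧ Ideal.span {x} = I * J := by
  classical
  choose g hg using (ClassGroup.mk0_surjective (R := 𝓞 F))
  refine ⟨Finset.univ.image fun C : ClassGroup (𝓞 F) => ((g C : Ideal (𝓞 F))), ?_, ?_⟩
  · intro J hJ
    obtain ⟨C, -, rfl⟩ := Finset.mem_image.mp hJ
    exact nonZeroDivisors.coe_ne_zero (g C)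
  · intro I hI
    have hI' : I ∈ nonZeroDivisors (Ideal (𝓞 F)) := mem_nonZeroDivisors_iff_ne_zero.mpr hI
    set C := (ClassGroup.mk0 ⟨I, hI'⟩)⁻¹ with hC
    refine ⟨g C, Finset.mem_image.mpr ⟨C, Finset.mem_univ _, rfl⟩, ?_⟩
    have h1 : ClassGroup.mk0 (⟨I, hI'⟩ * g C) = 1 := by
      rw [map_mul, hg C, hC, mul_inv_cancel]
    rw [ClassGroup.mk0_eq_one_iff] at h1
    obtain ⟨x, hx⟩ := h1
    have hx' : I * (g C : Ideal (𝓞 F)) = Ideal.span {x} := hx
    refine ⟨x, ?_, hx'.symm⟩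
    rintro rfl
    have h2 : I * (g C : Ideal (𝓞 F)) = ⊥ := by rw [hx']; simp
    rcases Ideal.mul_eq_bot.mp h2 with h3 | h3
    · exact hI h3
    · exact nonZeroDivisors.coe_ne_zero (g C) h3

end H38.ML
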