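import Pool.Agent.H38.ML.Factor

/-!
# [H38 ML KUMEX] The Kummer cocycle and its twist (100-150 lines)

Write `z = algebraMap K Ω ζ`, `σ̄ = res M σ`.

1. Roots: `Ω` is algebraically closed, choose `β x` with `β x ^ q = (α x : Ω)`
   (`IsAlgClosed.exists_pow_nat_eq`); `β x ≠ 0`.
2. Exponents: `(σ (β x)) ^ q = σ (α x) = (σ̄ (α x) : Ω) = (α (σ̄ • x) : Ω) = (β (σ̄ • x)) ^ q`, so the
   quotient is a `q`-th root of unity, a power `z ^ k`, `k < q`, of the primitive root `z`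
   (`IsPrimitiveRoot.eq_pow_of_pow_eq_one`).  Choose `κ σ x := k`.
3. Cocycle: `σ (τ (β x)) = σ (z ^ κ τ x * β (τ̄ x)) = z ^ (κ τ x + κ σ (τ̄ x)) * β (σ̄ τ̄ x)`, so
   `κ (στ) x ≡ κ τ x + κ σ (τ̄ x) mod q` (`IsPrimitiveRoot.pow_inj`-type lemma, `β ≠ 0`).
   With `c σ = ∏ x, a (σ̄ x) ^ κ σ x` and `a ^ q = 1`:
   `c (στ) = ∏ x, a (σ̄τ̄x) ^ κ τ x * ∏ x, a (σ̄ τ̄ x) ^ κ σ (τ̄ x)`.  The second product is `c σ`
   (reindex by `x ↦ τ̄ x`, a bijection of `X`), and
   `j (a (σ̄ (τ̄ x))) = ρb σ̄ * j (a (τ̄ x)) * (ρb σ̄)⁻¹`, so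
   `j (∏ x, a (σ̄τ̄x) ^ κ τ x) = ρb σ̄ * j (c τ) * (ρb σ̄)⁻¹` (`map_prod`-like induction or: both sides
   are values of homomorphisms `∏`; conjugation is a homomorphism of `H`, use
   `MulAut.conj` and a short `Finset.induction_on`).
   So `ρ σ := j (c σ) * ρb σ̄` satisfies `ρ (στ) = ρ σ * ρ τ`; `MonoidHom.mk'`.
4. Finite type: let `E = M ⊔ adjoin K {β x}`, finite dimensional (finitely many algebraic elements,
   `IntermediateField.finiteDimensional_adjoin`, `finiteDimensional_sup`).  `σ` fixing `E` has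
   `σ̄ = 1` and `σ (β x) = β x`, so `z ^ κ σ x = 1`, `q ∣ κ σ x`, `a (..) ^ κ σ x = 1`, `ρ σ = 1`.
-/

open scoped NumberField Pointwise

namespace H38.ML

variable {K Ω : Type} [Field K] [NumberField K] [Field Ω] [Algebra K Ω] [IsAlgClosure K Ω]

omit [NumberField K] [IsAlgClosure K Ω] in
lemma kx_res (M : IntermediateField K Ω) [Normal K M] (σ : Gal(Ω/K)) (x : M) :
    ((res M σ x : M) : Ω) = σ (x : Ω) := AlgEquiv.restrictNormal_commutes σ M x

lemma kx_pow {A : Type} [Group A] {t : A} {q m n : ℕ} (ht : t ^ q = 1) (h : m ≡ n [MOD q]) :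
    t ^ m = t ^ n := by
  rw [pow_eq_pow_iff_modEq]
  exact h.of_dvd (orderOf_dvd_of_pow_eq_one ht)

lemma kx_conj {H A G X : Type} [Group H] [CommGroup A] [Group G] [MulAction G X]
    (ρb : G →* H) (j : A →* H) (a : X → A)
    (ha : ∀ (g : G) x, j (a (g • x)) = ρb g * j (a x) * (ρb g)⁻¹) {I : Type} (s : Finset I)
    (y : I → X) (k : I → ℕ) (g : G) :
    j (∏ i ∈ s, a (g • y i) ^ k i) = ρb g * j (∏ i ∈ s, a (y i) ^ k i) * (ρb g)⁻¹ := by
  classical
  induction s using Finset.induction_on with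
  | empty => simp
  | insert i s hi ih =>
    rw [Finset.prod_insert hi, Finset.prod_insert hi, map_mul, map_mul, ih, map_pow, ha,
      conj_pow, map_pow]
    group

theorem exists_kumOut (M : IntermediateField K Ω) [FiniteDimensional K M] [Normal K M]
    {H A X : Type} [Group H] [CommGroup A] [Fintype X] [MulAction Gal(M/K) X]
    (ρb : Gal(M/K) →* H) (j : A →* H) (q : ℕ) (hq : 0 < q) (ζ : K) (hζ : IsPrimitiveRoot ζ q)
    (hA : ∀ t : A, t ^ q = 1) (a : X → A) (α : X → M) (hα : ∀ x, α x ≠ 0)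
    (hαM : ∀ (g : Gal(M/K)) x, α (g • x) = g (α x))
    (ha : ∀ (g : Gal(M/K)) x, j (a (g • x)) = ρb g * j (a x) * (ρb g)⁻¹) :
    Nonempty (KumOut M ρb j q ζ a α) := by
  classical
  have hclosed : IsAlgClosed Ω := IsAlgClosure.isAlgClosed K
  have hq0 : NeZero q := ⟨hq.ne'⟩
  have hz : IsPrimitiveRoot (algebraMap K Ω ζ) q :=
    hζ.map_of_injective (algebraMap K Ω).injective
  have hβex : ∀ x, ∃ b : Ω, b ^ q = (α x : Ω) := fun x =>
    IsAlgClosed.exists_pow_nat_eq (α x : Ω) hq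
  choose β hβ using hβex
  have hβ0 : ∀ x, β x ≠ 0 := by
    intro x h0
    have h1 := hβ x
    rw [h0, zero_pow hq.ne'] at h1
    exact hα x (by exact_mod_cast h1.symm)
  have hκex : ∀ (σ : Gal(Ω/K)) (x : X), ∃ k : ℕ,
      σ (β x) = algebraMap K Ω ζ ^ k * β (res M σ • x) := by
    intro σ x
    have h1 : (σ (β x)) ^ q = (β (res M σ • x)) ^ q := by
      rw [← map_pow, hβ, hβ, hαM, kx_res]
    have h2 : (σ (β x) / β (res M σ • x)) ^ q = 1 := by
      rw [div_pow, h1, div_self (pow_ne_zero _ (hβ0 _))]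
    obtain ⟨k, -, hk⟩ := hz.eq_pow_of_pow_eq_one h2
    refine ⟨k, ?_⟩
    rw [hk, div_mul_cancel₀ _ (hβ0 _)]
  choose κ hκ using hκex
  have hzinj : ∀ {m n : ℕ}, (algebraMap K Ω ζ) ^ m = (algebraMap K Ω ζ) ^ n → m ≡ n [MOD q] := by
    intro m n h
    have h1 := (pow_eq_pow_iff_modEq (x := hz.isUnit hq.ne' |>.unit) (n := m) (m := n)).1 (by
      apply Units.ext
      push_cast
      simpa using h)
    have h2 : orderOf (hz.isUnit hq.ne').unit = q := by
      rw [← orderOf_units, IsUnit.unit_spec]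
      exact hz.eq_orderOf.symm
    rwa [h2] at h1
  have hcoc : ∀ (σ τ : Gal(Ω/K)) x, κ (σ * τ) x ≡ κ τ x + κ σ (res M τ • x) [MOD q] := by
    intro σ τ x
    apply hzinj
    have h1 := hκ (σ * τ) x
    rw [AlgEquiv.mul_apply, hκ τ x, map_mul, map_pow, AlgEquiv.commutes, hκ σ, map_mul,
      mul_smul, ← mul_assoc, ← pow_add] at h1
    exact (mul_right_cancel₀ (hβ0 _) h1).symm
  let ρ : Gal(Ω/K) →* H := MonoidHom.mk' (fun σ =>
    j (∏ x, a (res M σ • x) ^ κ σ x) * ρb (res M σ)) (by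
      intro σ τ
      have h1 : ∏ x, a (res M (σ * τ) • x) ^ κ (σ * τ) x =
          (∏ x, a (res M σ • (res M τ • x)) ^ κ τ x) * ∏ x, a (res M σ • x) ^ κ σ x := by
        have h2 : ∏ x, a (res M σ • x) ^ κ σ x =
            ∏ x, a (res M σ • (res M τ • x)) ^ κ σ (res M τ • x) :=
          (Equiv.prod_comp (MulAction.toPerm (res M τ))
            (fun y => a (res M σ • y) ^ κ σ y)).symm
        rw [h2, ← Finset.prod_mul_distrib]
        refine Finset.prod_congr rfl fun x _ => ?_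
        rw [← pow_add, map_mul, mul_smul]
        exact kx_pow (hA _) (hcoc σ τ x)
      have h3 := kx_conj ρb j a ha Finset.univ (fun x => res M τ • x) (κ τ) (res M σ)
      rw [h1, mul_comm, map_mul, h3, map_mul (res M), map_mul ρb]
      group)
  have hρ : ∀ σ, ρ σ = j (∏ x, a (res M σ • x) ^ κ σ x) * ρb (res M σ) := fun σ => rfl
  refine ⟨⟨β, κ, ρ, hβ, hκ, ?_, hρ⟩⟩
  have hint : ∀ y ∈ Set.range β, IsIntegral K y := fun y _ =>
    (IsAlgClosure.isAlgebraic (R := K) (K := Ω)).isAlgebraic y |>.isIntegral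
  have hfd : FiniteDimensional K (IntermediateField.adjoin K (Set.range β)) :=
    IntermediateField.finiteDimensional_adjoin hint
  refine ⟨M ⊔ IntermediateField.adjoin K (Set.range β),
    IntermediateField.finiteDimensional_sup M _, fun σ hσ => ?_⟩
  rw [IntermediateField.mem_fixingSubgroup_iff] at hσ
  have h1 : res M σ = 1 := by
    apply AlgEquiv.ext
    intro x
    apply Subtype.ext
    rw [kx_res]
    exact hσ _ ((le_sup_left : M ≤ M ⊔ IntermediateField.adjoin K (Set.range β)) x.2)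
  have h2 : ∀ x, a (res M σ • x) ^ κ σ x = 1 := by
    intro x
    have h3 : σ (β x) = β x := hσ _
      ((le_sup_right : IntermediateField.adjoin K (Set.range β) ≤
        M ⊔ IntermediateField.adjoin K (Set.range β))
          (IntermediateField.subset_adjoin K _ ⟨x, rfl⟩))
    have h4 := hκ σ x
    rw [h3, h1, one_smul] at h4
    have h5 : (algebraMap K Ω ζ) ^ κ σ x = (algebraMap K Ω ζ) ^ 0 := by
      have h6 : (1 : Ω) * β x = algebraMap K Ω ζ ^ κ σ x * β x := by rw [one_mul]; exact h4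
      rw [pow_zero]
      exact (mul_right_cancel₀ (hβ0 x) h6).symm
    rw [kx_pow (hA _) (hzinj h5), pow_zero]
  rw [MonoidHom.mem_ker, hρ, Finset.prod_eq_one (fun x _ => h2 x), h1, map_one, map_one, mul_one]

end H38.ML
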