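import Pool.Agent.H38.ML.Factor

/-!
# [H38 ML KUMSURJ] Criterion for the cocycle to take all values on `Gal(Ω/M)` (80-130 lines)

For `σ ∈ M.fixingSubgroup` we have `res M σ = 1`, `σ (β x) = z ^ κ σ x * β x` and
`O.ρ σ = j (c σ)`, `c σ = ∏ x, a x ^ κ σ x` (`z = algebraMap K Ω ζ`).  `c` is a homomorphism on
`M.fixingSubgroup`: `κ (στ) x ≡ κ σ x + κ τ x mod q` because `β x ≠ 0` (`α x ≠ 0`), and `a ^ q = 1`.
Let `B` be its range in `A`.  If `B = ⊤` we are done.  Otherwise `A ⧸ B` is a nontrivial finite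
commutative group killed by `q`, and `K` contains a primitive `q`-th root of unity; so there is a
character `χ₀ : A ⧸ B →* Kˣ` with a nontrivial value (Mathlib:
`CommGroup.exists_apply_ne_one_of_hasEnoughRootsOfUnity`, for the exponent of `A ⧸ B`, which divides
`q`; `HasEnoughRootsOfUnity K (Monoid.exponent _)` from the primitive root of order the exponent).
Let `r > 1` be the order of `χ₀` (in the finite group of homomorphisms; or the exponent of its range),
`p` a prime divisor of `r`, `χ = χ₀ ^ (r / p)` composed with `A → A ⧸ B`: `χ ≠ 1`, `χ ^ p = 1`, and `χ`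
is trivial on `B`.  `p ∣ q`: `χ t ≠ 1`, `χ t ^ p = 1` and `χ t ^ q = χ (t ^ q) = 1`.
`χ (a x)` is a `p`-th root of unity of `K`, and `ζ ^ (q / p)` is a primitive `p`-th root of unity, so
there is `m x` with `χ (a x) = (ζ ^ (q/p)) ^ m x`.  Let `y' = ∏ x, β x ^ ((q / p) * m x) ∈ Ω`.  For
`σ ∈ M.fixingSubgroup`:
`σ y' = (∏ x, z ^ (κ σ x * (q/p) * m x)) * y' = algebraMap (χ (c σ)) * y' = y'` since `c σ ∈ B`.
So `y'` is fixed by `M.fixingSubgroup`, hence `y' ∈ M`
(`IntermediateField.fixedField (M.fixingSubgroup) = M`, `InfiniteGalois.fixedField_fixingSubgroup`),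
and `y' ^ p = ∏ x, β x ^ (q * m x) = ∏ x, α x ^ m x`, contradicting `hcrit`.
-/

open scoped NumberField Pointwise

namespace H38.ML

variable {K Ω : Type} [Field K] [NumberField K] [Field Ω] [Algebra K Ω] [IsAlgClosure K Ω]

omit [NumberField K] [IsAlgClosure K Ω] in
lemma ksu_res (M : IntermediateField K Ω) [Normal K M] {σ : Gal(Ω/K)}
    (hσ : σ ∈ M.fixingSubgroup) : res M σ = 1 := by
  rw [IntermediateField.mem_fixingSubgroup_iff] at hσ
  apply AlgEquiv.ext
  intro x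
  apply Subtype.ext
  have h1 : ((res M σ x : M) : Ω) = σ (x : Ω) := AlgEquiv.restrictNormal_commutes σ M x
  rw [h1]
  exact hσ _ x.2

theorem kum_surj (M : IntermediateField K Ω) [FiniteDimensional K M] [Normal K M]
    {H A X : Type} [Group H] [CommGroup A] [Finite A] [Fintype X] [MulAction Gal(M/K) X]
    (ρb : Gal(M/K) →* H) (j : A →* H) (q : ℕ) (hq : 0 < q) (ζ : K) (hζ : IsPrimitiveRoot ζ q)
    (hA : ∀ t : A, t ^ q = 1) (a : X → A) (α : X → M) (hα : ∀ x, α x ≠ 0)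
    (O : KumOut M ρb j q ζ a α)
    (hcrit : ∀ p : ℕ, p.Prime → p ∣ q → ∀ χ : A →* Kˣ, (∃ t, χ t ≠ 1) → (∀ t, χ t ^ p = 1) →
      ∀ m : X → ℕ, (∀ x, ((χ (a x) : Kˣ) : K) = (ζ ^ (q / p)) ^ m x) →
        ∀ y : M, y ^ p ≠ ∏ x, α x ^ m x) (t : A) :
    ∃ σ ∈ M.fixingSubgroup, O.ρ σ = j t := by
  classical
  have hgal : IsGalois K Ω := IsAlgClosure.isGalois K Ω
  have hq0 : NeZero q := ⟨hq.ne'⟩
  have hz : IsPrimitiveRoot (algebraMap K Ω ζ) q :=
    hζ.map_of_injective (algebraMap K Ω).injective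
  have hβ0 : ∀ x, O.β x ≠ 0 := by
    intro x h0
    have h1 := O.hβ x
    rw [h0, zero_pow hq.ne'] at h1
    exact hα x (by exact_mod_cast h1.symm)
  have hzinj : ∀ {m n : ℕ}, (algebraMap K Ω ζ) ^ m = (algebraMap K Ω ζ) ^ n → m ≡ n [MOD q] := by
    intro m n h
    have h1 := (pow_eq_pow_iff_modEq (x := hz.isUnit hq.ne' |>.unit) (n := m) (m := n)).1 (by
      apply Units.ext
      push_cast
      simpa using h)
    have h2 : orderOf (hz.isUnit hq.ne').unit = q := by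
      rw [← orderOf_units, IsUnit.unit_spec]
      exact hz.eq_orderOf.symm
    rwa [h2] at h1
  have hpowA : ∀ (t : A) {m n : ℕ}, m ≡ n [MOD q] → t ^ m = t ^ n := by
    intro t m n h
    rw [pow_eq_pow_iff_modEq]
    exact h.of_dvd (orderOf_dvd_of_pow_eq_one (hA t))
  have hκ : ∀ σ ∈ M.fixingSubgroup, ∀ x, σ (O.β x) = algebraMap K Ω ζ ^ O.κ σ x * O.β x := by
    intro σ hσ x
    have h1 := O.hκ σ x
    rwa [ksu_res M hσ, one_smul] at h1
  let c : M.fixingSubgroup →* A := MonoidHom.mk' (fun σ => ∏ x, a x ^ O.κ σ.1 x) (by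
    intro σ τ
    rw [← Finset.prod_mul_distrib]
    refine Finset.prod_congr rfl fun x _ => ?_
    rw [← pow_add]
    apply hpowA
    apply hzinj
    have h1 := hκ _ (σ * τ).2 x
    have h2 : ((σ * τ : M.fixingSubgroup) : Gal(Ω/K)) (O.β x) = σ.1 (τ.1 (O.β x)) := rfl
    rw [h2, hκ _ τ.2, map_mul, map_pow, AlgEquiv.commutes, hκ _ σ.2, ← mul_assoc, ← pow_add] at h1
    rw [add_comm (O.κ σ.1 x)]
    exact (mul_right_cancel₀ (hβ0 _) h1).symm)
  have hc : ∀ σ : M.fixingSubgroup, c σ = ∏ x, a x ^ O.κ σ.1 x := fun σ => rfl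
  by_cases ht : t ∈ c.range
  · obtain ⟨σ, hσ⟩ := ht
    refine ⟨σ.1, σ.2, ?_⟩
    have h1 : ∏ x, a (res M σ.1 • x) ^ O.κ σ.1 x = t := by
      rw [← hσ, hc, ksu_res M σ.2]
      simp only [one_smul]
    rw [O.hρ, h1, ksu_res M σ.2, map_one, mul_one]
  exfalso
  -- a character trivial on the range
  have hexp : Monoid.exponent (A ⧸ c.range) ∣ q := by
    refine Monoid.exponent_dvd_of_forall_pow_eq_one fun s => ?_
    obtain ⟨s, rfl⟩ := QuotientGroup.mk_surjective s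
    rw [← QuotientGroup.mk_pow, hA, QuotientGroup.mk_one]
  have hen : HasEnoughRootsOfUnity K q := ⟨⟨ζ, hζ⟩, inferInstance⟩
  have hen2 : HasEnoughRootsOfUnity K (Monoid.exponent (A ⧸ c.range)) :=
    HasEnoughRootsOfUnity.of_dvd K hexp
  have htne : (QuotientGroup.mk t : A ⧸ c.range) ≠ 1 := by
    intro h
    exact ht ((QuotientGroup.eq_one_iff t).1 h)
  obtain ⟨χ0, hχ0⟩ := CommGroup.exists_apply_ne_one_of_hasEnoughRootsOfUnity (A ⧸ c.range) K htne
  let χ1 : A →* Kˣ := χ0.comp (QuotientGroup.mk' c.range)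
  have hχ1t : χ1 t ≠ 1 := hχ0
  have hχ1c : ∀ s ∈ c.range, χ1 s = 1 := by
    intro s hs
    change χ0 (QuotientGroup.mk s) = 1
    rw [(QuotientGroup.eq_one_iff s).2 hs, map_one]
  have hχ1q : χ1 ^ q = 1 := by
    ext s
    rw [MonoidHom.pow_apply, ← map_pow, hA, map_one, MonoidHom.one_apply]
  have hr1 : orderOf χ1 ≠ 1 := by
    intro h
    rw [orderOf_eq_one_iff] at h
    exact hχ1t (by rw [h]; rfl)
  have hrq : orderOf χ1 ∣ q := orderOf_dvd_of_pow_eq_one hχ1q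
  have hr0 : 0 < orderOf χ1 := Nat.pos_of_dvd_of_pos hrq hq
  set p := (orderOf χ1).minFac with hp
  have hpp : p.Prime := Nat.minFac_prime hr1
  have hpr : p ∣ orderOf χ1 := Nat.minFac_dvd _
  have hpq : p ∣ q := hpr.trans hrq
  set χ : A →* Kˣ := χ1 ^ (orderOf χ1 / p) with hχ
  have hχp : χ ^ p = 1 := by
    have h1 : χ1 ^ orderOf χ1 = 1 := pow_orderOf_eq_one χ1
    ext s
    have h2 := DFunLike.congr_fun h1 s
    rw [MonoidHom.pow_apply, MonoidHom.one_apply] at h2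
    rw [hχ, MonoidHom.pow_apply, MonoidHom.pow_apply, ← pow_mul, Nat.div_mul_cancel hpr, h2,
      MonoidHom.one_apply]
  have hχ1' : χ ≠ 1 := by
    intro h
    have h1 : orderOf χ1 ∣ orderOf χ1 / p := orderOf_dvd_of_pow_eq_one h
    have h2 := Nat.le_of_dvd (Nat.div_pos (Nat.le_of_dvd hr0 hpr) hpp.pos) h1
    have h3 := Nat.div_lt_self hr0 hpp.one_lt
    omega
  have hχex : ∃ t, χ t ≠ 1 := by
    by_contra h
    push Not at h
    exact hχ1' (MonoidHom.ext h)
  have hχt : ∀ t, χ t ^ p = 1 := by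
    intro s
    have := DFunLike.congr_fun hχp s
    rwa [MonoidHom.pow_apply, MonoidHom.one_apply] at this
  have hχc : ∀ s ∈ c.range, χ s = 1 := by
    intro s hs
    rw [hχ, MonoidHom.pow_apply, hχ1c s hs, one_pow]
  have hq' : q = q / p * p := (Nat.div_mul_cancel hpq).symm
  have hζp : IsPrimitiveRoot (ζ ^ (q / p)) p := hζ.pow hq hq'
  have hp0 : NeZero p := ⟨hpp.ne_zero⟩
  have hmex : ∀ x, ∃ m : ℕ, ((χ (a x) : Kˣ) : K) = (ζ ^ (q / p)) ^ m := by
    intro x
    have h1 : ((χ (a x) : Kˣ) : K) ^ p = 1 := by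
      rw [← Units.val_pow_eq_pow_val, hχt, Units.val_one]
    obtain ⟨i, -, hi⟩ := hζp.eq_pow_of_pow_eq_one h1
    exact ⟨i, hi.symm⟩
  choose m hm using hmex
  set y : Ω := ∏ x, O.β x ^ ((q / p) * m x) with hy
  have hyfix : ∀ σ ∈ M.fixingSubgroup, σ y = y := by
    intro σ hσ
    have h1 : σ y = (∏ x, (algebraMap K Ω ζ ^ O.κ σ x) ^ ((q / p) * m x)) * y := by
      rw [hy, map_prod, ← Finset.prod_mul_distrib]
      refine Finset.prod_congr rfl fun x _ => ?_
      rw [map_pow, hκ σ hσ x, mul_pow]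
    have h2 : (∏ x, (algebraMap K Ω ζ ^ O.κ σ x) ^ ((q / p) * m x)) =
        algebraMap K Ω ((χ (c ⟨σ, hσ⟩) : Kˣ) : K) := by
      rw [hc, map_prod, Units.coe_prod, map_prod]
      refine Finset.prod_congr rfl fun x _ => ?_
      rw [map_pow, Units.val_pow_eq_pow_val, hm, map_pow, map_pow, map_pow, ← pow_mul, ← pow_mul,
        ← pow_mul]
      congr 1
      ring
    rw [h1, h2, hχc _ ⟨_, rfl⟩, Units.val_one, map_one, one_mul]
  have hyM : y ∈ M := by
    rw [← InfiniteGalois.fixedField_fixingSubgroup M, IntermediateField.mem_fixedField_iff]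
    exact hyfix
  refine hcrit p hpp hpq χ hχex hχt m hm ⟨y, hyM⟩ ?_
  apply Subtype.ext
  have h1 : (((⟨y, hyM⟩ : M) ^ p : M) : Ω) = y ^ p := rfl
  have h2 : ((∏ x, α x ^ m x : M) : Ω) = ∏ x, (α x : Ω) ^ m x := by
    push_cast
    rfl
  rw [h1, h2, hy, ← Finset.prod_pow]
  refine Finset.prod_congr rfl fun x _ => ?_
  rw [← O.hβ x, ← pow_mul, ← pow_mul]
  congr 1
  conv_rhs => rw [hq']
  ring

end H38.ML
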