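import Pool.Agent.H38.ML.Tall

/-!
# [H38 ML BAD] Few tuples have a bad pattern at a large prime (150-220 lines)

`BadAt v I`: the tuple `I` has a bad pattern at the prime `v` of `K`.

For a nonzero prime `v` of `K` let `PP_v` be the set of pairs `(c, V)` with `V` a prime of `F c` over `v`;
it has at most `D = ∑ c, [F c : K]` elements (`#primesOver ≤ [F c : K]`,
`Ideal.sum_ramification_inertia`), and `N(V)` is a power `N(v) ^ f`, `f ≥ 1`.  If `BadAt v I` then `I` is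
divisible (in every component) by one of the following tuples `J` with `nrm J ≥ N(v)²`:
a single `V` at the place `c` with `N(V) ≠ N(v)` (so `N(V) ≥ N(v)²`), a square `V²`, a product `V V'` in one
component, or `V`, `V'` in two components.  There are at most `D + D²` such `J`.
The tuples `I` (all components `≠ ⊥`) with `nrm I ≤ X` divisible by `J` correspond to `I = J I'`, with
`nrm I' ≤ X / nrm J`, so there are at most `cnt(X / N(v)²)` of them (`cnt` the counting function of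
`cb_tup`; it is `0` when `N(v)² > X`), at most `C (X / N(v)²) (1 + log X)^(b-1)`.
Sum over the finitely many `v` with `z < N(v) ≤ √X`: at most
`(D + D²) C X (1 + log X)^(b-1) ∑_{N(v) > z} 1/N(v)²`, and the last sum is `≤ C'/z` by `sq_tail` for the
ideals of `K` (`cb_ideals K`).  Given `ε` choose `z` with `(D + D²) C C' / z ≤ ε`.
-/

open scoped NumberField

namespace H38.ML

variable {K : Type} [Field K] [NumberField K] {b : ℕ} {F : Fin b → Type} [∀ c, Field (F c)]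
  [∀ c, NumberField (F c)] [∀ c, Algebra K (F c)]

/-- The tuple `I` has a bad pattern at `v`. -/
def BadAt (v : Ideal (𝓞 K)) (I : Tup F) : Prop :=
  (∃ (c : Fin b) (V : Ideal (𝓞 (F c))), V.IsPrime ∧ V ∣ I c ∧ V.under (𝓞 K) = v ∧
    Ideal.absNorm V ≠ Ideal.absNorm v) ∨
  (∃ (c : Fin b) (V : Ideal (𝓞 (F c))), V.IsPrime ∧ V ^ 2 ∣ I c ∧ V.under (𝓞 K) = v) ∨
  (∃ (c : Fin b) (V V' : Ideal (𝓞 (F c))), V.IsPrime ∧ V'.IsPrime ∧ V ≠ V' ∧ V ∣ I c ∧ V' ∣ I c ∧
    V.under (𝓞 K) = v ∧ V'.under (𝓞 K) = v) ∨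
  (∃ (c c' : Fin b) (V : Ideal (𝓞 (F c))) (V' : Ideal (𝓞 (F c'))), c ≠ c' ∧ V.IsPrime ∧
    V'.IsPrime ∧ V ∣ I c ∧ V' ∣ I c' ∧ V.under (𝓞 K) = v ∧ V'.under (𝓞 K) = v)


omit [∀ c, NumberField (F c)] in
theorem bad_nzsmul [∀ c, NumberField (F c)] (c : Fin b) :
    NoZeroSMulDivisors (𝓞 K) (𝓞 (F c)) := by
  have hinj : Function.Injective (algebraMap (𝓞 K) (𝓞 (F c))) :=
    FaithfulSMul.algebraMap_injective (𝓞 K) (𝓞 (F c))
  constructor
  intro x y h
  rw [Algebra.smul_def, mul_eq_zero] at h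
  rcases h with h | h
  · left
    exact hinj (by rw [h, map_zero])
  · right; exact h

theorem bad_card_primes (c : Fin b) (v : Ideal (𝓞 K)) (hv : v.IsPrime) (hv0 : v ≠ ⊥) :
    (IsDedekindDomain.primesOverFinset v (𝓞 (F c))).card ≤ Module.finrank K (F c) := by
  have : v.IsMaximal := hv.isMaximal hv0
  have := bad_nzsmul (K := K) (F := F) c
  exact Ideal.card_primesOverFinset_le_finrank (𝓞 (F c)) K (F c) hv0

/-- the pairs `(c, V)` with `V` over `v` -/
noncomputable def badPairs (F : Fin b → Type) [∀ c, Field (F c)]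
    [∀ c, NumberField (F c)] [∀ c, Algebra K (F c)] (v : Ideal (𝓞 K)) :
    Finset (Σ c : Fin b, Ideal (𝓞 (F c))) :=
  Finset.univ.sigma fun c => IsDedekindDomain.primesOverFinset v (𝓞 (F c))

theorem mem_badPairs (v : Ideal (𝓞 K)) (hv : v.IsPrime) (hv0 : v ≠ ⊥) (c : Fin b)
    (V : Ideal (𝓞 (F c))) (hV : V.IsPrime) (hVv : V.under (𝓞 K) = v) :
    (⟨c, V⟩ : Σ c : Fin b, Ideal (𝓞 (F c))) ∈ badPairs F v := by
  have : v.IsMaximal := hv.isMaximal hv0
  unfold badPairs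
  rw [Finset.mem_sigma]
  refine ⟨Finset.mem_univ _, ?_⟩
  rw [IsDedekindDomain.mem_primesOverFinset_iff hv0]
  exact ⟨hV, ⟨hVv.symm⟩⟩

theorem badPairs_prop (v : Ideal (𝓞 K)) (hv : v.IsPrime) (hv0 : v ≠ ⊥) 
    (p : Σ c : Fin b, Ideal (𝓞 (F c))) (hp : p ∈ badPairs F v) :
    p.2.IsPrime ∧ p.2.under (𝓞 K) = v := by
  have : v.IsMaximal := hv.isMaximal hv0
  unfold badPairs at hp
  rw [Finset.mem_sigma, IsDedekindDomain.mem_primesOverFinset_iff hv0] at hp
  exact ⟨hp.2.1, hp.2.2.over.symm⟩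

theorem card_badPairs (v : Ideal (𝓞 K)) (hv : v.IsPrime) (hv0 : v ≠ ⊥) :
    (badPairs F v).card ≤ ∑ c : Fin b, Module.finrank K (F c) := by
  unfold badPairs
  rw [Finset.card_sigma]
  exact Finset.sum_le_sum fun c _ => bad_card_primes c v hv hv0

/-- the norm of a prime over `v` -/
theorem bad_norm (c : Fin b) (v : Ideal (𝓞 K)) (hv : v.IsPrime) 
    (V : Ideal (𝓞 (F c))) (hV : V.IsPrime) (hVv : V.under (𝓞 K) = v) :
    Ideal.absNorm v ≤ Ideal.absNorm V ∧ (Ideal.absNorm V ≠ Ideal.absNorm v →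
      Ideal.absNorm v ^ 2 ≤ Ideal.absNorm V) := by
  have hlo : V.LiesOver v := ⟨hVv.symm⟩
  have h := Ideal.absNorm_pow_inertiaDeg v V
  have hpos : 0 < V.inertiaDeg (𝓞 K) := Ideal.inertiaDeg_pos V (𝓞 K)
  rcases Nat.eq_zero_or_pos (Ideal.absNorm v) with h0 | h0
  · rw [h0]; constructor
    · exact Nat.zero_le _
    · intro _; simp
  · refine ⟨?_, fun hne => ?_⟩
    · rw [← h]
      exact Nat.le_self_pow hpos.ne' _
    · rw [← h] at hne ⊢
      refine Nat.pow_le_pow_right h0 ?_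
      by_contra hlt
      have h1 : V.inertiaDeg (𝓞 K) = 1 := by omega
      rw [h1, pow_one] at hne
      exact hne rfl

/-- the tuple with `V` at the place `c` and `1` elsewhere -/
noncomputable def sing (p : Σ c : Fin b, Ideal (𝓞 (F c))) : Tup F := Pi.mulSingle p.1 p.2

omit [∀ c, NumberField (F c)] in
theorem nrm_mul [∀ c, NumberField (F c)] (I J : Tup F) : nrm (I * J) = nrm I * nrm J := by
  unfold nrm
  rw [← Finset.prod_mul_distrib]
  refine Finset.prod_congr rfl fun c _ => ?_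
  rw [Pi.mul_apply, map_mul]

theorem nrm_sing (p : Σ c : Fin b, Ideal (𝓞 (F c))) : nrm (sing p) = Ideal.absNorm p.2 := by
  unfold nrm sing
  rw [Fintype.prod_eq_single p.1]
  · rw [Pi.mulSingle_eq_same]
  · intro c hc
    rw [Pi.mulSingle_eq_of_ne hc, Ideal.one_eq_top, Ideal.absNorm_top]

open Classical in
/-- the possible bad divisors at `v` -/
noncomputable def badDiv (F : Fin b → Type) [∀ c, Field (F c)]
    [∀ c, NumberField (F c)] [∀ c, Algebra K (F c)] (v : Ideal (𝓞 K)) : Finset (Tup F) :=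
  ((badPairs F v).filter (fun p => Ideal.absNorm p.2 ≠ Ideal.absNorm v)).image sing ∪
    ((badPairs F v) ×ˢ (badPairs F v)).image (fun pp => sing pp.1 * sing pp.2)

theorem card_badDiv (v : Ideal (𝓞 K)) (hv : v.IsPrime) (hv0 : v ≠ ⊥) :
    (badDiv F v).card ≤ (∑ c : Fin b, Module.finrank K (F c)) +
      (∑ c : Fin b, Module.finrank K (F c)) ^ 2 := by
  classical
  unfold badDiv
  refine (Finset.card_union_le _ _).trans (add_le_add ?_ ?_)
  · refine Finset.card_image_le.trans ((Finset.card_filter_le _ _).trans ?_)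
    exact card_badPairs v hv hv0
  · refine Finset.card_image_le.trans ?_
    rw [Finset.card_product, sq]
    exact Nat.mul_le_mul (card_badPairs v hv hv0) (card_badPairs v hv hv0)

theorem nrm_badDiv (v : Ideal (𝓞 K)) (hv : v.IsPrime) (hv0 : v ≠ ⊥) (J : Tup F)
    (hJ : J ∈ badDiv F v) : Ideal.absNorm v ^ 2 ≤ nrm J := by
  classical
  unfold badDiv at hJ
  rw [Finset.mem_union, Finset.mem_image, Finset.mem_image] at hJ
  rcases hJ with ⟨p, hp, rfl⟩ | ⟨pp, hpp, rfl⟩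
  · rw [Finset.mem_filter] at hp
    have h1 := badPairs_prop v hv hv0 p hp.1
    rw [nrm_sing]
    exact (bad_norm p.1 v hv p.2 h1.1 h1.2).2 hp.2
  · rw [Finset.mem_product] at hpp
    have h1 := badPairs_prop v hv hv0 pp.1 hpp.1
    have h2 := badPairs_prop v hv hv0 pp.2 hpp.2
    rw [nrm_mul, nrm_sing, nrm_sing, sq]
    exact Nat.mul_le_mul (bad_norm _ v hv _ h1.1 h1.2).1 (bad_norm _ v hv _ h2.1 h2.2).1

omit [∀ c, NumberField (F c)] in
theorem sing_dvd [∀ c, NumberField (F c)] (I : Tup F) (c : Fin b) (V : Ideal (𝓞 (F c)))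
    (h : V ∣ I c) : ∀ d, (sing ⟨c, V⟩ : Tup F) d ∣ I d := by
  intro d
  unfold sing
  by_cases hd : d = c
  · subst hd
    rw [Pi.mulSingle_eq_same]; exact h
  · rw [Pi.mulSingle_eq_of_ne hd]; exact one_dvd _

omit [∀ c, NumberField (F c)] in
theorem sing_mul_dvd_same [∀ c, NumberField (F c)] (I : Tup F) (c : Fin b)
    (V V' : Ideal (𝓞 (F c))) (h : V * V' ∣ I c) :
    ∀ d, (sing ⟨c, V⟩ * sing ⟨c, V'⟩ : Tup F) d ∣ I d := by
  intro d
  unfold sing
  rw [Pi.mul_apply]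
  by_cases hd : d = c
  · subst hd
    rw [Pi.mulSingle_eq_same, Pi.mulSingle_eq_same]; exact h
  · rw [Pi.mulSingle_eq_of_ne hd, Pi.mulSingle_eq_of_ne hd, one_mul]; exact one_dvd _

omit [∀ c, NumberField (F c)] in
theorem sing_mul_dvd_ne [∀ c, NumberField (F c)] (I : Tup F) (c c' : Fin b) (hcc : c ≠ c')
    (V : Ideal (𝓞 (F c))) (V' : Ideal (𝓞 (F c'))) (h : V ∣ I c) (h' : V' ∣ I c') :
    ∀ d, (sing ⟨c, V⟩ * sing ⟨c', V'⟩ : Tup F) d ∣ I d := by
  intro d
  unfold sing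
  rw [Pi.mul_apply]
  by_cases hd : d = c
  · subst hd
    rw [Pi.mulSingle_eq_same, Pi.mulSingle_eq_of_ne hcc, mul_one]; exact h
  · rw [Pi.mulSingle_eq_of_ne hd, one_mul]
    by_cases hd' : d = c'
    · subst hd'
      rw [Pi.mulSingle_eq_same]; exact h'
    · rw [Pi.mulSingle_eq_of_ne hd']; exact one_dvd _

theorem bad_exists (v : Ideal (𝓞 K)) (hv : v.IsPrime) (hv0 : v ≠ ⊥) (I : Tup F)
    (hI : ∀ c, I c ≠ ⊥) (hbad : BadAt v I) :
    ∃ J ∈ badDiv F v, ∃ I' : Tup F, (∀ c, I' c ≠ ⊥) ∧ I = J * I' := by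
  classical
  have key : ∃ J ∈ badDiv F v, ∀ d, J d ∣ I d := by
    rcases hbad with ⟨c, V, hV, hVI, hVv, hne⟩ | ⟨c, V, hV, hVI, hVv⟩ |
      ⟨c, V, V', hV, hV', hne, hVI, hVI', hVv, hVv'⟩ |
      ⟨c, c', V, V', hcc, hV, hV', hVI, hVI', hVv, hVv'⟩
    · refine ⟨sing ⟨c, V⟩, ?_, sing_dvd I c V hVI⟩
      unfold badDiv
      rw [Finset.mem_union]; left
      refine Finset.mem_image_of_mem _ ?_
      rw [Finset.mem_filter]
      exact ⟨mem_badPairs v hv hv0 c V hV hVv, hne⟩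
    · refine ⟨sing ⟨c, V⟩ * sing ⟨c, V⟩, ?_, sing_mul_dvd_same I c V V (by rwa [← sq])⟩
      unfold badDiv
      rw [Finset.mem_union]; right
      refine Finset.mem_image.mpr ⟨(⟨c, V⟩, ⟨c, V⟩), ?_, rfl⟩
      rw [Finset.mem_product]
      exact ⟨mem_badPairs v hv hv0 c V hV hVv, mem_badPairs v hv hv0 c V hV hVv⟩
    · have hV0 : V ≠ ⊥ := by
        rintro rfl
        apply hv0
        rw [← hVv]
        exact Ideal.under_bot _ _
      have hV0' : V' ≠ ⊥ := by
        rintro rfl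
        apply hv0
        rw [← hVv']
        exact Ideal.under_bot _ _
      refine ⟨sing ⟨c, V⟩ * sing ⟨c, V'⟩, ?_, sing_mul_dvd_same I c V V' ?_⟩
      · unfold badDiv
        rw [Finset.mem_union]; right
        refine Finset.mem_image.mpr ⟨(⟨c, V⟩, ⟨c, V'⟩), ?_, rfl⟩
        rw [Finset.mem_product]
        exact ⟨mem_badPairs v hv hv0 c V hV hVv, mem_badPairs v hv hv0 c V' hV' hVv'⟩
      · obtain ⟨W, hW⟩ := hVI
        rw [hW] at hVI' ⊢
        have hpr : Prime V' := Ideal.prime_of_isPrime hV0' hV'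
        rcases hpr.dvd_or_dvd hVI' with h1 | h1
        · exfalso
          apply hne
          have hle : V ≤ V' := Ideal.le_of_dvd h1
          have hmax : V.IsMaximal := hV.isMaximal hV0
          exact hmax.eq_of_le hV'.ne_top hle
        · exact mul_dvd_mul_left V h1
    · refine ⟨sing ⟨c, V⟩ * sing ⟨c', V'⟩, ?_, sing_mul_dvd_ne I c c' hcc V V' hVI hVI'⟩
      unfold badDiv
      rw [Finset.mem_union]; right
      refine Finset.mem_image.mpr ⟨(⟨c, V⟩, ⟨c', V'⟩), ?_, rfl⟩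
      rw [Finset.mem_product]
      exact ⟨mem_badPairs v hv hv0 c V hV hVv, mem_badPairs v hv hv0 c' V' hV' hVv'⟩
  obtain ⟨J, hJ, hd⟩ := key
  choose I' hI' using hd
  refine ⟨J, hJ, I', ?_, funext hI'⟩
  intro c h0
  apply hI c
  rw [hI' c, h0, Ideal.mul_bot]

theorem bad_card_eq {T : Type} {P : T → Prop} {N : T → ℕ} {X : ℝ}
    (h : {t | P t ∧ (N t : ℝ) ≤ X}.Finite) : cnt P N X = h.toFinset.card := by
  unfold cnt
  rw [← Nat.card_eq_card_finite_toFinset h]
  rfl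

theorem bad_count (hb : 0 < b) (ε : ℝ) (hε : 0 < ε) :
    ∃ z : ℕ, ∀ X : ℝ, 1 ≤ X →
      (cnt (fun I : Tup F => (∀ c, I c ≠ ⊥) ∧ ∃ v : Ideal (𝓞 K), v.IsPrime ∧ v ≠ ⊥ ∧
        z < Ideal.absNorm v ∧ BadAt v I) (fun I => nrm I) X : ℝ) ≤
      ε * X * (1 + Real.log X) ^ (b - 1) := by
  classical
  have hT : CB (fun I : Tup F => ∀ c, I c ≠ ⊥) (fun I => nrm I) (b - 1) := cb_tup b hb F
  have hK : CB (fun I : Ideal (𝓞 K) => I ≠ ⊥) (fun I => Ideal.absNorm I) 0 := cb_ideals K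
  obtain ⟨C, hC, hup⟩ := hT.upper
  obtain ⟨C', hC', htail⟩ := sq_tail hK
  set D : ℕ := ∑ c : Fin b, Module.finrank K (F c) with hD
  set M : ℝ := ((D + D ^ 2 : ℕ) : ℝ) with hM
  have hM0 : 0 ≤ M := by rw [hM]; exact Nat.cast_nonneg _
  obtain ⟨z, hz⟩ := exists_nat_ge (max 1 (M * C * C' / ε))
  have hz1 : (1 : ℝ) ≤ z := (le_max_left _ _).trans hz
  have hz2 : M * C * C' / ε ≤ z := (le_max_right _ _).trans hz
  refine ⟨z, fun X hX => ?_⟩
  have hlog : 0 ≤ Real.log X := Real.log_nonneg hX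
  have hposv : ∀ v : Ideal (𝓞 K), v ≠ ⊥ → 0 < Ideal.absNorm v := hK.pos
  -- the primes
  set VS : Finset (Ideal (𝓞 K)) := (hK.fin X).toFinset.filter
    (fun v => v.IsPrime ∧ z < Ideal.absNorm v ∧ ((Ideal.absNorm v : ℝ)) ^ 2 ≤ X) with hVS
  set all : ℝ → Finset (Tup F) := fun Y => (hT.fin Y).toFinset with hall
  set U : Finset (Tup F) := VS.biUnion fun v => (badDiv F v).biUnion fun J =>
    (all (X / (Ideal.absNorm v : ℝ) ^ 2)).image (fun I' => J * I') with hU
  have hsub : {I : Tup F | ((∀ c, I c ≠ ⊥) ∧ ∃ v : Ideal (𝓞 K), v.IsPrime ∧ v ≠ ⊥ ∧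
        z < Ideal.absNorm v ∧ BadAt v I) ∧ (nrm I : ℝ) ≤ X} ⊆ (U : Set (Tup F)) := by
    rintro I ⟨⟨hI, v, hv, hv0, hzv, hbad⟩, hIX⟩
    obtain ⟨J, hJ, I', hI', hJI⟩ := bad_exists v hv hv0 I hI hbad
    have hJn := nrm_badDiv v hv hv0 J hJ
    have hI'pos : 0 < nrm I' := hT.pos I' hI'
    have hnI : nrm I = nrm J * nrm I' := by rw [hJI, nrm_mul]
    have hvpos : 0 < Ideal.absNorm v := hposv v hv0
    have hvposR : (0 : ℝ) < Ideal.absNorm v := by exact_mod_cast hvpos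
    have h1 : ((Ideal.absNorm v : ℝ)) ^ 2 * (nrm I' : ℝ) ≤ X := by
      refine le_trans ?_ hIX
      rw [hnI]
      have : Ideal.absNorm v ^ 2 * nrm I' ≤ nrm J * nrm I' := Nat.mul_le_mul_right _ hJn
      exact_mod_cast this
    have h2 : ((Ideal.absNorm v : ℝ)) ^ 2 ≤ X := by
      refine le_trans ?_ h1
      have h3 : (1 : ℝ) ≤ nrm I' := by exact_mod_cast hI'pos
      nlinarith [sq_nonneg (Ideal.absNorm v : ℝ)]
    have h4 : (Ideal.absNorm v : ℝ) ≤ X := by
      refine le_trans ?_ h2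
      have h5 : (1 : ℝ) ≤ Ideal.absNorm v := by exact_mod_cast hvpos
      nlinarith
    rw [Finset.mem_coe, hU, Finset.mem_biUnion]
    refine ⟨v, ?_, ?_⟩
    · rw [hVS, Finset.mem_filter, Set.Finite.mem_toFinset]
      exact ⟨⟨hv0, h4⟩, hv, hzv, h2⟩
    · rw [Finset.mem_biUnion]
      refine ⟨J, hJ, Finset.mem_image.mpr ⟨I', ?_, hJI.symm⟩⟩
      rw [hall]
      simp only
      rw [Set.Finite.mem_toFinset]
      refine ⟨hI', ?_⟩
      rw [le_div_iff₀ (by positivity)]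
      linarith [h1, mul_comm ((Ideal.absNorm v : ℝ) ^ 2) (nrm I' : ℝ)]
  have hfin : {I : Tup F | ((∀ c, I c ≠ ⊥) ∧ ∃ v : Ideal (𝓞 K), v.IsPrime ∧ v ≠ ⊥ ∧
        z < Ideal.absNorm v ∧ BadAt v I) ∧ (nrm I : ℝ) ≤ X}.Finite :=
    (Finset.finite_toSet U).subset hsub
  rw [bad_card_eq hfin]
  have hcard1 : hfin.toFinset.card ≤ U.card := by
    refine Finset.card_le_card ?_
    intro I hI
    rw [Set.Finite.mem_toFinset] at hI
    exact_mod_cast hsub hI
  have hv_bound : ∀ v ∈ VS, (((badDiv F v).biUnion fun J =>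
      (all (X / (Ideal.absNorm v : ℝ) ^ 2)).image (fun I' => J * I')).card : ℝ) ≤
      M * C * X * (1 + Real.log X) ^ (b - 1) * (1 / (Ideal.absNorm v : ℝ) ^ 2) := by
    intro v hvS
    rw [hVS, Finset.mem_filter, Set.Finite.mem_toFinset] at hvS
    obtain ⟨⟨hv0, hvX⟩, hv, hzv, hv2⟩ := hvS
    have hvpos : 0 < Ideal.absNorm v := hposv v hv0
    have hvposR : (0 : ℝ) < Ideal.absNorm v := by exact_mod_cast hvpos
    have hv1 : (1 : ℝ) ≤ (Ideal.absNorm v : ℝ) ^ 2 := by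
      have h5 : (1 : ℝ) ≤ Ideal.absNorm v := by exact_mod_cast hvpos
      nlinarith
    set Y : ℝ := X / (Ideal.absNorm v : ℝ) ^ 2 with hY
    have hY1 : 1 ≤ Y := by rw [hY, le_div_iff₀ (by positivity), one_mul]; exact hv2
    have hYX : Y ≤ X := div_le_self (by linarith) hv1
    have hcnt : ((all Y).card : ℝ) ≤ C * Y * (1 + Real.log X) ^ (b - 1) := by
      rw [hall]
      simp only
      rw [← bad_card_eq (hT.fin Y)]
      refine (hup Y hY1).trans ?_
      have hlY : 0 ≤ Real.log Y := Real.log_nonneg hY1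
      have hll : Real.log Y ≤ Real.log X := Real.log_le_log (by linarith) hYX
      have := pow_le_pow_left₀ (by linarith : (0:ℝ) ≤ 1 + Real.log Y)
        (by linarith : 1 + Real.log Y ≤ 1 + Real.log X) (b - 1)
      exact mul_le_mul_of_nonneg_left this (by positivity)
    have hJc : ((badDiv F v).card : ℝ) ≤ M := by
      rw [hM]; exact_mod_cast card_badDiv v hv hv0
    have hb1 : ((badDiv F v).biUnion fun J => (all Y).image (fun I' => J * I')).card ≤
        (badDiv F v).card * (all Y).card := by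
      refine Finset.card_biUnion_le_card_mul _ _ _ fun J _ => ?_
      exact Finset.card_image_le
    have hb2 : (((badDiv F v).biUnion fun J => (all Y).image (fun I' => J * I')).card : ℝ) ≤
        (badDiv F v).card * (all Y).card := by exact_mod_cast hb1
    refine hb2.trans ?_
    have hb3 : ((badDiv F v).card : ℝ) * (all Y).card ≤
        M * (C * Y * (1 + Real.log X) ^ (b - 1)) := by
      refine mul_le_mul hJc hcnt (Nat.cast_nonneg _) hM0
    refine hb3.trans (le_of_eq ?_)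
    rw [hY]
    ring
  have hsum : (U.card : ℝ) ≤ ∑ v ∈ VS, M * C * X * (1 + Real.log X) ^ (b - 1) *
      (1 / (Ideal.absNorm v : ℝ) ^ 2) := by
    have h1 : (U.card : ℝ) ≤ ∑ v ∈ VS, (((badDiv F v).biUnion fun J =>
      (all (X / (Ideal.absNorm v : ℝ) ^ 2)).image (fun I' => J * I')).card : ℝ) := by
      rw [hU]
      exact_mod_cast Finset.card_biUnion_le
    exact h1.trans (Finset.sum_le_sum hv_bound)
  have htl : ∑ v ∈ VS, (1 : ℝ) / (Ideal.absNorm v : ℝ) ^ 2 ≤ C' / z := by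
    refine htail z hz1 VS fun v hvS => ?_
    rw [hVS, Finset.mem_filter, Set.Finite.mem_toFinset] at hvS
    exact ⟨hvS.1.1, by exact_mod_cast hvS.2.2.1⟩
  have hzpos : (0 : ℝ) < z := by linarith
  have hA : 0 ≤ M * C * X * (1 + Real.log X) ^ (b - 1) := by positivity
  calc (hfin.toFinset.card : ℝ) ≤ U.card := by exact_mod_cast hcard1
    _ ≤ ∑ v ∈ VS, M * C * X * (1 + Real.log X) ^ (b - 1) *
      (1 / (Ideal.absNorm v : ℝ) ^ 2) := hsum
    _ = M * C * X * (1 + Real.log X) ^ (b - 1) *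
        ∑ v ∈ VS, (1 : ℝ) / (Ideal.absNorm v : ℝ) ^ 2 := by rw [Finset.mul_sum]
    _ ≤ M * C * X * (1 + Real.log X) ^ (b - 1) * (C' / z) :=
        mul_le_mul_of_nonneg_left htl hA
    _ = (M * C * C' / z) * X * (1 + Real.log X) ^ (b - 1) := by ring
    _ ≤ ε * X * (1 + Real.log X) ^ (b - 1) := by
        have h6 : M * C * C' / z ≤ ε := by
          rw [div_le_iff₀ hzpos]
          rw [div_le_iff₀ hε] at hz2
          linarith
        have h7 : 0 ≤ X * (1 + Real.log X) ^ (b - 1) := by positivity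
        have := mul_le_mul_of_nonneg_right h6 h7
        linarith [this]

end H38.ML
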