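import Pool.Agent.H38.ML.Tower

/-!
# `beta = betaAll` when all elements of least index are in `T` and of order prime to `|N|`
-/

namespace H38.ML

theorem beta_eq_betaAll {n : ℕ} (G : Subgroup (Equiv.Perm (Fin n))) (K : IntermediateField ℚ QBar)
    (T N : Subgroup G) (h : ∀ g : G, g ≠ 1 → ind (g : Equiv.Perm (Fin n)) = indG G →
      g ∈ T ∧ Nat.Coprime (orderOf g) (Nat.card N)) : beta G K T N = betaAll G K := by
  let e : LeastIn G T N ≃ {g : G // g ≠ 1 ∧ ind (g : Equiv.Perm (Fin n)) = indG G} :=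
    { toFun := fun g => ⟨g.1, g.2.2.1, g.2.2.2.1⟩
      invFun := fun g => ⟨g.1, (h g.1 g.2.1 g.2.2).1, g.2.1, g.2.2, (h g.1 g.2.1 g.2.2).2⟩
      left_inv := fun _ => rfl
      right_inv := fun _ => rfl }
  exact Nat.card_congr (Quot.congr e fun _ _ => Iff.rfl)

end H38.ML
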