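import Pool.Agent.H38.ML.Defs

/-!
# A large class of groups that are Galois groups over all large number fields (definition)
-/

namespace H38.ML

/-- The smallest class of groups which contains all symmetric groups `S_k` and is closed under
quotients, direct products, and semidirect products `A ⋊ Q` with finite abelian `A`. -/
inductive Buildable : (Q : Type) → [Group Q] → Prop
  | sym (k : ℕ) : Buildable (Equiv.Perm (Fin k))
  | quot {Q Q' : Type} [Group Q] [Group Q'] (f : Q →* Q') (hf : Function.Surjective f) :
      Buildable Q → Buildable Q'
  | prod {Q Q' : Type} [Group Q] [Group Q'] : Buildable Q → Buildable Q' → Buildable (Q × Q')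
  | split {Q A : Type} [Group Q] [CommGroup A] [Finite A] (φ : Q →* MulAut A) :
      Buildable Q → Buildable (A ⋊[φ] Q)

end H38.ML
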