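import Pool.Agent.H38.ML.Basic

/-!
# Abstract counting bounds: definitions (complete)

`CB P N k` says: the elements `t` with `P t`, counted with the norm `N t ≥ 1`, are
`≍ X (log X) ^ k` many up to `X` (upper bound for all `X ≥ 1`, lower bound for large `X`).
-/

noncomputable section

namespace H38.ML

/-- The number of `t` with `P t` and `N t ≤ X`. -/
def cnt {T : Type} (P : T → Prop) (N : T → ℕ) (X : ℝ) : ℕ := Nat.card {t // P t ∧ (N t : ℝ) ≤ X}

/-- Bounds of the order `X (log X) ^ k`. -/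
structure CB {T : Type} (P : T → Prop) (N : T → ℕ) (k : ℕ) : Prop where
  pos : ∀ t, P t → 0 < N t
  fin : ∀ X : ℝ, {t | P t ∧ (N t : ℝ) ≤ X}.Finite
  upper : ∃ C : ℝ, 0 < C ∧ ∀ X : ℝ, 1 ≤ X → (cnt P N X : ℝ) ≤ C * X * (1 + Real.log X) ^ k
  lower : ∃ c : ℝ, 0 < c ∧ ∃ X₀ : ℝ, ∀ X : ℝ, X₀ ≤ X → c * X * Real.log X ^ k ≤ (cnt P N X : ℝ)

end H38.ML
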