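import Pool.Agent.H38.ML.Harm

/-!
# [H38 ML CONV] Products of counted sets (80-130 lines)

`J₁ = cnt P₁ N₁` of order `X (log X)^k`, `J₂ = cnt P₂ N₂` of order `X`.
Finite: `N₁ t₁ * N₂ t₂ ≤ X` implies `N₁ t₁ ≤ X`, `N₂ t₂ ≤ X`.
`cnt (X) = ∑_{t₂ : N₂ t₂ ≤ X} J₁(X / N₂ t₂)` (fibre over `t₂`).
Upper: `J₁(X/m) ≤ C₁ (X/m) (1 + log (X/m))^k ≤ C₁ (X/m) (1 + log X)^k` for `1 ≤ m ≤ X`, and `harm_upper`.
Lower: keep the `t₂` with `m = N₂ t₂ ≤ √X`: `X/m ≥ √X ≥ X₀` for `X` large and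
`J₁(X/m) ≥ c₁ (X/m) (log (X/m))^k ≥ c₁ (X/m) ((log X)/2)^k`; and `harm_lower` for `√X`:
`∑ 1/m ≥ c log √X = (c/2) log X`.
-/

namespace H38.ML

theorem conv_cnt_eq {T : Type} {P : T → Prop} {N : T → ℕ} {X : ℝ}
    (h : {t | P t ∧ (N t : ℝ) ≤ X}.Finite) : cnt P N X = h.toFinset.card := by
  unfold cnt
  rw [← Set.ncard_eq_toFinset_card _ h, ← Nat.card_coe_set_eq]
  rfl

theorem conv_fin {T₁ T₂ : Type} {P₁ : T₁ → Prop} {N₁ : T₁ → ℕ} {P₂ : T₂ → Prop} {N₂ : T₂ → ℕ}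
    {k : ℕ} (h₁ : CB P₁ N₁ k) (h₂ : CB P₂ N₂ 0) (X : ℝ) :
    {t : T₁ × T₂ | (P₁ t.1 ∧ P₂ t.2) ∧ ((N₁ t.1 * N₂ t.2 : ℕ) : ℝ) ≤ X}.Finite := by
  refine ((h₁.fin X).prod (h₂.fin X)).subset ?_
  rintro ⟨a, b⟩ ⟨⟨ha, hb⟩, hle⟩
  have h1 := h₁.pos a ha
  have h2 := h₂.pos b hb
  refine ⟨⟨ha, ?_⟩, ⟨hb, ?_⟩⟩
  · refine le_trans ?_ hle
    exact_mod_cast Nat.le_mul_of_pos_right (N₁ a) h2
  · refine le_trans ?_ hle
    exact_mod_cast Nat.le_mul_of_pos_left (N₂ b) h1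

theorem conv_sum {T₁ T₂ : Type} {P₁ : T₁ → Prop} {N₁ : T₁ → ℕ} {P₂ : T₂ → Prop} {N₂ : T₂ → ℕ}
    {k : ℕ} (h₁ : CB P₁ N₁ k) (h₂ : CB P₂ N₂ 0) (X : ℝ) :
    cnt (fun t : T₁ × T₂ => P₁ t.1 ∧ P₂ t.2) (fun t => N₁ t.1 * N₂ t.2) X =
      ∑ t ∈ (h₂.fin X).toFinset, cnt P₁ N₁ (X / N₂ t) := by
  classical
  rw [conv_cnt_eq (conv_fin h₁ h₂ X),
    Finset.card_eq_sum_card_fiberwise (f := Prod.snd) (t := (h₂.fin X).toFinset)]
  · refine Finset.sum_congr rfl fun b hb => ?_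
    rw [Set.Finite.mem_toFinset] at hb
    have hNb : (0 : ℝ) < N₂ b := by exact_mod_cast h₂.pos b hb.1
    rw [conv_cnt_eq (h₁.fin (X / N₂ b))]
    refine Finset.card_bij (fun t _ => t.1) ?_ ?_ ?_
    · intro t ht
      rw [Finset.mem_filter, Set.Finite.mem_toFinset] at ht
      obtain ⟨⟨⟨h3, h4⟩, h5⟩, h6⟩ := ht
      rw [Set.Finite.mem_toFinset]
      refine ⟨h3, ?_⟩
      rw [le_div_iff₀ hNb, ← h6]
      exact_mod_cast h5
    · intro t ht u hu htu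
      rw [Finset.mem_filter] at ht hu
      exact Prod.ext htu (ht.2.trans hu.2.symm)
    · intro a ha
      rw [Set.Finite.mem_toFinset] at ha
      refine ⟨(a, b), ?_, rfl⟩
      rw [Finset.mem_filter, Set.Finite.mem_toFinset]
      refine ⟨⟨⟨ha.1, hb.1⟩, ?_⟩, rfl⟩
      have := ha.2
      rw [le_div_iff₀ hNb] at this
      push_cast
      exact this
  · intro t ht
    rw [Finset.mem_coe, Set.Finite.mem_toFinset] at ht
    rw [Finset.mem_coe, Set.Finite.mem_toFinset]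
    obtain ⟨⟨h3, h4⟩, h5⟩ := ht
    refine ⟨h4, le_trans ?_ h5⟩
    exact_mod_cast Nat.le_mul_of_pos_left (N₂ t.2) (h₁.pos t.1 h3)

theorem cb_prod {T₁ T₂ : Type} {P₁ : T₁ → Prop} {N₁ : T₁ → ℕ} {P₂ : T₂ → Prop} {N₂ : T₂ → ℕ}
    {k : ℕ} (h₁ : CB P₁ N₁ k) (h₂ : CB P₂ N₂ 0) :
    CB (fun t : T₁ × T₂ => P₁ t.1 ∧ P₂ t.2) (fun t => N₁ t.1 * N₂ t.2) (k + 1) := by
  refine ⟨?_, conv_fin h₁ h₂, ?_, ?_⟩
  · rintro ⟨a, b⟩ ⟨ha, hb⟩
    exact Nat.mul_pos (h₁.pos a ha) (h₂.pos b hb)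
  · obtain ⟨C₁, hC₁, hu⟩ := h₁.upper
    obtain ⟨C₂, hC₂, hh⟩ := harm_upper h₂
    refine ⟨C₁ * C₂, by positivity, fun X hX => ?_⟩
    have hlog : 0 ≤ Real.log X := Real.log_nonneg hX
    rw [conv_sum h₁ h₂ X]
    push_cast
    calc ∑ t ∈ (h₂.fin X).toFinset, (cnt P₁ N₁ (X / N₂ t) : ℝ) ≤
        ∑ t ∈ (h₂.fin X).toFinset, C₁ * X * (1 + Real.log X) ^ k * (1 / N₂ t) := by
          refine Finset.sum_le_sum fun t ht => ?_
          rw [Set.Finite.mem_toFinset] at ht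
          have hm1 : (1 : ℝ) ≤ N₂ t := by exact_mod_cast h₂.pos t ht.1
          have hm0 : (0 : ℝ) < N₂ t := by linarith
          have hq : 1 ≤ X / N₂ t := by rw [le_div_iff₀ hm0, one_mul]; exact ht.2
          have hqX : X / N₂ t ≤ X := div_le_self (by linarith) hm1
          have hl1 : 0 ≤ Real.log (X / N₂ t) := Real.log_nonneg hq
          have hl2 : Real.log (X / N₂ t) ≤ Real.log X := Real.log_le_log (by linarith) hqX
          calc (cnt P₁ N₁ (X / N₂ t) : ℝ) ≤ C₁ * (X / N₂ t) * (1 + Real.log (X / N₂ t)) ^ k :=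
                hu _ hq
            _ ≤ C₁ * (X / N₂ t) * (1 + Real.log X) ^ k := by
                refine mul_le_mul_of_nonneg_left ?_ (by positivity)
                exact pow_le_pow_left₀ (by linarith) (by linarith) k
            _ = C₁ * X * (1 + Real.log X) ^ k * (1 / N₂ t) := by ring
      _ = C₁ * X * (1 + Real.log X) ^ k * ∑ t ∈ (h₂.fin X).toFinset, (1 : ℝ) / N₂ t := by
          rw [Finset.mul_sum]
      _ ≤ C₁ * X * (1 + Real.log X) ^ k * (C₂ * (1 + Real.log X)) :=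
          mul_le_mul_of_nonneg_left (hh X hX) (by positivity)
      _ = C₁ * C₂ * X * (1 + Real.log X) ^ (k + 1) := by ring
  · obtain ⟨c₁, hc₁, X₁, hl⟩ := h₁.lower
    obtain ⟨c₂, hc₂, X₂, hh⟩ := harm_lower h₂
    set Y₀ : ℝ := max 1 (max X₁ X₂) with hY₀
    have hY1 : 1 ≤ Y₀ := le_max_left _ _
    refine ⟨c₁ * c₂ / 2 ^ (k + 1), by positivity, Y₀ ^ 2, fun X hX => ?_⟩
    have hX0 : 0 < X := lt_of_lt_of_le (by positivity) hX
    have hY0 : 0 ≤ Y₀ := by linarith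
    have hs : Y₀ ≤ Real.sqrt X := by
      rw [Real.le_sqrt hY0 hX0.le]; exact hX
    have hs1 : 1 ≤ Real.sqrt X := hY1.trans hs
    have hs0 : 0 < Real.sqrt X := by linarith
    have hsX : Real.sqrt X ≤ X := by
      calc Real.sqrt X = Real.sqrt X * 1 := (mul_one _).symm
        _ ≤ Real.sqrt X * Real.sqrt X := mul_le_mul_of_nonneg_left hs1 hs0.le
        _ = X := Real.mul_self_sqrt hX0.le
    have hlog : Real.log (Real.sqrt X) = Real.log X / 2 := Real.log_sqrt hX0.le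
    have hlogs : 0 ≤ Real.log (Real.sqrt X) := Real.log_nonneg hs1
    rw [hlog] at hlogs
    rw [conv_sum h₁ h₂ X]
    push_cast
    have hsub : (h₂.fin (Real.sqrt X)).toFinset ⊆ (h₂.fin X).toFinset := by
      intro t ht
      rw [Set.Finite.mem_toFinset] at ht ⊢
      exact ⟨ht.1, ht.2.trans hsX⟩
    calc c₁ * c₂ / 2 ^ (k + 1) * X * Real.log X ^ (k + 1) =
        c₁ * X * (Real.log X / 2) ^ k * (c₂ * (Real.log X / 2)) := by
          rw [pow_succ, pow_succ, div_pow]; ring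
      _ ≤ c₁ * X * (Real.log X / 2) ^ k *
          ∑ t ∈ (h₂.fin (Real.sqrt X)).toFinset, (1 : ℝ) / N₂ t := by
          refine mul_le_mul_of_nonneg_left ?_ (by positivity)
          rw [← hlog]
          exact hh _ ((le_max_right _ _).trans ((le_max_right _ _).trans hs))
      _ = ∑ t ∈ (h₂.fin (Real.sqrt X)).toFinset,
          c₁ * X * (Real.log X / 2) ^ k * ((1 : ℝ) / N₂ t) := by rw [Finset.mul_sum]
      _ ≤ ∑ t ∈ (h₂.fin (Real.sqrt X)).toFinset, (cnt P₁ N₁ (X / N₂ t) : ℝ) := by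
          refine Finset.sum_le_sum fun t ht => ?_
          rw [Set.Finite.mem_toFinset] at ht
          have hm1 : (1 : ℝ) ≤ N₂ t := by exact_mod_cast h₂.pos t ht.1
          have hm0 : (0 : ℝ) < N₂ t := by linarith
          have hq : Real.sqrt X ≤ X / N₂ t := by
            rw [le_div_iff₀ hm0]
            calc Real.sqrt X * N₂ t ≤ Real.sqrt X * Real.sqrt X :=
                  mul_le_mul_of_nonneg_left ht.2 hs0.le
              _ = X := Real.mul_self_sqrt hX0.le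
          have hX1 : X₁ ≤ X / N₂ t :=
            (le_max_left _ _).trans ((le_max_right _ _).trans (hs.trans hq))
          have hll : Real.log X / 2 ≤ Real.log (X / N₂ t) := by
            rw [← hlog]; exact Real.log_le_log hs0 hq
          calc c₁ * X * (Real.log X / 2) ^ k * ((1 : ℝ) / N₂ t) =
              c₁ * (X / N₂ t) * (Real.log X / 2) ^ k := by ring
            _ ≤ c₁ * (X / N₂ t) * (Real.log (X / N₂ t)) ^ k := by
                refine mul_le_mul_of_nonneg_left ?_ (by positivity)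
                exact pow_le_pow_left₀ hlogs hll k
            _ ≤ _ := hl _ hX1
      _ ≤ ∑ t ∈ (h₂.fin X).toFinset, (cnt P₁ N₁ (X / N₂ t) : ℝ) :=
          Finset.sum_le_sum_of_subset_of_nonneg hsub fun _ _ _ => by positivity

end H38.ML
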