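import Mathlib

/-!
# MP_b39724_nt: definitions for the lower bound in Malle's conjecture over large base fields

Everything in this file is a definition; nothing is proved here.
-/

open scoped NumberField Pointwise

noncomputable section

namespace H38.ML

/-- The fixed algebraic closure of `ℚ` in which all number fields live. -/
abbrev QBar : Type := AlgebraicClosure ℚ

section perm

variable {n : ℕ}

/-- The number of orbits of a group of permutations of `Fin n`. -/
def orbs (H : Subgroup (Equiv.Perm (Fin n))) : ℕ :=
  Nat.card (MulAction.orbitRel.Quotient H (Fin n))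

/-- The index of a permutation `g`: `n` minus the number of orbits of the group generated by `g`. -/
def ind (g : Equiv.Perm (Fin n)) : ℕ := n - orbs (Subgroup.zpowers g)

/-- The least index of an element `g ≠ 1` of `G`. -/
def indG (G : Subgroup (Equiv.Perm (Fin n))) : ℕ := sInf {k | ∃ g ∈ G, g ≠ 1 ∧ ind g = k}

end perm

section homs

variable {K Ω : Type} [Field K] [Field Ω] [Algebra K Ω]

/-- A homomorphism from the absolute Galois group `Gal(Ω/K)` is of finite type if it is trivial on
the subgroup fixing some finite extension `E` of `K` in `Ω` (that is: it is continuous for the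
Krull topology and the discrete topology, and it has finite image). -/
def FT {H : Type} [Group H] (ρ : Gal(Ω/K) →* H) : Prop :=
  ∃ E : IntermediateField K Ω, FiniteDimensional K E ∧ E.fixingSubgroup ≤ ρ.ker

end homs

/-- `Q` is a Galois group over every sufficiently large number field: there is a number field `K₁`
such that for every number field `K ⊇ K₁` there is a Galois extension of `K` in `QBar` with group
`Q` (in the form of a surjective homomorphism of finite type from the absolute Galois group). -/
def Realizable (Q : Type) [Group Q] : Prop :=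
  ∃ K₁ : IntermediateField ℚ QBar, FiniteDimensional ℚ K₁ ∧
    ∀ K : IntermediateField ℚ QBar, K₁ ≤ K → FiniteDimensional ℚ K →
      ∃ ρ : Gal(QBar/K) →* Q, Function.Surjective ρ ∧ FT ρ

/-- `Q` is semiabelian: there is a chain `Q = H 0 ≥ H 1 ≥ ⋯ ≥ H r = 1` of subgroups and abelian
subgroups `A k ≤ H k`, normal in `H k`, with `H k = A k · H (k+1)`. -/
def Semiabelian (Q : Type) [Group Q] : Prop :=
  ∃ (r : ℕ) (H A : ℕ → Subgroup Q), H 0 = ⊤ ∧ H r = ⊥ ∧
    ∀ k < r, H (k + 1) ≤ H k ∧ A k ≤ H k ∧ (∀ h ∈ H k, ∀ a ∈ A k, h * a * h⁻¹ ∈ A k) ∧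
      (∀ a ∈ A k, ∀ b ∈ A k, a * b = b * a) ∧ A k ⊔ H (k + 1) = H k

/-- The condition on the lower layers: `N = L 0 ≥ L 1 ≥ ⋯ ≥ L r = 1` with all `L i` normal in `G`,
all factors `L i / L (i+1)` abelian and of order prime to the order of `G / L i`. -/
def CoprimeTower {G : Type} [Group G] (N : Subgroup G) : Prop :=
  ∃ (r : ℕ) (L : ℕ → Subgroup G), L 0 = N ∧ L r = ⊥ ∧ ∀ i < r,
    L (i + 1) ≤ L i ∧ (L (i + 1)).Normal ∧ ⁅L i, L i⁆ ≤ L (i + 1) ∧
      Nat.Coprime (L i).index ((L (i + 1)).relIndex (L i))

section malle

variable {n : ℕ} (G : Subgroup (Equiv.Perm (Fin n))) (K : IntermediateField ℚ QBar)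

/-- `L` is a small `G`-field over `K`: it has degree `n` over `K`, and the `n` embeddings of `L`
over `K` into `QBar` can be numbered in such a way that the group of permutations of `Fin n`
induced by `Gal(QBar/K)` (equivalently by the Galois group of the Galois closure of `L/K`) is
exactly `G`. -/
def IsSmall (L : IntermediateField K QBar) : Prop :=
  Module.finrank K L = n ∧ ∃ e : (L →ₐ[K] QBar) ≃ Fin n, ∀ π : Equiv.Perm (Fin n),
    π ∈ G ↔ ∃ σ : Gal(QBar/K), ∀ φ : L →ₐ[K] QBar, π (e φ) = e ((σ : QBar →ₐ[K] QBar).comp φ)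

open Classical in
/-- `d_L`, the absolute norm of the relative different of `L/K`, which is the absolute norm of the
relative discriminant of `L/K`. (The value `0` in the case that `L` is not a number field is never
used: the fields `L` that are counted have finite degree over the number field `K`.) -/
def relDisc (L : IntermediateField K QBar) : ℕ :=
  if h : NumberField L then
    (letI := h
     Ideal.absNorm (differentIdeal (𝓞 K) (𝓞 L)))
  else 0

/-- The relation of `K`-isomorphism on the fields `L`. -/
def isoSetoid : Setoid (IntermediateField K QBar) where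
  r L L' := Nonempty (L ≃ₐ[K] L')
  iseqv := ⟨fun _ => ⟨AlgEquiv.refl⟩, fun ⟨e⟩ => ⟨e.symm⟩, fun ⟨e⟩ ⟨f⟩ => ⟨e.trans f⟩⟩

/-- `n_K(G,B)`: the number of `K`-isomorphism classes of small `G`-fields `L` over `K` with
`d_L ≤ B`. -/
def nK (B : ℝ) : ℕ∞ :=
  ENat.card {c : Quotient (isoSetoid K) // ∃ L : IntermediateField K QBar,
    Quotient.mk (isoSetoid K) L = c ∧ IsSmall G K L ∧ (relDisc K L : ℝ) ≤ B}

/-- `K`-conjugacy in `G`: `h` is conjugate in `G` to `g ^ a` for some `a` in the image of the
cyclotomic character on roots of unity of order dividing `|G|`. -/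
def KConj (g h : G) : Prop :=
  ∃ (σ : Gal(QBar/K)) (a : ℕ) (x : G), (∀ ζ : QBar, ζ ^ Nat.card G = 1 → σ ζ = ζ ^ a) ∧
    h = x * g ^ a * x⁻¹

/-- The elements of least index of `G` in `T` whose order is prime to the order of `N`. -/
def LeastIn (T N : Subgroup G) : Type :=
  {g : G // g ∈ T ∧ g ≠ 1 ∧ ind (g : Equiv.Perm (Fin n)) = indG G ∧
    Nat.Coprime (orderOf g) (Nat.card N)}

/-- The number of `K`-conjugacy classes of elements of least index in `T` of order prime to
`|N|`. -/
def beta (T N : Subgroup G) : ℕ :=
  Nat.card (Quot fun g h : LeastIn G T N => KConj G K g.1 h.1)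

/-- `β_K(G)`: the number of `K`-conjugacy classes of elements of least index. -/
def betaAll : ℕ :=
  Nat.card (Quot fun g h : {g : G // g ≠ 1 ∧ ind (g : Equiv.Perm (Fin n)) = indG G} =>
    KConj G K g.1 h.1)

end malle

end H38.ML
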