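import Pool.Agent.H38.ML.Basic

/-!
# [H38 ML DIFFBOUND] A uniform bound for the exponents of the different (120-200 lines)

`n = [L : K]`, `n! ∉ v ^ k`, `P` a prime of `𝓞 L` over `v` with ramification index `e`.
Claim: `P ^ (e k)` does not divide the different.  (For `v ∤ n!`, `k = 1`: exponent `≤ e - 1`.)

Proof.  `v 𝓞 L = P ^ e * J` with `P ∤ J`, so `(v ^ k) 𝓞 L = P ^ (e k) * J ^ k`, and `P ^ (e k)`, `J ^ k` are
coprime: there is `u ∈ J ^ k` with `u - 1 ∈ P ^ (e k)`.  By Mathlib's
`not_dvd_differentIdeal_of_intTrace_not_mem` it suffices to show `intTrace u ∉ v ^ k`.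
Modulo `v ^ k`, multiplication by `u` is an idempotent endomorphism of a free module of rank `n` over
the local ring `(𝓞 K)_v / v ^ k`, so its trace is a natural number `1 ≤ r ≤ n`.
-/

open scoped NumberField Pointwise TensorProduct

namespace H38.ML

open Module

/-- the trace of an idempotent over a local ring -/
lemma dbf_idem {A M : Type*} [CommRing A] [IsLocalRing A] [AddCommGroup M] [Module A M]
    [Module.Free A M] [Module.Finite A M] (f : M →ₗ[A] M) (hf : IsIdempotentElem f) :
    ∃ r : ℕ, r ≤ Module.finrank A M ∧ LinearMap.trace A M f = (r : A) ∧ (r = 0 → f = 0) := by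
  have hff : ∀ x, f (f x) = f x := fun x => by
    have := congrArg (fun g : M →ₗ[A] M => g x) hf
    simpa using this
  have hproj := LinearMap.IsIdempotentElem.isProj_range f hf
  have hcompl := hproj.isCompl
  -- range
  have hPr : Module.Projective A (LinearMap.range f) := by
    refine Module.Projective.of_split (LinearMap.range f).subtype f.rangeRestrict ?_
    ext ⟨x, y, rfl⟩
    simp [hff]
  have hFr : Module.Finite A (LinearMap.range f) := Module.Finite.range f
  have hfr : Module.Free A (LinearMap.range f) := Module.free_of_flat_of_isLocalRing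
  -- kernel
  have hker : ∀ x, ((LinearMap.id : M →ₗ[A] M) - f) x ∈ LinearMap.ker f := by
    intro x
    rw [LinearMap.mem_ker]
    simp [hff]
  let g : M →ₗ[A] LinearMap.ker f :=
    ((LinearMap.id : M →ₗ[A] M) - f).codRestrict (LinearMap.ker f) hker
  have hg : g ∘ₗ (LinearMap.ker f).subtype = LinearMap.id := by
    ext ⟨x, hx⟩
    have hx' : f x = 0 := hx
    simp [g, hx']
  have hPk : Module.Projective A (LinearMap.ker f) :=
    Module.Projective.of_split (LinearMap.ker f).subtype g hg
  have hFk : Module.Finite A (LinearMap.ker f) := by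
    refine Module.Finite.of_surjective g (fun y => ⟨y.1, ?_⟩)
    exact congrArg (fun h : LinearMap.ker f →ₗ[A] LinearMap.ker f => h y) hg
  have hfk : Module.Free A (LinearMap.ker f) := Module.free_of_flat_of_isLocalRing
  refine ⟨Module.finrank A (LinearMap.range f), ?_, hproj.trace, ?_⟩
  · have h1 := (Submodule.prodEquivOfIsCompl _ _ hcompl).finrank_eq
    rw [Module.finrank_prod] at h1
    omega
  · intro h0
    rw [finrank_eq_zero_iff_of_free, Submodule.subsingleton_iff_eq_bot,
      LinearMap.range_eq_bot] at h0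
    exact h0

/-- an element of `I S` dies in `(R / I) ⊗ S` -/
lemma dbf_tmul_zero {R M : Type*} [CommRing R] [AddCommGroup M] [Module R M] (I : Ideal R)
    (a : R ⧸ I) (y : M) (hy : y ∈ (I • ⊤ : Submodule R M)) : a ⊗ₜ[R] y = 0 := by
  refine Submodule.smul_induction_on hy (fun i hi m _ => ?_) (fun x z hx hz => ?_)
  · rw [TensorProduct.tmul_smul, TensorProduct.smul_tmul']
    have : i • a = 0 := by
      rw [Algebra.smul_def, Ideal.Quotient.algebraMap_eq, Ideal.Quotient.eq_zero_iff_mem.2 hi,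
        zero_mul]
    rw [this, TensorProduct.zero_tmul]
  · rw [TensorProduct.tmul_add, hx, hz, add_zero]

lemma dbf_of_tmul_zero {R M : Type*} [CommRing R] [AddCommGroup M] [Module R M] (I : Ideal R)
    (y : M) (hy : (1 : R ⧸ I) ⊗ₜ[R] y = 0) : y ∈ (I • ⊤ : Submodule R M) := by
  have h := congrArg (TensorProduct.quotTensorEquivQuotSMul M I) hy
  rw [map_zero, ← map_one (Ideal.Quotient.mk I), TensorProduct.quotTensorEquivQuotSMul_mk_tmul,
    one_smul, Submodule.Quotient.mk_eq_zero] at h
  exact h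

/-- the trace of an approximate idempotent, free case -/
lemma dbf_local {R S : Type*} [CommRing R] [IsLocalRing R] [CommRing S] [Algebra R S]
    [Module.Free R S] [Module.Finite R S] (I : Ideal R) (hI : I ≠ ⊤) (x : S)
    (hx : x * x - x ∈ I.map (algebraMap R S)) :
    ∃ r : ℕ, r ≤ Module.finrank R S ∧ Algebra.trace R S x - r ∈ I ∧
      (r = 0 → x ∈ I.map (algebraMap R S)) := by
  have hnt : Nontrivial (R ⧸ I) := Ideal.Quotient.nontrivial_iff.2 hI
  have hloc : IsLocalRing (R ⧸ I) :=
    IsLocalRing.of_surjective' (Ideal.Quotient.mk I) Ideal.Quotient.mk_surjective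
  let f := (Algebra.lmul R S x).baseChange (R ⧸ I)
  have hmem : ∀ y : S, y ∈ I.map (algebraMap R S) ↔ y ∈ (I • ⊤ : Submodule R S) := by
    intro y
    rw [Ideal.smul_top_eq_map]
    rfl
  have hf : IsIdempotentElem f := by
    unfold IsIdempotentElem
    apply TensorProduct.AlgebraTensorModule.curry_injective
    ext s
    simp only [f, TensorProduct.AlgebraTensorModule.curry_apply,
      TensorProduct.curry_apply, LinearMap.coe_restrictScalars, Module.End.mul_apply,
      LinearMap.baseChange_tmul, Algebra.coe_lmul_eq_mul, LinearMap.mul_apply_apply]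
    rw [← sub_eq_zero, ← TensorProduct.tmul_sub]
    refine dbf_tmul_zero I _ _ ((hmem _).1 ?_)
    have : x * (x * s) - x * s = s * (x * x - x) := by ring
    rw [this]
    exact Ideal.mul_mem_left _ _ hx
  obtain ⟨r, hr1, hr2, hr3⟩ := dbf_idem f hf
  refine ⟨r, ?_, ?_, ?_⟩
  · rwa [Module.finrank_baseChange] at hr1
  · rw [LinearMap.trace_baseChange] at hr2
    rw [← Ideal.Quotient.eq_zero_iff_mem, map_sub, map_natCast, sub_eq_zero, ← hr2]
    rfl
  · intro h0
    have h1 := congrArg (fun g : (R ⧸ I) ⊗[R] S →ₗ[R ⧸ I] (R ⧸ I) ⊗[R] S => g (1 ⊗ₜ 1)) (hr3 h0)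
    simp only [f, LinearMap.baseChange_tmul, Algebra.coe_lmul_eq_mul, LinearMap.mul_apply_apply,
      mul_one, LinearMap.zero_apply] at h1
    exact (hmem x).2 (dbf_of_tmul_zero I x h1)

open nonZeroDivisors in
/-- the trace of an approximate idempotent, Dedekind case -/
lemma dbf_dedekind {R S : Type*} [CommRing R] [IsDedekindDomain R] [CommRing S] [IsDomain S]
    [IsIntegrallyClosed S] [Algebra R S] [Module.IsTorsionFree R S] [Module.Finite R S]
    (p : Ideal R) [p.IsMaximal] (k : ℕ) (hk : k ≠ 0) (x : S)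
    (hx : x * x - x ∈ (p ^ k).map (algebraMap R S)) :
    ∃ r : ℕ, r ≤ Module.finrank R S ∧ Algebra.intTrace R S x - r ∈ p ^ k ∧
      (r = 0 → ∃ s ∉ p, x * algebraMap R S s ∈ (p ^ k).map (algebraMap R S)) := by
  let Rₚ := Localization.AtPrime p
  let Sₚ := Localization (Algebra.algebraMapSubmonoid S p.primeCompl)
  let : Algebra Rₚ Sₚ := localizationAlgebra p.primeCompl S
  have : IsScalarTower R Rₚ Sₚ := IsScalarTower.of_algebraMap_eq'
    (by rw [RingHom.algebraMap_toAlgebra, IsLocalization.map_comp, ← IsScalarTower.algebraMap_eq])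
  have : IsLocalization (Submonoid.map (algebraMap R S) (Ideal.primeCompl p)) Sₚ :=
    inferInstanceAs (IsLocalization (Algebra.algebraMapSubmonoid S p.primeCompl) Sₚ)
  have e : Algebra.algebraMapSubmonoid S p.primeCompl ≤ S⁰ :=
    Submonoid.map_le_of_le_comap _ <| p.primeCompl_le_nonZeroDivisors.trans
      (nonZeroDivisors_le_comap_nonZeroDivisors_of_injective _
        (FaithfulSMul.algebraMap_injective _ _))
  have : IsDomain Sₚ := IsLocalization.isDomain_of_le_nonZeroDivisors _ e
  have : IsTorsionFree Rₚ Sₚ := by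
    rw [isTorsionFree_iff_algebraMap_injective, RingHom.injective_iff_ker_eq_bot,
      RingHom.ker_eq_bot_iff_eq_zero]
    simp
  have : Module.Finite Rₚ Sₚ := .of_isLocalization R S p.primeCompl
  have : IsIntegrallyClosed Sₚ := isIntegrallyClosed_of_isLocalization _ _ e
  have : IsPrincipalIdealRing Rₚ := by
    by_cases hp : p = ⊥
    · infer_instance
    · have := (IsDedekindDomain.isDedekindDomainDvr R).2 p hp inferInstance
      infer_instance
  have : Module.Free Rₚ Sₚ := Module.free_of_finite_type_torsion_free'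
  have hpmax : p.IsPrime := inferInstance
  -- the ideal
  let I : Ideal Rₚ := (p ^ k).map (algebraMap R Rₚ)
  have hI : I ≠ ⊤ := by
    intro h
    have h1 : I ≤ IsLocalRing.maximalIdeal Rₚ := by
      show (p ^ k).map (algebraMap R Rₚ) ≤ _
      rw [← Localization.AtPrime.map_eq_maximalIdeal]
      exact Ideal.map_mono (Ideal.pow_le_self hk)
    rw [h, top_le_iff] at h1
    exact (IsLocalRing.maximalIdeal.isMaximal Rₚ).ne_top h1
  have hIS : I.map (algebraMap Rₚ Sₚ) = ((p ^ k).map (algebraMap R S)).map (algebraMap S Sₚ) := by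
    show ((p ^ k).map (algebraMap R Rₚ)).map (algebraMap Rₚ Sₚ) = _
    rw [Ideal.map_map, Ideal.map_map, ← IsScalarTower.algebraMap_eq,
      ← IsScalarTower.algebraMap_eq]
  have hinj : Function.Injective (algebraMap S Sₚ) := IsLocalization.injective _ e
  obtain ⟨r, hr1, hr2, hr3⟩ := dbf_local I hI (algebraMap S Sₚ x) (by
    rw [hIS, ← map_mul, ← map_sub]
    exact Ideal.mem_map_of_mem _ hx)
  refine ⟨r, ?_, ?_, ?_⟩
  · rw [IsLocalization.finrank_eq Rₚ p.primeCompl p.primeCompl_le_nonZeroDivisors] at hr1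
    have : IsLocalizedModule p.primeCompl (IsScalarTower.toAlgHom R S Sₚ).toLinearMap :=
      isLocalizedModule_iff_isLocalization.2 inferInstance
    rw [IsLocalizedModule.finrank_eq p.primeCompl (IsScalarTower.toAlgHom R S Sₚ).toLinearMap
      p.primeCompl_le_nonZeroDivisors] at hr1
    exact hr1
  · rw [← Algebra.intTrace_eq_trace,
      ← Algebra.intTrace_eq_of_isLocalization R S p.primeCompl (Aₘ := Rₚ) (Bₘ := Sₚ) x,
      ← map_natCast (algebraMap R Rₚ), ← map_sub] at hr2
    obtain ⟨⟨⟨a, ha⟩, s⟩, hs⟩ := (IsLocalization.mem_map_algebraMap_iff p.primeCompl Rₚ).1 hr2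
    have h4 : (Algebra.intTrace R S x - r) * s = a := by
      apply IsLocalization.injective Rₚ p.primeCompl_le_nonZeroDivisors
      rw [map_mul]
      exact hs
    have h5 : (s : R) ∉ p := s.2
    have h6 : IsCoprime (p ^ k) (Ideal.span {(s : R)}) := by
      refine IsCoprime.pow_left ?_
      rw [Ideal.isCoprime_iff_sup_eq]
      refine (inferInstance : p.IsMaximal).1.2 _ ?_
      rw [lt_iff_le_and_ne]
      refine ⟨le_sup_left, fun h => h5 ?_⟩
      exact h.ge (Ideal.mem_sup_right (Ideal.mem_span_singleton_self _))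
    rw [Ideal.isCoprime_iff_exists] at h6
    obtain ⟨i, hi, j, hj, hij⟩ := h6
    obtain ⟨c, rfl⟩ := Ideal.mem_span_singleton'.1 hj
    have h7 : Algebra.intTrace R S x - r = (Algebra.intTrace R S x - r) * i + c * a := by
      rw [← h4]
      linear_combination (-(Algebra.intTrace R S x - r)) * hij
    rw [h7]
    exact add_mem (Ideal.mul_mem_left _ _ hi) (Ideal.mul_mem_left _ _ ha)
  · intro h0
    have h1 := hr3 h0
    rw [hIS] at h1
    obtain ⟨⟨⟨y, hy⟩, s⟩, hs⟩ := (IsLocalization.mem_map_algebraMap_iff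
      (Algebra.algebraMapSubmonoid S p.primeCompl) Sₚ).1 h1
    obtain ⟨t, ht, hts⟩ := s.2
    refine ⟨t, ht, ?_⟩
    have h4 : x * s = y := by
      apply hinj
      rw [map_mul]
      exact hs
    rw [hts, h4]
    exact hy

theorem diff_bound (K L : Type) [Field K] [NumberField K] [Field L] [NumberField L] [Algebra K L]
    (v : Ideal (𝓞 K)) [v.IsPrime] (hv : v ≠ ⊥) (k : ℕ)
    (hk : (((Module.finrank K L).factorial : ℕ) : 𝓞 K) ∉ v ^ k) (P : Ideal (𝓞 L)) [P.IsPrime]
    (hP : P.under (𝓞 K) = v) :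
    ¬ P ^ (P.ramificationIdx (𝓞 K) * k) ∣ differentIdeal (𝓞 K) (𝓞 L) := by
  have hk0 : k ≠ 0 := by
    rintro rfl
    apply hk
    rw [pow_zero, Ideal.one_eq_top]
    trivial
  have hvmax : v.IsMaximal := Ideal.IsPrime.isMaximal inferInstance hv
  have hover : P.LiesOver v := ⟨hP.symm⟩
  have hvS : v.map (algebraMap (𝓞 K) (𝓞 L)) ≠ ⊥ := Ideal.map_ne_bot_of_ne_bot hv
  have hPne : P ≠ ⊥ := Ideal.ne_bot_of_liesOver_of_ne_bot hv P
  have hPmax : P.IsMaximal := Ideal.IsPrime.isMaximal inferInstance hPne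
  obtain ⟨J, hPJ, hJ⟩ := Ideal.eq_prime_pow_mul_coprime hvS P
  rw [← Ideal.IsDedekindDomain.ramificationIdx_eq_normalizedFactors_count v P hvS] at hJ
  set e := P.ramificationIdx (𝓞 K) with he
  have hmap : P ^ (e * k) * J ^ k = (v ^ k).map (algebraMap (𝓞 K) (𝓞 L)) := by
    rw [Ideal.map_pow, hJ, mul_pow, pow_mul]
  have hcop : IsCoprime (P ^ (e * k)) (J ^ k) :=
    (Ideal.isCoprime_iff_sup_eq.2 hPJ).pow
  obtain ⟨a, ha, u, hu, hau⟩ := Ideal.isCoprime_iff_exists.1 hcop
  refine not_dvd_differentIdeal_of_intTrace_not_mem (𝓞 K) (P ^ (e * k)) (J ^ k) hmap u hu ?_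
  intro htr
  have hidem : u * u - u ∈ (v ^ k).map (algebraMap (𝓞 K) (𝓞 L)) := by
    have : u * u - u = -(a * u) := by
      linear_combination u * hau
    rw [this, ← hmap]
    exact neg_mem (Ideal.mul_mem_mul ha hu)
  obtain ⟨r, hr1, hr2, hr3⟩ := dbf_dedekind v k hk0 u hidem
  have hfin : Module.finrank (𝓞 K) (𝓞 L) = Module.finrank K L :=
    (IsFractionRing.finrank_eq (𝓞 K) K (𝓞 L) L).symm
  rw [hfin] at hr1
  have hr0 : r ≠ 0 := by
    intro h0
    obtain ⟨s, hs, hmem⟩ := hr3 h0
    -- e ≠ 0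
    have he0 : e ≠ 0 := (Ideal.ramificationIdx_pos P (𝓞 K)).ne'
    have hle : (v ^ k).map (algebraMap (𝓞 K) (𝓞 L)) ≤ P := by
      rw [← hmap]
      exact Ideal.mul_le_left.trans (Ideal.pow_le_self (mul_ne_zero he0 hk0))
    have h1 : u * algebraMap (𝓞 K) (𝓞 L) s ∈ P := hle hmem
    have h2 : u ∉ P := by
      intro h
      apply (inferInstance : P.IsPrime).ne_top
      rw [Ideal.eq_top_iff_one, ← hau]
      exact add_mem (Ideal.pow_le_self (mul_ne_zero he0 hk0) ha) h
    rcases (inferInstance : P.IsPrime).mem_or_mem h1 with h3 | h3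
    · exact h2 h3
    · apply hs
      rw [← hP]
      exact h3
  have hrk : (r : 𝓞 K) ∈ v ^ k := by
    have := sub_mem htr hr2
    simpa using this
  apply hk
  obtain ⟨m, hm⟩ := Nat.dvd_factorial (Nat.pos_of_ne_zero hr0) hr1
  rw [hm, Nat.cast_mul]
  exact Ideal.mul_mem_right _ _ hrk

end H38.ML
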