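import Pool.Agent.H38.ML.Low

/-!
# [H38 ML LOWCHAIN] All layers below `N` (60-100 lines)

Let `r, L` be the tower.  By induction on `i ≤ r` there is a surjective `ρ_i : Γ → G ⧸ L i` of finite
type which lifts `ρ` (the image in `G ⧸ N` along `G ⧸ L i → G ⧸ N` is `ρ`), such that for every
prime `𝔓` of `𝓞 Ω` not containing `|G|` and `τ` in its inertia group, `ρ τ = 1 → ρ_i τ = 1`.
`i = 0`: `L 0 = N`.  Step: `low_step` for
`π = QuotientGroup.map (L (i+1)) (L i) (MonoidHom.id G) _ : G ⧸ L (i+1) →* G ⧸ L i`, surjective; its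
kernel is `(L i).map (mk' (L (i+1)))`, commutative because `⁅L i, L i⁆ ≤ L (i+1)`, of order
`(L (i+1)).relIndex (L i)`; `Nat.card (G ⧸ L i) = (L i).index`; `|G ⧸ L (i+1)| ≤ |G|`; the order of the
kernel divides `|G|`, so there is a primitive root of that order in `K`
(`IsPrimitiveRoot.pow`), and a prime `𝔓` not containing `|G|` does not contain the divisor
`|ker|`.
At `i = r` use `G ⧸ ⊥ ≃* G` (`QuotientGroup.quotientBot`).
(The normality of `L 0 = N` is the instance, the others are part of the tower; the dependent types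
are easiest if you prove a statement
`∀ i ≤ r, ∀ (P : Subgroup G) [P.Normal], P = L i → ∃ ρ_i : Γ →* G ⧸ P, ...`.)
-/

open scoped NumberField Pointwise commutatorElement

namespace H38.ML

variable {K Ω : Type} [Field K] [NumberField K] [Field Ω] [Algebra K Ω] [IsAlgClosure K Ω]

theorem low_chain_aux {G : Type} [Group G] [Finite G] (N : Subgroup G) [N.Normal]
    (r : ℕ) (L : ℕ → Subgroup G) (hL0 : L 0 = N)
    (hL : ∀ i < r, L (i + 1) ≤ L i ∧ (L (i + 1)).Normal ∧ ⁅L i, L i⁆ ≤ L (i + 1) ∧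
      Nat.Coprime (L i).index ((L (i + 1)).relIndex (L i)))
    (hK : NumberField.IsTotallyComplex K)
    (hs : Nat.card G + 1 ≤ Fintype.card (NumberField.InfinitePlace K)) (ζ : K)
    (hζ : IsPrimitiveRoot ζ (Nat.card G)) (ρ : Gal(Ω/K) →* G ⧸ N) (hρ : Function.Surjective ρ)
    (hft : FT ρ) (i : ℕ) :
    i ≤ r → ∀ (P : Subgroup G) [P.Normal], P = L i →
      ∃ ρi : Gal(Ω/K) →* G ⧸ P, Function.Surjective ρi ∧ FT ρi ∧
        (∀ (σ : Gal(Ω/K)) (g : G), (g : G ⧸ P) = ρi σ → (g : G ⧸ N) = ρ σ) ∧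
        ∀ 𝔓 : Ideal (𝓞 Ω), 𝔓.IsPrime → ((Nat.card G : ℕ) : 𝓞 Ω) ∉ 𝔓 →
          ∀ τ ∈ 𝔓.inertia Gal(Ω/K), ρ τ = 1 → ρi τ = 1 := by
  induction i with
  | zero =>
    intro _ P hPn hP
    rw [hL0] at hP
    subst hP
    exact ⟨ρ, hρ, hft, fun σ g h => h, fun 𝔓 _ _ τ _ h => h⟩
  | succ i ih =>
    intro hi P' hPn' hP'
    obtain ⟨hle, -, hcomm, hcop⟩ := hL i (by omega)
    have hnorm : (L i).Normal := by
      rcases Nat.eq_zero_or_pos i with h | h
      · rw [h, hL0]; infer_instance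
      · obtain ⟨k, rfl⟩ : ∃ k, i = k + 1 := ⟨i - 1, by omega⟩
        exact (hL k (by omega)).2.1
    obtain ⟨P, hP⟩ : ∃ P, P = L i := ⟨_, rfl⟩
    rw [← hP, ← hP'] at hcop
    rw [← hP] at hcomm hnorm
    rw [← hP, ← hP'] at hle
    rw [← hP'] at hcomm
    obtain ⟨ρi, hsurj, hfti, hlift, hin⟩ := ih (by omega) P hP
    let π : G ⧸ P' →* G ⧸ P := QuotientGroup.map P' P (MonoidHom.id G) (by
      rw [Subgroup.comap_id]; exact hle)
    have hπmk : ∀ g : G, π (g : G ⧸ P') = (g : G ⧸ P) := fun g => rfl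
    have hπ : Function.Surjective π := by
      intro y
      obtain ⟨g, rfl⟩ := QuotientGroup.mk_surjective y
      exact ⟨(g : G ⧸ P'), rfl⟩
    have hab : ∀ a b : G ⧸ P', π a = 1 → π b = 1 → a * b = b * a := by
      intro a b
      obtain ⟨x, rfl⟩ := QuotientGroup.mk_surjective a
      obtain ⟨y, rfl⟩ := QuotientGroup.mk_surjective b
      intro hx hy
      rw [hπmk, QuotientGroup.eq_one_iff] at hx hy
      rw [← QuotientGroup.mk_mul, ← QuotientGroup.mk_mul, QuotientGroup.eq]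
      apply hcomm
      have h1 : (x * y)⁻¹ * (y * x) = ⁅y⁻¹, x⁻¹⁆ := by
        rw [commutatorElement_def]
        group
      rw [h1]
      exact Subgroup.commutator_mem_commutator (P.inv_mem hy) (P.inv_mem hx)
    have hcard : Nat.card π.ker = P'.relIndex P := by
      have h1 := Subgroup.card_mul_index π.ker
      rw [Subgroup.index_ker, MonoidHom.range_eq_top.2 hπ, Subgroup.card_top] at h1
      have h2 := Subgroup.relIndex_mul_index hle
      have h3 : Nat.card (G ⧸ P) = P.index := rfl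
      have h4 : Nat.card (G ⧸ P') = P'.index := rfl
      rw [h3, h4, ← h2] at h1
      exact Nat.eq_of_mul_eq_mul_right (Nat.pos_of_ne_zero P.index_ne_zero_of_finite) h1
    have hdvd : Nat.card π.ker ∣ Nat.card G := by
      have h1 : Nat.card π.ker ∣ Nat.card (G ⧸ P') := Subgroup.card_subgroup_dvd_card _
      exact h1.trans (Subgroup.index_dvd_card P')
    obtain ⟨c, hc⟩ := hdvd
    have hGpos : 0 < Nat.card G := Nat.card_pos
    have hζ' : IsPrimitiveRoot (ζ ^ c) (Nat.card π.ker) :=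
      hζ.pow hGpos (by rw [hc, mul_comm])
    obtain ⟨ρ', hsurj', hft', hlift', hin'⟩ := low_step π hπ hab (by
        rw [hcard]
        exact hcop) hK (by
        refine le_trans (Nat.add_le_add_right ?_ 1) hs
        exact Nat.le_of_dvd hGpos (Subgroup.index_dvd_card P')) (ζ ^ c) hζ' ρi hsurj hfti
    refine ⟨ρ', hsurj', hft', ?_, ?_⟩
    · intro σ g hg
      apply hlift
      rw [← hπmk, hg, hlift']
    · intro 𝔓 h𝔓 hG τ hτ hτ1
      refine hin' 𝔓 h𝔓 (fun hmem => hG ?_) τ hτ (hin 𝔓 h𝔓 hG τ hτ hτ1)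
      rw [hc, Nat.cast_mul]
      exact Ideal.mul_mem_right _ _ hmem

theorem low_chain {G : Type} [Group G] [Finite G] (N : Subgroup G) [N.Normal]
    (htow : CoprimeTower N) (hK : NumberField.IsTotallyComplex K)
    (hs : Nat.card G + 1 ≤ Fintype.card (NumberField.InfinitePlace K)) (ζ : K)
    (hζ : IsPrimitiveRoot ζ (Nat.card G)) (ρ : Gal(Ω/K) →* G ⧸ N) (hρ : Function.Surjective ρ)
    (hft : FT ρ) :
    ∃ ρ' : Gal(Ω/K) →* G, Function.Surjective ρ' ∧ FT ρ' ∧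
      (∀ σ, ((ρ' σ : G) : G ⧸ N) = ρ σ) ∧
      ∀ 𝔓 : Ideal (𝓞 Ω), 𝔓.IsPrime → ((Nat.card G : ℕ) : 𝓞 Ω) ∉ 𝔓 →
        ∀ τ ∈ 𝔓.inertia Gal(Ω/K), ρ τ = 1 → ρ' τ = 1 := by
  obtain ⟨r, L, hL0, hLr, hL⟩ := htow
  obtain ⟨ρr, hsurj, hftr, hlift, hin⟩ :=
    low_chain_aux N r L hL0 hL hK hs ζ hζ ρ hρ hft r le_rfl ⊥ hLr.symm
  let e : G ⧸ (⊥ : Subgroup G) ≃* G := QuotientGroup.quotientBot
  have he : ∀ x : G ⧸ (⊥ : Subgroup G), ((e x : G) : G ⧸ (⊥ : Subgroup G)) = x := by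
    intro x
    obtain ⟨g, rfl⟩ := QuotientGroup.mk_surjective x
    rfl
  refine ⟨e.toMonoidHom.comp ρr, e.surjective.comp hsurj, ?_, ?_, ?_⟩
  · obtain ⟨E, hE, hle⟩ := hftr
    refine ⟨E, hE, fun σ hσ => ?_⟩
    have h1 : ρr σ = 1 := hle hσ
    rw [MonoidHom.mem_ker]
    change e (ρr σ) = 1
    rw [h1, map_one]
  · intro σ
    exact hlift σ _ (he _)
  · intro 𝔓 h𝔓 hG τ hτ hτ1
    change e (ρr τ) = 1
    rw [hin 𝔓 h𝔓 hG τ hτ hτ1, map_one]

end H38.ML
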