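import Pool.Agent.H38.ML.Factor

/-!
# [H38 ML FROBROOTS] The cycle type of a Frobenius element on the roots of a polynomial
(120-180 lines)

`f` monic over `𝓞 K`, `v` a nonzero prime of `K`, `κ = 𝓞 K ⧸ v` (a finite field with `q` elements),
`f̄ = f.map (Ideal.Quotient.mk v)` separable.  `R = (f.map (algebraMap (𝓞 K) K)).rootSet Ω`, the set of
roots of `f` in `Ω`; the roots are algebraic integers.
Let `M` be a finite Galois extension of `K` inside `Ω` containing all roots (normal closure of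
`K(R)`), `Q` a prime of `𝓞 M` above `v`, `κ' = 𝓞 M ⧸ Q` a finite field extension of `κ`.  By
`IsArithFrobAt.exists_of_isInvariant` (`Mathlib/RingTheory/Frobenius.lean`) there is `σ₀ ∈ Gal(M/K)` with
`σ₀ x ≡ x ^ q mod Q` for all `x : 𝓞 M`; let `σ ∈ Gal(Ω/K)` be an extension of `σ₀`
(`AlgEquiv.restrictNormalHom_surjective`).
`f = ∏_{x ∈ R} (X - x)^{m_x}` over `𝓞 M`; reducing modulo `Q` and using that `f̄` is separable, all
`m_x = 1` and the reductions `r x` (`x ∈ R`) are pairwise different and are exactly the roots of `f̄`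
in `κ'`, where `f̄` splits.  `r (σ x) = (r x) ^ q`.
Put `c x = minpoly κ (r x)`: monic irreducible, divides `f̄`.  `c (σ x) = c x` (Frobenius is a
`κ`-automorphism of `κ'`).  If `c x = c y` then `r x`, `r y` are conjugate over `κ`, and `Gal(κ'/κ)` is
generated by the Frobenius (Mathlib: `FiniteField`, `frobeniusAlgEquivOfAlgebraic`,
`bijective_frobenius..._pow`), so `r y = (r x) ^ (q ^ i) = r (σ^i x)`, so `y = σ^i x`.
For a monic irreducible divisor `g` of `f̄`, the elements `x` with `c x = g` correspond to the roots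
of `g` in `κ'` (`g` splits there because it divides `f̄`, and it is separable): `natDegree g` many.
-/

set_option linter.unusedSectionVars false
open scoped NumberField Pointwise Polynomial
noncomputable section
namespace H38.ML


theorem frobRoots_abs {κ κ' : Type} [Field κ] [Field κ'] [Finite κ'] [Algebra κ κ']
    (fb : κ[X]) (hsep : fb.Separable) (hspl : (fb.map (algebraMap κ κ')).Splits)
    {R : Type} (r : R → κ') (hr : Function.Injective r)
    (hr1 : ∀ x, Polynomial.aeval (r x) fb = 0)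
    (hr2 : ∀ z, Polynomial.aeval z fb = 0 → ∃ x, r x = z)
    (s : R → R) (hs : ∀ x, r (s x) = r x ^ Nat.card κ) :
    (∀ x, Irreducible (minpoly κ (r x)) ∧ (minpoly κ (r x)).Monic ∧ minpoly κ (r x) ∣ fb) ∧
    (∀ x y, minpoly κ (r x) = minpoly κ (r y) ↔ ∃ i : ℕ, s^[i] x = y) ∧
    (∀ g : κ[X], Irreducible g → g.Monic → g ∣ fb →
      Nat.card {x // minpoly κ (r x) = g} = g.natDegree) := by
  classical
  have hfin : Finite κ := Finite.of_injective _ (algebraMap κ κ').injective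
  letI : Fintype κ := Fintype.ofFinite κ
  have hint : ∀ z : κ', IsIntegral κ z := fun z => Algebra.IsIntegral.isIntegral z
  have hs' : ∀ (i : ℕ) x, r (s^[i] x) = r x ^ (Fintype.card κ ^ i) := by
    intro i
    induction i with
    | zero => intro x; simp
    | succ i ih =>
      intro x
      rw [Function.iterate_succ_apply', hs, ih, Nat.card_eq_fintype_card, ← pow_mul, pow_succ]
  refine ⟨fun x => ⟨minpoly.irreducible (hint _), minpoly.monic (hint _), minpoly.dvd _ _ (hr1 x)⟩,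
    fun x y => ⟨fun h => ?_, ?_⟩, fun g hg hgm hgf => ?_⟩
  · have h1 : IsConjRoot κ (r y) (r x) := h.symm
    rw [isConjRoot_iff_exists_algEquiv] at h1
    obtain ⟨τ, hτ⟩ := h1
    obtain ⟨n, hn⟩ := (FiniteField.bijective_frobeniusAlgEquivOfAlgebraic_pow κ κ').2 τ
    refine ⟨n.1, hr ?_⟩
    rw [hs', ← hτ, ← hn]
    simp only
    rw [AlgEquiv.coe_pow, FiniteField.coe_frobeniusAlgEquivOfAlgebraic_iterate]
  · rintro ⟨i, rfl⟩
    have h2 : r (s^[i] x) = (FiniteField.frobeniusAlgEquivOfAlgebraic κ κ' ^ i) (r x) := by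
      rw [AlgEquiv.coe_pow, FiniteField.coe_frobeniusAlgEquivOfAlgebraic_iterate, hs']
    rw [h2, minpoly.algEquiv_eq]
  · have h1 : ∀ x, minpoly κ (r x) = g ↔ Polynomial.aeval (r x) g = 0 := by
      intro x
      constructor
      · intro h
        rw [← h, minpoly.aeval]
      · intro h
        exact (minpoly.eq_of_irreducible_of_monic hg h hgm).symm
    have hgsep : g.Separable := hsep.of_dvd hgf
    have hgspl : (g.map (algebraMap κ κ')).Splits := by
      refine Polynomial.Splits.of_dvd hspl ?_ (Polynomial.map_dvd _ hgf)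
      exact Polynomial.map_ne_zero hsep.ne_zero
    rw [← Polynomial.card_rootSet_eq_natDegree hgsep hgspl, ← Nat.card_eq_fintype_card]
    refine Nat.card_congr (Equiv.ofBijective (fun x => ⟨r x.1, ?_⟩) ⟨?_, ?_⟩)
    · rw [Polynomial.mem_rootSet]
      exact ⟨hg.ne_zero, (h1 _).1 x.2⟩
    · intro x y hxy
      exact Subtype.ext (hr (congrArg Subtype.val hxy))
    · rintro ⟨z, hz⟩
      rw [Polynomial.mem_rootSet] at hz
      obtain ⟨x, hx⟩ := hr2 z (by
        obtain ⟨g', hg'⟩ := hgf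
        rw [hg', map_mul, hz.2, zero_mul])
      exact ⟨⟨x, (h1 x).2 (by rw [hx]; exact hz.2)⟩, Subtype.ext hx⟩

variable {K Ω : Type} [Field K] [NumberField K] [Field Ω] [Algebra K Ω] [IsAlgClosure K Ω]

theorem frobRoots_lift (M : IntermediateField K Ω) [NumberField M]
    (f : (𝓞 K)[X]) (hf : f.Monic)
    (hM : ((f.map (algebraMap (𝓞 K) K)).map (algebraMap K M)).Splits) :
    ∃ t : Multiset (𝓞 M), f.map (algebraMap (𝓞 K) (𝓞 M)) =
      (t.map fun a => Polynomial.X - Polynomial.C a).prod := by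
  classical
  set g := (f.map (algebraMap (𝓞 K) K)).map (algebraMap K M) with hg
  have hgm : g.Monic := (hf.map _).map _
  have hgp := hM.eq_prod_roots_of_monic hgm
  have hgf : g = f.map (algebraMap (𝓞 K) M) := by
    rw [hg, Polynomial.map_map, ← IsScalarTower.algebraMap_eq]
  have hroot : ∀ a ∈ g.roots, ∃ y : 𝓞 M, algebraMap (𝓞 M) M y = a := by
    intro a ha
    have h1 : g.eval a = 0 := Polynomial.isRoot_of_mem_roots ha
    rw [hgf, Polynomial.eval_map_algebraMap] at h1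
    have h2 : IsIntegral (𝓞 K) a := ⟨f, hf, h1⟩
    have h4 : IsScalarTower ℤ (𝓞 K) M := by
      refine IsScalarTower.of_algebraMap_eq' ?_
      exact RingHom.ext_int _ _
    have h3 : IsIntegral ℤ a := isIntegral_trans a h2
    exact ⟨⟨a, h3⟩, rfl⟩
  have hlift : ∀ s : Multiset M, (∀ a ∈ s, ∃ y : 𝓞 M, algebraMap (𝓞 M) M y = a) →
      ∃ t : Multiset (𝓞 M), t.map (algebraMap (𝓞 M) M) = s := by
    intro s
    induction s using Multiset.induction with
    | empty => exact fun _ => ⟨0, rfl⟩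
    | cons a s ih =>
      intro h
      obtain ⟨t, ht⟩ := ih (fun b hb => h b (Multiset.mem_cons_of_mem hb))
      obtain ⟨y, hy⟩ := h a (Multiset.mem_cons_self _ _)
      exact ⟨y ::ₘ t, by rw [Multiset.map_cons, ht, hy]⟩
  obtain ⟨t, ht⟩ := hlift _ hroot
  refine ⟨t, ?_⟩
  apply Polynomial.map_injective (algebraMap (𝓞 M) M) (FaithfulSMul.algebraMap_injective _ _)
  rw [Polynomial.map_map, ← IsScalarTower.algebraMap_eq, ← hgf, hgp, Polynomial.map_multiset_prod,
    Multiset.map_map, ← ht, Multiset.map_map]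
  congr 1
  refine Multiset.map_congr rfl (fun a _ => ?_)
  simp


theorem frobRoots_exists (M : IntermediateField K Ω) [NumberField M] [IsGalois K M]
    (v : Ideal (𝓞 K)) [v.IsPrime] (hv : v ≠ ⊥) :
    ∃ (Q : Ideal (𝓞 M)) (σ : Gal(M/K)), Q.IsMaximal ∧ Q.LiesOver v ∧ Finite (𝓞 M ⧸ Q) ∧
      ∀ x : 𝓞 M, Ideal.Quotient.mk Q (σ • x) =
        (Ideal.Quotient.mk Q x) ^ Nat.card (𝓞 K ⧸ v) := by
  classical
  have hvm : v.IsMaximal := Ideal.IsPrime.isMaximal inferInstance hv
  obtain ⟨Q, hQ, hQv⟩ := Ideal.exists_maximal_ideal_liesOver_of_isIntegral (S := 𝓞 M) v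
  have hQ0 : Q ≠ ⊥ := Ideal.ne_bot_of_liesOver_of_ne_bot hv Q
  have hfin : Finite (𝓞 M ⧸ Q) := Ideal.finiteQuotientOfFreeOfNeBot Q hQ0
  obtain ⟨σ, hσ⟩ := IsArithFrobAt.exists_of_isInvariant (𝓞 K) Gal(M/K) Q
  refine ⟨Q, σ, hQ, hQv, hfin, fun x => ?_⟩
  have h1 := AlgHom.IsArithFrobAt.mk_apply hσ x
  rw [← Ideal.over_def Q v] at h1
  exact h1


theorem frob_roots (f : (𝓞 K)[X]) (hf : f.Monic) (v : Ideal (𝓞 K)) [v.IsPrime] (hv : v ≠ ⊥)
    (hsep : (f.map (Ideal.Quotient.mk v)).Separable) :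
    ∃ (σ : Gal(Ω/K)) (c : (f.map (algebraMap (𝓞 K) K)).rootSet Ω → (𝓞 K ⧸ v)[X]),
      (∀ x, Irreducible (c x) ∧ (c x).Monic ∧ c x ∣ f.map (Ideal.Quotient.mk v)) ∧
      (∀ x y, c x = c y ↔ ∃ i : ℕ, (σ ^ i) (x : Ω) = (y : Ω)) ∧
      (∀ g : (𝓞 K ⧸ v)[X], Irreducible g → g.Monic → g ∣ f.map (Ideal.Quotient.mk v) →
        Nat.card {x // c x = g} = g.natDegree) := by
  classical
  haveI : IsAlgClosed Ω := IsAlgClosure.isAlgClosed K
  haveI : Normal K Ω := IsAlgClosure.normal K Ω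
  have hvm : v.IsMaximal := Ideal.IsPrime.isMaximal inferInstance hv
  have hfKm : (f.map (algebraMap (𝓞 K) K)).Monic := hf.map _
  have hsplΩ : ((f.map (algebraMap (𝓞 K) K)).map (algebraMap K Ω)).Splits := IsAlgClosed.splits _
  obtain ⟨M, hM⟩ : ∃ M : IntermediateField K Ω,
      M = IntermediateField.adjoin K ((f.map (algebraMap (𝓞 K) K)).rootSet Ω) := ⟨_, rfl⟩
  haveI hsf : (f.map (algebraMap (𝓞 K) K)).IsSplittingField K M := by
    rw [hM]
    exact IntermediateField.adjoin_rootSet_isSplittingField hsplΩ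
  haveI : FiniteDimensional K M :=
    Polynomial.IsSplittingField.finiteDimensional M (f.map (algebraMap (𝓞 K) K))
  haveI : NumberField M := NumberField.of_module_finite K M
  haveI : Normal K M := Normal.of_isSplittingField (f.map (algebraMap (𝓞 K) K))
  haveI : IsGalois K M := ⟨⟩
  obtain ⟨t, ht⟩ := frobRoots_lift M f hf hsf.splits'
  obtain ⟨Q, σ₀, hQ, hQv, hfin, hσ₀⟩ := frobRoots_exists M v hv
  letI : Field (𝓞 K ⧸ v) := Ideal.Quotient.field v
  letI : Field (𝓞 M ⧸ Q) := Ideal.Quotient.field Q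
  have hmapQ : (f.map (Ideal.Quotient.mk v)).map (algebraMap (𝓞 K ⧸ v) (𝓞 M ⧸ Q)) =
      (f.map (algebraMap (𝓞 K) (𝓞 M))).map (Ideal.Quotient.mk Q) := by
    rw [Polynomial.map_map, Polynomial.map_map]
    congr 1
  have hprod : (f.map (Ideal.Quotient.mk v)).map (algebraMap (𝓞 K ⧸ v) (𝓞 M ⧸ Q)) =
      ((t.map (Ideal.Quotient.mk Q)).map fun a => Polynomial.X - Polynomial.C a).prod := by
    rw [hmapQ, ht, Polynomial.map_multiset_prod, Multiset.map_map, Multiset.map_map]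
    congr 1
    refine Multiset.map_congr rfl (fun a _ => ?_)
    simp
  have hroots : ((f.map (Ideal.Quotient.mk v)).map (algebraMap (𝓞 K ⧸ v) (𝓞 M ⧸ Q))).roots =
      t.map (Ideal.Quotient.mk Q) := by
    rw [hprod, Polynomial.roots_multiset_prod_X_sub_C]
  have hnodup : (t.map (Ideal.Quotient.mk Q)).Nodup := by
    rw [← hroots]
    exact Polynomial.nodup_roots (hsep.map)
  have hinj : ∀ a ∈ t, ∀ b ∈ t, Ideal.Quotient.mk Q a = Ideal.Quotient.mk Q b → a = b :=
    Multiset.inj_on_of_nodup_map hnodup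
  have hspl : ((f.map (Ideal.Quotient.mk v)).map
      (algebraMap (𝓞 K ⧸ v) (𝓞 M ⧸ Q))).Splits := by
    rw [hprod]
    refine Polynomial.Splits.multisetProd ?_
    intro p hp
    rw [Multiset.mem_map] at hp
    obtain ⟨a, -, rfl⟩ := hp
    exact Polynomial.Splits.X_sub_C _
  have hfΩ : (f.map (algebraMap (𝓞 K) K)).map (algebraMap K Ω) =
      ((t.map (fun a : 𝓞 M => ((a : M) : Ω))).map fun a => Polynomial.X - Polynomial.C a).prod := by
    have h1 : (f.map (algebraMap (𝓞 K) K)).map (algebraMap K Ω) =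
        (f.map (algebraMap (𝓞 K) (𝓞 M))).map ((algebraMap M Ω).comp (algebraMap (𝓞 M) M)) := by
      rw [Polynomial.map_map, Polynomial.map_map]
      congr 1
    rw [h1, ht, Polynomial.map_multiset_prod, Multiset.map_map, Multiset.map_map]
    congr 1
    refine Multiset.map_congr rfl (fun a _ => ?_)
    simp
  have hrootsΩ : ∀ x, x ∈ (f.map (algebraMap (𝓞 K) K)).rootSet Ω ↔
      ∃ a ∈ t, ((a : M) : Ω) = x := by
    intro x
    rw [Polynomial.rootSet, Polynomial.aroots, hfΩ, Polynomial.roots_multiset_prod_X_sub_C]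
    simp
  have hmem : ∀ x ∈ (f.map (algebraMap (𝓞 K) K)).rootSet Ω, ∃ a ∈ t, ((a : M) : Ω) = x :=
    fun x hx => (hrootsΩ x).1 hx
  choose xi hxi hxi2 using fun x : (f.map (algebraMap (𝓞 K) K)).rootSet Ω => hmem x.1 x.2
  obtain ⟨σ, hσ⟩ := AlgEquiv.restrictNormalHom_surjective Ω σ₀
  have hσM : ∀ y : M, σ (y : Ω) = ((σ₀ y : M) : Ω) := by
    intro y
    rw [← hσ]
    exact (AlgEquiv.restrictNormal_commutes σ M y).symm
  have hσmem : ∀ x ∈ (f.map (algebraMap (𝓞 K) K)).rootSet Ω,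
      σ x ∈ (f.map (algebraMap (𝓞 K) K)).rootSet Ω := by
    intro x hx
    rw [Polynomial.mem_rootSet] at hx ⊢
    refine ⟨hx.1, ?_⟩
    have h2 := Polynomial.aeval_algHom_apply (σ : Ω →ₐ[K] Ω) x (f.map (algebraMap (𝓞 K) K))
    rw [hx.2, map_zero] at h2
    exact h2
  have hxival : ∀ (x : (f.map (algebraMap (𝓞 K) K)).rootSet Ω) (a : 𝓞 M),
      ((a : M) : Ω) = x → xi x = a := by
    intro x a ha
    have h1 : (((xi x : 𝓞 M) : M) : Ω) = ((a : M) : Ω) := by rw [hxi2, ha]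
    have h2 : ((xi x : 𝓞 M) : M) = (a : M) := Subtype.ext h1
    exact NumberField.RingOfIntegers.ext h2
  have g1 : Function.Injective (fun x => Ideal.Quotient.mk Q (xi x)) := by
    intro x y hxy
    have h5 := hinj _ (hxi x) _ (hxi y) hxy
    apply Subtype.ext
    rw [← hxi2 x, ← hxi2 y, h5]
  have g2 : ∀ x, Polynomial.aeval (Ideal.Quotient.mk Q (xi x))
      (f.map (Ideal.Quotient.mk v)) = 0 := by
    intro x
    have h6 : Ideal.Quotient.mk Q (xi x) ∈ ((f.map (Ideal.Quotient.mk v)).map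
        (algebraMap (𝓞 K ⧸ v) (𝓞 M ⧸ Q))).roots := by
      rw [hroots]
      exact Multiset.mem_map_of_mem _ (hxi x)
    have h7 := Polynomial.isRoot_of_mem_roots h6
    rw [Polynomial.IsRoot, Polynomial.eval_map_algebraMap] at h7
    exact h7
  have g3 : ∀ z : 𝓞 M ⧸ Q, Polynomial.aeval z (f.map (Ideal.Quotient.mk v)) = 0 →
      ∃ x, Ideal.Quotient.mk Q (xi x) = z := by
    intro z hz
    have h6 : z ∈ ((f.map (Ideal.Quotient.mk v)).map
        (algebraMap (𝓞 K ⧸ v) (𝓞 M ⧸ Q))).roots := by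
      rw [Polynomial.mem_roots (Polynomial.map_ne_zero hsep.ne_zero), Polynomial.IsRoot,
        Polynomial.eval_map_algebraMap]
      exact hz
    rw [hroots, Multiset.mem_map] at h6
    obtain ⟨a, ha, rfl⟩ := h6
    refine ⟨⟨((a : M) : Ω), (hrootsΩ _).2 ⟨a, ha, rfl⟩⟩, ?_⟩
    rw [hxival _ a rfl]
  have g4 : ∀ x : (f.map (algebraMap (𝓞 K) K)).rootSet Ω,
      Ideal.Quotient.mk Q (xi ⟨σ x.1, hσmem x.1 x.2⟩) =
        (Ideal.Quotient.mk Q (xi x)) ^ Nat.card (𝓞 K ⧸ v) := by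
    intro x
    rw [← hσ₀ (xi x)]
    congr 1
    apply hxival
    simp only
    rw [← hxi2 x, hσM]
    rfl
  have h4 : ∀ (i : ℕ) (x : (f.map (algebraMap (𝓞 K) K)).rootSet Ω),
      (((fun x : (f.map (algebraMap (𝓞 K) K)).rootSet Ω =>
        (⟨σ x.1, hσmem x.1 x.2⟩ : (f.map (algebraMap (𝓞 K) K)).rootSet Ω))^[i] x :
          (f.map (algebraMap (𝓞 K) K)).rootSet Ω) : Ω) = (σ ^ i) (x : Ω) := by
    intro i
    induction i with
    | zero => intro x; simp
    | succ i ih =>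
      intro x
      rw [Function.iterate_succ_apply']
      simp only [ih]
      rw [pow_succ']
      rfl
  obtain ⟨h1, h2, h3⟩ := frobRoots_abs (κ := 𝓞 K ⧸ v) (κ' := 𝓞 M ⧸ Q)
    (f.map (Ideal.Quotient.mk v)) hsep hspl
    (fun x => Ideal.Quotient.mk Q (xi x)) g1 g2 g3 (fun x => ⟨σ x.1, hσmem x.1 x.2⟩) g4
  refine ⟨σ, fun x => minpoly (𝓞 K ⧸ v) (Ideal.Quotient.mk Q (xi x)), h1, ?_, h3⟩
  intro x y
  rw [h2 x y]
  refine exists_congr (fun i => ?_)
  rw [← h4 i x, Subtype.ext_iff]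

end H38.ML
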