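import Pool.Agent.H38.ML.Basic

/-!
# [H38 ML INDEPUNITS] Units of a Galois extension with independent conjugates (120-200 lines)

`K` is totally complex with at least `s + 1` infinite places; `M/K` Galois.
Choose different infinite places `v_1, …, v_s` and one more, `v_0`, of `K`, and places `w_i` of `M` above
`v_i`.  All places of `M` are complex (`mult = 2`) because `K` is totally complex, and
`Gal(M/K)` acts simply transitively on the places above a fixed (complex) place `v` of `K`:
transitivity is `InfinitePlace.exists_smul_eq_of_comap_eq`; the stabilizer is trivial because a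
place above a complex place is unramified (`InfinitePlace.IsUnramified`,
`isUnramified_iff_card_stabilizer_eq_one`, `IsComplex` of the comap).
By `NumberField.Units.dirichletUnitTheorem.exists_unit` there is a unit `η_i` with
`log (w η_i) < 0` for all `w ≠ w_i`; by the product formula
(`NumberField.Units.sum_mult_mul_log`, `∑_w mult w * log w(u) = 0`) and `mult = 2`,
`∑_w log (w η_i) = 0`.
Consider the square matrix `B` indexed by `Fin s × Gal(M/K)`:
`B_{(i,σ),(j,τ)} = log ((τ • w_j) (σ η_i)) = log ((σ⁻¹ τ • w_j) η_i)`.  It is negative unless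
`σ⁻¹ τ • w_j = w_i`, i.e. unless `(j, τ) = (i, σ)` (restrict to `K`: `v_j = v_i`; then the stabilizer is
trivial).  Row `(i, σ)`: the sum over all places `w` of `M` of `log (w (σ η_i))` is `0`; the places
`τ • w_j` (`j = 1..s`, `τ`) are pairwise different and there are further places (those above `v_0`), at
which the value is negative, so the sum over the columns of `B` is `> 0`: the diagonal
entry is larger than the sum of the absolute values of the others.  `B` is strictly diagonally
dominant, `det B ≠ 0` (`det_ne_zero_of_sum_row_lt_diag`).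
If `∏ (σ η_i) ^ n i σ = 1` then taking `log (w ·)` for `w = τ • w_j` gives
`∑ n i σ * B_{(i,σ),(j,τ)} = 0` for all `(j,τ)`: `n` is in the left kernel, so `n = 0`
(`Matrix.eq_zero_of_vecMul_eq_zero`).
-/

open scoped NumberField Pointwise

namespace H38.ML

open NumberField InfinitePlace in
/-- the stabilizer of a place above a complex place is trivial -/
private theorem iu_stab {K M : Type} [Field K] [NumberField K] [Field M] [NumberField M]
    [Algebra K M] [IsGalois K M] (hK : NumberField.IsTotallyComplex K) (w : InfinitePlace M)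
    (σ : Gal(M/K)) (h : σ • w = w) : σ = 1 := by
  have hun : IsUnramified K w :=
    isUnramified_iff.mpr (Or.inr (hK.isComplex _))
  rw [isUnramified_iff_stabilizer_eq_bot] at hun
  have : σ ∈ MulAction.stabilizer Gal(M/K) w := h
  rw [hun] at this
  exact this

open NumberField InfinitePlace in
private theorem iu_comap {K M : Type} [Field K] [NumberField K] [Field M] [NumberField M]
    [Algebra K M] [IsGalois K M] (w : InfinitePlace M) (σ : Gal(M/K)) :
    (σ • w).comap (algebraMap K M) = w.comap (algebraMap K M) :=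
  (mem_orbit_iff.mp (MulAction.mem_orbit w σ)).symm

open NumberField InfinitePlace in
/-- diagonal dominance of one row -/
private theorem iu_row {K M : Type} [Field K] [NumberField K] [Field M] [NumberField M]
    [Algebra K M] [IsGalois K M] (hK : NumberField.IsTotallyComplex K) {s : ℕ}
    [DecidableEq (Fin s × Gal(M/K))] (w : Fin s → InfinitePlace M) (w0 : InfinitePlace M)
    (hw : ∀ i j, (w i).comap (algebraMap K M) = (w j).comap (algebraMap K M) → i = j)
    (hw0 : ∀ i, (w i).comap (algebraMap K M) ≠ w0.comap (algebraMap K M))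
    (i : Fin s) (σ : Gal(M/K)) (u : (𝓞 M)ˣ)
    (hu : ∀ v : InfinitePlace M, v ≠ w i → Real.log (v (u : 𝓞 M)) < 0) :
    ∑ k ∈ (Finset.univ : Finset (Fin s × Gal(M/K))).erase (i, σ),
      ‖Real.log (((σ⁻¹ * k.2) • w k.1) (u : 𝓞 M))‖ <
      ‖Real.log (((σ⁻¹ * σ) • w i) (u : 𝓞 M))‖ := by
  classical
  have hinj : Function.Injective
      (fun k : Fin s × Gal(M/K) => (σ⁻¹ * k.2) • w k.1) := by
    intro k k' h
    have h : (σ⁻¹ * k.2) • w k.1 = (σ⁻¹ * k'.2) • w k'.1 := h
    have h1 : k.1 = k'.1 := by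
      apply hw
      rw [← iu_comap (w k.1) (σ⁻¹ * k.2), h, iu_comap]
    rw [h1] at h
    have h2 : ((σ⁻¹ * k'.2)⁻¹ * (σ⁻¹ * k.2)) • w k'.1 = w k'.1 := by
      rw [mul_smul, h, inv_smul_smul]
    have h3 := iu_stab hK _ _ h2
    have h4 : k.2 = k'.2 := by
      have h5 := inv_mul_eq_one.mp h3
      exact (mul_left_cancel h5).symm
    exact Prod.ext h1 h4
  have hne : ∀ k : Fin s × Gal(M/K), k ≠ (i, σ) → (σ⁻¹ * k.2) • w k.1 ≠ w i := by
    intro k hk h
    apply hk
    apply hinj
    show (σ⁻¹ * k.2) • w k.1 = (σ⁻¹ * σ) • w i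
    rw [h, inv_mul_cancel, one_smul]
  have htot := Units.sum_mult_mul_log u
  have hmult : ∀ v : InfinitePlace M, (v.mult : ℝ) = 2 := by
    intro v
    have hc : IsComplex v := IsComplex.of_comap (algebraMap K M) (hK.isComplex _)
    rw [mult, if_neg (not_isReal_iff_isComplex.mpr hc)]
    norm_num
  have htot2 : ∑ v : InfinitePlace M, Real.log (v (u : 𝓞 M)) = 0 := by
    have h1 : ∑ v : InfinitePlace M, (v.mult : ℝ) * Real.log (v (u : 𝓞 M)) =
        2 * ∑ v : InfinitePlace M, Real.log (v (u : 𝓞 M)) := by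
      rw [Finset.mul_sum]
      exact Finset.sum_congr rfl fun v _ => by rw [hmult v]
    rw [h1] at htot
    linarith
  have himg : ∑ v ∈ Finset.univ.image (fun k : Fin s × Gal(M/K) => (σ⁻¹ * k.2) • w k.1),
      Real.log (v (u : 𝓞 M)) =
      ∑ k : Fin s × Gal(M/K), Real.log (((σ⁻¹ * k.2) • w k.1) (u : 𝓞 M)) :=
    Finset.sum_image (fun a _ b _ h => hinj h)
  have hw0mem : w0 ∉ Finset.univ.image (fun k : Fin s × Gal(M/K) => (σ⁻¹ * k.2) • w k.1) := by
    intro h
    obtain ⟨k, -, hk⟩ := Finset.mem_image.mp h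
    apply hw0 k.1
    rw [← hk, iu_comap]
  have hwimem : w i ∈ Finset.univ.image (fun k : Fin s × Gal(M/K) => (σ⁻¹ * k.2) • w k.1) := by
    refine Finset.mem_image.mpr ⟨(i, σ), Finset.mem_univ _, ?_⟩
    show (σ⁻¹ * σ) • w i = w i
    rw [inv_mul_cancel, one_smul]
  have hcompl : ∑ v ∈ (Finset.univ.image
      (fun k : Fin s × Gal(M/K) => (σ⁻¹ * k.2) • w k.1))ᶜ, Real.log (v (u : 𝓞 M)) < 0 := by
    refine Finset.sum_neg (fun v hv => hu v ?_) ⟨w0, Finset.mem_compl.mpr hw0mem⟩
    rintro rfl
    exact (Finset.mem_compl.mp hv) hwimem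
  have hsplit := Finset.sum_add_sum_compl
    (Finset.univ.image (fun k : Fin s × Gal(M/K) => (σ⁻¹ * k.2) • w k.1))
    (fun v : InfinitePlace M => Real.log (v (u : 𝓞 M)))
  rw [htot2, himg] at hsplit
  have herase := Finset.add_sum_erase Finset.univ
    (fun k : Fin s × Gal(M/K) => Real.log (((σ⁻¹ * k.2) • w k.1) (u : 𝓞 M)))
    (Finset.mem_univ (i, σ))
  have hneg : ∀ k ∈ (Finset.univ : Finset (Fin s × Gal(M/K))).erase (i, σ),
      ‖Real.log (((σ⁻¹ * k.2) • w k.1) (u : 𝓞 M))‖ =
        -Real.log (((σ⁻¹ * k.2) • w k.1) (u : 𝓞 M)) := by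
    intro k hk
    rw [Real.norm_eq_abs, abs_of_neg (hu _ (hne k (Finset.ne_of_mem_erase hk)))]
  rw [Finset.sum_congr rfl hneg, Finset.sum_neg_distrib]
  have hle : ∑ k ∈ (Finset.univ : Finset (Fin s × Gal(M/K))).erase (i, σ),
      Real.log (((σ⁻¹ * k.2) • w k.1) (u : 𝓞 M)) ≤ 0 :=
    Finset.sum_nonpos fun k hk => (hu _ (hne k (Finset.ne_of_mem_erase hk))).le
  have hlt : -∑ k ∈ (Finset.univ : Finset (Fin s × Gal(M/K))).erase (i, σ),
      Real.log (((σ⁻¹ * k.2) • w k.1) (u : 𝓞 M)) <
      Real.log (((σ⁻¹ * σ) • w i) (u : 𝓞 M)) := by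
    have h1 : Real.log (((σ⁻¹ * σ) • w i) (u : 𝓞 M)) +
        ∑ k ∈ (Finset.univ : Finset (Fin s × Gal(M/K))).erase (i, σ),
          Real.log (((σ⁻¹ * k.2) • w k.1) (u : 𝓞 M)) =
        ∑ k : Fin s × Gal(M/K), Real.log (((σ⁻¹ * k.2) • w k.1) (u : 𝓞 M)) := herase
    linarith
  exact hlt.trans_le (Real.norm_eq_abs _ ▸ le_abs_self _)

theorem indep_units (K M : Type) [Field K] [NumberField K] [Field M] [NumberField M] [Algebra K M]
    [IsGalois K M] (hK : NumberField.IsTotallyComplex K) (s : ℕ)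
    (hs : s + 1 ≤ Fintype.card (NumberField.InfinitePlace K)) :
    ∃ η : Fin s → (𝓞 M)ˣ, ∀ n : Fin s → Gal(M/K) → ℤ,
      (∏ i, ∏ σ : Gal(M/K), (σ ((η i : 𝓞 M) : M)) ^ n i σ) = 1 → n = 0 := by
  classical
  obtain ⟨f⟩ : Nonempty (Fin (s + 1) ↪ NumberField.InfinitePlace K) :=
    Function.Embedding.nonempty_of_card_le (by rw [Fintype.card_fin]; exact hs)
  have hsur := NumberField.InfinitePlace.comap_surjective (k := K) (K := M)
  choose wM hwM using hsur
  have hwM : ∀ v, (wM v).comap (algebraMap K M) = v := hwM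
  have hw : ∀ i j : Fin s, (wM (f i.castSucc)).comap (algebraMap K M) =
      (wM (f j.castSucc)).comap (algebraMap K M) → i = j := by
    intro i j h
    rw [hwM, hwM] at h
    exact Fin.castSucc_injective _ (f.injective h)
  have hw0 : ∀ i : Fin s, (wM (f i.castSucc)).comap (algebraMap K M) ≠
      (wM (f (Fin.last s))).comap (algebraMap K M) := by
    intro i h
    rw [hwM, hwM] at h
    exact (Fin.castSucc_lt_last i).ne (f.injective h)
  choose η hη using fun i : Fin s =>
    NumberField.Units.dirichletUnitTheorem.exists_unit M (wM (f i.castSucc))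
  refine ⟨η, fun n hn => ?_⟩
  have hdet := det_ne_zero_of_sum_row_lt_diag
    (A := (Matrix.of fun k l : Fin s × Gal(M/K) =>
      Real.log (((k.2⁻¹ * l.2) • wM (f l.1.castSucc)) (η k.1 : 𝓞 M)) :
        Matrix (Fin s × Gal(M/K)) (Fin s × Gal(M/K)) ℝ))
    (fun k => iu_row hK (fun i => wM (f i.castSucc)) (wM (f (Fin.last s))) hw hw0 k.1 k.2
      (η k.1) (hη k.1))
  have hvec : Matrix.vecMul (fun k : Fin s × Gal(M/K) => (n k.1 k.2 : ℝ))
      (Matrix.of fun k l : Fin s × Gal(M/K) =>
      Real.log (((k.2⁻¹ * l.2) • wM (f l.1.castSucc)) (η k.1 : 𝓞 M)) :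
        Matrix (Fin s × Gal(M/K)) (Fin s × Gal(M/K)) ℝ) = 0 := by
    funext l
    show ∑ k : Fin s × Gal(M/K), (n k.1 k.2 : ℝ) *
      Real.log (((k.2⁻¹ * l.2) • wM (f l.1.castSucc)) (η k.1 : 𝓞 M)) = 0
    have h1 := congrArg (fun x => Real.log ((l.2 • wM (f l.1.castSucc)) x)) hn
    simp only [map_prod, map_zpow₀, map_one, Real.log_one] at h1
    have hne : ∀ (i : Fin s) (σ : Gal(M/K)),
        (l.2 • wM (f l.1.castSucc)) (σ ((η i : 𝓞 M) : M)) ≠ 0 := by
      intro i σ
      rw [ne_eq, map_eq_zero, map_eq_zero]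
      have := (η i).ne_zero
      intro h
      apply this
      exact_mod_cast h
    rw [Real.log_prod (fun i _ => Finset.prod_ne_zero_iff.mpr fun σ _ => zpow_ne_zero _ (hne i σ))]
      at h1
    rw [Fintype.sum_prod_type]
    rw [← h1]
    refine Finset.sum_congr rfl fun i _ => ?_
    rw [Real.log_prod (fun σ _ => zpow_ne_zero _ (hne i σ))]
    refine Finset.sum_congr rfl fun σ _ => ?_
    rw [Real.log_zpow]
    rfl
  have hzero := Matrix.eq_zero_of_vecMul_eq_zero hdet hvec
  funext i σ
  have := congrFun hzero (i, σ)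
  simpa using this

end H38.ML
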