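import Pool.Agent.H38.ML.Lattice
import Pool.Agent.H38.ML.IndepUnits

/-!
# [H38 ML GOODUNITS] Units with conjugates independent modulo `p`-th powers (120-180 lines)

`G = Gal(M/K)`, `E = Additive (𝓞 M)ˣ`, finitely generated (`NumberField.Units` is finitely
generated: instance `Units.instFG..` / `Monoid.FG`), with the action `act : G →* AddMonoid.End E`,
`act σ = MonoidHom.toAdditive (Units.map (MulSemiringAction.toRingHom G (𝓞 M) σ))`.
Let `s = card ι * card G`.  `indep_units` gives `η : Fin s → E` with independent conjugates.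

Fix `p ∈ PP`, `V = E ⧸ p E`, a finite group (finitely generated and killed by `p`).  For
`θ : ι → G → Fin p` not identically `0`, the homomorphism
`Z_θ : (ι → V) → V`, `u ↦ ∑ i, ∑ σ, θ i σ • act σ (u i)` has at least `p ^ s` values
(`lattice_bound` for an `i` with `θ i ≠ 0`), so its kernel has at most `#V ^ card ι / p ^ s` elements.
There are `p ^ s - 1` such `θ` (functions `ι → G → Fin p`, `s = card ι * card G`), so the union of the
kernels is not all of `ι → V`: there is `u^(p) : ι → V` with `Z_θ u^(p) ≠ 0` for all `θ ≠ 0`.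
Chinese remainder theorem: choose lifts `e^(p) : ι → E` and integers `m_p` with `m_p ≡ 1 mod p`,
`m_p ≡ 0 mod p'` for `p' ∈ PP`, `p' ≠ p` (`Nat.chineseRemainderOfFinset` or
`∏_{p' ≠ p} p' ^ (p - 1)`-like); `u i = ∑_p m_p • e^(p) i` is congruent to `u^(p) i` modulo `pE` for all `p ∈ PP`.
Now let `p ∈ PP`, `θ : ι → G → ℕ` with some value not divisible by `p`, and suppose
`∏ i, ∏ σ, (σ (u i)) ^ θ i σ = y ^ p` with `y : M`.  The left side is a unit of `𝓞 M`, so `y` is
integral and a unit: `y ∈ (𝓞 M)ˣ`, so `∑ θ i σ • act σ (u i) ∈ p E`, i.e. `Z_{θ mod p} u^(p) = 0`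
(the value only depends on `θ` modulo `p` because `p V = 0`), contradiction.
-/

open scoped NumberField Pointwise

namespace H38.ML

section gu

variable {ι G E : Type} [Fintype ι] [Group G] [Fintype G] [AddCommGroup E]

/-- the map `e ↦ ∑ i, ∑ g, θ i g • act g (e i)` -/
def guZ (act : G →* AddMonoid.End E) (θ : ι → G → ℕ) : (ι → E) →+ E :=
  ∑ i, ∑ g, θ i g • (AddMonoidHom.comp (act g : E →+ E) (Pi.evalAddMonoidHom (fun _ : ι => E) i))

theorem guZ_apply (act : G →* AddMonoid.End E) (θ : ι → G → ℕ) (e : ι → E) :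
    guZ act θ e = ∑ i, ∑ g, θ i g • (act g) (e i) := by
  simp only [guZ, AddMonoidHom.finsetSum_apply]
  rfl

theorem guZ_mod (act : G →* AddMonoid.End E) (p : ℕ) (θ : ι → G → ℕ) (e : ι → E) :
    ∃ f : E, guZ act θ e = guZ act (fun i g => θ i g % p) e + p • f := by
  refine ⟨∑ i, ∑ g, (θ i g / p) • (act g) (e i), ?_⟩
  rw [guZ_apply, guZ_apply, Finset.smul_sum, ← Finset.sum_add_distrib]
  refine Finset.sum_congr rfl fun i _ => ?_
  rw [Finset.smul_sum, ← Finset.sum_add_distrib]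
  refine Finset.sum_congr rfl fun g _ => ?_
  rw [smul_smul, ← add_smul, Nat.mod_add_div]

theorem guZ_nsmul (act : G →* AddMonoid.End E) (p : ℕ) (θ : ι → G → ℕ) (e f : ι → E) :
    guZ act θ (e + p • f) = guZ act θ e + p • guZ act θ f := by
  rw [map_add, map_nsmul]

theorem gu_exists (hE : AddGroup.FG E) (act : G →* AddMonoid.End E) (p : ℕ) (hp : p.Prime)
    (hpG : ¬ p ∣ Fintype.card G) (s : ℕ) (hs : s = Fintype.card ι * Fintype.card G)
    (η : Fin s → E) (hη : ∀ n : Fin s → G → ℤ, ∑ i, ∑ g, n i g • (act g) (η i) = 0 → n = 0) :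
    ∃ e : ι → E, ∀ θ : ι → G → ℕ, (∃ i g, ¬ p ∣ θ i g) → ∀ y : E, guZ act θ e ≠ p • y := by
  classical
  have : AddGroup.FG E := hE
  have : Module.Finite ℤ E := Module.Finite.iff_addGroup_fg.mpr hE
  set D := (nsmulAddMonoidHom (α := ι → E) p).range with hD
  set DE := (nsmulAddMonoidHom (α := E) p).range with hDE
  have hppos : 0 < p := hp.pos
  have : NeZero p := ⟨hp.ne_zero⟩
  -- finiteness
  have fin1 : ∀ (A : Type) [AddCommGroup A] [Module.Finite ℤ A],
      Finite (A ⧸ (nsmulAddMonoidHom (α := A) p).range) := by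
    intro A _ _
    have : AddGroup.FG A := Module.Finite.iff_addGroup_fg.mp inferInstance
    have : AddGroup.FG (A ⧸ (nsmulAddMonoidHom (α := A) p).range) := QuotientAddGroup.fg _
    refine AddCommGroup.finite_of_fg_isAddTorsion _ ?_
    intro x
    induction x using QuotientAddGroup.induction_on with
    | H a =>
      rw [isOfFinAddOrder_iff_nsmul_eq_zero]
      refine ⟨p, hppos, ?_⟩
      rw [← QuotientAddGroup.mk_nsmul, QuotientAddGroup.eq_zero_iff]
      exact ⟨a, rfl⟩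
  have : Finite ((ι → E) ⧸ D) := fin1 (ι → E)
  have : Finite (E ⧸ DE) := fin1 E
  have : Fintype ((ι → E) ⧸ D) := Fintype.ofFinite _
  -- the maps on the quotients
  let Zb : (ι → G → ℕ) → (((ι → E) ⧸ D) →+ (E ⧸ DE)) := fun θ =>
    QuotientAddGroup.map D DE (guZ act θ) (by
      rintro _ ⟨f, rfl⟩
      exact ⟨guZ act θ f, by simp [nsmulAddMonoidHom]⟩)
  have hZb : ∀ θ e, Zb θ (QuotientAddGroup.mk e) = QuotientAddGroup.mk (guZ act θ e) := by
    intro θ e
    rfl
  have hrange : ∀ θ : ι → G → ℕ, (∃ i g, ¬ p ∣ θ i g) → p ^ s ≤ Nat.card (Zb θ).range := by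
    rintro θ ⟨i₀, g₀, h0⟩
    have hb := lattice_bound hE act p hp hpG s η hη (fun g => (θ i₀ g : ℤ)) g₀
      (by exact_mod_cast h0)
    refine hb.trans ?_
    refine Nat.card_mono (Set.toFinite _) ?_
    rintro _ ⟨e, rfl⟩
    refine ⟨QuotientAddGroup.mk (Pi.single i₀ e), ?_⟩
    rw [hZb]
    congr 1
    rw [guZ_apply, Finset.sum_eq_single i₀]
    · refine Finset.sum_congr rfl fun g _ => ?_
      rw [Pi.single_eq_same, natCast_zsmul]
    · intro i _ hi
      refine Finset.sum_eq_zero fun g _ => ?_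
      rw [Pi.single_eq_of_ne hi, map_zero, smul_zero]
    · intro h
      exact absurd (Finset.mem_univ _) h
  -- counting
  obtain ⟨x, hx⟩ : ∃ x : (ι → E) ⧸ D, ∀ θ : ι → G → Fin p, θ ≠ 0 →
      Zb (fun i g => (θ i g : ℕ)) x ≠ 0 := by
    by_contra hcon
    push Not at hcon
    set T : Finset (ι → G → Fin p) := Finset.univ.erase 0 with hT
    set ks : (ι → G → Fin p) → Finset ((ι → E) ⧸ D) := fun θ =>
      Finset.univ.filter (fun x => Zb (fun i g => (θ i g : ℕ)) x = 0) with hks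
    have hcov : (Finset.univ : Finset ((ι → E) ⧸ D)) ⊆ T.biUnion ks := by
      intro x _
      obtain ⟨θ, h1, h2⟩ := hcon x
      rw [Finset.mem_biUnion]
      exact ⟨θ, by simp [hT, h1], by simp [hks, h2]⟩
    have hcard := (Finset.card_le_card hcov).trans Finset.card_biUnion_le
    rw [Finset.card_univ] at hcard
    have hmul : ∀ θ ∈ T, p ^ s * (ks θ).card ≤ Fintype.card ((ι → E) ⧸ D) := by
      intro θ hθ
      have hne : θ ≠ 0 := by
        rw [hT] at hθ
        exact Finset.ne_of_mem_erase hθ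
      have hex : ∃ i g, ¬ p ∣ ((θ i g : Fin p) : ℕ) := by
        by_contra hc
        push Not at hc
        apply hne
        funext i g
        have := hc i g
        have h2 : ((θ i g : Fin p) : ℕ) = 0 := Nat.eq_zero_of_dvd_of_lt this (θ i g).2
        exact Fin.ext (by simpa using h2)
      have h1 := hrange _ hex
      have h2 : (ks θ).card = Nat.card (Zb (fun i g => (θ i g : ℕ))).ker := by
        rw [Nat.card_eq_fintype_card, Fintype.card_subtype]
        congr 1
        ext x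
        simp [hks, AddMonoidHom.mem_ker]
      have h3 := AddSubgroup.card_mul_index (Zb (fun i g => (θ i g : ℕ))).ker
      rw [AddSubgroup.index_ker, Nat.card_eq_fintype_card (α := (ι → E) ⧸ D)] at h3
      rw [h2, ← h3, mul_comm]
      exact Nat.mul_le_mul_left _ h1
    have hsum : p ^ s * Fintype.card ((ι → E) ⧸ D) ≤ T.card * Fintype.card ((ι → E) ⧸ D) := by
      calc p ^ s * Fintype.card ((ι → E) ⧸ D) ≤ p ^ s * ∑ θ ∈ T, (ks θ).card :=
            Nat.mul_le_mul_left _ hcard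
        _ = ∑ θ ∈ T, p ^ s * (ks θ).card := Finset.mul_sum _ _ _
        _ ≤ ∑ _θ ∈ T, Fintype.card ((ι → E) ⧸ D) := Finset.sum_le_sum hmul
        _ = T.card * Fintype.card ((ι → E) ⧸ D) := by rw [Finset.sum_const, smul_eq_mul]
    have hTc : T.card = p ^ s - 1 := by
      rw [hT, Finset.card_erase_of_mem (Finset.mem_univ _), Finset.card_univ]
      simp only [Fintype.card_fun, Fintype.card_fin]
      rw [hs, ← pow_mul, mul_comm (Fintype.card G)]
    have hpos : 0 < Fintype.card ((ι → E) ⧸ D) := Fintype.card_pos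
    have hps : 0 < p ^ s := pow_pos hppos s
    have := Nat.le_of_mul_le_mul_right hsum hpos
    omega
  induction x using QuotientAddGroup.induction_on with
  | H e =>
    refine ⟨e, ?_⟩
    rintro θ ⟨i, g, hig⟩ y hy
    set θ' : ι → G → Fin p := fun i g => ⟨θ i g % p, Nat.mod_lt _ hppos⟩ with hθ'
    have hne : θ' ≠ 0 := by
      intro h0
      have := congrFun (congrFun h0 i) g
      have h2 : θ i g % p = 0 := by
        have := congrArg Fin.val this
        simpa [hθ'] using this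
      exact hig (Nat.dvd_of_mod_eq_zero h2)
    apply hx θ' hne
    rw [hZb]
    obtain ⟨f, hf⟩ := guZ_mod act p θ e
    rw [QuotientAddGroup.eq_zero_iff]
    refine ⟨y - f, ?_⟩
    show p • (y - f) = _
    rw [smul_sub, ← hy, hf]
    simp [hθ']

theorem gu_combine (act : G →* AddMonoid.End E) (PP : Finset ℕ) (hPP : ∀ p ∈ PP, p.Prime)
    (h : ∀ p ∈ PP, ∃ e : ι → E, ∀ θ : ι → G → ℕ, (∃ i g, ¬ p ∣ θ i g) →
      ∀ y : E, guZ act θ e ≠ p • y) :
    ∃ u : ι → E, ∀ p ∈ PP, ∀ θ : ι → G → ℕ, (∃ i g, ¬ p ∣ θ i g) →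
      ∀ y : E, guZ act θ u ≠ p • y := by
  classical
  choose! e he using h
  set m : ℕ → ℤ := fun p => (∏ q ∈ PP.erase p, (q : ℤ)) ^ (p - 1) with hm
  refine ⟨∑ q ∈ PP, m q • e q, ?_⟩
  intro p hp θ hθ y hy
  have hpp := hPP p hp
  -- the sum is congruent to e p
  have h1 : ∃ a : ℤ, m p = 1 + p * a := by
    have hcop : IsCoprime (∏ q ∈ PP.erase p, (q : ℤ)) (p : ℤ) := by
      refine IsCoprime.prod_left fun q hq => ?_
      have hqp : q ≠ p := Finset.ne_of_mem_erase hq
      have hq' := hPP q (Finset.mem_of_mem_erase hq)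
      exact Nat.isCoprime_iff_coprime.2 ((Nat.coprime_primes hq' hpp).2 hqp)
    have := Int.ModEq.pow_card_sub_one_eq_one hpp hcop
    obtain ⟨a, ha⟩ := this.symm.dvd
    exact ⟨a, by rw [hm]; linarith⟩
  have h2 : ∀ q ∈ PP.erase p, ∃ b : ℤ, m q = p * b := by
    intro q hq
    have hqp : q ≠ p := Finset.ne_of_mem_erase hq
    have hq' := hPP q (Finset.mem_of_mem_erase hq)
    have : (p : ℤ) ∣ m q := by
      rw [hm]
      refine dvd_pow ?_ (by have := hq'.two_le; omega)
      exact Finset.dvd_prod_of_mem _ (Finset.mem_erase.2 ⟨hqp.symm, hp⟩)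
    exact this
  obtain ⟨a, ha⟩ := h1
  choose! b hb using h2
  have hu : (∑ q ∈ PP, m q • e q) = e p + p • (a • e p + ∑ q ∈ PP.erase p, b q • e q) := by
    rw [← Finset.add_sum_erase _ _ hp, ha, smul_add, Finset.smul_sum]
    rw [add_smul, one_smul, add_assoc]
    congr 1
    congr 1
    · rw [← natCast_zsmul, smul_smul]
    · refine Finset.sum_congr rfl fun q hq => ?_
      rw [hb q hq, ← natCast_zsmul, smul_smul]
  rw [hu, guZ_nsmul] at hy
  refine he p hp θ hθ (y - guZ act θ (a • e p + ∑ q ∈ PP.erase p, b q • e q)) ?_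
  rw [smul_sub, ← hy]
  simp

end gu

/-- the action of the Galois group on the units, written additively -/
noncomputable def guAct (K M : Type) [Field K] [NumberField K] [Field M] [NumberField M] [Algebra K M] :
    Gal(M/K) →* AddMonoid.End (Additive (𝓞 M)ˣ) where
  toFun σ := MonoidHom.toAdditive (Units.map (MulSemiringAction.toRingHom Gal(M/K) (𝓞 M) σ : 𝓞 M →* 𝓞 M))
  map_one' := by
    refine DFunLike.ext _ _ fun x => ?_
    apply Additive.toMul.injective
    apply Units.ext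
    exact one_smul Gal(M/K) ((Additive.toMul x : (𝓞 M)ˣ) : 𝓞 M)
  map_mul' σ τ := by
    refine DFunLike.ext _ _ fun x => ?_
    apply Additive.toMul.injective
    apply Units.ext
    exact mul_smul σ τ ((Additive.toMul x : (𝓞 M)ˣ) : 𝓞 M)

theorem guAct_coe (K M : Type) [Field K] [NumberField K] [Field M] [NumberField M] [Algebra K M]
    (σ : Gal(M/K)) (x : Additive (𝓞 M)ˣ) :
    (((Additive.toMul (guAct K M σ x) : (𝓞 M)ˣ) : 𝓞 M) : M) = σ (((Additive.toMul x : (𝓞 M)ˣ) : 𝓞 M) : M) := by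
  rfl

theorem good_units (K M : Type) [Field K] [NumberField K] [Field M] [NumberField M] [Algebra K M]
    [IsGalois K M] (hK : NumberField.IsTotallyComplex K) (ι : Type) [Fintype ι]
    (hs : Fintype.card ι * Nat.card Gal(M/K) + 1 ≤ Fintype.card (NumberField.InfinitePlace K))
    (PP : Finset ℕ) (hPP : ∀ p ∈ PP, p.Prime ∧ ¬ p ∣ Nat.card Gal(M/K)) :
    ∃ u : ι → (𝓞 M)ˣ, ∀ p ∈ PP, ∀ θ : ι → Gal(M/K) → ℕ, (∃ i σ, ¬ p ∣ θ i σ) →
      ∀ y : M, (∏ i, ∏ σ : Gal(M/K), (σ ((u i : 𝓞 M) : M)) ^ θ i σ) ≠ y ^ p := by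
  classical
  rw [Nat.card_eq_fintype_card] at hs hPP
  obtain ⟨η, hη⟩ := indep_units K M hK (Fintype.card ι * Fintype.card Gal(M/K)) hs
  have hE : AddGroup.FG (Additive (𝓞 M)ˣ) := by
    rw [AddGroup.fg_iff_addMonoid_fg, ← Monoid.fg_iff_add_fg]
    infer_instance
  have hη' : ∀ n : Fin (Fintype.card ι * Fintype.card Gal(M/K)) → Gal(M/K) → ℤ,
      ∑ i, ∑ g, n i g • (guAct K M g) (Additive.ofMul (η i)) = 0 → n = 0 := by
    intro n hn
    apply hη
    have h1 := congrArg (fun x : Additive (𝓞 M)ˣ => (((Additive.toMul x : (𝓞 M)ˣ) : 𝓞 M) : M)) hn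
    simp only [toMul_sum, toMul_zsmul, toMul_zero, Units.val_one, map_one] at h1
    have h2 : ∀ f : Fin (Fintype.card ι * Fintype.card Gal(M/K)) → Gal(M/K) → (𝓞 M)ˣ,
        (((∏ i, ∏ g, f i g : (𝓞 M)ˣ) : 𝓞 M) : M) = ∏ i, ∏ g, ((f i g : 𝓞 M) : M) := by
      intro f
      push_cast
      rfl
    rw [h2] at h1
    rw [← h1]
    refine Finset.prod_congr rfl fun i _ => Finset.prod_congr rfl fun g _ => ?_
    have h3 : ∀ (x : (𝓞 M)ˣ) (k : ℤ), (((x ^ k : (𝓞 M)ˣ) : 𝓞 M) : M) = ((x : 𝓞 M) : M) ^ k := by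
      intro x k
      exact map_zpow (Units.coeHom M |>.comp (Units.map (algebraMap (𝓞 M) M : 𝓞 M →* M))) x k
    rw [h3]
    rfl
  obtain ⟨u, hu⟩ := gu_combine (ι := ι) (guAct K M) PP (fun p hp => (hPP p hp).1) fun p hp =>
    gu_exists hE (guAct K M) p (hPP p hp).1 (hPP p hp).2 _ rfl (fun i => Additive.ofMul (η i)) hη'
  refine ⟨fun i => Additive.toMul (u i), ?_⟩
  intro p hp θ hθ y hy
  have hpp := (hPP p hp).1
  set w : (𝓞 M)ˣ := ∏ i, ∏ σ : Gal(M/K), (Additive.toMul (guAct K M σ (u i))) ^ θ i σ with hw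
  have hwM : ((w : 𝓞 M) : M) = y ^ p := by
    rw [← hy, hw]
    push_cast
    rfl
  have hyint : IsIntegral ℤ y := by
    refine IsIntegral.of_pow hpp.pos ?_
    rw [← hwM]
    exact (w : 𝓞 M).isIntegral_coe
  obtain ⟨y', hy'⟩ : ∃ y' : 𝓞 M, (y' : M) = y := ⟨⟨y, hyint⟩, rfl⟩
  have hyw : (w : 𝓞 M) = y' ^ p := by
    apply NumberField.RingOfIntegers.coe_injective
    have h5 : ((w : 𝓞 M) : M) = ((y' ^ p : 𝓞 M) : M) := by
      rw [hwM, ← hy']
      rfl
    exact h5
  have hyu : IsUnit y' := by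
    rw [← isUnit_pow_iff hpp.ne_zero, ← hyw]
    exact w.isUnit
  obtain ⟨y'', rfl⟩ := hyu
  refine hu p hp θ hθ (Additive.ofMul y'') ?_
  apply Additive.toMul.injective
  rw [guZ_apply, toMul_sum]
  simp only [toMul_sum, toMul_nsmul, toMul_ofMul]
  apply Units.ext
  rw [Units.val_pow_eq_pow_val, ← hyw, hw]

end H38.ML
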