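import Pool.Agent.H38.ML.GoodUnits

/-!
# [H38 ML GOODUNITS2] Units of a subfield, independent modulo `p`-th powers of the big field
(150-200 lines, adapt the finished `GoodUnits.lean`)

`G = Gal(M/K)`, `Z` a normal subgroup, `F = fixedField Z`, a number field, Galois over `K` with
`Gal(F/K) ≃* G ⧸ Z` (`IsGalois.normalAutEquivQuotient` or `InfiniteGalois`-free versions), so
`p ∤ |Gal(F/K)| = Z.index` for `p ∈ PP`.
`E = Additive (𝓞 F)ˣ` with the action of `Gal(F/K)`, `s = card ι * Z.index + card G`,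
`indep_units K F` gives `η : Fin s → E` with independent conjugates.
Fix `p ∈ PP`; `V = E ⧸ pE`; let `W ⊆ V` be the set of classes of units `e` of `𝓞 F` which are `p`-th
powers in `M`: `(e : M) = y ^ p`; it is a subgroup.  `#W ≤ p ^ card G`: for `w ∈ W` choose `e_w, y_w`
and consider the function `Z → μ_p(M)`, `z ↦ z (y_w) / y_w` (as `e_w ∈ F` is fixed by `Z`,
`(z y_w)^p = y_w^p`); if `w, w'` give the same function then `y_w / y_w'` is fixed by `Z`, so it is in
`F`, and its `p`-th power `e_w / e_w'` is a unit of `𝓞 F`, so it is a unit of `𝓞 F` and `w = w'`.  There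
are at most `p ^ (card Z)` functions (`μ_p(M)` has at most `p` elements).
For `θ : ι → Gal(F/K) → Fin p`, `θ ≠ 0`, the homomorphism `Z_θ : V^ι → V` has at least `p ^ s` values
(`lattice_bound`), so `#{u : Z_θ u ∈ W} ≤ #W * #ker Z_θ ≤ #W * #V^ι / p^s`.  Summing over the
`p ^ (card ι * Z.index) - 1` functions `θ ≠ 0` gives less than `#V^ι`, because
`p ^ s ≥ p ^ (card ι * Z.index) * #W`.  So some `u^(p)` has `Z_θ u^(p) ∉ W` for all `θ ≠ 0`.
Combine over `p ∈ PP` by the Chinese remainder theorem as in `gu_combine` (the condition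
`Z_θ u ∉ W` only depends on `u` modulo `pE`).
Translate back: `u i ∈ (𝓞 F)ˣ ⊆ (𝓞 M)ˣ` is fixed by `Z`; for `x : G ⧸ Z` the element
`x.out (u i)` is the image of `u i` under the element of `Gal(F/K)` corresponding to `x`; the product
in the statement is `Z_θ(u)` (written multiplicatively) for the corresponding `θ`.
-/

open scoped NumberField Pointwise

namespace H38.ML

section gu2

variable {ι G E : Type} [Fintype ι] [Group G] [Fintype G] [AddCommGroup E]

theorem gu2_exists (hE : AddGroup.FG E) (act : G →* AddMonoid.End E) (p : ℕ) (hp : p.Prime)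
    (hpG : ¬ p ∣ Fintype.card G) (s c : ℕ) (hs : s = Fintype.card ι * Fintype.card G + c)
    (η : Fin s → E) (hη : ∀ n : Fin s → G → ℤ, ∑ i, ∑ g, n i g • (act g) (η i) = 0 → n = 0)
    (W : AddSubgroup E) (hW : ∀ x : E, p • x ∈ W) (T : Type) [Finite T] (hT : Nat.card T ≤ p ^ c)
    (χ : E → T) (hχ : ∀ w ∈ W, ∀ w' ∈ W, χ w = χ w' → ∃ y, w - w' = p • y) :
    ∃ e : ι → E, ∀ θ : ι → G → ℕ, (∃ i g, ¬ p ∣ θ i g) → guZ act θ e ∉ W := by
  classical
  have : AddGroup.FG E := hE
  have : Module.Finite ℤ E := Module.Finite.iff_addGroup_fg.mpr hE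
  set D := (nsmulAddMonoidHom (α := ι → E) p).range with hD
  set DE := (nsmulAddMonoidHom (α := E) p).range with hDE
  set s0 := Fintype.card ι * Fintype.card G with hs0
  have hppos : 0 < p := hp.pos
  have : NeZero p := ⟨hp.ne_zero⟩
  -- finiteness
  have fin1 : ∀ (A : Type) [AddCommGroup A] [Module.Finite ℤ A],
      Finite (A ⧸ (nsmulAddMonoidHom (α := A) p).range) := by
    intro A _ _
    have : AddGroup.FG A := Module.Finite.iff_addGroup_fg.mp inferInstance
    have : AddGroup.FG (A ⧸ (nsmulAddMonoidHom (α := A) p).range) := QuotientAddGroup.fg _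
    refine AddCommGroup.finite_of_fg_isAddTorsion _ ?_
    intro x
    induction x using QuotientAddGroup.induction_on with
    | H a =>
      rw [isOfFinAddOrder_iff_nsmul_eq_zero]
      refine ⟨p, hppos, ?_⟩
      rw [← QuotientAddGroup.mk_nsmul, QuotientAddGroup.eq_zero_iff]
      exact ⟨a, rfl⟩
  have : Finite ((ι → E) ⧸ D) := fin1 (ι → E)
  have : Finite (E ⧸ DE) := fin1 E
  have : Fintype ((ι → E) ⧸ D) := Fintype.ofFinite _
  have hDW : DE ≤ W := by
    rintro _ ⟨x, rfl⟩
    exact hW x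
  -- the projection to `E ⧸ W`
  let π : (E ⧸ DE) →+ (E ⧸ W) := QuotientAddGroup.map DE W (AddMonoidHom.id E) hDW
  have hπ : ∀ e : E, π (QuotientAddGroup.mk e) = QuotientAddGroup.mk e := fun e => rfl
  have hker : Nat.card π.ker ≤ p ^ c := by
    refine le_trans ?_ hT
    have hrep : ∀ k : π.ker, ∃ w : E, w ∈ W ∧ (QuotientAddGroup.mk w : E ⧸ DE) = k := by
      rintro ⟨k, hk⟩
      induction k using QuotientAddGroup.induction_on with
      | H a =>
        refine ⟨a, ?_, rfl⟩
        rw [AddMonoidHom.mem_ker, hπ, QuotientAddGroup.eq_zero_iff] at hk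
        exact hk
    choose r hr1 hr2 using hrep
    refine Nat.card_le_card_of_injective (fun k => χ (r k)) ?_
    intro k k' hkk
    obtain ⟨y, hy⟩ := hχ _ (hr1 k) _ (hr1 k') hkk
    apply Subtype.ext
    rw [← hr2 k, ← hr2 k']
    rw [← sub_eq_zero, ← QuotientAddGroup.mk_sub, QuotientAddGroup.eq_zero_iff, hy]
    exact ⟨y, rfl⟩
  -- the maps on the quotients
  let Zb : (ι → G → ℕ) → (((ι → E) ⧸ D) →+ (E ⧸ DE)) := fun θ =>
    QuotientAddGroup.map D DE (guZ act θ) (by
      rintro _ ⟨f, rfl⟩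
      exact ⟨guZ act θ f, by simp [nsmulAddMonoidHom]⟩)
  have hZb : ∀ θ e, Zb θ (QuotientAddGroup.mk e) = QuotientAddGroup.mk (guZ act θ e) := by
    intro θ e
    rfl
  let Zw : (ι → G → ℕ) → (((ι → E) ⧸ D) →+ (E ⧸ W)) := fun θ => π.comp (Zb θ)
  have hZw : ∀ θ e, Zw θ (QuotientAddGroup.mk e) = QuotientAddGroup.mk (guZ act θ e) := by
    intro θ e
    rfl
  have hrange : ∀ θ : ι → G → ℕ, (∃ i g, ¬ p ∣ θ i g) → p ^ s ≤ Nat.card (Zb θ).range := by
    rintro θ ⟨i₀, g₀, h0⟩
    have hb := lattice_bound hE act p hp hpG s η hη (fun g => (θ i₀ g : ℤ)) g₀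
      (by exact_mod_cast h0)
    refine hb.trans ?_
    refine Nat.card_mono (Set.toFinite _) ?_
    rintro _ ⟨e, rfl⟩
    refine ⟨QuotientAddGroup.mk (Pi.single i₀ e), ?_⟩
    rw [hZb]
    congr 1
    rw [guZ_apply, Finset.sum_eq_single i₀]
    · refine Finset.sum_congr rfl fun g _ => ?_
      rw [Pi.single_eq_same, natCast_zsmul]
    · intro i _ hi
      refine Finset.sum_eq_zero fun g _ => ?_
      rw [Pi.single_eq_of_ne hi, map_zero, smul_zero]
    · intro h
      exact absurd (Finset.mem_univ _) h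
  have hrange2 : ∀ θ : ι → G → ℕ, (∃ i g, ¬ p ∣ θ i g) → p ^ s0 ≤ Nat.card (Zw θ).range := by
    intro θ hθ
    have h1 := hrange θ hθ
    let R := (Zb θ).range
    let f : R →+ (E ⧸ W) := π.comp R.subtype
    have h2 := AddSubgroup.card_mul_index f.ker
    rw [AddSubgroup.index_ker] at h2
    have h3 : Nat.card f.ker ≤ p ^ c := by
      refine le_trans ?_ hker
      refine Nat.card_le_card_of_injective (fun x : f.ker => (⟨((x : R) : E ⧸ DE), x.2⟩ : π.ker)) ?_
      intro x y hxy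
      apply Subtype.ext
      apply Subtype.ext
      exact congrArg (fun z : π.ker => (z : E ⧸ DE)) hxy
    have h4 : f.range = (Zw θ).range := by
      ext z
      constructor
      · rintro ⟨⟨_, x, rfl⟩, rfl⟩
        exact ⟨x, rfl⟩
      · rintro ⟨x, rfl⟩
        exact ⟨⟨Zb θ x, x, rfl⟩, rfl⟩
    rw [h4] at h2
    have h5 : p ^ c * p ^ s0 ≤ p ^ c * Nat.card (Zw θ).range := by
      calc p ^ c * p ^ s0 = p ^ s := by rw [hs, ← pow_add, add_comm]
        _ ≤ Nat.card R := h1
        _ = Nat.card f.ker * Nat.card (Zw θ).range := h2.symm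
        _ ≤ p ^ c * Nat.card (Zw θ).range := Nat.mul_le_mul_right _ h3
    exact Nat.le_of_mul_le_mul_left h5 (pow_pos hppos c)
  -- counting
  obtain ⟨x, hx⟩ : ∃ x : (ι → E) ⧸ D, ∀ θ : ι → G → Fin p, θ ≠ 0 →
      Zw (fun i g => (θ i g : ℕ)) x ≠ 0 := by
    by_contra hcon
    push Not at hcon
    set T : Finset (ι → G → Fin p) := Finset.univ.erase 0 with hT
    set ks : (ι → G → Fin p) → Finset ((ι → E) ⧸ D) := fun θ =>
      Finset.univ.filter (fun x => Zw (fun i g => (θ i g : ℕ)) x = 0) with hks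
    have hcov : (Finset.univ : Finset ((ι → E) ⧸ D)) ⊆ T.biUnion ks := by
      intro x _
      obtain ⟨θ, h1, h2⟩ := hcon x
      rw [Finset.mem_biUnion]
      exact ⟨θ, by simp [hT, h1], by simp [hks, h2]⟩
    have hcard := (Finset.card_le_card hcov).trans Finset.card_biUnion_le
    rw [Finset.card_univ] at hcard
    have hmul : ∀ θ ∈ T, p ^ s0 * (ks θ).card ≤ Fintype.card ((ι → E) ⧸ D) := by
      intro θ hθ
      have hne : θ ≠ 0 := by
        rw [hT] at hθ
        exact Finset.ne_of_mem_erase hθ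
      have hex : ∃ i g, ¬ p ∣ ((θ i g : Fin p) : ℕ) := by
        by_contra hc
        push Not at hc
        apply hne
        funext i g
        have := hc i g
        have h2 : ((θ i g : Fin p) : ℕ) = 0 := Nat.eq_zero_of_dvd_of_lt this (θ i g).2
        exact Fin.ext (by simpa using h2)
      have h1 := hrange2 _ hex
      have h2 : (ks θ).card = Nat.card (Zw (fun i g => (θ i g : ℕ))).ker := by
        rw [Nat.card_eq_fintype_card, Fintype.card_subtype]
        congr 1
        ext x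
        simp [hks, AddMonoidHom.mem_ker]
      have h3 := AddSubgroup.card_mul_index (Zw (fun i g => (θ i g : ℕ))).ker
      rw [AddSubgroup.index_ker, Nat.card_eq_fintype_card (α := (ι → E) ⧸ D)] at h3
      rw [h2, ← h3, mul_comm]
      exact Nat.mul_le_mul_left _ h1
    have hsum : p ^ s0 * Fintype.card ((ι → E) ⧸ D) ≤ T.card * Fintype.card ((ι → E) ⧸ D) := by
      calc p ^ s0 * Fintype.card ((ι → E) ⧸ D) ≤ p ^ s0 * ∑ θ ∈ T, (ks θ).card :=
            Nat.mul_le_mul_left _ hcard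
        _ = ∑ θ ∈ T, p ^ s0 * (ks θ).card := Finset.mul_sum _ _ _
        _ ≤ ∑ _θ ∈ T, Fintype.card ((ι → E) ⧸ D) := Finset.sum_le_sum hmul
        _ = T.card * Fintype.card ((ι → E) ⧸ D) := by rw [Finset.sum_const, smul_eq_mul]
    have hTc : T.card = p ^ s0 - 1 := by
      rw [hT, Finset.card_erase_of_mem (Finset.mem_univ _), Finset.card_univ]
      simp only [Fintype.card_fun, Fintype.card_fin]
      rw [hs0, ← pow_mul, mul_comm (Fintype.card G)]
    have hpos : 0 < Fintype.card ((ι → E) ⧸ D) := Fintype.card_pos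
    have hps : 0 < p ^ s0 := pow_pos hppos s0
    have := Nat.le_of_mul_le_mul_right hsum hpos
    omega
  induction x using QuotientAddGroup.induction_on with
  | H e =>
    refine ⟨e, ?_⟩
    rintro θ ⟨i, g, hig⟩ hy
    set θ' : ι → G → Fin p := fun i g => ⟨θ i g % p, Nat.mod_lt _ hppos⟩ with hθ'
    have hne : θ' ≠ 0 := by
      intro h0
      have := congrFun (congrFun h0 i) g
      have h2 : θ i g % p = 0 := by
        have := congrArg Fin.val this
        simpa [hθ'] using this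
      exact hig (Nat.dvd_of_mod_eq_zero h2)
    apply hx θ' hne
    rw [hZw]
    obtain ⟨f, hf⟩ := guZ_mod act p θ e
    rw [QuotientAddGroup.eq_zero_iff]
    have h5 : guZ act (fun i g => ((θ' i g : Fin p) : ℕ)) e = guZ act θ e - p • f := by
      rw [hf]
      simp [hθ']
    rw [h5]
    exact W.sub_mem hy (hW f)

theorem gu2_combine (act : G →* AddMonoid.End E) (PP : Finset ℕ) (hPP : ∀ p ∈ PP, p.Prime)
    (W : ℕ → AddSubgroup E) (hW : ∀ p x, p • x ∈ W p)
    (h : ∀ p ∈ PP, ∃ e : ι → E, ∀ θ : ι → G → ℕ, (∃ i g, ¬ p ∣ θ i g) → guZ act θ e ∉ W p) :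
    ∃ u : ι → E, ∀ p ∈ PP, ∀ θ : ι → G → ℕ, (∃ i g, ¬ p ∣ θ i g) → guZ act θ u ∉ W p := by
  classical
  choose! e he using h
  set m : ℕ → ℤ := fun p => (∏ q ∈ PP.erase p, (q : ℤ)) ^ (p - 1) with hm
  refine ⟨∑ q ∈ PP, m q • e q, ?_⟩
  intro p hp θ hθ hy
  have hpp := hPP p hp
  -- the sum is congruent to e p
  have h1 : ∃ a : ℤ, m p = 1 + p * a := by
    have hcop : IsCoprime (∏ q ∈ PP.erase p, (q : ℤ)) (p : ℤ) := by
      refine IsCoprime.prod_left fun q hq => ?_
      have hqp : q ≠ p := Finset.ne_of_mem_erase hq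
      have hq' := hPP q (Finset.mem_of_mem_erase hq)
      exact Nat.isCoprime_iff_coprime.2 ((Nat.coprime_primes hq' hpp).2 hqp)
    have := Int.ModEq.pow_card_sub_one_eq_one hpp hcop
    obtain ⟨a, ha⟩ := this.symm.dvd
    exact ⟨a, by rw [hm]; linarith⟩
  have h2 : ∀ q ∈ PP.erase p, ∃ b : ℤ, m q = p * b := by
    intro q hq
    have hqp : q ≠ p := Finset.ne_of_mem_erase hq
    have hq' := hPP q (Finset.mem_of_mem_erase hq)
    have : (p : ℤ) ∣ m q := by
      rw [hm]
      refine dvd_pow ?_ (by have := hq'.two_le; omega)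
      exact Finset.dvd_prod_of_mem _ (Finset.mem_erase.2 ⟨hqp.symm, hp⟩)
    exact this
  obtain ⟨a, ha⟩ := h1
  choose! b hb using h2
  have hu : (∑ q ∈ PP, m q • e q) = e p + p • (a • e p + ∑ q ∈ PP.erase p, b q • e q) := by
    rw [← Finset.add_sum_erase _ _ hp, ha, smul_add, Finset.smul_sum]
    rw [add_smul, one_smul, add_assoc]
    congr 1
    congr 1
    · rw [← natCast_zsmul, smul_smul]
    · refine Finset.sum_congr rfl fun q hq => ?_
      rw [hb q hq, ← natCast_zsmul, smul_smul]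
  rw [hu, guZ_nsmul] at hy
  refine he p hp θ hθ ?_
  have h6 := (W p).sub_mem hy (hW p (guZ act θ (a • e p + ∑ q ∈ PP.erase p, b q • e q)))
  rwa [add_sub_cancel_right] at h6

end gu2

theorem gu2_unit_root (F : Type) [Field F] [NumberField F] (w : (𝓞 F)ˣ) (p : ℕ) (hp : 0 < p) (y : F)
    (h : ((w : 𝓞 F) : F) = y ^ p) : ∃ v : (𝓞 F)ˣ, v ^ p = w := by
  have hyint : IsIntegral ℤ y := by
    refine IsIntegral.of_pow hp ?_
    rw [← h]
    exact (w : 𝓞 F).isIntegral_coe
  obtain ⟨y', hy'⟩ : ∃ y' : 𝓞 F, (y' : F) = y := ⟨⟨y, hyint⟩, rfl⟩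
  have hyw : (w : 𝓞 F) = y' ^ p := by
    apply NumberField.RingOfIntegers.coe_injective
    have h5 : ((w : 𝓞 F) : F) = ((y' ^ p : 𝓞 F) : F) := by
      rw [h, ← hy']
      rfl
    exact h5
  have hyu : IsUnit y' := by
    rw [← isUnit_pow_iff hp.ne', ← hyw]
    exact w.isUnit
  obtain ⟨y'', rfl⟩ := hyu
  refine ⟨y'', Units.ext ?_⟩
  rw [Units.val_pow_eq_pow_val, ← hyw]

theorem good_units2 (K M : Type) [Field K] [NumberField K] [Field M] [NumberField M] [Algebra K M]
    [IsGalois K M] (hK : NumberField.IsTotallyComplex K) (Z : Subgroup Gal(M/K)) [Z.Normal]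
    (ι : Type) [Fintype ι] [Fintype (Gal(M/K) ⧸ Z)]
    (hs : Fintype.card ι * Z.index + Nat.card Gal(M/K) + 1 ≤
      Fintype.card (NumberField.InfinitePlace K))
    (PP : Finset ℕ) (hPP : ∀ p ∈ PP, p.Prime ∧ ¬ p ∣ Z.index) :
    ∃ u : ι → (𝓞 M)ˣ, (∀ i, ∀ z ∈ Z, z ((u i : 𝓞 M) : M) = ((u i : 𝓞 M) : M)) ∧
      ∀ p ∈ PP, ∀ θ : ι → (Gal(M/K) ⧸ Z) → ℕ, (∃ i x, ¬ p ∣ θ i x) →
        ∀ y : M, (∏ i, ∏ x : Gal(M/K) ⧸ Z, (x.out ((u i : 𝓞 M) : M)) ^ θ i x) ≠ y ^ p := by
  classical
  let F : IntermediateField K M := IntermediateField.fixedField Z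
  have hFn : NumberField F := inferInstance
  have hFg : IsGalois K F := inferInstance
  let eq : (Gal(M/K) ⧸ Z) ≃* Gal(F/K) := IsGalois.normalAutEquivQuotient Z
  have hcard : Fintype.card Gal(F/K) = Z.index := by
    rw [← Nat.card_eq_fintype_card, ← Nat.card_congr eq.toEquiv]
    rfl
  set c := Nat.card Gal(M/K) with hc
  obtain ⟨η, hη⟩ := indep_units K F hK (Fintype.card ι * Fintype.card Gal(F/K) + c)
    (by rw [hcard]; exact hs)
  have hE : AddGroup.FG (Additive (𝓞 F)ˣ) := by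
    rw [AddGroup.fg_iff_addMonoid_fg, ← Monoid.fg_iff_add_fg]
    infer_instance
  have hη' : ∀ n : Fin (Fintype.card ι * Fintype.card Gal(F/K) + c) → Gal(F/K) → ℤ,
      ∑ i, ∑ g, n i g • (guAct K F g) (Additive.ofMul (η i)) = 0 → n = 0 := by
    intro n hn
    apply hη
    have h1 := congrArg (fun x : Additive (𝓞 F)ˣ => (((Additive.toMul x : (𝓞 F)ˣ) : 𝓞 F) : F)) hn
    simp only [toMul_sum, toMul_zsmul, toMul_zero, Units.val_one, map_one] at h1
    have h2 : ∀ f : Fin (Fintype.card ι * Fintype.card Gal(F/K) + c) → Gal(F/K) → (𝓞 F)ˣ,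
        (((∏ i, ∏ g, f i g : (𝓞 F)ˣ) : 𝓞 F) : F) = ∏ i, ∏ g, ((f i g : 𝓞 F) : F) := by
      intro f
      push_cast
      rfl
    rw [h2] at h1
    rw [← h1]
    refine Finset.prod_congr rfl fun i _ => Finset.prod_congr rfl fun g _ => ?_
    have h3 : ∀ (x : (𝓞 F)ˣ) (k : ℤ), (((x ^ k : (𝓞 F)ˣ) : 𝓞 F) : F) = ((x : 𝓞 F) : F) ^ k := by
      intro x k
      exact map_zpow (Units.coeHom F |>.comp (Units.map (algebraMap (𝓞 F) F : 𝓞 F →* F))) x k
    rw [h3]
    rfl
  -- the value in `M` of a unit of `F`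
  let val : Additive (𝓞 F)ˣ → M := fun e => ((((Additive.toMul e : (𝓞 F)ˣ) : 𝓞 F) : F) : M)
  have hval_fix : ∀ e, ∀ z ∈ Z, z (val e) = val e := by
    intro e z hz
    exact ((((Additive.toMul e : (𝓞 F)ˣ) : 𝓞 F) : F)).2 ⟨z, hz⟩
  have hval_ne : ∀ e, val e ≠ 0 := by
    intro e h0
    have h1 : (((Additive.toMul e : (𝓞 F)ˣ) : 𝓞 F) : F) = 0 := by
      apply Subtype.ext
      exact h0
    have h2 : ((Additive.toMul e : (𝓞 F)ˣ) : 𝓞 F) = 0 := by
      exact NumberField.RingOfIntegers.coe_injective h1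
    exact (Additive.toMul e : (𝓞 F)ˣ).ne_zero h2
  have hval_add : ∀ a b, val (a + b) = val a * val b := fun a b => rfl
  have hval_zero : val 0 = 1 := rfl
  have hval_neg : ∀ a, val (-a) = (val a)⁻¹ := by
    intro a
    have h1 : val (-a) * val a = 1 := by
      rw [← hval_add, neg_add_cancel, hval_zero]
    exact eq_inv_of_mul_eq_one_left h1
  have hval_nsmul : ∀ (n : ℕ) a, val (n • a) = (val a) ^ n := by
    intro n a
    induction n with
    | zero => rw [zero_smul, hval_zero, pow_zero]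
    | succ n ih => rw [add_smul, one_smul, hval_add, ih, pow_succ]
  -- bad subgroups
  let W : ℕ → AddSubgroup (Additive (𝓞 F)ˣ) := fun p =>
    { carrier := {e | ∃ y : M, val e = y ^ p}
      zero_mem' := ⟨1, by rw [hval_zero, one_pow]⟩
      add_mem' := by
        rintro a b ⟨y, hy⟩ ⟨y', hy'⟩
        exact ⟨y * y', by rw [mul_pow, ← hy, ← hy', hval_add]⟩
      neg_mem' := by
        rintro a ⟨y, hy⟩
        exact ⟨y⁻¹, by rw [inv_pow, ← hy, hval_neg]⟩ }
  have hW : ∀ p x, p • x ∈ W p := fun p x => ⟨val x, hval_nsmul p x⟩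
  have hexists : ∀ p ∈ PP, ∃ e : ι → Additive (𝓞 F)ˣ, ∀ θ : ι → Gal(F/K) → ℕ,
      (∃ i g, ¬ p ∣ θ i g) → guZ (guAct K F) θ e ∉ W p := by
    intro p hp
    obtain ⟨hpp, hpZ⟩ := hPP p hp
    have : NeZero p := ⟨hpp.ne_zero⟩
    have hroot : ∀ (w : Additive (𝓞 F)ˣ) (y : M), val w = y ^ p → y ≠ 0 := by
      intro w y hy h0
      apply hval_ne w
      rw [hy, h0, zero_pow hpp.ne_zero]
    have hrat : ∀ (w : Additive (𝓞 F)ˣ) (y : M), val w = y ^ p → ∀ z : Z,
        ((z : Gal(M/K)) y / y) ^ p = 1 := by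
      intro w y hy z
      rw [div_pow, ← map_pow, ← hy, hval_fix w z z.2, div_self (hval_ne w)]
    let χ : Additive (𝓞 F)ˣ → (Z → rootsOfUnity p M) := fun w =>
      if h : ∃ y : M, val w = y ^ p then
        fun z => rootsOfUnity.mkOfPowEq ((z : Gal(M/K)) h.choose / h.choose)
          (hrat w h.choose h.choose_spec z)
      else fun _ => 1
    have hχ : ∀ w ∈ W p, ∀ w' ∈ W p, χ w = χ w' → ∃ y, w - w' = p • y := by
      intro w hw w' hw' hww
      have hw1 : ∃ y : M, val w = y ^ p := hw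
      have hw1' : ∃ y : M, val w' = y ^ p := hw'
      set y := hw1.choose with hy
      set y' := hw1'.choose with hy'
      have hys : val w = y ^ p := hw1.choose_spec
      have hys' : val w' = y' ^ p := hw1'.choose_spec
      have hy0 : y ≠ 0 := hroot w y hys
      have hy0' : y' ≠ 0 := hroot w' y' hys'
      have hz : ∀ z : Z, (z : Gal(M/K)) y / y = (z : Gal(M/K)) y' / y' := by
        intro z
        have h1 := congrFun hww z
        simp only [χ, dif_pos hw1, dif_pos hw1'] at h1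
        have h2 := congrArg (fun r : rootsOfUnity p M => ((r : Mˣ) : M)) h1
        simpa only [rootsOfUnity.coe_mkOfPowEq] using h2
      have hfix : y / y' ∈ F := by
        rintro z
        show (z : Gal(M/K)) (y / y') = y / y'
        have h1 := hz z
        have h2 : (z : Gal(M/K)) y' ≠ 0 := by
          intro h0
          exact hy0' ((map_eq_zero _).mp h0)
        rw [map_div₀]
        rw [div_eq_div_iff hy0 hy0'] at h1
        rw [div_eq_div_iff h2 hy0']
        linear_combination h1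
      have hval' : ((((Additive.toMul (w - w') : (𝓞 F)ˣ) : 𝓞 F) : F)) = (⟨y / y', hfix⟩ : F) ^ p := by
        apply Subtype.ext
        show val (w - w') = (y / y') ^ p
        rw [sub_eq_add_neg, hval_add, hval_neg, hys, hys', div_pow, div_eq_mul_inv]
      obtain ⟨v, hv⟩ := gu2_unit_root F _ p hpp.pos _ hval'
      refine ⟨Additive.ofMul v, ?_⟩
      apply Additive.toMul.injective
      rw [toMul_nsmul, toMul_ofMul, hv]
    have hTc : Nat.card (Z → rootsOfUnity p M) ≤ p ^ c := by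
      rw [Nat.card_fun]
      calc Nat.card (rootsOfUnity p M) ^ Nat.card Z ≤ p ^ Nat.card Z := by
            exact Nat.pow_le_pow_left (card_rootsOfUnity M p) _
        _ ≤ p ^ c := Nat.pow_le_pow_right hpp.pos (Subgroup.card_le_card_group Z)
    exact gu2_exists hE (guAct K F) p hpp (by rw [hcard]; exact hpZ) _ c rfl
      (fun i => Additive.ofMul (η i)) hη' (W p) (hW p) (Z → rootsOfUnity p M) hTc χ hχ
  obtain ⟨u, hu⟩ := gu2_combine (ι := ι) (guAct K F) PP (fun p hp => (hPP p hp).1) W hW hexists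
  refine ⟨fun i => Units.map (algebraMap (𝓞 F) (𝓞 M) : 𝓞 F →* 𝓞 M) (Additive.toMul (u i)), ?_, ?_⟩
  · intro i z hz
    exact hval_fix (u i) z hz
  · rintro p hp θ ⟨i₀, x₀, h0⟩ y hy
    refine hu p hp (fun i σ => θ i (eq.symm σ)) ⟨i₀, eq x₀, by simpa using h0⟩ ⟨y, ?_⟩
    rw [← hy]
    have hprod : ∀ (S : Finset ι) (f : ι → Additive (𝓞 F)ˣ), val (∑ i ∈ S, f i) = ∏ i ∈ S, val (f i) := by
      intro S f
      induction S using Finset.induction_on with
      | empty => simpa using hval_zero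
      | insert a S ha ih => rw [Finset.sum_insert ha, Finset.prod_insert ha, hval_add, ih]
    have hprod2 : ∀ (S : Finset Gal(F/K)) (f : Gal(F/K) → Additive (𝓞 F)ˣ),
        val (∑ i ∈ S, f i) = ∏ i ∈ S, val (f i) := by
      intro S f
      induction S using Finset.induction_on with
      | empty => simpa using hval_zero
      | insert a S ha ih => rw [Finset.sum_insert ha, Finset.prod_insert ha, hval_add, ih]
    rw [guZ_apply, hprod]
    refine Finset.prod_congr rfl fun i _ => ?_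
    rw [hprod2]
    symm
    refine Fintype.prod_equiv eq.toEquiv _ _ fun x => ?_
    rw [hval_nsmul]
    have h7 : eq.symm (eq.toEquiv x) = x := eq.symm_apply_apply x
    rw [h7]
    congr 1
    have h8 : eq.toEquiv x = (AlgEquiv.restrictNormalHom F) x.out := by
      have h9 : (QuotientGroup.mk x.out : Gal(M/K) ⧸ Z) = x := Quotient.out_eq' x
      conv_lhs => rw [← h9]
      rfl
    rw [h8]
    exact (AlgEquiv.restrictNormal_commutes x.out F (((Additive.toMul (u i) : (𝓞 F)ˣ) : 𝓞 F) : F)).symm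

end H38.ML
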