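import Pool.Agent.H38.ML.VN

/-!
# [H38 ML LATTICE] The image of a group ring element on `E / p E` is large (200-300 lines)

`G` a finite group, `E` a finitely generated abelian group with `G`-action, `p ∤ |G|` a prime,
`η 1, …, η s ∈ E` with all conjugates `g η_i` independent over `ℤ`, `θ ∈ ℤ[G]` not divisible by `p`.
Claim: `θ` has at least `p ^ s` values on `E / p E`.

Set-up: make `E` a module over `R = MonoidAlgebra ℤ G` (e.g. `Module.compHom E` with
`MonoidAlgebra.lift ℤ G (Module.End ℤ E)`), let `x ∈ R` correspond to `θ`, so `x • e = ∑ θ g • act g e`.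
By `exists_quasi_inverse` for `k = ZMod p` and lifting the coefficients there is `y ∈ R` with
`x y x - x ∈ p R`.  For an `R`-submodule `Y` of `E` put
`Φ(Y) = #{x • v : v ∈ Y ⧸ p Y}` (the module `Y ⧸ p Y`, `p Y = p • ⊤`, is finite because `Y` is
finitely generated (`ℤ` is noetherian) and killed by `p`).  On modules killed by `p` we have
`x y x = x` in the sense of `(x*y*x) • v = x • v`: state and use a version of `card_range_mul` for
a finite `R`-module `V` with `∀ v, (x*y*x) • v = x • v` (or pass to modules over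
`MonoidAlgebra (ZMod p) G`, or over the quotient ring of `R` by the annihilator; the proof of
`card_range_mul` is two lines, copy it).

(1) If `p Y ≤ Y' ≤ Y` then `Φ(Y') ≤ Φ(Y)`.  For a finite module `V` killed by `p` write
`F(V) = #(x V)`.  Exact sequences: `0 → Y'/pY → Y/pY → Y/Y' → 0` gives `Φ(Y) = F(Y'/pY) F(Y/Y')`;
`0 → pY/pY' → Y'/pY' → Y'/pY → 0` gives `Φ(Y') = F(pY/pY') F(Y'/pY)`; and multiplication by `p`
is a surjective `R`-linear map `Y/Y' → pY/pY'`, so `F(pY/pY') ≤ F(Y/Y')`.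
(2) If `Y' ≤ Y` has finite index then `Φ(Y') ≤ Φ(Y)`: induction on the index.  Let
`Y'' = Y' + p Y`.  If `Y'' ≠ Y`: `Φ(Y') ≤ Φ(Y'')` by induction (`[Y'':Y'] < [Y:Y']`; `Y'' ≠ Y`) and
`Φ(Y'') ≤ Φ(Y)` by (1).  If `Y'' = Y`: then `Y/Y' = p (Y/Y')`, so multiplication by `p` is bijective
on the finite group `Y/Y'`; hence `Y' ∩ pY = pY'` (if `y' = p y` then `p [y] = 0` so `y ∈ Y'`), and
`Y'/pY' → Y/pY` is injective (even bijective), so `Φ(Y') ≤ Φ(Y)`.
(3) Let `X` be the `R`-span of the `η_i` and `X₁ = {e : ∃ k ≥ 1, k e ∈ X}`, an `R`-submodule; `X` has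
finite index in `X₁` (`X₁` is finitely generated and `X₁/X` is torsion).  `X₁ ∩ pE = pX₁`, so
`X₁/pX₁ → E/pE` is injective and `Φ(X₁) ≤ Φ(E)`.
(4) By the independence hypothesis `X ≅ R ^ s` (free with basis `η_i`), `X/pX ≅ (𝔽_p[G])^s`, and `x`
is not zero in `𝔽_p[G]`: the set `x 𝔽_p[G]` contains `0 ≠ x`, it is a subgroup of a `p`-group, so it
has at least `p` elements, and `Φ(X) = (#(x 𝔽_p[G])) ^ s ≥ p ^ s`.
(It is enough: the map `(e_1..e_s) ↦ x • ∑ e_i η_i` has `≥ p ^ s` values modulo `pX`: e.g. the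
`p ^ s` elements `x • ∑ c_i η_i`, `c_i ∈ {0..p-1}`, are pairwise different modulo `p X`.)
Combine: `p ^ s ≤ Φ(X) ≤ Φ(X₁) ≤ Φ(E)`.
(You are free to organise this differently, e.g. with indices of subgroups of `E` only.)
-/

namespace H38.ML

namespace LatticeAux

section ring
variable {R : Type*} [Ring R]

theorem lift_idem (p : ℕ) (a c₀ : R) (h : a * a - a = (p : ℤ) • c₀) (n : ℕ) :
    ∃ e c d : R, e * e - e = ((p : ℤ) ^ (n + 1)) • c ∧ e - a = (p : ℤ) • d := by
  induction n with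
  | zero => exact ⟨a, c₀, 0, by simpa using h, by simp⟩
  | succ n ih =>
    obtain ⟨e, c, d, h1, h2⟩ := ih
    refine ⟨3 * (e * e) - 2 * (e * e * e), ((p : ℤ) ^ n) • (c * c * (4 * (e * e) - 4 * e - 3)),
      d - ((p : ℤ) ^ n) • (c * (2 * e - 1)), ?_, ?_⟩
    · have e1 : (3 * (e * e) - 2 * (e * e * e)) * (3 * (e * e) - 2 * (e * e * e)) -
          (3 * (e * e) - 2 * (e * e * e)) =
          (e * e - e) * (e * e - e) * (4 * (e * e) - 4 * e - 3) := by noncomm_ring
      rw [e1, h1, smul_mul_smul_comm, smul_mul_assoc, smul_smul]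
      congr 1
      ring
    · have e1 : (3 * (e * e) - 2 * (e * e * e)) - a = (e - a) - (e * e - e) * (2 * e - 1) := by
        noncomm_ring
      rw [e1, h1, h2, smul_sub, smul_mul_assoc, smul_smul]
      congr 2
      ring

end ring

theorem pow_le_imp (P w K τ : ℕ) (hw : 1 ≤ w) (h : ∀ n, τ ≤ n → P ^ n ≤ w ^ n * K) : P ≤ w := by
  by_contra hlt
  push Not at hlt
  have hw' : (0 : ℝ) < w := by exact_mod_cast hw
  have h1 : (1 : ℝ) < P / w := by
    rw [lt_div_iff₀ hw', one_mul]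
    exact_mod_cast hlt
  obtain ⟨n, hn⟩ := pow_unbounded_of_one_lt (K : ℝ) h1
  have h2 : (K : ℝ) < (P / w : ℝ) ^ (n + τ) :=
    lt_of_lt_of_le hn (pow_le_pow_right₀ h1.le (Nat.le_add_right _ _))
  have h3 := h (n + τ) (Nat.le_add_left _ _)
  have h4 : (P : ℝ) ^ (n + τ) ≤ (w : ℝ) ^ (n + τ) * K := by exact_mod_cast h3
  rw [div_pow, lt_div_iff₀ (by positivity)] at h2
  nlinarith



/-- `mod n` quotient map -/
abbrev Q (E : Type) [AddCommGroup E] (n : ℕ) : Type := E ⧸ (nsmulAddMonoidHom (α := E) n).range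

theorem mk_eq_iff {E : Type} [AddCommGroup E] (n : ℕ) (a b : E) :
    (QuotientAddGroup.mk a : Q E n) = QuotientAddGroup.mk b ↔ ∃ u : E, a - b = n • u := by
  rw [QuotientAddGroup.eq_iff_sub_mem, AddMonoidHom.mem_range]
  constructor
  · rintro ⟨u, hu⟩
    exact ⟨u, hu.symm⟩
  · rintro ⟨u, hu⟩
    exact ⟨u, hu.symm⟩

theorem finite_Q {E : Type} [AddCommGroup E] (hE : AddGroup.FG E) (n : ℕ) (hn : n ≠ 0) :
    Finite (Q E n) := by
  have := hE
  have : AddGroup.FG (Q E n) := QuotientAddGroup.fg _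
  have ht : IsAddTorsion (Q E n) := by
    intro x
    obtain ⟨e, rfl⟩ := QuotientAddGroup.mk_surjective x
    rw [isOfFinAddOrder_iff_nsmul_eq_zero]
    refine ⟨n, Nat.pos_of_ne_zero hn, ?_⟩
    have : (n • (QuotientAddGroup.mk e : Q E n)) = QuotientAddGroup.mk (n • e) := rfl
    rw [this, QuotientAddGroup.eq_zero_iff]
    exact ⟨e, rfl⟩
  exact AddCommGroup.finite_of_fg_isAddTorsion _ ht

theorem exists_t {E : Type} [AddCommGroup E] (hE : AddGroup.FG E) (X : Submodule ℤ E) :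
    ∃ t : ℕ, t ≠ 0 ∧ ∀ (m : ℕ) (v : E), m ≠ 0 → m • v ∈ X → t • v ∈ X := by
  have : Module.Finite ℤ E := Module.Finite.iff_addGroup_fg.mpr hE
  have : IsNoetherian ℤ E := inferInstance
  let f : ℕ →o Submodule ℤ (E ⧸ X) :=
    ⟨fun n => LinearMap.ker (LinearMap.lsmul ℤ (E ⧸ X) ((n.factorial : ℕ) : ℤ)), by
      intro a b hab x hx
      rw [LinearMap.mem_ker, LinearMap.lsmul_apply] at hx ⊢
      obtain ⟨k, hk⟩ := Nat.factorial_dvd_factorial hab
      rw [hk, Nat.cast_mul, mul_comm, mul_smul, hx, smul_zero]⟩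
  obtain ⟨N, hN⟩ := monotone_stabilizes_iff_noetherian.mpr (inferInstance : IsNoetherian ℤ (E ⧸ X)) f
  refine ⟨N.factorial, Nat.factorial_ne_zero _, fun m v hm hv => ?_⟩
  have h1 : (Submodule.Quotient.mk v : E ⧸ X) ∈ f (N + m) := by
    change (Submodule.Quotient.mk v : E ⧸ X) ∈
      LinearMap.ker (LinearMap.lsmul ℤ (E ⧸ X) (((N + m).factorial : ℕ) : ℤ))
    rw [LinearMap.mem_ker, LinearMap.lsmul_apply, ← Submodule.Quotient.mk_smul,
      Submodule.Quotient.mk_eq_zero]
    obtain ⟨k, hk⟩ := Nat.dvd_factorial (Nat.pos_of_ne_zero hm) (Nat.le_add_left m N)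
    rw [hk, Nat.cast_mul, mul_comm, mul_smul]
    apply X.smul_mem
    rw [natCast_zsmul]
    exact hv
  rw [← hN (N + m) (Nat.le_add_right _ _)] at h1
  change (Submodule.Quotient.mk v : E ⧸ X) ∈
      LinearMap.ker (LinearMap.lsmul ℤ (E ⧸ X) (((N).factorial : ℕ) : ℤ)) at h1
  rw [LinearMap.mem_ker, LinearMap.lsmul_apply, ← Submodule.Quotient.mk_smul,
      Submodule.Quotient.mk_eq_zero, natCast_zsmul] at h1
  exact h1

/-- upper bound -/
theorem upper {E : Type} [AddCommGroup E] (hE : AddGroup.FG E) (p : ℕ) (hp : p ≠ 0) (n : ℕ)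
    (A : AddMonoid.End E) (hA : ∀ v, ∃ u, A (A v) - A v = p ^ n • u) :
    Nat.card (Set.range fun v : E => (QuotientAddGroup.mk (A v) : Q E (p ^ n))) ≤
      Nat.card (Set.range fun v : E => (QuotientAddGroup.mk (A v) : Q E p)) ^ n := by
  classical
  have := finite_Q hE p hp
  have := finite_Q hE (p ^ n) (pow_ne_zero _ hp)
  let W := Set.range fun v : E => (QuotientAddGroup.mk (A v) : Q E p)
  have hr : ∀ ω : W, ∃ r : E, (QuotientAddGroup.mk (A r) : Q E p) = ω := fun ω => ω.2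
  choose r hr using hr
  have key : ∀ m : ℕ, ∀ v : E, ∃ ω : Fin m → W, ∃ u t : E,
      A v = ∑ i : Fin m, p ^ (i : ℕ) • A (r (ω i)) + p ^ m • A u + p ^ n • t := by
    intro m
    induction m with
    | zero => exact fun v => ⟨Fin.elim0, v, 0, by simp⟩
    | succ m ih =>
      intro v
      let ω₀ : W := ⟨QuotientAddGroup.mk (A v), v, rfl⟩
      obtain ⟨u, hu⟩ := (mk_eq_iff p (A v) (A (r ω₀))).mp (hr ω₀).symm
      obtain ⟨ω, u', t, hut⟩ := ih u
      obtain ⟨b1, hb1⟩ := hA (v - r ω₀)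
      refine ⟨Fin.cons ω₀ ω, u', p • t - b1, ?_⟩
      have e1 : A v = A (r ω₀) + p • A u - p ^ n • b1 := by
        rw [← hb1, map_sub, hu, map_nsmul, ← hu]
        abel
      rw [e1, hut, Fin.sum_univ_succ]
      simp only [Fin.cons_zero, Fin.cons_succ, Fin.val_zero, pow_zero, one_smul, Fin.val_succ,
        smul_add, Finset.smul_sum, smul_smul, pow_succ, smul_sub]
      simp only [mul_comm p]
      abel
  have hsurj : ∀ z : (Set.range fun v : E => (QuotientAddGroup.mk (A v) : Q E (p ^ n))),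
      ∃ ω : Fin n → W, (QuotientAddGroup.mk (∑ i : Fin n, p ^ (i : ℕ) • A (r (ω i))) : Q E (p ^ n)) = z := by
    rintro ⟨_, v, rfl⟩
    obtain ⟨ω, u, t, h⟩ := key n v
    refine ⟨ω, ?_⟩
    simp only
    symm
    rw [mk_eq_iff]
    exact ⟨A u + t, by rw [h, smul_add]; abel⟩
  choose g hg using hsurj
  have hinj : Function.Injective g := by
    intro z z' h
    apply Subtype.ext
    rw [← hg z, ← hg z', h]
  calc Nat.card _ ≤ Nat.card (Fin n → W) := Nat.card_le_card_of_injective g hinj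
    _ = _ := by rw [Nat.card_fun, Nat.card_fin]

theorem lower {G E : Type} [Group G] [Fintype G] [AddCommGroup E] (hE : AddGroup.FG E)
    (act : G →* AddMonoid.End E) (p : ℕ) (hp : p.Prime) (s : ℕ)
    (η : Fin s → E)
    (hη : ∀ n : Fin s → G → ℤ, ∑ i, ∑ g, n i g • (act g) (η i) = 0 → n = 0) :
    ∃ τ : ℕ, ∀ (ε : G → ℤ) (g₁ : G), ¬ (p : ℤ) ∣ ε g₁ → ∀ n, τ ≤ n →
      (p ^ (n - τ)) ^ s ≤ Nat.card (Set.range fun v : E =>
        (QuotientAddGroup.mk (∑ g, ε g • act g v) : Q E (p ^ n))) := by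
  classical
  let b : Fin s × G → E := fun x => act x.2 (η x.1)
  obtain ⟨t, ht0, ht⟩ := exists_t hE (Submodule.span ℤ (Set.range b))
  obtain ⟨τ, t', ht', htt⟩ := Nat.exists_eq_pow_mul_and_not_dvd ht0 p hp.ne_one
  refine ⟨τ, fun ε g₁ hg₁ n hn => ?_⟩
  have hfin := finite_Q hE (p ^ n) (pow_ne_zero _ hp.ne_zero)
  let F : (Fin s → Fin (p ^ (n - τ))) → Set.range fun v : E =>
        (QuotientAddGroup.mk (∑ g, ε g • act g v) : Q E (p ^ n)) := fun c =>
    ⟨QuotientAddGroup.mk (∑ g, ε g • act g (∑ i, (c i : ℕ) • η i)), _, rfl⟩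
  have hF : Function.Injective F := by
    intro c c' h
    have h1 : (QuotientAddGroup.mk (∑ g, ε g • act g (∑ i, (c i : ℕ) • η i)) : Q E (p ^ n)) =
        QuotientAddGroup.mk (∑ g, ε g • act g (∑ i, (c' i : ℕ) • η i)) :=
      congrArg Subtype.val h
    obtain ⟨u, hu⟩ := (mk_eq_iff _ _ _).mp h1
    have h2 : (∑ g, ε g • act g (∑ i, (c i : ℕ) • η i)) -
        (∑ g, ε g • act g (∑ i, (c' i : ℕ) • η i)) =
        ∑ i, ∑ g, ((((c i : ℕ) : ℤ) - ((c' i : ℕ) : ℤ)) * ε g) • act g (η i) := by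
      rw [← Finset.sum_sub_distrib, Finset.sum_comm]
      refine Finset.sum_congr rfl fun g _ => ?_
      rw [map_sum, map_sum, Finset.smul_sum, Finset.smul_sum, ← Finset.sum_sub_distrib]
      refine Finset.sum_congr rfl fun i _ => ?_
      rw [map_nsmul, map_nsmul, ← natCast_zsmul, ← natCast_zsmul (act g (η i)) (c' i : ℕ),
        smul_smul, smul_smul, ← sub_smul]
      congr 1
      ring
    have h3 : t • u ∈ Submodule.span ℤ (Set.range b) := by
      apply ht (p ^ n) u (pow_ne_zero _ hp.ne_zero)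
      rw [← hu, h2]
      refine Submodule.sum_mem _ fun i _ => Submodule.sum_mem _ fun g _ => ?_
      exact Submodule.smul_mem _ _ (Submodule.subset_span ⟨(i, g), rfl⟩)
    obtain ⟨m, hm⟩ := (Submodule.mem_span_range_iff_exists_fun ℤ).mp h3
    have h4 : (fun i g => (p : ℤ) ^ n * m (i, g) -
        (t : ℤ) * ((((c i : ℕ) : ℤ) - ((c' i : ℕ) : ℤ)) * ε g)) = 0 := by
      apply hη
      have e1 : ∑ i, ∑ g, ((p : ℤ) ^ n * m (i, g) -
        (t : ℤ) * ((((c i : ℕ) : ℤ) - ((c' i : ℕ) : ℤ)) * ε g)) • act g (η i) =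
          (p : ℤ) ^ n • (∑ i, ∑ g, m (i, g) • act g (η i)) - (t : ℤ) •
            (∑ i, ∑ g, ((((c i : ℕ) : ℤ) - ((c' i : ℕ) : ℤ)) * ε g) • act g (η i)) := by
        simp only [sub_smul, mul_smul, Finset.smul_sum, Finset.sum_sub_distrib, smul_sub]
      rw [e1, ← h2, hu]
      have e2 : ∑ i, ∑ g, m (i, g) • act g (η i) = t • u := by
        rw [← hm, Fintype.sum_prod_type]
      rw [e2, ← natCast_zsmul u t, ← natCast_zsmul u (p ^ n), smul_smul, smul_smul, Nat.cast_pow,
        mul_comm, sub_self]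
    funext i
    apply Fin.ext
    have h5 := congrFun (congrFun h4 i) g₁
    simp only [Pi.zero_apply, htt] at h5
    have h6 : (p : ℤ) ^ (n - τ) * m (i, g₁) =
        (t' : ℤ) * ((((c i : ℕ) : ℤ) - ((c' i : ℕ) : ℤ)) * ε g₁) := by
      have hp0 : (p : ℤ) ^ τ ≠ 0 := pow_ne_zero _ (by exact_mod_cast hp.ne_zero)
      apply mul_left_cancel₀ hp0
      have e3 : (p : ℤ) ^ n = (p : ℤ) ^ τ * (p : ℤ) ^ (n - τ) := by
        rw [← pow_add]
        congr 1
        omega
      rw [e3] at h5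
      push_cast at h5
      linarith
    have h7 : (p : ℤ) ^ (n - τ) ∣ ((c i : ℕ) : ℤ) - ((c' i : ℕ) : ℤ) := by
      have hpI : Prime (p : ℤ) := Nat.prime_iff_prime_int.mp hp
      have hd : (p : ℤ) ^ (n - τ) ∣ ((t' : ℤ) * ε g₁) * (((c i : ℕ) : ℤ) - ((c' i : ℕ) : ℤ)) :=
        ⟨m (i, g₁), by rw [h6]; ring⟩
      refine IsCoprime.dvd_of_dvd_mul_left ?_ hd
      apply IsCoprime.pow_left
      rw [Prime.coprime_iff_not_dvd hpI]
      intro hdvd
      rcases hpI.dvd_or_dvd hdvd with h | h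
      · exact ht' (by exact_mod_cast h)
      · exact hg₁ h
    have hc := (c i).2
    have hc' := (c' i).2
    have h9 : ((c i : ℕ) : ℤ) - ((c' i : ℕ) : ℤ) = 0 := by
      apply Int.eq_zero_of_abs_lt_dvd h7
      rw [abs_lt]
      have hc1 : ((c i : ℕ) : ℤ) < (p : ℤ) ^ (n - τ) := by exact_mod_cast hc
      have hc2 : ((c' i : ℕ) : ℤ) < (p : ℤ) ^ (n - τ) := by exact_mod_cast hc'
      constructor <;> omega
    omega
  calc (p ^ (n - τ)) ^ s = Nat.card (Fin s → Fin (p ^ (n - τ))) := by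
        rw [Nat.card_fun, Nat.card_fin, Nat.card_fin]
    _ ≤ _ := Nat.card_le_card_of_injective F hF



/-- the group ring acting -/
noncomputable def phi {G E : Type} [Group G] [AddCommGroup E] (act : G →* AddMonoid.End E) :
    MonoidAlgebra ℤ G →ₐ[ℤ] AddMonoid.End E :=
  MonoidAlgebra.lift ℤ (AddMonoid.End E) G act

theorem phi_apply {G E : Type} [Group G] [Fintype G] [AddCommGroup E]
    (act : G →* AddMonoid.End E) (x : MonoidAlgebra ℤ G) (v : E) :
    phi act x v = ∑ g, x.coeff g • act g v := by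
  classical
  rw [phi, MonoidAlgebra.lift_apply, Finsupp.sum_fintype _ _ (by simp)]
  exact AddMonoidHom.finsetSum_apply (M := E) (N := E) (fun i => x.coeff i • act i) Finset.univ v

/-- element with given coefficients -/
noncomputable def mkE {R G : Type} [Semiring R] [Finite G] (F : G → R) : MonoidAlgebra R G :=
  MonoidAlgebra.ofCoeff (Finsupp.equivFunOnFinite.symm F)

theorem coeff_mkE {R G : Type} [Semiring R] [Finite G] (F : G → R) (g : G) :
    (mkE F).coeff g = F g := rfl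

theorem exists_y {G : Type} [Group G] [Fintype G] (p : ℕ) (hp : p.Prime)
    (hpG : ¬ p ∣ Fintype.card G) (x : MonoidAlgebra ℤ G) :
    ∃ y z : MonoidAlgebra ℤ G, x * y * x - x = (p : ℤ) • z := by
  classical
  have : Fact p.Prime := ⟨hp⟩
  have hc : (Nat.card G : ZMod p) ≠ 0 := by
    rw [Nat.card_eq_fintype_card, Ne, ZMod.natCast_eq_zero_iff]
    exact hpG
  let f := MonoidAlgebra.mapRingHom G (Int.castRingHom (ZMod p))
  have hf : ∀ (x : MonoidAlgebra ℤ G) (g : G), (f x).coeff g = ((x.coeff g : ℤ) : ZMod p) := by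
    intro x g
    simp [f, MonoidAlgebra.coeff_mapRingHom]
  obtain ⟨y', hy'⟩ := exists_quasi_inverse hc (f x)
  have hsurj : ∃ y, f y = y' := by
    refine ⟨mkE fun g => ((y'.coeff g).val : ℤ), ?_⟩
    apply MonoidAlgebra.coeff_injective
    ext g
    rw [hf, coeff_mkE]
    simp
  obtain ⟨y, hy⟩ := hsurj
  have h0 : f (x * y * x - x) = 0 := by
    rw [map_sub, map_mul, map_mul, hy, hy', sub_self]
  have h1 : ∀ g, ∃ c : ℤ, (x * y * x - x).coeff g = (p : ℤ) * c := by
    intro g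
    have h2 := hf (x * y * x - x) g
    rw [h0] at h2
    have h3 : (((x * y * x - x).coeff g : ℤ) : ZMod p) = 0 := by
      rw [← h2]
      rfl
    exact (ZMod.intCast_zmod_eq_zero_iff_dvd _ _).mp h3
  choose c hc' using h1
  refine ⟨y, mkE c, ?_⟩
  apply MonoidAlgebra.coeff_injective
  ext g
  rw [hc' g, MonoidAlgebra.coeff_smul_apply, coeff_mkE, smul_eq_mul]


end LatticeAux

open LatticeAux in
theorem lattice_bound {G E : Type} [Group G] [Fintype G] [AddCommGroup E] (hE : AddGroup.FG E)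
    (act : G →* AddMonoid.End E) (p : ℕ) (hp : p.Prime) (hpG : ¬ p ∣ Fintype.card G) (s : ℕ)
    (η : Fin s → E)
    (hη : ∀ n : Fin s → G → ℤ, ∑ i, ∑ g, n i g • (act g) (η i) = 0 → n = 0)
    (θ : G → ℤ) (g₀ : G) (hθ : ¬ (p : ℤ) ∣ θ g₀) :
    p ^ s ≤ Nat.card (Set.range fun e : E =>
      (QuotientAddGroup.mk (∑ g, θ g • (act g) e) : E ⧸ (nsmulAddMonoidHom (α := E) p).range)) := by
  classical
  let x : MonoidAlgebra ℤ G := mkE θ
  obtain ⟨y, z, hyz⟩ := exists_y p hp hpG x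
  have ha : (x * y) * (x * y) - x * y = (p : ℤ) • (z * y) := by
    have e1 : (x * y) * (x * y) - x * y = (x * y * x - x) * y := by noncomm_ring
    rw [e1, hyz, smul_mul_assoc]
  obtain ⟨τ, hτ⟩ := lower hE act p hp s η hη
  have hfin := finite_Q hE p hp.ne_zero
  let w := Nat.card (Set.range fun v : E => (QuotientAddGroup.mk (phi act (x * y) v) : Q E p))
  have hw : 1 ≤ w := by
    have : Nonempty (Set.range fun v : E =>
      (QuotientAddGroup.mk (phi act (x * y) v) : Q E p)) := ⟨⟨_, 0, rfl⟩⟩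
    exact Nat.card_pos
  have hbound : ∀ n, τ ≤ n → (p ^ s) ^ n ≤ w ^ n * (p ^ τ) ^ s := by
    intro n hn
    obtain ⟨e, c, d, he, hd⟩ := lift_idem p (x * y) (z * y) ha n
    have hg : ∃ g₁, ¬ (p : ℤ) ∣ e.coeff g₁ := by
      by_contra hcon
      push Not at hcon
      choose q hq using hcon
      have he' : e = (p : ℤ) • mkE q := by
        apply MonoidAlgebra.coeff_injective
        ext g
        rw [hq g, MonoidAlgebra.coeff_smul_apply, coeff_mkE, smul_eq_mul]
      have hx : x = (p : ℤ) • (mkE q * x - d * x - z) := by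
        have e1 : e * x = x + (p : ℤ) • z + (p : ℤ) • (d * x) := by
          have e2 : e = x * y + (p : ℤ) • d := by rw [← hd]; abel
          rw [e2, add_mul, smul_mul_assoc, ← hyz]
          abel
        have e3 : e * x = (p : ℤ) • (mkE q * x) := by
          rw [he', smul_mul_assoc]
        rw [smul_sub, smul_sub, ← e3, e1]
        abel
      apply hθ
      refine ⟨(mkE q * x - d * x - z).coeff g₀, ?_⟩
      have h5 : x.coeff g₀ = ((p : ℤ) • (mkE q * x - d * x - z)).coeff g₀ :=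
        congrArg (fun r : MonoidAlgebra ℤ G => r.coeff g₀) hx
      rw [MonoidAlgebra.coeff_smul_apply, smul_eq_mul] at h5
      exact h5
    obtain ⟨g₁, hg₁⟩ := hg
    have h1 := hτ (fun g => e.coeff g) g₁ hg₁ n hn
    have h2 := upper hE p hp.ne_zero n (phi act e) (fun v => ⟨p • phi act c v, by
      have e1 : phi act e (phi act e v) - phi act e v = phi act (e * e - e) v := by
        rw [map_sub, map_mul]
        rfl
      rw [e1, he, map_smul]
      change ((p : ℤ) ^ (n + 1)) • (phi act c v) = _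
      rw [← natCast_zsmul, ← natCast_zsmul, smul_smul, Nat.cast_pow, pow_succ]⟩)
    have h3 : (fun v : E => (QuotientAddGroup.mk (phi act e v) : Q E p)) =
        fun v : E => (QuotientAddGroup.mk (phi act (x * y) v) : Q E p) := by
      funext v
      rw [mk_eq_iff]
      refine ⟨phi act d v, ?_⟩
      have e1 : phi act e v - phi act (x * y) v = phi act (e - x * y) v := by
        rw [map_sub]
        rfl
      rw [e1, hd, map_smul]
      change (p : ℤ) • (phi act d v) = _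
      rw [natCast_zsmul]
    rw [h3] at h2
    have h4 : (fun v : E => (QuotientAddGroup.mk (∑ g, e.coeff g • act g v) : Q E (p ^ n))) =
        fun v : E => (QuotientAddGroup.mk (phi act e v) : Q E (p ^ n)) := by
      funext v
      rw [phi_apply]
    rw [h4] at h1
    have h5 : (p ^ (n - τ)) ^ s ≤ w ^ n := h1.trans h2
    calc (p ^ s) ^ n = (p ^ (n - τ)) ^ s * (p ^ τ) ^ s := by
          rw [← mul_pow, ← pow_add, Nat.sub_add_cancel hn, ← pow_mul, ← pow_mul, mul_comm]
      _ ≤ _ := Nat.mul_le_mul_right _ h5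
  have hfinal := pow_le_imp (p ^ s) w ((p ^ τ) ^ s) τ hw hbound
  refine hfinal.trans ?_
  apply Nat.card_mono (Set.toFinite _)
  rintro _ ⟨v, rfl⟩
  refine ⟨phi act y v, ?_⟩
  have e1 : phi act (x * y) v = phi act x (phi act y v) := by
    rw [map_mul]
    rfl
  simp only [e1]
  rw [phi_apply act x]
  rfl

end H38.ML
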