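import Pool.Agent.H38.ML.LayerDef
import Pool.Agent.H38.ML.Bt
import Pool.Agent.H38.ML.ClsRep
import Pool.Agent.H38.ML.UnrFin

/-!
# [H38 ML LAYERDATA] The auxiliary data for the layer (40-80 lines)

Order of the choices: `R c` from `exists_classRep` for `Fc a c`;
`S₁ = S₀ ∪ {v : v below a prime V ⊇ J, J ∈ R c} ∪ {v nonzero prime : q ∈ v} ∪ {v ramified}` (finite:
`finite_primes_below` for `Fc a c`, resp. for `K` itself and the ideal `(q)` (take `M = K`) and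
`finite_not_unr`); `bt, W` from `exists_bt` with `T = A`, `S = S₁`;
`S = S₁ ∪ {(W t).under (𝓞 K)} ∪ {v below a prime containing some bt t}`.
`hRS`: `V.under (𝓞 K) ∈ S₁`, while `(W t).under (𝓞 K) ∉ S₁`.
-/

open scoped NumberField Pointwise

noncomputable section

namespace H38.ML

/-- The auxiliary data: elements `bt t` with prescribed orders at `W t`, representatives `R c` of the
ideal classes of `Fc a c`, and a finite set `S` of bad primes of `K`. -/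
structure LayerData {K M : Type} [Field K] [NumberField K] [Field M] [NumberField M] [Algebra K M]
    {A : Subgroup Gal(M/K)} {b : ℕ} (a : Fin b → A) (q : ℕ) (S₀ : Set (Ideal (𝓞 K))) where
  bt : A → 𝓞 M
  W : A → Ideal (𝓞 M)
  R : (c : Fin b) → Finset (Ideal (𝓞 (Fc a c)))
  S : Set (Ideal (𝓞 K))
  hS : S.Finite
  hS₀ : S₀ ⊆ S
  hbt : ∀ t, bt t ≠ 0
  hWp : ∀ t, (W t).IsPrime
  hW0 : ∀ t, W t ≠ ⊥
  hWS : ∀ t, (W t).under (𝓞 K) ∈ S
  hb1 : ∀ t, ordAt (W t) (bt t) = 1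
  hb0 : ∀ t t' (σ : Gal(M/K)), ¬ (t = t' ∧ σ = 1) → ordAt (W t) (σ • bt t') = 0
  hbS : ∀ t (Q : Ideal (𝓞 M)), Q.IsPrime → bt t ∈ Q → Q.under (𝓞 K) ∈ S
  hR0 : ∀ c, ∀ J ∈ R c, J ≠ ⊥
  hR : ∀ c (I : Ideal (𝓞 (Fc a c))), I ≠ ⊥ →
    ∃ J ∈ R c, ∃ x : 𝓞 (Fc a c), x ≠ 0 ∧ Ideal.span {x} = I * J
  hRS : ∀ c, ∀ J ∈ R c, ∀ V : Ideal (𝓞 (Fc a c)), V.IsPrime → J ≤ V →
    V.under (𝓞 K) ∈ S ∧ ∀ t, V.under (𝓞 K) ≠ (W t).under (𝓞 K)
  hSq : ∀ v : Ideal (𝓞 K), v.IsPrime → v ≠ ⊥ → v ∉ S → ((q : ℕ) : 𝓞 K) ∉ v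
  hSu : ∀ v : Ideal (𝓞 K), v.IsPrime → v ≠ ⊥ → v ∉ S → Unr K M v

theorem exists_layerData {K M : Type} [Field K] [NumberField K] [Field M] [NumberField M]
    [Algebra K M] [IsGalois K M] {A : Subgroup Gal(M/K)} {b : ℕ} (a : Fin b → A) (q : ℕ)
    (hq : 0 < q) (S₀ : Set (Ideal (𝓞 K))) (hS₀ : S₀.Finite) :
    Nonempty (LayerData a q S₀) := by
  classical
  have : FiniteDimensional K M := inferInstance
  have : Finite A := inferInstance
  choose R hR0 hR using fun c : Fin b => exists_classRep (Fc a c)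
  set S₁ : Set (Ideal (𝓞 K)) := ((S₀ ∪ (⋃ c : Fin b, ⋃ J ∈ R c,
      {v | ∃ Q : Ideal (𝓞 (Fc a c)), Q.IsPrime ∧ J ≤ Q ∧ Q.under (𝓞 K) = v})) ∪
      {v | ∃ Q : Ideal (𝓞 M), Q.IsPrime ∧ Ideal.span {((q : ℕ) : 𝓞 M)} ≤ Q ∧
        Q.under (𝓞 K) = v}) ∪
      {v | v.IsPrime ∧ v ≠ ⊥ ∧ ¬ Unr K M v} with hS₁def
  have hq0 : ((q : ℕ) : 𝓞 M) ≠ 0 := by exact_mod_cast hq.ne'
  have hS₁ : S₁.Finite := by
    refine (((hS₀.union ?_).union ?_).union ?_)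
    · refine Set.finite_iUnion fun c => Set.Finite.biUnion (R c).finite_toSet fun J hJ => ?_
      exact finite_primes_below K (Fc a c) J (hR0 c J hJ)
    · exact finite_primes_below K M _ (by rw [Ne, Ideal.span_singleton_eq_bot]; exact hq0)
    · exact finite_not_unr K M
  obtain ⟨bt, W, hbt, hW, hW1, hW0⟩ := exists_bt K M A S₁ hS₁
  have hS₂ : (⋃ t : A, {v : Ideal (𝓞 K) | ∃ Q : Ideal (𝓞 M), Q.IsPrime ∧
      Ideal.span {bt t} ≤ Q ∧ Q.under (𝓞 K) = v}).Finite := by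
    refine Set.finite_iUnion fun t => ?_
    exact finite_primes_below K M _ (by rw [Ne, Ideal.span_singleton_eq_bot]; exact hbt t)
  refine ⟨{ bt := bt, W := W, R := R,
            S := (S₁ ∪ Set.range (fun t => (W t).under (𝓞 K))) ∪
              ⋃ t : A, {v : Ideal (𝓞 K) | ∃ Q : Ideal (𝓞 M), Q.IsPrime ∧
                Ideal.span {bt t} ≤ Q ∧ Q.under (𝓞 K) = v},
            hS := (hS₁.union (Set.finite_range _)).union hS₂,
            hS₀ := ?_, hbt := hbt, hWp := fun t => (hW t).1, hW0 := fun t => (hW t).2.1,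
            hWS := ?_, hb1 := hW1, hb0 := hW0, hbS := ?_, hR0 := hR0, hR := hR,
            hRS := ?_, hSq := ?_, hSu := ?_ }⟩
  · intro v hv
    exact Or.inl (Or.inl (Or.inl (Or.inl (Or.inl hv))))
  · intro t
    exact Or.inl (Or.inr ⟨t, rfl⟩)
  · intro t Q hQ hmem
    refine Or.inr (Set.mem_iUnion.2 ⟨t, Q, hQ, ?_, rfl⟩)
    rw [Ideal.span_singleton_le_iff_mem]; exact hmem
  · intro c J hJ V hV hJV
    have h1 : V.under (𝓞 K) ∈ S₁ := by
      refine Or.inl (Or.inl (Or.inr ?_))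
      exact Set.mem_iUnion.2 ⟨c, Set.mem_iUnion₂.2 ⟨J, hJ, V, hV, hJV, rfl⟩⟩
    refine ⟨Or.inl (Or.inl h1), ?_⟩
    intro t h
    exact (hW t).2.2 (h ▸ h1)
  · intro v hv hv0 hvS hqv
    apply hvS
    obtain ⟨Q, -, hQ1, hQ2⟩ := Ideal.exists_ideal_over_prime_of_isIntegral v
      (⊥ : Ideal (𝓞 M)) (by
        intro x hx
        have hx' : algebraMap (𝓞 K) (𝓞 M) x = 0 := by simpa using hx
        have : x = 0 := (FaithfulSMul.algebraMap_injective (𝓞 K) (𝓞 M)) (by simpa using hx')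
        rw [this]; exact v.zero_mem)
    refine Or.inl (Or.inl (Or.inl (Or.inr ⟨Q, hQ1, ?_, hQ2⟩)))
    rw [Ideal.span_singleton_le_iff_mem]
    have h1 : ((q : ℕ) : 𝓞 K) ∈ Q.under (𝓞 K) := by
      have : Q.under (𝓞 K) = v := hQ2
      rw [this]; exact hqv
    have h2 : algebraMap (𝓞 K) (𝓞 M) ((q : ℕ) : 𝓞 K) ∈ Q := h1
    simpa using h2
  · intro v hv hv0 hvS
    by_contra hu
    exact hvS (Or.inl (Or.inl (Or.inr ⟨hv, hv0, hu⟩)))

/-- `αc` are generators of `I c * J`, `J ∈ R c`. -/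
def IsGen {K M : Type} [Field K] [NumberField K] [Field M] [NumberField M] [Algebra K M]
    {A : Subgroup Gal(M/K)} {b : ℕ} {a : Fin b → A} {q : ℕ} {S₀ : Set (Ideal (𝓞 K))}
    (D : LayerData a q S₀) (I : Tup fun c => Fc a c) (αc : (c : Fin b) → 𝓞 (Fc a c)) : Prop :=
  ∀ c, αc c ≠ 0 ∧ ∃ J ∈ D.R c, Ideal.span {αc c} = I c * J

end H38.ML
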