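import Pool.Agent.H38.ML.Ord

/-!
# The data for the layer `T/N` (definitions, all proofs complete)

`M/K` finite Galois with group `G`, `A` a normal subgroup (commutative in the applications),
`a : Fin b → A`.  `Fc a c` is the subfield of `M` fixed by the centralizer of `a c`.

The index set of the Kummer construction is `XT a = Σ i : A ⊕ Fin b, G ⧸ UU a i` with
`UU a (inl t) = ⊥`, `UU a (inr c) = centralizer {a c}`.  The functions `aX : XT a → A` and
`αX : XT a → 𝓞 M` are `aX ⟨i, g⟩ = g * aa i * g⁻¹` (`aa (inl t) = t`, `aa (inr c) = a c`) and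
`αX ⟨i, g⟩ = g • α i` (`α (inl t) = bt t`, `α (inr c) = αc c ∈ 𝓞 (Fc a c)`).
-/

open scoped NumberField Pointwise

noncomputable section

namespace H38.ML

section sig

variable {G I : Type} [Group G] (U : I → Subgroup G)

/-- The disjoint union of the `G`-sets `G ⧸ U i`. -/
abbrev SigX : Type := Σ i : I, G ⧸ U i

/-- The equivariant map `⟨i, g⟩ ↦ g y_i`. -/
def sigLift {Y : Type} (act : G → Y → Y) (hact : ∀ g h y, act (g * h) y = act g (act h y))
    (y : I → Y) (hy : ∀ i, ∀ u ∈ U i, act u (y i) = y i) : SigX U → Y := fun x =>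
  Quotient.liftOn' x.2 (fun g => act g (y x.1)) (by
    intro g h hgh
    have h1 : g⁻¹ * h ∈ U x.1 := QuotientGroup.leftRel_apply.mp hgh
    have h2 := hy x.1 _ h1
    have h3 : h = g * (g⁻¹ * h) := by group
    change act g (y x.1) = act h (y x.1)
    rw [h3, hact, h2])

theorem sigLift_mk {Y : Type} (act : G → Y → Y) (hact : ∀ g h y, act (g * h) y = act g (act h y))
    (y : I → Y) (hy : ∀ i, ∀ u ∈ U i, act u (y i) = y i) (i : I) (g : G) :
    sigLift U act hact y hy ⟨i, (g : G ⧸ U i)⟩ = act g (y i) := rfl

theorem sigLift_smul {Y : Type} (act : G → Y → Y) (hact : ∀ g h y, act (g * h) y = act g (act h y))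
    (y : I → Y) (hy : ∀ i, ∀ u ∈ U i, act u (y i) = y i) (g : G) (x : SigX U) :
    sigLift U act hact y hy (g • x) = act g (sigLift U act hact y hy x) := by
  obtain ⟨i, x⟩ := x
  induction x using QuotientGroup.induction_on with
  | H h =>
    change act (g * h) (y i) = act g (act h (y i))
    exact hact _ _ _

end sig

section layer

variable {K M : Type} [Field K] [NumberField K] [Field M] [NumberField M] [Algebra K M]
variable {A : Subgroup Gal(M/K)} {b : ℕ} (a : Fin b → A)

/-- The field fixed by the centralizer of `a c`. -/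
abbrev Fc (c : Fin b) : IntermediateField K M :=
  IntermediateField.fixedField (Subgroup.centralizer {((a c : A) : Gal(M/K))})

/-- The stabilizers of the base points of the orbits. -/
def UU : A ⊕ Fin b → Subgroup Gal(M/K)
  | Sum.inl _ => ⊥
  | Sum.inr c => Subgroup.centralizer {((a c : A) : Gal(M/K))}

/-- The index set of the Kummer construction for the layer. -/
abbrev XT : Type := SigX (UU a)

instance : Finite (XT a) := inferInstance

/-- Conjugation on `A`. -/
def conjA [A.Normal] (g : Gal(M/K)) (t : A) : A :=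
  ⟨g * t * g⁻¹, Subgroup.Normal.conj_mem inferInstance _ t.2 _⟩

theorem conjA_mul [A.Normal] (g h : Gal(M/K)) (t : A) :
    conjA (g * h) t = conjA g (conjA h t) := by
  ext1
  simp only [conjA]
  group

/-- The function `a` on the index set. -/
def aX [A.Normal] : XT a → A :=
  sigLift (UU a) conjA conjA_mul (Sum.elim id a) (by
    intro i u hu
    cases i with
    | inl t =>
      have : u = 1 := by simpa [UU] using hu
      subst this
      ext1
      simp [conjA]
    | inr c =>
      have h1 : u * (a c : Gal(M/K)) = (a c : Gal(M/K)) * u :=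
        (Subgroup.mem_centralizer_singleton_iff.mp hu).symm ▸ rfl
      ext1
      simp only [conjA, Sum.elim_inr]
      rw [h1]
      group)

/-- The generators of the orbits: `bt t` and `αc c`. -/
def gen (bt : A → 𝓞 M) (αc : (c : Fin b) → 𝓞 (Fc a c)) : A ⊕ Fin b → 𝓞 M
  | Sum.inl t => bt t
  | Sum.inr c => algebraMap (𝓞 (Fc a c)) (𝓞 M) (αc c)

theorem gen_fixed (bt : A → 𝓞 M) (αc : (c : Fin b) → 𝓞 (Fc a c)) (i : A ⊕ Fin b)
    (u : Gal(M/K)) (hu : u ∈ UU a i) : u • gen a bt αc i = gen a bt αc i := by
  cases i with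
  | inl t =>
    have : u = 1 := by simpa [UU] using hu
    subst this
    exact one_smul _ _
  | inr c =>
    have h1 : u ∈ Subgroup.centralizer {((a c : A) : Gal(M/K))} := hu
    apply NumberField.RingOfIntegers.ext
    have h2 := (αc c : Fc a c).2
    rw [IntermediateField.mem_fixedField_iff] at h2
    exact h2 u h1

/-- The function `α` on the index set. -/
def αX (bt : A → 𝓞 M) (αc : (c : Fin b) → 𝓞 (Fc a c)) : XT a → 𝓞 M :=
  sigLift (UU a) (fun g x => g • x) (fun g h x => mul_smul g h x) (gen a bt αc)
    (gen_fixed a bt αc)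

end layer

end H38.ML
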