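import Pool.Agent.H38.ML.LayerData
import Pool.Agent.H38.ML.Coset

/-!
# [H38 ML LAYERORD] The orders of the Kummer generators (four theorems, 150-220 lines)

`I` is a good tuple, `αc c` generates `I c * J_c`, `J_c ∈ R c`.  Use
`sigLift_mk`: `αX a bt αc ⟨inl t, g⟩ = g • bt t`, `αX a bt αc ⟨inr c, g⟩ = g • (αc c : 𝓞 M)`
(both by `rfl`), and `coset_unique`, `ord_conj` for `D = centralizer {a c}`.

`alphaX_ne_zero`: clear.

`ord_inl`: `g • bt t ∈ Q` would give `bt t ∈ g⁻¹ • Q`, and `(g⁻¹ • Q).under (𝓞 K) = Q.under (𝓞 K) ∉ S`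
contradicts `hbS`.

`ord_inr`: by `ord_conj` (`hSu` gives `Unr`) it is `ordAt V (αc c)`, `V = (g⁻¹ • Q).under (𝓞 (Fc a c))`, and
by `ordAt_of_span_mul` it is the multiplicity of `V` in `I c` plus the one in `J`.  The second is `0`
(`hRS`: a prime `V ⊇ J` lies over a prime in `S`, but `V` lies over `Q.under (𝓞 K) ∉ S`).  The first is
`1` if `V ∣ I c` (`sq` of `Good`), `0` otherwise.  (`V ≠ ⊥`, `V` prime.)

`ord_W`: for `x = ⟨inl t', g⟩` this is `hb1`, `hb0` (`⟨inl t', g⟩ = ⟨inl t, 1⟩` iff `t' = t` and `g = 1`,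
because `UU a (inl t) = ⊥`).  For `x = ⟨inr c, g⟩`: suppose `g • αc c ∈ W t`; then `αc c ∈ V`,
`V = (g⁻¹ • W t).under (𝓞 (Fc a c))`, prime, over `w = (W t).under (𝓞 K)`; so `I c * J ≤ V`, so `I c ≤ V`
or `J ≤ V`.  The first contradicts `notMem` of `Good` (`w ∈ S` by `hWS`), the second contradicts
`hRS`.

`layer_unique`: existence of `g`: let `Q'` be a prime of `𝓞 M` above `V`; `Q'` and `Q` lie over the
same prime `v` of `K`, so `g • Q' = Q` for some `g` (`Ideal.exists_smul_eq_of_isGaloisGroup`).  So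
`(g⁻¹ • Q).under = V`.  Now let `x` be arbitrary: `⟨inl t, h⟩`: order `0`.  `⟨inr c', h⟩` with
`V' = (h⁻¹ • Q).under (𝓞 (Fc a c')) ∣ I c'`: `V'` lies over `v` as well, so by `disj` `c' = c` and by `inj`
`V' = V`; `coset_unique` (its hypothesis `hdeg` is `deg` of `Good`) gives `g⁻¹ * h ∈ centralizer`, i.e.
`(h : G ⧸ _) = g`, so `x = ⟨inr c, g⟩`.
-/

open scoped NumberField Pointwise

noncomputable section

namespace H38.ML

variable {K M : Type} [Field K] [NumberField K] [Field M] [NumberField M] [Algebra K M]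
  [IsGalois K M] {A : Subgroup Gal(M/K)} {b : ℕ} {a : Fin b → A} {q : ℕ}
  {S₀ : Set (Ideal (𝓞 K))}

private theorem underK_smul (g : Gal(M/K)) (Q : Ideal (𝓞 M)) :
    (g • Q).under (𝓞 K) = Q.under (𝓞 K) := Ideal.under_smul (𝓞 K) Q g

private theorem under_ne_bot_of {R S : Type} [CommRing R] [IsDomain R] [CommRing S] [IsDomain S]
    [Algebra R S] [Algebra.IsIntegral R S] [FaithfulSMul R S] (Q : Ideal S) [Q.IsPrime] (hQ : Q ≠ ⊥) :
    Q.under R ≠ ⊥ := Ideal.IsIntegral.comap_ne_bot R hQ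

private theorem smul_ne_bot' (g : Gal(M/K)) (Q : Ideal (𝓞 M)) (hQ : Q ≠ ⊥) : g • Q ≠ ⊥ := by
  intro h
  apply hQ
  have := congrArg (fun I => g⁻¹ • I) h
  simpa using this

private theorem smul_ne_zero' (g : Gal(M/K)) {x : 𝓞 M} (hx : x ≠ 0) : g • x ≠ 0 := by
  intro h
  apply hx
  have := congrArg (fun I => g⁻¹ • I) h
  simpa using this

theorem alphaX_ne_zero (D : LayerData a q S₀) (I : Tup fun c => Fc a c)
    (αc : (c : Fin b) → 𝓞 (Fc a c)) (hα : IsGen D I αc) (x : XT a) : αX a D.bt αc x ≠ 0 := by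
  obtain ⟨i, x⟩ := x
  induction x using QuotientGroup.induction_on with
  | H g =>
    change g • gen a D.bt αc i ≠ 0
    apply smul_ne_zero'
    cases i with
    | inl t => exact D.hbt t
    | inr c =>
      have h1 := (hα c).1
      change algebraMap (𝓞 (Fc a c)) (𝓞 M) (αc c) ≠ 0
      intro h
      apply h1
      exact (FaithfulSMul.algebraMap_injective (𝓞 (Fc a c)) (𝓞 M)) (by rw [h, map_zero])

theorem ord_inl (D : LayerData a q S₀) (αc : (c : Fin b) → 𝓞 (Fc a c)) (Q : Ideal (𝓞 M))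
    [Q.IsPrime] (hQ : Q ≠ ⊥) (hQS : Q.under (𝓞 K) ∉ D.S) (t : A) (g : Gal(M/K)) :
    ordAt Q (αX a D.bt αc ⟨Sum.inl t, (g : Gal(M/K) ⧸ UU a (Sum.inl t))⟩) = 0 := by
  change ordAt Q (g • D.bt t) = 0
  rw [ordAt_eq_zero_iff Q hQ (smul_ne_zero' g (D.hbt t))]
  intro h
  have h1 : D.bt t ∈ g⁻¹ • Q := by
    rw [Ideal.mem_inv_pointwise_smul_iff]
    exact h
  have h2 := D.hbS t (g⁻¹ • Q) inferInstance h1
  rw [underK_smul] at h2
  exact hQS h2

open Classical in
theorem ord_inr (D : LayerData a q S₀) (I : Tup fun c => Fc a c) (hI : Good (K := K) D.S I)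
    (αc : (c : Fin b) → 𝓞 (Fc a c)) (hα : IsGen D I αc) (Q : Ideal (𝓞 M)) [Q.IsPrime]
    (hQ : Q ≠ ⊥) (hQS : Q.under (𝓞 K) ∉ D.S) (c : Fin b) (g : Gal(M/K)) :
    ordAt Q (αX a D.bt αc ⟨Sum.inr c, (g : Gal(M/K) ⧸ UU a (Sum.inr c))⟩) =
      if (g⁻¹ • Q).under (𝓞 (Fc a c)) ∣ I c then 1 else 0 := by
  change ordAt Q (g • algebraMap (𝓞 (Fc a c)) (𝓞 M) (αc c)) = _
  have hv0 : Q.under (𝓞 K) ≠ ⊥ := under_ne_bot_of Q hQ
  have hun : Unr K M (Q.under (𝓞 K)) := D.hSu _ inferInstance hv0 hQS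
  obtain ⟨hα0, J, hJR, hJ⟩ := hα c
  rw [ord_conj (Subgroup.centralizer {((a c : A) : Gal(M/K))}) Q hQ hun g (αc c) hα0]
  have hJ0 : J ≠ ⊥ := D.hR0 c J hJR
  have hI0 : I c ≠ ⊥ := hI.ne c
  rw [ordAt_of_span_mul _ (I c) J hI0 hJ0 hJ]
  set V : Ideal (𝓞 (Fc a c)) := (g⁻¹ • Q).under (𝓞 (Fc a c)) with hV
  have hVp : V.IsPrime := inferInstance
  have hV0 : V ≠ ⊥ := under_ne_bot_of (g⁻¹ • Q) (smul_ne_bot' _ _ hQ)
  have hVK : V.under (𝓞 K) = Q.under (𝓞 K) := by
    rw [hV, Ideal.under_under, underK_smul]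
  have hirr : Irreducible V := (Ideal.prime_of_isPrime hV0 hVp).irreducible
  have hJc : Multiset.count V (UniqueFactorizationMonoid.normalizedFactors J) = 0 := by
    rw [Multiset.count_eq_zero]
    intro hm
    have hd := UniqueFactorizationMonoid.dvd_of_mem_normalizedFactors hm
    have := (D.hRS c J hJR V hVp (Ideal.le_of_dvd hd)).1
    rw [hVK] at this
    exact hQS this
  rw [hJc, add_zero]
  split_ifs with hd
  · apply UniqueFactorizationMonoid.count_normalizedFactors_eq hirr (normalize_eq V)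
    · rwa [pow_one]
    · exact hI.sq c V hVp
  · rw [Multiset.count_eq_zero]
    intro hm
    exact hd (UniqueFactorizationMonoid.dvd_of_mem_normalizedFactors hm)

open Classical in
theorem ord_W (D : LayerData a q S₀) (I : Tup fun c => Fc a c) (hI : Good (K := K) D.S I)
    (αc : (c : Fin b) → 𝓞 (Fc a c)) (hα : IsGen D I αc) (t : A) (x : XT a) :
    ordAt (D.W t) (αX a D.bt αc x) =
      if x = ⟨Sum.inl t, ((1 : Gal(M/K)) : Gal(M/K) ⧸ UU a (Sum.inl t))⟩ then 1 else 0 := by
  have hx0 := alphaX_ne_zero D I αc hα x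
  have := D.hWp t
  obtain ⟨i, x⟩ := x
  induction x using QuotientGroup.induction_on with
  | H g =>
    cases i with
    | inl t' =>
      change ordAt (D.W t) (g • D.bt t') = _
      split_ifs with h
      · have h1 := Sigma.mk.inj_iff.mp h
        have h2 : t' = t := Sum.inl.inj h1.1
        subst h2
        have h3 := eq_of_heq h1.2
        have h4 := QuotientGroup.eq.mp h3
        have h5 : g = 1 := by simpa [UU] using h4
        subst h5
        rw [one_smul]
        exact D.hb1 _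
      · apply D.hb0
        rintro ⟨rfl, rfl⟩
        exact h rfl
    | inr c =>
      rw [if_neg (by
        intro h
        have h1 := (Sigma.mk.inj_iff.mp h).1
        cases h1)]
      rw [ordAt_eq_zero_iff _ (D.hW0 t) hx0]
      intro hm
      change g • algebraMap (𝓞 (Fc a c)) (𝓞 M) (αc c) ∈ D.W t at hm
      have h1 : algebraMap (𝓞 (Fc a c)) (𝓞 M) (αc c) ∈ g⁻¹ • D.W t := by
        rw [Ideal.mem_inv_pointwise_smul_iff]
        exact hm
      set V : Ideal (𝓞 (Fc a c)) := (g⁻¹ • D.W t).under (𝓞 (Fc a c)) with hV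
      have hVp : V.IsPrime := inferInstance
      have hVK : V.under (𝓞 K) = (D.W t).under (𝓞 K) := by
        rw [hV, Ideal.under_under, underK_smul]
      have h2 : αc c ∈ V := h1
      obtain ⟨hα0, J, hJR, hJ⟩ := hα c
      have h3 : I c * J ≤ V := by
        rw [← hJ, Ideal.span_singleton_le_iff_mem]
        exact h2
      rcases (hVp.mul_le).mp h3 with h4 | h4
      · apply hI.notMem c V hVp (Ideal.dvd_iff_le.mpr h4)
        rw [hVK]
        exact D.hWS t
      · exact (D.hRS c J hJR V hVp h4).2 t hVK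

open Classical in
theorem layer_unique (D : LayerData a q S₀) (I : Tup fun c => Fc a c) (hI : Good (K := K) D.S I)
    (αc : (c : Fin b) → 𝓞 (Fc a c)) (hα : IsGen D I αc) (Q : Ideal (𝓞 M)) [Q.IsPrime]
    (hQ : Q ≠ ⊥) (hQS : Q.under (𝓞 K) ∉ D.S) (c : Fin b) (V : Ideal (𝓞 (Fc a c)))
    (hV : V.IsPrime) (hVI : V ∣ I c) (hVQ : V.under (𝓞 K) = Q.under (𝓞 K)) :
    ∃ g : Gal(M/K), (g⁻¹ • Q).under (𝓞 (Fc a c)) = V ∧ ∀ x : XT a,
      ordAt Q (αX a D.bt αc x) =
        if x = ⟨Sum.inr c, (g : Gal(M/K) ⧸ UU a (Sum.inr c))⟩ then 1 else 0 := by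
  have hv0 : Q.under (𝓞 K) ≠ ⊥ := under_ne_bot_of Q hQ
  have hun : Unr K M (Q.under (𝓞 K)) := D.hSu _ inferInstance hv0 hQS
  obtain ⟨⟨Q', hQ'p, hQ'V⟩⟩ := Ideal.nonempty_primesOver (S := 𝓞 M) V
  have hQ'V' : Q'.under (𝓞 (Fc a c)) = V := hQ'V.over.symm
  have := hQ'p
  have hQ'K : Q.under (𝓞 K) = Q'.under (𝓞 K) := by
    rw [← Ideal.under_under (A := 𝓞 K) (B := 𝓞 (Fc a c)) Q', hQ'V', hVQ]
  obtain ⟨g, hg⟩ := Algebra.IsInvariant.exists_smul_of_under_eq (𝓞 K) (𝓞 M) Gal(M/K) Q' Q
    hQ'K.symm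
  refine ⟨g, ?_, ?_⟩
  · rw [hg, inv_smul_smul, hQ'V']
  · intro x
    have hgV : (g⁻¹ • Q).under (𝓞 (Fc a c)) = V := by rw [hg, inv_smul_smul, hQ'V']
    obtain ⟨i, x⟩ := x
    induction x using QuotientGroup.induction_on with
    | H h =>
      cases i with
      | inl t =>
        rw [if_neg (by
          intro h
          have h1 := (Sigma.mk.inj_iff.mp h).1
          cases h1)]
        exact ord_inl D αc Q hQ hQS t h
      | inr c' =>
        rw [ord_inr D I hI αc hα Q hQ hQS c' h]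
        by_cases hcc : c' = c
        · subst hcc
          refine if_congr ?_ rfl rfl
          constructor
          · intro hd
            have h1 : (h⁻¹ • Q).under (𝓞 (Fc a c')) = V := by
              apply hI.inj c' _ V inferInstance hV hd hVI
              rw [Ideal.under_under, underK_smul, hVQ]
            have h2 := coset_unique (Subgroup.centralizer {((a c' : A) : Gal(M/K))}) Q hQ hun g h
              (by
                rw [hgV, hI.deg c' V hV hVI, hVQ]) (by rw [hgV, h1])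
            congr 1
            exact (QuotientGroup.eq.mpr h2).symm
          · intro he
            have h1 := Sigma.mk.inj_iff.mp he
            have h3 := eq_of_heq h1.2
            have h4 : h⁻¹ * g ∈ Subgroup.centralizer {((a c' : A) : Gal(M/K))} :=
              QuotientGroup.eq.mp h3
            have h5 : (h⁻¹ • Q).under (𝓞 (Fc a c')) = (g⁻¹ • Q).under (𝓞 (Fc a c')) := by
              have h6 : h⁻¹ • Q = (h⁻¹ * g) • (g⁻¹ • Q) := by
                rw [smul_smul]
                congr 1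
                group
              rw [h6]
              ext y
              rw [Ideal.mem_comap, Ideal.mem_comap, Ideal.mem_pointwise_smul_iff_inv_smul_mem]
              have h7 : (h⁻¹ * g)⁻¹ • algebraMap (𝓞 (Fc a c')) (𝓞 M) y =
                  algebraMap (𝓞 (Fc a c')) (𝓞 M) y := by
                apply NumberField.RingOfIntegers.ext
                have h2 := (y : Fc a c').2
                rw [IntermediateField.mem_fixedField_iff] at h2
                exact h2 _ (inv_mem h4)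
              rw [h7]
            rw [h5, hgV]
            exact hVI
        · rw [if_neg, if_neg]
          · intro he
            have h1 := (Sigma.mk.inj_iff.mp he).1
            exact hcc (Sum.inr.inj h1)
          · intro hd
            apply hI.disj c' c _ V inferInstance hV hd hVI hcc
            rw [Ideal.under_under, underK_smul, hVQ]

end H38.ML
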