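import Pool.Agent.H38.ML.LayerOrd
import Pool.Agent.H38.ML.KumEx
import Pool.Agent.H38.ML.KumOrd

/-!
# [H38 ML LAYERRHO] Existence and surjectivity of the twisted homomorphism (60-100 lines)

Setting: `M` a finite Galois extension of `K` inside `Ω`, `A` a commutative normal subgroup of
`Gal(M/K)`, `ρb = MonoidHom.id`, `j = A.subtype`.

`layer_kumOut`: `exists_kumOut`; `αX` is nonzero (`alphaX_ne_zero`), `αX (g • x) = g • αX x`
(`sigLift_smul`; the coercion to `M` of `g • z` is `g (z : M)`), and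
`(aX (g • x) : Gal(M/K)) = g * aX x * g⁻¹` (`sigLift_smul`, definition of `conjA`).

`layer_surj`: by `kum_surj_ord` (with `Q = W t`, `x₀ = ⟨inl t, 1⟩`, `aX x₀ = t`, orders from `ord_W`)
every `t ∈ A` is a value of `O.ρ` on `M.fixingSubgroup`.  By `O.hρ`, `O.ρ σ = (element of A) * res M σ`.
`res M` is surjective.  Given `g`, choose `σ` with `res M σ = g`, `O.ρ σ = t * g`, and
`σ' ∈ M.fixingSubgroup` with `O.ρ σ' = t⁻¹`: then `O.ρ (σ' * σ) = g`.
-/

open scoped NumberField Pointwise IsMulCommutative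

noncomputable section

namespace H38.ML

variable {K Ω : Type} [Field K] [NumberField K] [Field Ω] [Algebra K Ω] [IsAlgClosure K Ω]
  {M : IntermediateField K Ω} [FiniteDimensional K M] [IsGalois K M] [NumberField M]
  {A : Subgroup Gal(M/K)} [A.Normal] [IsMulCommutative A] {b : ℕ} {a : Fin b → A}

/-- The output of the Kummer construction for a choice of generators. -/
abbrev LOut (A : Subgroup Gal(M/K)) [A.Normal] [IsMulCommutative A] {b : ℕ} (a : Fin b → A)
    (q : ℕ) (ζ : K) (bt : A → 𝓞 M) (αc : (c : Fin b) → 𝓞 (Fc a c))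
    [Fintype (XT a)] : Type :=
  KumOut M (MonoidHom.id Gal(M/K)) A.subtype q ζ (aX a) (fun x => ((αX a bt αc x : 𝓞 M) : M))

theorem layer_kumOut [Fintype (XT a)] {S₀ : Set (Ideal (𝓞 K))} (q : ℕ) (hq : 0 < q) (ζ : K)
    (hζ : IsPrimitiveRoot ζ q) (hA : ∀ t : A, t ^ q = 1) (D : LayerData a q S₀)
    (I : Tup fun c => Fc a c) (αc : (c : Fin b) → 𝓞 (Fc a c)) (hα : IsGen D I αc) :
    Nonempty (LOut A a q ζ D.bt αc) := by
  refine exists_kumOut M (MonoidHom.id Gal(M/K)) A.subtype q hq ζ hζ hA (aX a)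
    (fun x => ((αX a D.bt αc x : 𝓞 M) : M)) (fun x h => alphaX_ne_zero D I αc hα x
      (by exact_mod_cast h)) ?_ ?_
  · intro g x
    have h1 : αX a D.bt αc (g • x) = g • αX a D.bt αc x :=
      sigLift_smul (UU a) (fun g x => g • x) (fun g h x => mul_smul g h x) (gen a D.bt αc)
        (gen_fixed a D.bt αc) g x
    show (((αX a D.bt αc (g • x) : 𝓞 M)) : M) = g ((αX a D.bt αc x : 𝓞 M) : M)
    rw [h1]
    rfl
  · intro g x
    have h1 : aX a (g • x) = conjA g (aX a x) := by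
      unfold aX
      exact sigLift_smul _ _ _ _ _ _ _
    rw [h1]
    rfl

theorem layer_surj [Fintype (XT a)] {S₀ : Set (Ideal (𝓞 K))} (q : ℕ) (hq : 0 < q) (ζ : K)
    (hζ : IsPrimitiveRoot ζ q) (hA : ∀ t : A, t ^ q = 1) (D : LayerData a q S₀)
    (I : Tup fun c => Fc a c) (hI : Good (K := K) D.S I) (αc : (c : Fin b) → 𝓞 (Fc a c))
    (hα : IsGen D I αc) (O : LOut A a q ζ D.bt αc) : Function.Surjective O.ρ := by
  classical
  have hsur := kum_surj_ord M (MonoidHom.id Gal(M/K)) A.subtype q hq ζ hζ hA (aX a)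
    (αX a D.bt αc) (alphaX_ne_zero D I αc hα) O
    (by
      intro t
      refine ⟨D.W t, ⟨Sum.inl t, ((1 : Gal(M/K)) : Gal(M/K) ⧸ UU a (Sum.inl t))⟩,
        D.hWp t, D.hW0 t, ?_, ?_, ?_⟩
      · show conjA 1 t = t
        ext1
        simp [conjA]
      · rw [ord_W D I hI αc hα, if_pos rfl]
      · intro x hx
        rw [ord_W D I hI αc hα, if_neg hx])
  intro g
  obtain ⟨σ, hσ⟩ := AlgEquiv.restrictNormalHom_surjective (F := K) (K₁ := M) Ω g
  obtain ⟨σ', -, hσ'⟩ := hsur (∏ x, aX a (res M σ • x) ^ O.κ σ x)⁻¹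
  refine ⟨σ' * σ, ?_⟩
  rw [map_mul, hσ', O.hρ σ]
  show _ * (_ * res M σ) = g
  rw [show res M σ = g from hσ]
  simp

end H38.ML
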