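import Pool.Agent.H38.ML.Section
import Pool.Agent.H38.ML.KumEx
import Pool.Agent.H38.ML.KumSurj
import Pool.Agent.H38.ML.KumInert
import Pool.Agent.H38.ML.GoodUnits

/-!
# [H38 ML LOW] One step below the layer: abelian kernel of coprime order, no new ramification
(100-160 lines)

`π : H' → H` surjective with commutative kernel `A = π.ker`, `|A|` prime to `|H|`;
`ρ : Γ → H` surjective of finite type.

1. `factor ρ`: `M`, `e : Gal(M/K) →* H` injective, `e (res M σ) = ρ σ`; `e` is bijective.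
   `NumberField M` (finite over `K`).  `s : H →* H'` a section (`exists_section`),
   `ρb = s.comp e : Gal(M/K) →* H'`.
2. `A` is a finite `CommGroup` (build the instance from `hab`), `q = Nat.card π.ker`, `t ^ q = 1`.
   `X = Σ _ : A, Gal(M/K)` (finite; `Gal(M/K)` acts by left multiplication on the second component,
   `Sigma` instance), `a ⟨t, g⟩ = ρb g * t * (ρb g)⁻¹ ∈ A`, `αO ⟨t, g⟩ = g • (u t : 𝓞 M)` with the units
   `u : A → (𝓞 M)ˣ` from `good_units` for `ι = A`, `PP = q.primeFactors` (`p ∣ q = |A|` is prime to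
   `|H| = |Gal(M/K)|`; `card A * card Gal(M/K) = |H'|`).
   The hypotheses of `exists_kumOut` are immediate.  Let `O` be the output, `ρ' = O.ρ`.
3. `π (ρ' σ) = π (j ..) * π (s (e (res σ))) = ρ σ`.
4. Surjective: `kum_surj`: for `p ∣ q` prime, `χ : A →* Kˣ` with `χ t ≠ 1`, `χ ^ p = 1`,
   `χ (a x) = (ζ ^ (q/p)) ^ m x`: put `θ t g = m ⟨t, g⟩`; `p ∤ θ t 1` for the `t` with `χ t ≠ 1` (as
   `a ⟨t, 1⟩ = t` and `(ζ ^ (q/p)) ^ p = 1`); `good_units` says `∏ x, α x ^ m x ≠ y ^ p` for all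
   `y : M`.  So every `t ∈ A` is a value of `ρ'`, and with 3. `ρ'` is surjective.
5. Inertia: `τ ∈ 𝔓.inertia`, `ρ τ = 1` gives `res M τ = 1` (`e` injective); `kum_inertia` with
   `B = ⊥` (no unit is in `𝔓.under (𝓞 M)`) gives `ρ' τ ∈ (⊥ : Subgroup A).map j = ⊥`.
-/

open scoped NumberField Pointwise

namespace H38.ML

variable {K Ω : Type} [Field K] [NumberField K] [Field Ω] [Algebra K Ω] [IsAlgClosure K Ω]

theorem low_step {H' H : Type} [Group H'] [Finite H'] [Group H] (π : H' →* H)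
    (hπ : Function.Surjective π) (hab : ∀ a b : H', π a = 1 → π b = 1 → a * b = b * a)
    (hcop : Nat.Coprime (Nat.card H) (Nat.card π.ker)) (hK : NumberField.IsTotallyComplex K)
    (hs : Nat.card H' + 1 ≤ Fintype.card (NumberField.InfinitePlace K)) (ζ : K)
    (hζ : IsPrimitiveRoot ζ (Nat.card π.ker)) (ρ : Gal(Ω/K) →* H) (hρ : Function.Surjective ρ)
    (hft : FT ρ) :
    ∃ ρ' : Gal(Ω/K) →* H', Function.Surjective ρ' ∧ FT ρ' ∧ (∀ σ, π (ρ' σ) = ρ σ) ∧
      ∀ 𝔓 : Ideal (𝓞 Ω), 𝔓.IsPrime → ((Nat.card π.ker : ℕ) : 𝓞 Ω) ∉ 𝔓 →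
        ∀ τ ∈ 𝔓.inertia Gal(Ω/K), ρ τ = 1 → ρ' τ = 1 := by
  classical
  obtain ⟨M, hMf, hMg, e, he, her⟩ := factor ρ hft
  haveI := hMf
  haveI := hMg
  haveI : NumberField M := NumberField.of_module_finite K M
  haveI : Finite H := Finite.of_surjective π hπ
  have hesurj : Function.Surjective e := by
    intro h
    obtain ⟨σ, rfl⟩ := hρ h
    exact ⟨res M σ, her σ⟩
  obtain ⟨s, hsec⟩ := exists_section π hπ hcop
  letI : CommGroup π.ker :=
    { (inferInstance : Group π.ker) with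
      mul_comm := fun x y => Subtype.ext (hab x y x.2 y.2) }
  haveI : Fintype π.ker := Fintype.ofFinite _
  let ρb : Gal(M/K) →* H' := s.comp e
  let j : π.ker →* H' := π.ker.subtype
  obtain ⟨q, hqdef⟩ : ∃ q, q = Nat.card π.ker := ⟨_, rfl⟩
  rw [← hqdef] at hcop hζ ⊢
  have hq : 0 < q := by rw [hqdef]; exact Nat.card_pos
  have hA : ∀ t : π.ker, t ^ q = 1 := fun t => by
    rw [hqdef]
    exact pow_card_eq_one'
  have hcardG : Nat.card Gal(M/K) = Nat.card H := Nat.card_congr (Equiv.ofBijective e ⟨he, hesurj⟩)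
  have hcardH' : Nat.card H' = q * Nat.card H := by
    have h1 := Subgroup.card_mul_index π.ker
    rw [Subgroup.index_ker, MonoidHom.range_eq_top.2 hπ, Subgroup.card_top] at h1
    rw [hqdef]
    exact h1.symm
  obtain ⟨u, hu⟩ := good_units K M hK π.ker (by
    rw [← Nat.card_eq_fintype_card, ← hqdef, hcardG, ← hcardH']
    exact hs) q.primeFactors (fun p hp => by
      have hp1 := Nat.prime_of_mem_primeFactors hp
      have hp2 := Nat.dvd_of_mem_primeFactors hp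
      refine ⟨hp1, fun h => ?_⟩
      rw [hcardG] at h
      have := Nat.dvd_gcd h hp2
      rw [hcop] at this
      exact hp1.one_lt.ne' (Nat.dvd_one.1 this))
  let a : (Σ _ : π.ker, Gal(M/K)) → π.ker := fun x =>
    ⟨ρb x.2 * x.1 * (ρb x.2)⁻¹, (inferInstance : π.ker.Normal).conj_mem _ x.1.2 _⟩
  let αO : (Σ _ : π.ker, Gal(M/K)) → 𝓞 M := fun x => x.2 • ((u x.1 : (𝓞 M)ˣ) : 𝓞 M)
  have hunit : ∀ x, IsUnit (αO x) := fun x =>
    (u x.1).isUnit.map (MulSemiringAction.toRingHom Gal(M/K) (𝓞 M) x.2)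
  have hαO : ∀ x, αO x ≠ 0 := fun x => (hunit x).ne_zero
  obtain ⟨O⟩ := exists_kumOut M ρb j q hq ζ hζ hA a (fun x => ((αO x : 𝓞 M) : M))
    (fun x => by
      simpa using hαO x)
    (by
      rintro g ⟨t, g'⟩
      change (((g * g') • ((u t : (𝓞 M)ˣ) : 𝓞 M) : 𝓞 M) : M) = g ((g' • ((u t : (𝓞 M)ˣ) : 𝓞 M) : 𝓞 M) : M)
      rw [mul_smul]
      rfl)
    (by
      rintro g ⟨t, g'⟩
      change ρb (g * g') * t * (ρb (g * g'))⁻¹ = ρb g * (ρb g' * t * (ρb g')⁻¹) * (ρb g)⁻¹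
      rw [map_mul]
      group)
  have hπρ : ∀ σ, π (O.ρ σ) = ρ σ := by
    intro σ
    rw [O.hρ, map_mul]
    have h1 : ∀ t : π.ker, π (j t) = 1 := fun t => t.2
    rw [h1, one_mul]
    change π (s (e (res M σ))) = ρ σ
    rw [hsec, her]
  refine ⟨O.ρ, ?_, O.ft, hπρ, ?_⟩
  · have hval := kum_surj M ρb j q hq ζ hζ hA a (fun x => ((αO x : 𝓞 M) : M))
      (fun x => by
        simpa using hαO x) O (by
        rintro p hp hpq χ ⟨t₀, ht₀⟩ hχp m hm y hy
        refine hu p (Nat.mem_primeFactors.2 ⟨hp, hpq, hq.ne'⟩) (fun t g => m ⟨t, g⟩)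
          ⟨t₀, 1, fun hdvd => ht₀ ?_⟩ y ?_
        · have h1 := hm ⟨t₀, 1⟩
          have h2 : a ⟨t₀, 1⟩ = t₀ := by
            apply Subtype.ext
            change ρb 1 * t₀ * (ρb 1)⁻¹ = t₀
            rw [map_one, one_mul, inv_one, mul_one]
          rw [h2] at h1
          obtain ⟨k, hk⟩ := hdvd
          rw [hk, pow_mul, ← pow_mul ζ, Nat.div_mul_cancel hpq, hζ.pow_eq_one, one_pow] at h1
          exact Units.ext h1
        · rw [hy, Fintype.prod_sigma]
          rfl)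
    intro h'
    obtain ⟨σ₀, hσ₀⟩ := hρ (π h')
    obtain ⟨σ, -, hσ⟩ := hval ⟨h' * (O.ρ σ₀)⁻¹, by
      rw [MonoidHom.mem_ker, map_mul, map_inv, hπρ, hσ₀, mul_inv_cancel]⟩
    refine ⟨σ * σ₀, ?_⟩
    rw [map_mul, hσ]
    change h' * (O.ρ σ₀)⁻¹ * O.ρ σ₀ = h'
    rw [inv_mul_cancel_right]
  · intro 𝔓 h𝔓 hq𝔓 τ hτ hτ1
    haveI := h𝔓
    have hres : res M τ = 1 := he (by rw [her, hτ1, map_one])
    have h1 := kum_inertia M ρb j q hq ζ hζ hA a αO hαO O 𝔓 hq𝔓 ⊥ (fun x hx => by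
      exfalso
      exact (inferInstance : (𝔓.under (𝓞 M)).IsPrime).ne_top
        (Ideal.eq_top_of_isUnit_mem _ hx (hunit x))) τ hτ hres
    rw [Subgroup.map_bot, Subgroup.mem_bot] at h1
    exact h1

end H38.ML
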