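import Pool.Agent.H38.ML.Section
import Pool.Agent.H38.ML.KumEx
import Pool.Agent.H38.ML.KumSurj
import Pool.Agent.H38.ML.KumInert
import Pool.Agent.H38.ML.GoodUnits2
import Pool.Agent.H38.ML.LayerDef

/-!
# [H38 ML LOW2] One step below the layer, general form (100-150 lines, adapt the finished `Low.lean`)

As `low_step`, but the section `s` is given and only the index of a normal subgroup `Z` of `H`, whose
elements act trivially on the kernel `A` (through `s`), is prime to `|A|`.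

1. `factor ρ`: `M`, `e : Gal(M/K) →* H` bijective, `e (res M σ) = ρ σ`; `ρb = s.comp e`;
   `Z' = Z.comap e`, normal in `Gal(M/K)`, of index `Z.index`, and `ρb z` commutes with `A` for `z ∈ Z'`.
2. `X = SigX (fun _ : A => Z')` (`LayerDef.lean`), i.e. `Σ _ : A, Gal(M/K) ⧸ Z'`;
   `a = sigLift _ (conjugation by ρb) _ id _`, so `a ⟨t, g⟩ = ρb g * t * (ρb g)⁻¹`;
   `αO = sigLift _ (· • ·) _ u _`, so `αO ⟨t, g⟩ = g • u t`, with the units `u : A → (𝓞 M)ˣ` fixed by `Z'`
   from `good_units2` (`ι = A`, `PP = q.primeFactors`, `q = |A|`;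
   `card A * Z'.index + card Gal(M/K) ≤ |A| |H| + |H| ≤ 2 |H'|`).  `sigLift_smul` gives the equivariance
   needed for `exists_kumOut`.
3. The rest is as in `low_step`: in the surjectivity criterion, `∏ x, α x ^ m x` is
   `∏ t, ∏ x : Gal(M/K) ⧸ Z', (x.out (u t)) ^ m ⟨t, x⟩` (`Fintype.prod_sigma`, and
   `αO ⟨t, x⟩ = x.out • u t` because `x = mk x.out`), and `m ⟨t, 1⟩` is not divisible by `p` when
   `χ t ≠ 1`.
-/

open scoped NumberField Pointwise

namespace H38.ML

variable {K Ω : Type} [Field K] [NumberField K] [Field Ω] [Algebra K Ω] [IsAlgClosure K Ω]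

theorem low_step2 {H' H : Type} [Group H'] [Finite H'] [Group H] (π : H' →* H)
    (hπ : Function.Surjective π) (hab : ∀ a b : H', π a = 1 → π b = 1 → a * b = b * a)
    (s : H →* H') (hsec : ∀ h, π (s h) = h) (Z : Subgroup H) [Z.Normal]
    (hZ : ∀ z ∈ Z, ∀ a : H', π a = 1 → s z * a = a * s z)
    (hcop : Nat.Coprime Z.index (Nat.card π.ker)) (hK : NumberField.IsTotallyComplex K)
    (hs : 2 * Nat.card H' + 1 ≤ Fintype.card (NumberField.InfinitePlace K)) (ζ : K)
    (hζ : IsPrimitiveRoot ζ (Nat.card π.ker)) (ρ : Gal(Ω/K) →* H) (hρ : Function.Surjective ρ)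
    (hft : FT ρ) :
    ∃ ρ' : Gal(Ω/K) →* H', Function.Surjective ρ' ∧ FT ρ' ∧ (∀ σ, π (ρ' σ) = ρ σ) ∧
      ∀ 𝔓 : Ideal (𝓞 Ω), 𝔓.IsPrime → ((Nat.card π.ker : ℕ) : 𝓞 Ω) ∉ 𝔓 →
        ∀ τ ∈ 𝔓.inertia Gal(Ω/K), ρ τ = 1 → ρ' τ = 1 := by
  classical
  obtain ⟨M, hMf, hMg, e, he, her⟩ := factor ρ hft
  have := hMf
  have := hMg
  have : NumberField M := NumberField.of_module_finite K M
  have : Finite H := Finite.of_surjective π hπ
  have hesurj : Function.Surjective e := by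
    intro h
    obtain ⟨σ, rfl⟩ := hρ h
    exact ⟨res M σ, her σ⟩
  let _ : CommGroup π.ker :=
    { (inferInstance : Group π.ker) with
      mul_comm := fun x y => Subtype.ext (hab x y x.2 y.2) }
  have : Fintype π.ker := Fintype.ofFinite _
  let ρb : Gal(M/K) →* H' := s.comp e
  let j : π.ker →* H' := π.ker.subtype
  obtain ⟨q, hqdef⟩ : ∃ q, q = Nat.card π.ker := ⟨_, rfl⟩
  rw [← hqdef] at hcop hζ ⊢
  have hq : 0 < q := by rw [hqdef]; exact Nat.card_pos
  have hA : ∀ t : π.ker, t ^ q = 1 := fun t => by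
    rw [hqdef]
    exact pow_card_eq_one'
  have hcardG : Nat.card Gal(M/K) = Nat.card H := Nat.card_congr (Equiv.ofBijective e ⟨he, hesurj⟩)
  have hcardH' : Nat.card H' = q * Nat.card H := by
    have h1 := Subgroup.card_mul_index π.ker
    rw [Subgroup.index_ker, MonoidHom.range_eq_top.2 hπ, Subgroup.card_top] at h1
    rw [hqdef]
    exact h1.symm
  -- the subgroup `Z'`
  let Z' : Subgroup Gal(M/K) := Z.comap e
  have hZ'n : Z'.Normal := inferInstanceAs (Z.comap e).Normal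
  have hZ'i : Z'.index = Z.index := Subgroup.index_comap_of_surjective Z hesurj
  have : Fintype (Gal(M/K) ⧸ Z') := Fintype.ofFinite _
  obtain ⟨u, huZ, hu⟩ := good_units2 K M hK Z' π.ker (by
    rw [← Nat.card_eq_fintype_card, ← hqdef, hcardG, hZ'i]
    refine le_trans ?_ hs
    have h1 : Z.index ≤ Nat.card H := Nat.le_of_dvd Nat.card_pos (Subgroup.index_dvd_card Z)
    have h2 : q * Z.index ≤ q * Nat.card H := Nat.mul_le_mul_left q h1
    have h3 : Nat.card H ≤ q * Nat.card H := Nat.le_mul_of_pos_left _ hq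
    rw [hcardH']
    omega) q.primeFactors (fun p hp => by
      have hp1 := Nat.prime_of_mem_primeFactors hp
      have hp2 := Nat.dvd_of_mem_primeFactors hp
      refine ⟨hp1, fun h => ?_⟩
      rw [hZ'i] at h
      have := Nat.dvd_gcd h hp2
      rw [hcop] at this
      exact hp1.one_lt.ne' (Nat.dvd_one.1 this))
  -- the index set and the two maps
  let U : π.ker → Subgroup Gal(M/K) := fun _ => Z'
  let conj : Gal(M/K) → π.ker → π.ker := fun g t =>
    ⟨ρb g * t * (ρb g)⁻¹, (inferInstance : π.ker.Normal).conj_mem _ t.2 _⟩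
  have hconj : ∀ g h t, conj (g * h) t = conj g (conj h t) := by
    intro g h t
    apply Subtype.ext
    change ρb (g * h) * t * (ρb (g * h))⁻¹ = ρb g * (ρb h * t * (ρb h)⁻¹) * (ρb g)⁻¹
    rw [map_mul]
    group
  have hconjZ : ∀ t : π.ker, ∀ z ∈ U t, conj z t = t := by
    intro t z hz
    apply Subtype.ext
    change s (e z) * (t : H') * (s (e z))⁻¹ = t
    rw [hZ (e z) hz t t.2]
    group
  let a : SigX U → π.ker := sigLift U conj hconj id hconjZ
  have hactZ : ∀ t : π.ker, ∀ z ∈ U t, z • ((u t : (𝓞 M)ˣ) : 𝓞 M) = ((u t : (𝓞 M)ˣ) : 𝓞 M) := by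
    intro t z hz
    apply NumberField.RingOfIntegers.ext
    exact huZ t z hz
  let αO : SigX U → 𝓞 M :=
    sigLift U (fun g x => g • x) (fun g h x => mul_smul g h x)
      (fun t => ((u t : (𝓞 M)ˣ) : 𝓞 M)) hactZ
  have hunit : ∀ x, IsUnit (αO x) := by
    rintro ⟨t, x⟩
    induction x using QuotientGroup.induction_on with
    | H g => exact (u t).isUnit.map (MulSemiringAction.toRingHom Gal(M/K) (𝓞 M) g)
  have hαO : ∀ x, αO x ≠ 0 := fun x => (hunit x).ne_zero
  obtain ⟨O⟩ := exists_kumOut M ρb j q hq ζ hζ hA a (fun x => ((αO x : 𝓞 M) : M))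
    (fun x => by
      simpa using hαO x)
    (by
      intro g x
      have h1 : αO (g • x) = g • αO x := sigLift_smul U _ _ _ _ g x
      rw [h1]
      rfl)
    (by
      intro g x
      have h1 : a (g • x) = conj g (a x) := sigLift_smul U _ _ _ _ g x
      rw [h1]
      rfl)
  have hπρ : ∀ σ, π (O.ρ σ) = ρ σ := by
    intro σ
    rw [O.hρ, map_mul]
    have h1 : ∀ t : π.ker, π (j t) = 1 := fun t => t.2
    rw [h1, one_mul]
    change π (s (e (res M σ))) = ρ σ
    rw [hsec, her]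
  refine ⟨O.ρ, ?_, O.ft, hπρ, ?_⟩
  · have hval := kum_surj M ρb j q hq ζ hζ hA a (fun x => ((αO x : 𝓞 M) : M))
      (fun x => by
        simpa using hαO x) O (by
        rintro p hp hpq χ ⟨t₀, ht₀⟩ hχp m hm y hy
        refine hu p (Nat.mem_primeFactors.2 ⟨hp, hpq, hq.ne'⟩) (fun t g => m ⟨t, g⟩)
          ⟨t₀, ((1 : Gal(M/K)) : Gal(M/K) ⧸ Z'), fun hdvd => ht₀ ?_⟩ y ?_
        · have h1 := hm ⟨t₀, ((1 : Gal(M/K)) : Gal(M/K) ⧸ Z')⟩
          have h2 : a ⟨t₀, ((1 : Gal(M/K)) : Gal(M/K) ⧸ Z')⟩ = t₀ := by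
            apply Subtype.ext
            change ρb 1 * t₀ * (ρb 1)⁻¹ = t₀
            rw [map_one, one_mul, inv_one, mul_one]
          rw [h2] at h1
          obtain ⟨k, hk⟩ := hdvd
          rw [hk, pow_mul, ← pow_mul ζ, Nat.div_mul_cancel hpq, hζ.pow_eq_one, one_pow] at h1
          exact Units.ext h1
        · rw [hy]
          have h3 : ∀ (t : π.ker) (x : Gal(M/K) ⧸ Z'),
              ((αO ⟨t, x⟩ : 𝓞 M) : M) = x.out (((u t : (𝓞 M)ˣ) : 𝓞 M) : M) := by
            intro t x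
            have h4 : (⟨t, x⟩ : SigX U) = ⟨t, ((x.out : Gal(M/K)) : Gal(M/K) ⧸ Z')⟩ := by
              rw [QuotientGroup.out_eq']
            rw [h4]
            rfl
          have h5 : ∀ f : SigX U → M, ∏ x, f x = ∏ t : π.ker, ∏ x : Gal(M/K) ⧸ Z', f ⟨t, x⟩ := by
            intro f
            rw [← Fintype.prod_sigma']
          rw [h5]
          exact Finset.prod_congr rfl (fun t _ => Finset.prod_congr rfl (fun x _ => by rw [h3])))
    intro h'
    obtain ⟨σ₀, hσ₀⟩ := hρ (π h')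
    obtain ⟨σ, -, hσ⟩ := hval ⟨h' * (O.ρ σ₀)⁻¹, by
      rw [MonoidHom.mem_ker, map_mul, map_inv, hπρ, hσ₀, mul_inv_cancel]⟩
    refine ⟨σ * σ₀, ?_⟩
    rw [map_mul, hσ]
    change h' * (O.ρ σ₀)⁻¹ * O.ρ σ₀ = h'
    rw [inv_mul_cancel_right]
  · intro 𝔓 h𝔓 hq𝔓 τ hτ hτ1
    have := h𝔓
    have hres : res M τ = 1 := he (by rw [her, hτ1, map_one])
    have h1 := kum_inertia M ρb j q hq ζ hζ hA a αO hαO O 𝔓 hq𝔓 ⊥ (fun x hx => by
      exfalso
      exact (inferInstance : (𝔓.under (𝓞 M)).IsPrime).ne_top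
        (Ideal.eq_top_of_isUnit_mem _ hx (hunit x))) τ hτ hres
    rw [Subgroup.map_bot, Subgroup.mem_bot] at h1
    exact h1

end H38.ML
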