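import Pool.Agent.H38.ML.Basic

/-!
# [H38 ML SECTION] Schur-Zassenhaus as a section (20-40 lines)

Mathlib: `Subgroup.exists_right_complement'_of_coprime` (N normal, `|N|` prime to the index):
there is a complement `C` of `π.ker`.  The index of `π.ker` is `|H|` by surjectivity.  The
restriction of `π` to `C` is bijective onto `H`; `s` is its inverse followed by the inclusion.
-/

namespace H38.ML

theorem exists_section {H' H : Type} [Group H'] [Finite H'] [Group H] (π : H' →* H)
    (hπ : Function.Surjective π) (hcop : Nat.Coprime (Nat.card H) (Nat.card π.ker)) :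
    ∃ s : H →* H', ∀ h, π (s h) = h := by
  have hidx : π.ker.index = Nat.card H := by
    rw [Subgroup.index_ker, MonoidHom.range_eq_top.2 hπ]
    exact Nat.card_congr Subgroup.topEquiv.toEquiv
  obtain ⟨C, hC⟩ := Subgroup.exists_right_complement'_of_coprime (N := π.ker)
    (by rw [hidx]; exact hcop.symm)
  have hinj : Function.Injective (π.comp C.subtype) := by
    rw [injective_iff_map_eq_one]
    intro x hx
    have h1 : (x : H') ∈ π.ker := hx
    have h2 : (x : H') ∈ (⊥ : Subgroup H') := by
      rw [← hC.disjoint.eq_bot]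
      exact ⟨h1, x.2⟩
    exact Subtype.ext (Subgroup.mem_bot.1 h2)
  have hsurj : Function.Surjective (π.comp C.subtype) := by
    intro h
    obtain ⟨h', rfl⟩ := hπ h
    obtain ⟨⟨k, c⟩, hkc, -⟩ := hC.existsUnique h'
    refine ⟨c, ?_⟩
    have h4 : π (k : H') = 1 := k.2
    have h5 : (k : H') * (c : H') = h' := hkc
    rw [← h5, map_mul, h4, one_mul]
    rfl
  let e := MulEquiv.ofBijective (π.comp C.subtype) ⟨hinj, hsurj⟩
  refine ⟨C.subtype.comp e.symm.toMonoidHom, fun h => ?_⟩
  exact e.apply_symm_apply h

end H38.ML
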