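import Pool.Agent.H38.ML.Defs

namespace H38.ML

/-- The lower bound of the conjectured order over all large base fields. -/
def LowerBound : Prop :=
  ∀ (n : ℕ) (_ : 2 ≤ n) (G : Subgroup (Equiv.Perm (Fin n))) (_ : MulAction.IsPretransitive G (Fin n))
    (T N : Subgroup G) (_ : T.Normal) (_ : N.Normal) (_ : N ≤ T) (_ : ⁅T, T⁆ ≤ N)
    (_ : CoprimeTower N) (_ : Realizable (G ⧸ N)) (_ : Nonempty (LeastIn G T N)),
    ∃ K₀ : IntermediateField ℚ QBar, FiniteDimensional ℚ K₀ ∧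
      ∀ K : IntermediateField ℚ QBar, K₀ ≤ K → FiniteDimensional ℚ K →
        ∃ c : ℝ, 0 < c ∧ ∃ B₀ : ℝ, ∀ B : ℝ, B₀ ≤ B →
          ((⌈c * B ^ (1 / (indG G : ℝ)) * Real.log B ^ (beta G K T N - 1)⌉₊ : ℕ) : ℕ∞) ≤ nK G K B

end H38.ML
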