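import Pool.Agent.H38.ML.Conv
import Pool.Agent.H38.ML.IdealCount

/-!
# [H38 ML TALL] Counting all tuples (50-90 lines)

Induction on `b ≥ 1`.  `b = 1`: `Tup F ≃ Ideal (𝓞 (F 0))` (`Equiv.piUnique`/`Equiv.funUnique`-like),
`cb_ideals`.  Step `b → b + 1` (`b ≥ 1`): `Tup F ≃ Tup (fun c : Fin b => F c.castSucc) × Ideal (𝓞 (F (last b)))`
(`Fin.snocEquiv`, or `Fin.consEquiv` with `succ`), `nrm` is the product of the norms
(`Fin.prod_univ_castSucc`/`Fin.prod_univ_succ`), and `cb_prod`.  A helper lemma: `CB` is invariant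
under an equivalence of types compatible with `P`, `N`.
-/

open scoped NumberField

namespace H38.ML

theorem tall_equiv {T T' : Type} (e : T ≃ T') {P : T → Prop} {N : T → ℕ} {P' : T' → Prop}
    {N' : T' → ℕ} {k : ℕ} (hP : ∀ t, P t ↔ P' (e t)) (hN : ∀ t, N t = N' (e t))
    (h : CB P' N' k) : CB P N k := by
  have hc : ∀ X : ℝ, cnt P N X = cnt P' N' X := by
    intro X
    unfold cnt
    refine Nat.card_congr (Equiv.subtypeEquiv e fun t => ?_)
    rw [hP, hN]
  refine ⟨fun t ht => ?_, fun X => ?_, ?_, ?_⟩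
  · rw [hN]; exact h.pos _ ((hP t).mp ht)
  · refine ((h.fin X).preimage e.injective.injOn).subset ?_
    rintro t ⟨h1, h2⟩
    refine ⟨(hP t).mp h1, ?_⟩
    rw [← hN]; exact h2
  · obtain ⟨C, hC, hu⟩ := h.upper
    exact ⟨C, hC, fun X hX => by rw [hc]; exact hu X hX⟩
  · obtain ⟨c, hc0, X₀, hl⟩ := h.lower
    exact ⟨c, hc0, X₀, fun X hX => by rw [hc]; exact hl X hX⟩

theorem tall_succ (b : ℕ) (F : Fin (b + 1) → Type) [∀ c, Field (F c)]
    [∀ c, NumberField (F c)] :
    CB (fun I : Tup F => ∀ c, I c ≠ ⊥) (fun I => nrm I) b := by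
  induction b with
  | zero =>
    refine tall_equiv (Equiv.piUnique (fun c : Fin 1 => Ideal (𝓞 (F c)))) ?_ ?_ (cb_ideals (F 0))
    · intro I
      constructor
      · intro h; exact h 0
      · intro h c
        obtain rfl : c = 0 := Fin.ext (Nat.lt_one_iff.mp c.isLt)
        exact h
    · intro I
      show nrm I = Ideal.absNorm (I 0)
      unfold nrm
      rw [Fin.prod_univ_one]
  | succ b ih =>
    have h1 := ih (fun c : Fin (b + 1) => F c.castSucc)
    have h2 := cb_ideals (F (Fin.last (b + 1)))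
    refine tall_equiv ((Fin.snocEquiv (fun c : Fin (b + 2) => Ideal (𝓞 (F c)))).symm.trans
      (Equiv.prodComm _ _)) ?_ ?_ (cb_prod h1 h2)
    · intro I
      constructor
      · intro h
        exact ⟨fun c => h c.castSucc, h (Fin.last (b + 1))⟩
      · rintro ⟨h3, h4⟩ c
        refine Fin.lastCases ?_ ?_ c
        · exact h4
        · intro i; exact h3 i
    · intro I
      show nrm I = (∏ c : Fin (b + 1), Ideal.absNorm (I c.castSucc)) *
        Ideal.absNorm (I (Fin.last (b + 1)))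
      unfold nrm
      rw [Fin.prod_univ_castSucc]

theorem cb_tup (b : ℕ) (hb : 0 < b) (F : Fin b → Type) [∀ c, Field (F c)]
    [∀ c, NumberField (F c)] :
    CB (fun I : Tup F => ∀ c, I c ≠ ⊥) (fun I => nrm I) (b - 1) := by
  obtain ⟨n, rfl⟩ : ∃ n, b = n + 1 := ⟨b - 1, by omega⟩
  exact tall_succ n F

end H38.ML
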