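import Pool.Agent.H38.ML.KumEx
import Pool.Agent.H38.ML.KumOrd
import Pool.Agent.H38.ML.Bt

/-!
# [H38 ML UP] Solving split embedding problems with abelian kernel (70-120 lines)

`H' = A H₁`, `A` abelian normal.  `ρ₀ = H₁.subtype.comp ρ : Γ → H'`, of finite type.  `factor ρ₀`: `M`,
`e : Gal(M/K) →* H'` injective with `e (res M σ) = ρ₀ σ`.  `q = Nat.card A`, `A` as a finite
`CommGroup` (`IsMulCommutative`), `j = A.subtype`.
`exists_bt` for `T = A` (and `S = ∅`) gives `bt, W`.  `X = Σ _ : A, Gal(M/K)` with the action by left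
multiplication on the second component, `a ⟨t, g⟩ = e g * t * (e g)⁻¹ ∈ A`,
`αO ⟨t, g⟩ = g • bt t`.  `exists_kumOut` gives `O`; `kum_surj_ord` (`Q = W t`, `x₀ = ⟨t, 1⟩`) shows that
every `t ∈ A` is a value of `ρ' = O.ρ`.  By `O.hρ`, `ρ' σ = (element of A) * ρ₀ σ`, so the range of
`ρ'` contains `A` and, modulo `A`, `H₁` (`ρ` is surjective), so it is `A ⊔ H₁ = ⊤`.
-/

open scoped NumberField Pointwise

namespace H38.ML

variable {K Ω : Type} [Field K] [NumberField K] [Field Ω] [Algebra K Ω] [IsAlgClosure K Ω]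

theorem up_step {H' : Type} [Group H'] [Finite H'] (A H₁ : Subgroup H') (hn : A.Normal)
    (hA : ∀ s ∈ A, ∀ t ∈ A, s * t = t * s) (hsup : A ⊔ H₁ = ⊤) (ζ : K)
    (hζ : IsPrimitiveRoot ζ (Nat.card A)) (ρ : Gal(Ω/K) →* H₁) (hρ : Function.Surjective ρ)
    (hft : FT ρ) : ∃ ρ' : Gal(Ω/K) →* H', Function.Surjective ρ' ∧ FT ρ' := by
  classical
  obtain ⟨M, hfd, hgal, e, he, hres⟩ := factor (H₁.subtype.comp ρ) (ft_comp H₁.subtype ρ hft)
  haveI : NumberField M := NumberField.of_module_finite K M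
  letI cg : CommGroup A :=
    { (inferInstance : Group A) with
      mul_comm := fun s t => Subtype.ext (hA s.1 s.2 t.1 t.2) }
  obtain ⟨bt, W, hbt, hW, hW1, hW0⟩ := exists_bt K M A ∅ Set.finite_empty
  letI : Fintype (Σ _ : A, Gal(M/K)) := Fintype.ofFinite _
  let a : (Σ _ : A, Gal(M/K)) → A := fun x =>
    ⟨e x.2 * x.1 * (e x.2)⁻¹, hn.conj_mem _ x.1.2 _⟩
  let αO : (Σ _ : A, Gal(M/K)) → 𝓞 M := fun x => x.2 • bt x.1
  have hα : ∀ x, αO x ≠ 0 := by
    intro x h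
    apply hbt x.1
    have := congrArg (fun z => x.2⁻¹ • z) h
    simpa [αO] using this
  have hqpos : 0 < Nat.card A := Nat.card_pos
  have hApow : ∀ t : A, t ^ Nat.card A = 1 := fun t => pow_card_eq_one'
  obtain ⟨O⟩ := exists_kumOut M e A.subtype (Nat.card A) hqpos ζ hζ hApow a
    (fun x => ((αO x : 𝓞 M) : M)) (fun x h => hα x (by exact_mod_cast h))
    (by
      rintro g ⟨t, h⟩
      show (((g * h) • bt t : 𝓞 M) : M) = g ((h • bt t : 𝓞 M) : M)
      rw [mul_smul]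
      rfl)
    (by
      rintro g ⟨t, h⟩
      show e (g * h) * (t : H') * (e (g * h))⁻¹ = e g * (e h * t * (e h)⁻¹) * (e g)⁻¹
      rw [map_mul]
      group)
  have hsur := kum_surj_ord M e A.subtype (Nat.card A) hqpos ζ hζ hApow a αO hα O
    (by
      intro t
      refine ⟨W t, ⟨t, 1⟩, (hW t).1, (hW t).2.1, ?_, ?_, ?_⟩
      · apply Subtype.ext
        simp [a]
      · simpa [αO] using hW1 t
      · rintro ⟨t', σ⟩ hne
        apply hW0 t t' σ
        rintro ⟨rfl, rfl⟩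
        exact hne rfl)
  refine ⟨O.ρ, ?_, O.ft⟩
  intro h
  have hh : h ∈ A ⊔ H₁ := by rw [hsup]; trivial
  obtain ⟨s, hs, h₁, hh₁, rfl⟩ := Subgroup.mem_sup_of_normal_left.1 hh
  obtain ⟨τ, hτ⟩ := hρ ⟨h₁, hh₁⟩
  have h1 : O.ρ τ = A.subtype (∏ x, a (res M τ • x) ^ O.κ τ x) * h₁ := by
    rw [O.hρ τ, hres τ]
    simp [hτ]
  obtain ⟨σ, -, hσ⟩ := hsur ((⟨s, hs⟩ : A) * (∏ x, a (res M τ • x) ^ O.κ τ x)⁻¹)
  refine ⟨σ * τ, ?_⟩
  rw [map_mul, hσ, h1]
  simp
end H38.ML
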