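import Pool.Agent.H38.ML.Basic

/-!
# [H38 ML VN] Quasi-inverses in group rings and counting images (two theorems, 50-90 lines)

`exists_quasi_inverse`: by Maschke `R = MonoidAlgebra k G` is a semisimple ring
(`MonoidAlgebra.Submodule.complementedLattice`, `NeZero`/`Invertible (card)`).  Let `I = R x` be the
left ideal generated by `x` (`Submodule.span R {x}`); it has a complement, so there is an `R`-linear
projection `π : R → R` with image `I` and `π` the identity on `I`
(`Submodule.exists_isCompl`, `Submodule.linearProjOfIsCompl`).  `e = π 1 ∈ I`, `e = y x`, and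
`x = π x = π (x * 1) = x * π 1 = x * y * x`.

`card_range_mul`: the range `S` of `v ↦ x v` on `V` is a subgroup; the map
`S → range on V ⧸ N`, `x v ↦ x [v] = [x v]` is a surjective homomorphism with kernel `S ∩ N`, and
`S ∩ N` is the range on `N`: if `x v ∈ N` then `x v = x (y (x v))` (from `x y x = x`), `y (x v) ∈ N`.
Use `AddSubgroup.card_eq_card_quotient_mul_card_addSubgroup` / first isomorphism theorem
(`Nat.card` of range times `Nat.card` of kernel).
-/

namespace H38.ML

theorem exists_quasi_inverse {k G : Type} [Field k] [Group G] [Finite G]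
    (h : (Nat.card G : k) ≠ 0) (x : MonoidAlgebra k G) : ∃ y, x * y * x = x := by
  have : NeZero (Nat.card G : k) := ⟨h⟩
  set p : Submodule (MonoidAlgebra k G) (MonoidAlgebra k G) :=
    Submodule.span (MonoidAlgebra k G) {x} with hp
  obtain ⟨g, hg⟩ := MonoidAlgebra.exists_leftInverse_of_injective p.subtype p.ker_subtype
  have hx : x ∈ p := Submodule.mem_span_singleton_self x
  have h1 : g x = ⟨x, hx⟩ := LinearMap.congr_fun hg ⟨x, hx⟩
  have h2 : g x = x • g 1 := by
    rw [← map_smul, smul_eq_mul, mul_one]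
  have h3 : ((g 1 : p) : MonoidAlgebra k G) ∈ p := (g 1).2
  obtain ⟨y, hy⟩ := Submodule.mem_span_singleton.1 h3
  refine ⟨y, ?_⟩
  have h4 : x = x * ((g 1 : p) : MonoidAlgebra k G) := by
    have h5 := congrArg (Subtype.val) (h1.symm.trans h2)
    exact h5
  rw [mul_assoc, ← smul_eq_mul y x, hy]
  exact h4.symm

theorem card_range_mul {R V : Type} [Ring R] [AddCommGroup V] [Module R V] [Finite V] (x y : R)
    (h : x * y * x = x) (N : Submodule R V) :
    Nat.card (Set.range fun v : V => x • v) =
      Nat.card (Set.range fun v : N => x • v) * Nat.card (Set.range fun v : V ⧸ N => x • v) := by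
  let f : V →+ V := DistribSMul.toAddMonoidHom V x
  let g : f.range →+ V ⧸ N := (N.mkQ.toAddMonoidHom).comp f.range.subtype
  have e1 : Nat.card (Set.range fun v : V => x • v) = Nat.card f.range := rfl
  have e2 : Nat.card f.range = Nat.card g.ker * Nat.card g.range := by
    rw [← AddSubgroup.index_ker g, AddSubgroup.card_mul_index]
  have e3 : Nat.card g.range = Nat.card (Set.range fun v : V ⧸ N => x • v) := by
    have hs : (g.range : Set (V ⧸ N)) = Set.range fun v : V ⧸ N => x • v := by
      ext q
      constructor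
      · rintro ⟨⟨_, v, rfl⟩, rfl⟩
        exact ⟨N.mkQ v, (map_smul N.mkQ x v).symm⟩
      · rintro ⟨q', rfl⟩
        obtain ⟨v, rfl⟩ := N.mkQ_surjective q'
        exact ⟨⟨x • v, v, rfl⟩, map_smul N.mkQ x v⟩
    rw [← hs]
    rfl
  have e4 : Nat.card g.ker = Nat.card (Set.range fun v : N => x • v) := by
    refine Nat.card_congr ?_
    refine Equiv.ofBijective (fun s => ⟨⟨s.1.1, ?_⟩, ?_⟩) ⟨?_, ?_⟩
    · have h1 : N.mkQ s.1.1 = 0 := s.2
      rw [Submodule.mkQ_apply, Submodule.Quotient.mk_eq_zero] at h1
      exact h1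
    · have h1 : N.mkQ s.1.1 = 0 := s.2
      rw [Submodule.mkQ_apply, Submodule.Quotient.mk_eq_zero] at h1
      obtain ⟨v, hv⟩ := s.1.2
      have hv' : x • v = s.1.1 := hv
      refine ⟨⟨y • s.1.1, N.smul_mem _ h1⟩, ?_⟩
      apply Subtype.ext
      change x • y • s.1.1 = s.1.1
      rw [← hv', smul_smul, smul_smul, h]
    · intro s s' hs
      have h2 := congrArg (fun t => (t.1 : N).1) hs
      exact Subtype.ext (Subtype.ext h2)
    · rintro ⟨⟨w, hw⟩, ⟨v, hv⟩⟩
      have hv' : x • (v : V) = w := congrArg Subtype.val hv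
      refine ⟨⟨⟨w, (v : V), hv'⟩, ?_⟩, rfl⟩
      change N.mkQ w = 0
      rw [Submodule.mkQ_apply, Submodule.Quotient.mk_eq_zero]
      exact hw
  rw [e1, e2, e3, e4]

end H38.ML
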